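import Pool.Agent.H.MP_59b15d_al.h11c.Hone
import Pool.Agent.H.MP_59b15d_al.h60g.Defs
import Pool.Agent.H.MP_59b15d_al.h73e.Defs
import Pool.Agent.H.MP_59b15d_al.h93c.Heis

/-!
# The action of the pushes on the first homology
-/

set_option autoImplicit false

namespace Pool.Agent.H.MP_59b15d_al.PK

open SP H93C
open Pool.MP_59b15d_al.H24T Pool.MP_59b15d_al.H76R Pool.MP_59b15d_al.H60G Pool.MP_59b15d_al.H73E
open FreeGroup (of)

variable {n : ℕ} {G : Type*} [Group G] {a b : Fin (n + 1) → G}

/-- Adding a handle. -/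
def emb (v : V n) : V (n + 1) := Fin.snoc (α := fun _ => ℤ × ℤ) v 0

lemma emb_castSucc (v : V n) (i : Fin n) : emb v i.castSucc = v i := by simp [emb]

lemma emb_last (v : V n) : emb v (Fin.last n) = 0 := by simp [emb]

lemma emb_add (v w : V n) : emb (v + w) = emb v + emb w := by
  funext i
  refine Fin.lastCases ?_ (fun i => ?_) i
  · rw [Pi.add_apply, emb_last, emb_last, emb_last, add_zero]
  · rw [Pi.add_apply, emb_castSucc, emb_castSucc, emb_castSucc, Pi.add_apply]

lemma emb_zero : emb (0 : V n) = 0 := by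
  funext i
  refine Fin.lastCases ?_ (fun i => ?_) i
  · rw [emb_last]; rfl
  · rw [emb_castSucc]; rfl

lemma emb_neg (v : V n) : emb (-v) = -emb v := by
  have h := emb_add v (-v)
  rw [add_neg_cancel, emb_zero] at h
  exact (neg_eq_of_add_eq_zero_right h.symm).symm

lemma emb_e (i : Fin n) : emb (e i) = e i.castSucc := by
  funext k
  refine Fin.lastCases ?_ (fun k => ?_) k
  · rw [emb_last, e_ne (Fin.castSucc_lt_last i).ne']
  · rw [emb_castSucc]
    by_cases hk : k = i
    · rw [hk, e_self, e_self]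
    · rw [e_ne hk, e_ne (fun h => hk (Fin.castSucc_injective n h))]

lemma emb_f (i : Fin n) : emb (f i) = f i.castSucc := by
  funext k
  refine Fin.lastCases ?_ (fun k => ?_) k
  · rw [emb_last, f_ne (Fin.castSucc_lt_last i).ne']
  · rw [emb_castSucc]
    by_cases hk : k = i
    · rw [hk, f_self, f_self]
    · rw [f_ne hk, f_ne (fun h => hk (Fin.castSucc_injective n h))]

lemma cls_jR (h : IsSurf a b) (z : Fr n) : cls h (jR a b z) = emb (clr z) := by
  induction z using fr_induction with
  | h1 => rw [map_one, cls_one, clr_one, emb_zero]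
  | ha k => rw [jR_a, cls_a, clr_a, emb_e]
  | hb k => rw [jR_b, cls_b, clr_b, emb_f]
  | hm x y hx hy => rw [map_mul, cls_mul, hx, hy, clr_mul, emb_add]
  | hi x hx => rw [map_inv, cls_inv, hx, clr_inv, emb_neg]

lemma clr_surj (v : V n) : ∃ z : Fr n, clr z = v := by
  let A : AddSubgroup (V n) :=
    { carrier := {v | ∃ z : Fr n, clr z = v}
      add_mem' := by
        rintro _ _ ⟨x, rfl⟩ ⟨y, rfl⟩
        exact ⟨x * y, clr_mul x y⟩
      zero_mem' := ⟨1, clr_one⟩
      neg_mem' := by
        rintro _ ⟨x, rfl⟩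
        exact ⟨x⁻¹, clr_inv x⟩ }
  have h1 : v ∈ A := by
    rw [expand v]
    refine A.sum_mem fun i _ => A.add_mem (A.zsmul_mem ⟨of (Sum.inl i), clr_a i⟩ _)
      (A.zsmul_mem ⟨of (Sum.inr i), clr_b i⟩ _)
  exact h1

/-- The form of the action of a push. -/
structure XF (A : V (n + 1) ≃ₗ[ℤ] V (n + 1)) (y : V n) : Prop where
  el : A (e (Fin.last n)) = e (Fin.last n)
  em : ∀ z : V n, A (emb z) = emb z - om z y • e (Fin.last n)
  fl : ∃ w : ℤ, A (f (Fin.last n)) = f (Fin.last n) + emb y + w • e (Fin.last n)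

lemma XF.one : XF (1 : V (n + 1) ≃ₗ[ℤ] V (n + 1)) 0 := by
  refine ⟨rfl, fun z => ?_, 0, ?_⟩
  · rw [om_zero_right, zero_smul, sub_zero]; rfl
  · rw [emb_zero, zero_smul, add_zero, add_zero]; rfl

lemma XF.mul {A B : V (n + 1) ≃ₗ[ℤ] V (n + 1)} {y z : V n} (hA : XF A y) (hB : XF B z) :
    XF (A * B) (y + z) := by
  obtain ⟨w, hw⟩ := hA.fl
  obtain ⟨w', hw'⟩ := hB.fl
  refine ⟨?_, fun x => ?_, w + w' - om z y, ?_⟩
  · change A (B _) = _
    rw [hB.el, hA.el]
  · change A (B _) = _
    rw [hB.em, map_sub, map_smul, hA.em, hA.el, om_add_right]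
    module
  · change A (B _) = _
    rw [hw', map_add, map_add, map_smul, hw, hA.em, hA.el, emb_add]
    module

lemma XF.inv {A : V (n + 1) ≃ₗ[ℤ] V (n + 1)} {y : V n} (hA : XF A y) : XF A⁻¹ (-y) := by
  obtain ⟨w, hw⟩ := hA.fl
  have hi : ∀ u v, A u = v → A⁻¹ v = u := by
    rintro u v rfl
    exact A.symm_apply_apply u
  refine ⟨hi _ _ hA.el, fun x => hi _ _ ?_, -w, hi _ _ ?_⟩
  · rw [map_sub, map_smul, hA.em, hA.el, om_neg_right]
    module
  · rw [map_add, map_add, map_smul, hw, hA.em, hA.el, emb_neg, om_neg_left, om_self]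
    module

/-- A linear map is determined by its values on `emb z`, `e last`, `f last`. -/
lemma XF_ext {A B : V (n + 1) ≃ₗ[ℤ] V (n + 1)} (h1 : ∀ z : V n, A (emb z) = B (emb z))
    (h2 : A (e (Fin.last n)) = B (e (Fin.last n))) (h3 : A (f (Fin.last n)) = B (f (Fin.last n))) :
    A = B := by
  apply lin_ext
  · intro i
    refine Fin.lastCases h2 (fun i => ?_) i
    rw [← emb_e]
    exact h1 _
  · intro i
    refine Fin.lastCases h3 (fun i => ?_) i
    rw [← emb_f]
    exact h1 _

/-- The form on generators. -/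
lemma XF_of_gens (h : IsSurf a b) (φ : MulAut G) (y : V n)
    (h1 : cls h (φ (a (Fin.last n))) = e (Fin.last n))
    (h2 : ∀ k : Fin n, cls h (φ (a k.castSucc)) = e k.castSucc - om (e k) y • e (Fin.last n))
    (h3 : ∀ k : Fin n, cls h (φ (b k.castSucc)) = f k.castSucc - om (f k) y • e (Fin.last n))
    (w : ℤ) (h4 : cls h (φ (b (Fin.last n))) = f (Fin.last n) + emb y + w • e (Fin.last n)) :
    XF (H1 h φ) y := by
  refine ⟨by rw [H1_e, h1], fun z => ?_, w, by rw [H1_f, h4]⟩
  obtain ⟨x, rfl⟩ := clr_surj z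
  induction x using fr_induction with
  | h1 => rw [clr_one, emb_zero, map_zero, om_zero_left, zero_smul, sub_zero]
  | ha k => rw [clr_a, emb_e, H1_e, h2]
  | hb k => rw [clr_b, emb_f, H1_f, h3]
  | hm x x' hx hx' =>
    rw [clr_mul, emb_add, map_add, hx, hx', om_add_left]
    module
  | hi x hx =>
    rw [clr_inv, emb_neg, map_neg, hx, om_neg_left]
    module

lemma e_emb_ne {k j : Fin n} (hk : k ≠ j) : k.castSucc ≠ j.castSucc :=
  fun h => hk (Fin.castSucc_injective n h)

lemma XF_Xb (h : IsSurf a b) (j : Fin n) : XF (H1 h (Xb h j)) (f j) := by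
  refine XF_of_gens h _ _ ?_ (fun k => ?_) (fun k => ?_) (-1) ?_
  · rw [Xb_al]
    simp only [cls_mul, cls_inv, cls_a, cls_b]
    abel
  · rcases seg_cases j k.castSucc with hk | hk | ⟨hk, hk2⟩ | hk
    · have hkj : k ≠ j := fun h0 => by rw [h0] at hk; exact lt_irrefl _ hk
      rw [Xb_a_lt h j hk, cls_a, om_e_f_ne hkj]
      module
    · have hkj : k = j := Fin.castSucc_injective n hk
      subst hkj
      rw [Xb_aj, om_e_f]
      simp only [cls_mul, cls_inv, cls_a, cls_b]
      module
    · have hkj : k ≠ j := fun h0 => by rw [h0] at hk; exact lt_irrefl _ hk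
      rw [Xb_a_mid h j hk hk2, om_e_f_ne hkj]
      simp only [cls_mul, cls_inv, cls_a, cls_b]
      module
    · exact absurd hk (Fin.castSucc_lt_last k).ne
  · rcases seg_cases j k.castSucc with hk | hk | ⟨hk, hk2⟩ | hk
    · rw [Xb_b_lt h j hk, cls_b, om_f_f]
      module
    · have hkj : k = j := Fin.castSucc_injective n hk
      subst hkj
      rw [Xb_bj, om_f_f]
      simp only [cls_mul, cls_inv, cls_a, cls_b]
      module
    · rw [Xb_b_mid h j hk hk2, om_f_f]
      simp only [cls_mul, cls_inv, cls_a, cls_b]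
      module
    · exact absurd hk (Fin.castSucc_lt_last k).ne
  · rw [Xb_bl, emb_f]
    simp only [cls_mul, cls_inv, cls_a, cls_b]
    module

lemma XF_Xa (h : IsSurf a b) (j : Fin n) : XF (H1 h (Xa h j)) (e j) := by
  refine XF_of_gens h _ _ ?_ (fun k => ?_) (fun k => ?_) 1 ?_
  · rw [Xa_al]
    simp only [cls_mul, cls_inv, cls_a, cls_b]
    abel
  · rcases seg_cases j k.castSucc with hk | hk | ⟨hk, hk2⟩ | hk
    · rw [Xa_a_lt h j hk, cls_a, om_e_e]
      module
    · have hkj : k = j := Fin.castSucc_injective n hk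
      subst hkj
      rw [Xa_aj, om_e_e]
      simp only [cls_mul, cls_inv, cls_a, cls_b]
      module
    · rw [Xa_a_mid h j hk hk2, om_e_e]
      simp only [cls_mul, cls_inv, cls_a, cls_b]
      module
    · exact absurd hk (Fin.castSucc_lt_last k).ne
  · rcases seg_cases j k.castSucc with hk | hk | ⟨hk, hk2⟩ | hk
    · have hkj : k ≠ j := fun h0 => by rw [h0] at hk; exact lt_irrefl _ hk
      rw [Xa_b_lt h j hk, cls_b, om_f_e_ne hkj]
      module
    · have hkj : k = j := Fin.castSucc_injective n hk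
      subst hkj
      rw [Xa_bj, om_f_e]
      simp only [cls_mul, cls_inv, cls_a, cls_b]
      module
    · have hkj : k ≠ j := fun h0 => by rw [h0] at hk; exact lt_irrefl _ hk
      rw [Xa_b_mid h j hk hk2, om_f_e_ne hkj]
      simp only [cls_mul, cls_inv, cls_a, cls_b]
      module
    · exact absurd hk (Fin.castSucc_lt_last k).ne
  · rw [Xa_bl, emb_e]
    simp only [cls_mul, cls_inv, cls_a, cls_b]
    module

/-- The action of a push on the first homology. -/
theorem XF_XX (h : IsSurf a b) (y : Fr n) : XF (H1 h (XX h y)) (clr y) := by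
  induction y using fr_induction with
  | h1 => rw [map_one, map_one, clr_one]; exact XF.one
  | ha k => rw [XX_a, clr_a]; exact XF_Xa h k
  | hb k => rw [XX_b, clr_b]; exact XF_Xb h k
  | hm x y hx hy => rw [map_mul, map_mul, clr_mul]; exact hx.mul hy
  | hi x hx => rw [map_inv, map_inv, clr_inv]; exact hx.inv

lemma H1_TT (h : IsSurf a b) (k : ℤ) :
    H1 h (TT h ^ k) (e (Fin.last n)) = e (Fin.last n) ∧
    (∀ z : V n, H1 h (TT h ^ k) (emb z) = emb z) ∧
    H1 h (TT h ^ k) (f (Fin.last n)) = f (Fin.last n) + k • e (Fin.last n) := by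
  obtain ⟨h1, h2⟩ := TT_zpow h k
  refine ⟨by rw [H1_e, h1, cls_a], fun z => ?_, ?_⟩
  · obtain ⟨x, rfl⟩ := clr_surj z
    have h3 : (TT h ^ k) (jR a b x) = jR a b x := by
      have h4 : Set.EqOn (TT h ^ k) (1 : MulAut G) (Set.range (jR a b)) := by
        rintro _ ⟨z, rfl⟩
        induction k using Int.induction_on with
        | zero => rfl
        | succ k ih =>
          rw [zpow_add_one, MulAut.mul_apply, TT_jR]
          exact ih (TT_zpow h k).1 (TT_zpow h k).2
        | pred k ih =>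
          rw [zpow_sub_one, MulAut.mul_apply]
          have h5 : (TT h)⁻¹ (jR a b z) = jR a b z := by
            conv_lhs => rw [← TT_jR h z]
            rw [MulAut.inv_apply_self]
          rw [h5]
          exact ih (TT_zpow h (-k)).1 (TT_zpow h (-k)).2
      exact h4 ⟨x, rfl⟩
    rw [← cls_jR h x, H1_cls, h3]
  · have h3 : ∀ k : ℤ, cls h (a (Fin.last n) ^ k) = k • e (Fin.last n) := by
      intro k
      induction k using Int.induction_on with
      | zero => rw [zpow_zero, cls_one, zero_smul]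
      | succ k ih => rw [zpow_add_one, cls_mul, ih, cls_a]; module
      | pred k ih => rw [zpow_sub_one, cls_mul, cls_inv, ih, cls_a]; module
    rw [H1_f, h2, cls_mul, cls_b, h3]

/-- For a null homologous push the action is that of a power of the twist. -/
theorem XX_TT_triv (h : IsSurf a b) {y : Fr n} (hy : clr y = 0) :
    ∃ k : ℤ, H1 h (XX h y * TT h ^ k) = 1 := by
  obtain ⟨el, em, w, fl⟩ := XF_XX h y
  rw [hy] at em fl
  refine ⟨-w, ?_⟩
  obtain ⟨t1, t2, t3⟩ := H1_TT h (-w)
  rw [map_mul]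
  apply XF_ext
  · intro z
    change H1 h (XX h y) (H1 h (TT h ^ (-w)) (emb z)) = emb z
    rw [t2, em, om_zero_right, zero_smul, sub_zero]
  · change H1 h (XX h y) (H1 h (TT h ^ (-w)) _) = _
    rw [t1, el]; rfl
  · change H1 h (XX h y) (H1 h (TT h ^ (-w)) _) = _
    rw [t3, map_add, map_smul, fl, el, emb_zero]
    change _ = f (Fin.last n)
    module

lemma TT_zpow_triv (h : IsSurf a b) {k : ℤ} (hk : H1 h (TT h ^ k) = 1) : k = 0 := by
  have h1 := (H1_TT h k).2.2
  rw [hk] at h1
  have h2 : f (Fin.last n) = f (Fin.last n) + k • e (Fin.last n) := h1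
  have h3 := congrFun h2 (Fin.last n)
  rw [Pi.add_apply, Pi.smul_apply, f_self, e_self] at h3
  have h4 := congrArg Prod.fst h3
  simp at h4
  exact h4.symm

end Pool.Agent.H.MP_59b15d_al.PK
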