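import Pool.Agent.H.MP_59b15d_al.pk.GOne
import Pool.Agent.H.MP_59b15d_al.pk.HX

/-!
# The Torelli elements of the stabiliser of a curve, end
-/

set_option autoImplicit false

namespace Pool.Agent.H.MP_59b15d_al.PK

open SP H93C
open Pool.MP_59b15d_al.H24T Pool.MP_59b15d_al.H76R Pool.MP_59b15d_al.H60G Pool.MP_59b15d_al.H73E
open FreeGroup (of)

variable {n : ℕ} {G : Type*} [Group G] {a b : Fin (n + 1) → G}

lemma XX_b_mem (h : IsSurf a b) (j : Fin n) (hj : (j : ℕ) + 1 = n) :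
    XX h (of (Sum.inr j)) ∈ MR h (n - 1) (n + 1) := by
  have hl : ((Fin.last n : Fin (n + 1)) : ℕ) = j.castSucc + 1 := by
    simp only [Fin.val_last, Fin.val_castSucc]; omega
  have h1 := X0_eq h j hl
  have h2 : XX h (of (Sum.inr j)) = TC h j.castSucc (Fin.last n) hl * (TB h j.castSucc)⁻¹ := by
    rw [XX_b, ← h1, mul_inv_cancel_right]
  rw [h2]
  refine mul_mem (TC_mem h _ _ hl ?_ ?_) (inv_mem (TB_mem h _ ?_ ?_))
  · simp only [Fin.val_castSucc]; omega
  · simp only [Fin.val_last]; omega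
  · simp only [Fin.val_castSucc]; omega
  · simp only [Fin.val_castSucc]; omega

lemma TT_mem (h : IsSurf a b) (k : ℤ) : TT h ^ k ∈ MR h (n - 1) (n + 1) := by
  refine zpow_mem (TA_mem h _ ?_ ?_) k
  · simp only [Fin.val_last]; omega
  · simp only [Fin.val_last]; omega

lemma XX_a_mem (h : IsSurf a b) (j : Fin n) (hj : (j : ℕ) + 1 = n) :
    XX h (of (Sum.inl j)) ∈ MR h (n - 1) (n + 1) := by
  obtain ⟨l, hl⟩ := (pair_TA (h := h) j).fX (of (Sum.inr j))
  rw [FA_self, map_mul] at hl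
  have hTA : TA h j.castSucc ∈ MR h (n - 1) (n + 1) := by
    refine TA_mem h _ ?_ ?_
    · simp only [Fin.val_castSucc]; omega
    · simp only [Fin.val_castSucc]; omega
  have hb := XX_b_mem h j hj
  have h1 : XX h (of (Sum.inl j)) = (XX h (of (Sum.inr j)))⁻¹ *
      (TA h j.castSucc * XX h (of (Sum.inr j)) * (TA h j.castSucc)⁻¹) * (TT h ^ l)⁻¹ := by
    rw [hl]; group
  rw [h1]
  exact mul_mem (mul_mem (inv_mem hb) (mul_mem (mul_mem hTA hb) (inv_mem hTA)))
    (inv_mem (TT_mem h l))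

/-- Mapping classes of the first handles act on the free group. -/
lemma pair_val (h : IsSurf a b) {f' : MulAut (Fr n)} {f : MulAut G} (hp : Pair h f' f)
    {i j : Fin n} (h1 : f (ex a i) = ex a j) (h2 : f (ex b i) = ex b j) :
    f' (of (Sum.inl i)) = of (Sum.inl j) ∧ f' (of (Sum.inr i)) = of (Sum.inr j) := by
  have hc : ∀ k : Fin n, ex a (k : ℕ) = a k.castSucc ∧ ex b (k : ℕ) = b k.castSucc := by
    intro k
    have hk : (k : ℕ) < n + 1 := by omega
    rw [ex_lt a hk, ex_lt b hk]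
    exact ⟨rfl, rfl⟩
  rw [(hc i).1, (hc j).1] at h1
  rw [(hc i).2, (hc j).2] at h2
  constructor
  · apply jR_injective h
    rw [← hp.fj, jR_a, jR_a, h1]
  · apply jR_injective h
    rw [← hp.fj, jR_b, jR_b, h2]

lemma XX_mem_two (h : IsSurf a b) (j1 j2 : Fin n) (h1 : (j1 : ℕ) + 1 = n)
    (h2 : (j2 : ℕ) + 2 = n) :
    XX h (of (Sum.inl j1)) ∈ MR h (n - 2) (n + 1) ∧ XX h (of (Sum.inr j1)) ∈ MR h (n - 2) (n + 1) ∧
    XX h (of (Sum.inl j2)) ∈ MR h (n - 2) (n + 1) ∧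
      XX h (of (Sum.inr j2)) ∈ MR h (n - 2) (n + 1) := by
  have hle : MR h (n - 1) (n + 1) ≤ MR h (n - 2) (n + 1) := MR_mono h (by omega) le_rfl
  have ha := hle (XX_a_mem h j1 h1)
  have hb := hle (XX_b_mem h j1 h1)
  obtain ⟨σ, s1, ⟨s2, s3⟩, -⟩ := exists_swap' h (j2 : ℕ) (by omega)
  have hj : (j2 : ℕ) + 1 = j1 := by omega
  rw [hj] at s2 s3
  have s4 : σ ∈ MR h 0 n := MR_mono h (Nat.zero_le _) (by omega) s1
  have s5 : σ ∈ MR h (n - 2) (n + 1) := MR_mono h (by omega) (by omega) s1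
  obtain ⟨σ', hp⟩ := pair_of_MR h le_rfl σ s4
  obtain ⟨v1, v2⟩ := pair_val h hp s2 s3
  refine ⟨ha, hb, ?_, ?_⟩
  · obtain ⟨l, hl⟩ := hp.fX (of (Sum.inl j1))
    rw [v1] at hl
    have h3 : XX h (of (Sum.inl j2)) = (σ * XX h (of (Sum.inl j1)) * σ⁻¹) * (TT h ^ l)⁻¹ := by
      rw [hl]; group
    rw [h3]
    exact mul_mem (mul_mem (mul_mem s5 ha) (inv_mem s5)) (inv_mem (hle (TT_mem h l)))
  · obtain ⟨l, hl⟩ := hp.fX (of (Sum.inr j1))
    rw [v2] at hl
    have h3 : XX h (of (Sum.inr j2)) = (σ * XX h (of (Sum.inr j1)) * σ⁻¹) * (TT h ^ l)⁻¹ := by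
      rw [hl]; group
    rw [h3]
    exact mul_mem (mul_mem (mul_mem s5 hb) (inv_mem s5)) (inv_mem (hle (TT_mem h l)))

/-- Commutators of elements of the last two of the first `n` handles. -/
lemma KR_two (h : IsSurf a b) (hn : 3 ≤ n) {x y : Fr n}
    (hx : XX h x ∈ MR h (n - 2) (n + 1)) (hy : XX h y ∈ MR h (n - 2) (n + 1)) :
    x * y * x⁻¹ * y⁻¹ ∈ KR h := by
  have hc : clr (x * y * x⁻¹ * y⁻¹) = 0 := by
    rw [clr_mul, clr_mul, clr_mul, clr_inv, clr_inv]
    abel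
  obtain ⟨k, hk⟩ := XX_TT_triv h hc
  refine ⟨k, Rk_last h ?_ hk⟩
  have hle : MR h (n - 2) (n + 1) ≤ MR h 1 (n + 1) := MR_mono h (by omega) le_rfl
  have hle' : MR h (n - 1) (n + 1) ≤ MR h (n - 2) (n + 1) := MR_mono h (by omega) le_rfl
  apply hle
  rw [map_mul, map_mul, map_mul, map_inv, map_inv]
  exact mul_mem (mul_mem (mul_mem (mul_mem hx hy) (inv_mem hx)) (inv_mem hy)) (hle' (TT_mem h k))

/-- All commutators of generators. -/
lemma KR_gen (h : IsSurf a b) (hn : 3 ≤ n) (i k : Fin n) (x y : Fin n → Fr n)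
    (hx : x = (fun i => of (Sum.inl i)) ∨ x = (fun i => of (Sum.inr i)))
    (hy : y = (fun i => of (Sum.inl i)) ∨ y = (fun i => of (Sum.inr i))) (hik : i < k) :
    x i * y k * (x i)⁻¹ * (y k)⁻¹ ∈ KR h := by
  let j1 : Fin n := ⟨n - 1, by omega⟩
  let j2 : Fin n := ⟨n - 2, by omega⟩
  obtain ⟨m1, m2, m3, m4⟩ := XX_mem_two h j1 j2 (by simp only [j1]; omega) (by simp only [j2]; omega)
  have hik' : (i : ℕ) < k := hik
  have hkn : (k : ℕ) < n := k.2
  obtain ⟨ν, n1, ⟨n2, n3⟩, -⟩ := exists_mu h (k : ℕ) (n - 1 - k) (by omega)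
  obtain ⟨μ, u1, ⟨u2, u3⟩, -⟩ := exists_mu h (i : ℕ) (n - 2 - i) (by omega)
  rw [show (k : ℕ) + (n - 1 - k) = n - 1 by omega] at n2 n3
  rw [show (i : ℕ) + (n - 2 - i) = n - 2 by omega] at u2 u3
  have n4 : ν ∈ MR h 0 n := MR_mono h (Nat.zero_le _) (by omega) n1
  have u4 : μ ∈ MR h 0 n := MR_mono h (Nat.zero_le _) (by omega) u1
  have hτ : ν * μ ∈ MR h 0 n := mul_mem n4 u4
  obtain ⟨τ', hp⟩ := pair_of_MR h le_rfl (ν * μ) hτ
  have f1 := MR_fix h u1 (n - 1) (Or.inr (by omega))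
  have f2 := MR_fix h n1 (i : ℕ) (Or.inl hik')
  obtain ⟨v1, v2⟩ := pair_val h hp (i := j1) (j := k)
    (by rw [MulAut.mul_apply]; simp only [j1]; rw [f1.1, n2])
    (by rw [MulAut.mul_apply]; simp only [j1]; rw [f1.2, n3])
  obtain ⟨w1, w2⟩ := pair_val h hp (i := j2) (j := i)
    (by rw [MulAut.mul_apply]; simp only [j2]; rw [u2, f2.1])
    (by rw [MulAut.mul_apply]; simp only [j2]; rw [u3, f2.2])
  have hx2 : XX h (x j2) ∈ MR h (n - 2) (n + 1) := by
    rcases hx with rfl | rfl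
    · exact m3
    · exact m4
  have hy1 : XX h (y j1) ∈ MR h (n - 2) (n + 1) := by
    rcases hy with rfl | rfl
    · exact m1
    · exact m2
  have h1 := KR_pair h hp (MR_le_MMs h _ _ hτ) (KR_two h hn hx2 hy1)
  have e1 : τ' (x j2) = x i := by
    rcases hx with rfl | rfl
    · exact w1
    · exact w2
  have e2 : τ' (y j1) = y k := by
    rcases hy with rfl | rfl
    · exact v1
    · exact v2
  rwa [map_mul, map_mul, map_mul, map_inv, map_inv, e1, e2] at h1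

lemma KR_self (h : IsSurf a b) (hn : 3 ≤ n) (k : Fin n) :
    of (Sum.inl k) * of (Sum.inr k) * (of (Sum.inl k))⁻¹ * (of (Sum.inr k))⁻¹ ∈ KR h := by
  let j1 : Fin n := ⟨n - 1, by omega⟩
  let j2 : Fin n := ⟨n - 2, by omega⟩
  obtain ⟨m1, m2, -, -⟩ := XX_mem_two h j1 j2 (by simp only [j1]; omega) (by simp only [j2]; omega)
  have hkn : (k : ℕ) < n := k.2
  obtain ⟨ν, n1, ⟨n2, n3⟩, -⟩ := exists_mu h (k : ℕ) (n - 1 - k) (by omega)
  rw [show (k : ℕ) + (n - 1 - k) = n - 1 by omega] at n2 n3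
  have n4 : ν ∈ MR h 0 n := MR_mono h (Nat.zero_le _) (by omega) n1
  obtain ⟨τ', hp⟩ := pair_of_MR h le_rfl ν n4
  obtain ⟨v1, v2⟩ := pair_val h hp (i := j1) (j := k) n2 n3
  have h1 := KR_pair h hp (MR_le_MMs h _ _ n4) (KR_two h hn m1 m2)
  rwa [map_mul, map_mul, map_mul, map_inv, map_inv, v1, v2] at h1

/-- Null homologous elements of the free group. -/
theorem KR_of_clr (h : IsSurf a b) (hn : 3 ≤ n) {y : Fr n} (hy : clr y = 0) : y ∈ KR h := by
  have hN := KR_normal h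
  let q : Fr n →* Fr n ⧸ KR h := QuotientGroup.mk' (KR h)
  have hq : ∀ x, q x = 1 ↔ x ∈ KR h := fun x => QuotientGroup.eq_one_iff x
  have hcomm : ∀ x y : Fr n, x * y * x⁻¹ * y⁻¹ ∈ KR h → Commute (q x) (q y) := by
    intro x y h1
    have h2 := (hq _).mpr h1
    rw [map_mul, map_mul, map_mul, map_inv, map_inv, mul_inv_eq_one, mul_inv_eq_iff_eq_mul] at h2
    exact h2
  have hlt : ∀ (x y : Fin n → Fr n)
      (_ : x = (fun i => of (Sum.inl i)) ∨ x = (fun i => of (Sum.inr i)))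
      (_ : y = (fun i => of (Sum.inl i)) ∨ y = (fun i => of (Sum.inr i))) (i k : Fin n),
      i ≠ k → Commute (q (x i)) (q (y k)) := by
    intro x y hx hy i k hik
    rcases lt_or_gt_of_ne hik with h1 | h1
    · exact hcomm _ _ (KR_gen h hn i k x y hx hy h1)
    · exact (hcomm _ _ (KR_gen h hn k i y x hy hx h1)).symm
  have hrel : HRel (fun i => q (of (Sum.inl i))) (fun i => q (of (Sum.inr i))) (1 : Fr n ⧸ KR h) := by
    refine ⟨fun i => Commute.one_left _, fun i => Commute.one_left _, fun i j hij => ?_,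
      fun i j hij => ?_, fun i j hij => ?_, fun i => ?_⟩
    · exact hlt _ _ (Or.inl rfl) (Or.inl rfl) i j hij
    · exact hlt _ _ (Or.inr rfl) (Or.inr rfl) i j hij
    · exact hlt _ _ (Or.inl rfl) (Or.inr rfl) i j hij
    · change q _ * q _ * (q _)⁻¹ * (q _)⁻¹ = 1
      rw [← map_inv, ← map_inv, ← map_mul, ← map_mul, ← map_mul, hq]
      exact KR_self h hn i
  obtain ⟨θ, t1, t2, t3⟩ := Hs.lift hrel
  have he : θ.comp hs = q := by
    apply fr_ext
    · intro i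
      rw [MonoidHom.comp_apply, hs_a, t1]
    · intro i
      rw [MonoidHom.comp_apply, hs_b, t2]
  rw [← hq, ← he, MonoidHom.comp_apply, Hs.eq_z_of_v (a := hs y) hy, map_zpow, t3, one_zpow]

/-- The Torelli elements of the stabiliser of a curve. -/
theorem Mcs_torelli (h : IsSurf a b) (hn : 3 ≤ n) {φ : MulAut G} (hφ : φ ∈ Mcs h)
    (h1 : H1 h φ = 1) : φ ∈ Rk h := by
  obtain ⟨y, k, f, hf, rfl⟩ := Mcs_form h hφ
  obtain ⟨f', hp⟩ := pair_of_MR h le_rfl f hf
  obtain ⟨t1, t2, t3⟩ := H1_TT h k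
  have hX := XF_XX h y
  have hval : ∀ z : Fr n, emb (clr (f' z)) - om (clr (f' z)) (clr y) • e (Fin.last n) =
      emb (clr z) := by
    intro z
    have h2 : H1 h (XX h y * TT h ^ k * f) (emb (clr z)) = emb (clr z) := by rw [h1]; rfl
    rw [map_mul, map_mul] at h2
    change H1 h (XX h y) (H1 h (TT h ^ k) (H1 h f (emb (clr z)))) = _ at h2
    rw [← cls_jR h z, H1_cls, hp.fj, cls_jR, t2, hX.em, cls_jR] at h2
    exact h2
  have hcl : ∀ z : Fr n, clr (f' z) = clr z := by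
    intro z
    funext i
    have h2 := congrFun (hval z) i.castSucc
    rw [Pi.sub_apply, Pi.smul_apply, emb_castSucc, emb_castSucc,
      e_ne (Fin.castSucc_lt_last i).ne, smul_zero, sub_zero] at h2
    exact h2
  have hom : ∀ z : Fr n, om (clr z) (clr y) = 0 := by
    intro z
    have h2 := congrFun (hval z) (Fin.last n)
    rw [Pi.sub_apply, Pi.smul_apply, emb_last, emb_last, e_self, hcl] at h2
    have h3 := congrArg Prod.fst h2
    simp at h3
    exact h3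
  have hy : clr y = 0 := by
    apply om_ext
    intro x
    obtain ⟨z, rfl⟩ := clr_surj x
    rw [hom, om_zero_right]
  have hf1 : H1 h f = 1 := by
    apply XF_ext
    · intro z
      obtain ⟨x, rfl⟩ := clr_surj z
      rw [← cls_jR h x, H1_cls, hp.fj, cls_jR, cls_jR, hcl]
      rfl
    · rw [H1_e, hp.fa, cls_a]; rfl
    · rw [H1_f, hp.fb, cls_b]; rfl
  obtain ⟨l, hl⟩ := KR_of_clr h hn hy
  have h2 : H1 h (XX h y * TT h ^ k) = 1 := by
    rw [map_mul, hf1, mul_one] at h1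
    exact h1
  have h3 := Rk_H1 h hl
  have h4 : H1 h (TT h ^ (k - l)) = 1 := by
    have h5 : TT h ^ (k - l) = (XX h y * TT h ^ l)⁻¹ * (XX h y * TT h ^ k) := by
      rw [mul_inv_rev, mul_assoc, inv_mul_cancel_left, ← zpow_neg, ← zpow_add]
      congr 1; ring
    rw [h5, map_mul, map_inv, h2, h3, inv_one, mul_one]
  have h6 : k = l := by
    have := TT_zpow_triv h h4
    omega
  rw [h6]
  exact mul_mem hl (Rk_first h hf hf1)

end Pool.Agent.H.MP_59b15d_al.PK
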