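import Pool.Agent.H.MP_59b15d_al.pk.Cone

/-!
# Coset coverings of the complex of isotropic primitive vectors

`M` is a group acting on `V g` through `φ : M → Sp g`. The subgroup `Mc` fixes the vector `v1`, the
subgroup `MD` is the group of a block `U` containing `v1, v2, v3`, the subgroup `R` is normal and
acts trivially. Under the hypotheses of the structure `Dat` the set `M ⧸ (R Mc)` is a covering
of the complex of isotropic primitive vectors, hence `R` is the kernel of `φ`.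
-/

set_option autoImplicit false

namespace Pool.Agent.H.MP_59b15d_al.PK

open SP PC

variable {g : ℕ} {M : Type*} [Group M]

/-- The hypotheses on the groups. -/
structure Dat (φ : M →* Sp g) (Mc MD Mr R : Subgroup M) (ρ : M) (v1 v2 v3 : V g)
    (U : V g → Prop) : Prop where
  normal : R.Normal
  triv : ∀ r ∈ R, φ r = 1
  cfix : ∀ c ∈ Mc, φ c v1 = v1
  csec : ∀ A : Sp g, A v1 = v1 → ∃ c ∈ Mc, φ c = A
  ctor : ∀ m ∈ Mc, φ m = 1 → m ∈ R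
  dsec : ∀ m ∈ MD, φ m v1 = v1 → ∃ c ∈ Mc, c ∈ MD ∧ φ c = φ m
  dtor : ∀ m ∈ MD, φ m = 1 → m ∈ R
  du : ∀ m ∈ MD, ∀ v, U v → U (φ m v)
  gen : Mc ⊔ MD = ⊤
  rhoD : ρ ∈ MD
  rho1 : φ ρ v1 = v2
  rcomm : ∀ c ∈ Mr, ρ⁻¹ * c * ρ = c
  rle : Mr ≤ Mc
  stab : ∀ c ∈ Mc, φ c v2 = v2 →
    φ c ∈ Subgroup.closure ({A | ∃ c' ∈ Mc, c' ∈ MD ∧ φ c' v2 = v2 ∧ φ c' = A} ∪
      {A | ∃ c' ∈ Mr, φ c' = A})
  u1 : U v1
  u2 : U v2
  u3 : U v3
  iso : Iso3 v1 v2 v3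
  dtrans : ∀ v w, U v → U w → AdjA v w → ∃ m ∈ MD, φ m v1 = v ∧ φ m v2 = w
  trans2 : ∀ v w, AdjA v w → ∃ m, φ m v1 = v ∧ φ m v2 = w
  trans3 : ∀ u v w, Iso3 u v w → ∃ m, φ m v1 = u ∧ φ m v2 = v ∧ φ m v3 = w

lemma AdjA_map (A : Sp g) {v w : V g} (h : AdjA v w) : AdjA (A v) (A w) := by
  obtain ⟨h0, ⟨a, a1, a2⟩, b, b1, b2⟩ := h
  exact ⟨by rw [sp_om, h0], ⟨A a, by rw [sp_om, a1], by rw [sp_om, a2]⟩, A b, by rw [sp_om, b1],
    by rw [sp_om, b2]⟩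

section

variable {φ : M →* Sp g} {Mc MD Mr R : Subgroup M} {ρ : M} {v1 v2 v3 : V g} {U : V g → Prop}

namespace Dat

variable (D : Dat φ Mc MD Mr R ρ v1 v2 v3 U)

include D

lemma mem_S {s : M} : s ∈ R ⊔ Mc ↔ ∃ r ∈ R, ∃ c ∈ Mc, s = r * c := by
  have := D.normal
  constructor
  · intro h
    have h1 : s ∈ (↑(R ⊔ Mc) : Set M) := h
    rw [Subgroup.normal_mul] at h1
    obtain ⟨r, hr, c, hc, rfl⟩ := Set.mem_mul.mp h1
    exact ⟨r, hr, c, hc, rfl⟩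
  · rintro ⟨r, hr, c, hc, rfl⟩
    exact Subgroup.mul_mem_sup hr hc

lemma S_fix {s : M} (hs : s ∈ R ⊔ Mc) : φ s v1 = v1 := by
  obtain ⟨r, hr, c, hc, rfl⟩ := D.mem_S.mp hs
  rw [map_mul, D.triv r hr, one_mul, D.cfix c hc]

/-- Elements of the block fixing `v1`. -/
lemma D_mem_S {m : M} (hm : m ∈ MD) (h1 : φ m v1 = v1) : m ∈ R ⊔ Mc := by
  obtain ⟨c, hc, hcD, h2⟩ := D.dsec m hm h1
  have h3 : m * c⁻¹ ∈ R := by
    apply D.dtor _ (MD.mul_mem hm (MD.inv_mem hcD))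
    rw [map_mul, map_inv, h2, mul_inv_cancel]
  exact D.mem_S.mpr ⟨m * c⁻¹, h3, c, hc, by group⟩

/-- The projection. -/
def pi : M ⧸ (R ⊔ Mc) → V g := Quotient.lift (fun m : M => φ m v1) (by
  intro m m' h
  have h1 : m⁻¹ * m' ∈ R ⊔ Mc := QuotientGroup.leftRel_apply.mp h
  have h2 := D.S_fix h1
  rw [map_mul, map_inv, sp_mul] at h2
  have h3 : φ m ((φ m)⁻¹ (φ m' v1)) = φ m v1 := congrArg (φ m) h2
  rw [sp_apply_inv] at h3
  exact h3.symm)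

omit D in
lemma pi_mk (D : Dat φ Mc MD Mr R ρ v1 v2 v3 U) (m : M) : D.pi (m : M ⧸ (R ⊔ Mc)) = φ m v1 := rfl

end Dat

/-- The edges. -/
def Ed (S : Subgroup M) (ρ : M) (x y : M ⧸ S) : Prop := ∃ m : M, x = (m : M ⧸ S) ∧ y = ((m * ρ : M) : M ⧸ S)

lemma Ed.smul {S : Subgroup M} {x y : M ⧸ S} (k : M) (h : Ed S ρ x y) : Ed S ρ (k • x) (k • y) := by
  obtain ⟨m, rfl, rfl⟩ := h
  exact ⟨k * m, rfl, by rw [mul_assoc]; rfl⟩

namespace Dat

variable (D : Dat φ Mc MD Mr R ρ v1 v2 v3 U)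

include D

lemma adj12 : AdjA v1 v2 := D.iso.adjA

/-- Points of a section of the block over the same vector are equal. -/
lemma sec_eq (k : M) {m m' : M} (hm : m ∈ MD) (hm' : m' ∈ MD) (h : φ m v1 = φ m' v1) :
    ((k * m : M) : M ⧸ (R ⊔ Mc)) = ((k * m' : M) : M ⧸ (R ⊔ Mc)) := by
  rw [QuotientGroup.eq]
  have h1 : (k * m)⁻¹ * (k * m') = m⁻¹ * m' := by group
  rw [h1]
  apply D.D_mem_S (MD.mul_mem (MD.inv_mem hm) hm')
  rw [map_mul, map_inv, sp_mul, ← h, sp_inv_apply]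

/-- Change of the representative. -/
lemma repr (m m' : M) (h : φ m v1 = φ m' v1) :
    ∃ m'' : M, (m'' : M ⧸ (R ⊔ Mc)) = (m : M ⧸ (R ⊔ Mc)) ∧ φ m'' = φ m' := by
  obtain ⟨c, hc, h1⟩ := D.csec ((φ m)⁻¹ * φ m') (by rw [sp_mul, ← h, sp_inv_apply])
  refine ⟨m * c, ?_, by rw [map_mul, h1, mul_inv_cancel_left]⟩
  rw [eq_comm, QuotientGroup.eq, inv_mul_cancel_left]
  exact Subgroup.mem_sup_right hc

lemma rho_conj {s : M} (hs : s ∈ R ⊔ Mc) (h2 : φ s v2 = v2) : ρ⁻¹ * s * ρ ∈ R ⊔ Mc := by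
  have hn := D.normal
  obtain ⟨r, hr, c, hc, rfl⟩ := D.mem_S.mp hs
  rw [map_mul, D.triv r hr, one_mul] at h2
  have hr' : ρ⁻¹ * r * ρ ∈ R := by
    have := hn.conj_mem r hr ρ⁻¹
    rwa [inv_inv] at this
  -- the subgroup of the good elements
  let S' : Subgroup M := (R ⊔ Mc).comap (MulAut.conj ρ⁻¹).toMonoidHom
  have hS' : ∀ x, x ∈ S' ↔ ρ⁻¹ * x * ρ ∈ R ⊔ Mc := by
    intro x
    change (MulAut.conj ρ⁻¹) x ∈ R ⊔ Mc ↔ _
    rw [MulAut.conj_apply, inv_inv]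
  have key : ∀ A ∈ Subgroup.closure ({A | ∃ c' ∈ Mc, c' ∈ MD ∧ φ c' v2 = v2 ∧ φ c' = A} ∪
      {A | ∃ c' ∈ Mr, φ c' = A}), ∃ c' ∈ Mc, c' ∈ S' ∧ φ c' = A := by
    intro A hA
    refine Subgroup.closure_induction
      (p := fun A _ => ∃ c' ∈ Mc, c' ∈ S' ∧ φ c' = A) ?_ ?_ ?_ ?_ hA
    · rintro A (⟨c', h1, h3, h4, rfl⟩ | ⟨c', h1, rfl⟩)
      · refine ⟨c', h1, ?_, rfl⟩
        rw [hS']
        apply D.D_mem_S (MD.mul_mem (MD.mul_mem (MD.inv_mem D.rhoD) h3) D.rhoD)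
        rw [map_mul, map_mul, sp_mul, sp_mul, D.rho1, h4, map_inv, ← D.rho1, sp_inv_apply]
      · refine ⟨c', D.rle h1, ?_, rfl⟩
        rw [hS', D.rcomm c' h1]
        exact Subgroup.mem_sup_right (D.rle h1)
    · exact ⟨1, Mc.one_mem, S'.one_mem, map_one φ⟩
    · rintro A B _ _ ⟨a, h1, h2, h3⟩ ⟨b, h4, h5, h6⟩
      exact ⟨a * b, Mc.mul_mem h1 h4, S'.mul_mem h2 h5, by rw [map_mul, h3, h6]⟩
    · rintro A _ ⟨a, h1, h2, h3⟩
      exact ⟨a⁻¹, Mc.inv_mem h1, S'.inv_mem h2, by rw [map_inv, h3]⟩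
  obtain ⟨c', h3, h4, h5⟩ := key _ (D.stab c hc h2)
  have h6 : c'⁻¹ * c ∈ R := D.ctor _ (Mc.mul_mem (Mc.inv_mem h3) hc) (by
    rw [map_mul, map_inv, h5, inv_mul_cancel])
  have h7 : ρ⁻¹ * (c'⁻¹ * c) * ρ ∈ R := by
    have := hn.conj_mem _ h6 ρ⁻¹
    rwa [inv_inv] at this
  rw [hS'] at h4
  have h8 : ρ⁻¹ * (r * c) * ρ = (ρ⁻¹ * r * ρ) * ((ρ⁻¹ * c' * ρ) * (ρ⁻¹ * (c'⁻¹ * c) * ρ)) := by
    group
  rw [h8]
  exact (R ⊔ Mc).mul_mem (Subgroup.mem_sup_left hr')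
    ((R ⊔ Mc).mul_mem h4 (Subgroup.mem_sup_left h7))

theorem covA : CovA D.pi (Ed (R ⊔ Mc) ρ) := by
  -- unique lifting
  have uniq : ∀ x y y', Ed (R ⊔ Mc) ρ x y → Ed (R ⊔ Mc) ρ x y' → D.pi y = D.pi y' → y = y' := by
    rintro x y y' ⟨m, h1, rfl⟩ ⟨m', h2, rfl⟩ h
    rw [h1] at h2
    rw [QuotientGroup.eq] at h2
    rw [pi_mk, pi_mk, map_mul, map_mul, sp_mul, sp_mul, D.rho1] at h
    rw [QuotientGroup.eq]
    have h3 : (m * ρ)⁻¹ * (m' * ρ) = ρ⁻¹ * (m⁻¹ * m') * ρ := by group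
    rw [h3]
    apply D.rho_conj h2
    rw [map_mul, map_inv, sp_mul, ← h, sp_inv_apply]
  have a12 := D.adj12
  have a13 : AdjA v1 v3 := D.iso.swap.adjA
  have a23 : AdjA v2 v3 := D.iso.rot.swap.adjA
  refine ⟨?_, ?_, ?_, uniq, ?_⟩
  · rintro x y ⟨m, rfl, rfl⟩
    obtain ⟨k, hk, k1, k2⟩ := D.dtrans v2 v1 D.u2 D.u1 a12.symm
    refine ⟨m * k, ?_, ?_⟩
    · exact D.sec_eq m D.rhoD hk (by rw [D.rho1, k1])
    · have h1 := D.sec_eq m MD.one_mem (MD.mul_mem hk D.rhoD) (by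
        rw [map_one, sp_one, map_mul, sp_mul, D.rho1, k2])
      rw [mul_one] at h1
      rw [h1, mul_assoc]
  · rintro x y ⟨m, rfl, rfl⟩
    rw [pi_mk, pi_mk, map_mul, sp_mul, D.rho1]
    exact AdjA_map _ a12
  · intro x w
    refine QuotientGroup.induction_on x fun m => ?_
    intro h
    rw [pi_mk] at h
    obtain ⟨m', h1, h2⟩ := D.trans2 _ _ h
    obtain ⟨m'', h3, h4⟩ := D.repr m m' h1.symm
    refine ⟨((m'' * ρ : M) : M ⧸ (R ⊔ Mc)), ?_, m'', h3.symm, rfl⟩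
    rw [pi_mk, map_mul, sp_mul, D.rho1, h4, h2]
  · intro x y z
    refine QuotientGroup.induction_on x fun m => ?_
    intro h hy hz
    obtain ⟨m', h1, h2, h3⟩ := D.trans3 _ _ _ h
    rw [pi_mk] at h1
    obtain ⟨k, h4, h5⟩ := D.repr m m' h1.symm
    obtain ⟨p, hp, p1, p2⟩ := D.dtrans v1 v3 D.u1 D.u3 a13
    obtain ⟨q, hq, q1, q2⟩ := D.dtrans v2 v3 D.u2 D.u3 a23
    have hy' : y = ((k * ρ : M) : M ⧸ (R ⊔ Mc)) := by
      apply uniq _ _ _ hy ⟨k, h4.symm, rfl⟩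
      rw [pi_mk, map_mul, sp_mul, D.rho1, h5, h2]
    have hz' : z = ((k * (p * ρ) : M) : M ⧸ (R ⊔ Mc)) := by
      apply uniq _ _ _ hz ⟨k * p, ?_, by rw [mul_assoc]⟩
      · rw [pi_mk, map_mul, map_mul, sp_mul, sp_mul, D.rho1, p2, h5, h3]
      · rw [← h4]
        have h6 := D.sec_eq k MD.one_mem hp (by rw [map_one, sp_one, p1])
        rwa [mul_one] at h6
    refine ⟨k * q, ?_, ?_⟩
    · rw [hy']
      exact D.sec_eq k D.rhoD hq (by rw [D.rho1, q1])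
    · rw [hz', mul_assoc]
      exact D.sec_eq k (MD.mul_mem hp D.rhoD) (MD.mul_mem hq D.rhoD) (by
        rw [map_mul, map_mul, sp_mul, sp_mul, D.rho1, p2, q2])

/-- All points are connected with the base point. -/
theorem conn (hU : ∀ v, U v → Prim v → ∃ u, U u ∧ AdjA v1 u ∧ AdjA u v) (m : M) :
    Relation.ReflTransGen (Ed (R ⊔ Mc) ρ) ((1 : M) : M ⧸ (R ⊔ Mc)) (m : M ⧸ (R ⊔ Mc)) := by
  have C := D.covA
  have hsm : ∀ (k : M) {x y : M ⧸ (R ⊔ Mc)}, Relation.ReflTransGen (Ed (R ⊔ Mc) ρ) x y →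
      Relation.ReflTransGen (Ed (R ⊔ Mc) ρ) (k • x) (k • y) := by
    intro k x y h
    induction h with
    | refl => exact Relation.ReflTransGen.refl
    | tail _ h1 ih => exact ih.tail (h1.smul k)
  have hsymm : ∀ {x y : M ⧸ (R ⊔ Mc)}, Relation.ReflTransGen (Ed (R ⊔ Mc) ρ) x y →
      Relation.ReflTransGen (Ed (R ⊔ Mc) ρ) y x := by
    intro x y h
    induction h with
    | refl => exact Relation.ReflTransGen.refl
    | tail _ h1 ih => exact Relation.ReflTransGen.head (C.symm _ _ h1) ih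
  let K : Subgroup M :=
    { carrier := {m | Relation.ReflTransGen (Ed (R ⊔ Mc) ρ) ((1 : M) : M ⧸ (R ⊔ Mc))
        (m : M ⧸ (R ⊔ Mc))}
      one_mem' := Relation.ReflTransGen.refl
      mul_mem' := by
        intro x y hx hy
        have h1 := hsm x hy
        have h2 : x • ((1 : M) : M ⧸ (R ⊔ Mc)) = (x : M ⧸ (R ⊔ Mc)) := by
          change ((x * 1 : M) : M ⧸ (R ⊔ Mc)) = _
          rw [mul_one]
        rw [h2] at h1
        exact Relation.ReflTransGen.trans hx h1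
      inv_mem' := by
        intro x hx
        have h1 := hsm x⁻¹ (hsymm hx)
        have h2 : x⁻¹ • ((1 : M) : M ⧸ (R ⊔ Mc)) = ((x⁻¹ : M) : M ⧸ (R ⊔ Mc)) := by
          change ((x⁻¹ * 1 : M) : M ⧸ (R ⊔ Mc)) = _
          rw [mul_one]
        have h3 : x⁻¹ • (x : M ⧸ (R ⊔ Mc)) = ((1 : M) : M ⧸ (R ⊔ Mc)) := by
          change ((x⁻¹ * x : M) : M ⧸ (R ⊔ Mc)) = _
          rw [inv_mul_cancel]
        rwa [h2, h3] at h1 }
  have hK : K = ⊤ := by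
    rw [eq_top_iff, ← D.gen, sup_le_iff]
    constructor
    · intro c hc
      change Relation.ReflTransGen _ _ _
      have h1 : ((1 : M) : M ⧸ (R ⊔ Mc)) = (c : M ⧸ (R ⊔ Mc)) := by
        rw [QuotientGroup.eq, inv_one, one_mul]
        exact Subgroup.mem_sup_right hc
      rw [← h1]
    · intro m hm
      change Relation.ReflTransGen _ _ _
      have hv : U (φ m v1) := D.du m hm v1 D.u1
      have hp : Prim (φ m v1) := by
        obtain ⟨w, hw⟩ := D.adj12.2.left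
        exact ⟨φ m w, by rw [sp_om, hw]⟩
      obtain ⟨u, hu, a1, a2⟩ := hU _ hv hp
      obtain ⟨p, hp', p1, p2⟩ := D.dtrans v1 u D.u1 hu a1
      obtain ⟨q, hq, q1, q2⟩ := D.dtrans u _ hu hv a2
      have e1 := D.sec_eq 1 MD.one_mem hp' (by rw [map_one, sp_one, p1])
      have e2 := D.sec_eq 1 (MD.mul_mem hp' D.rhoD) hq (by rw [map_mul, sp_mul, D.rho1, p2, q1])
      have e3 := D.sec_eq 1 (MD.mul_mem hq D.rhoD) hm (by rw [map_mul, sp_mul, D.rho1, q2])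
      simp only [one_mul] at e1 e2 e3
      refine Relation.ReflTransGen.tail (Relation.ReflTransGen.single ⟨p, e1, rfl⟩) ?_
      exact ⟨q, e2, e3.symm⟩
  have h1 : m ∈ K := by rw [hK]; trivial
  exact h1

/-- The kernel of `φ` is contained in `R`. -/
theorem ker_le (hU : ∀ v, U v → Prim v → ∃ u, U u ∧ AdjA v1 u ∧ AdjA u v)
    (hinj : ∀ x y : M ⧸ (R ⊔ Mc), Relation.ReflTransGen (Ed (R ⊔ Mc) ρ) x y →
      D.pi x = D.pi y → x = y) (m : M) (hm : φ m = 1) : m ∈ R := by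
  have h1 := hinj _ _ (D.conn hU m) (by rw [pi_mk, pi_mk, hm, map_one])
  rw [QuotientGroup.eq, inv_one, one_mul] at h1
  obtain ⟨r, hr, c, hc, rfl⟩ := D.mem_S.mp h1
  rw [map_mul, D.triv r hr, one_mul] at hm
  exact R.mul_mem hr (D.ctor c hc hm)

end Dat

end

end Pool.Agent.H.MP_59b15d_al.PK
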