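/-
Transitivity of Sp(2g, Z) on primitive vectors, on orthogonal unimodular pairs and triples (also
relative to a fixed set of handles), and stabilisers of `e k` and of `e k, e l`.
-/
import Pool.Agent.H.MP_59b15d_al.pc.Defs
import Pool.Agent.H.MP_59b15d_al.h11c.Stab

set_option autoImplicit false

namespace Pool.Agent.H.MP_59b15d_al.PC

open SP

variable {g : ℕ}

/-! ### Transitivity -/

lemma egen_top (R : Finset (Fin g)) : EGen (⊤ : Subgroup (Sp g)) R :=
  ⟨fun _ _ _ => Subgroup.mem_top _, fun _ _ _ => Subgroup.mem_top _,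
    fun _ _ _ _ _ _ => Subgroup.mem_top _⟩

/-- The map fixes the handles outside `R`. -/
def Fixo (R : Finset (Fin g)) (A : Sp g) : Prop := ∀ i, i ∉ R → A (e i) = e i ∧ A (f i) = f i

lemma Fixo.mul {R : Finset (Fin g)} {A B : Sp g} (hA : Fixo R A) (hB : Fixo R B) :
    Fixo R (A * B) := by
  intro i hi
  rw [sp_mul, sp_mul, (hB i hi).1, (hB i hi).2]
  exact hA i hi

lemma Fixo.inv {R : Finset (Fin g)} {A : Sp g} (hA : Fixo R A) : Fixo R A⁻¹ := by
  intro i hi
  have h1 := sp_inv_apply A (e i)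
  have h2 := sp_inv_apply A (f i)
  rw [(hA i hi).1] at h1
  rw [(hA i hi).2] at h2
  exact ⟨h1, h2⟩

/-- The image of a vector supported on `R` is supported on `R`. -/
lemma Fixo.supp {R : Finset (Fin g)} {A : Sp g} (hA : Fixo R A) {v : V g}
    (hv : ∀ i, i ∉ R → v i = 0) : ∀ i, i ∉ R → (A v) i = 0 := by
  intro i hi
  have h1 := sp_om A v (e i)
  have h2 := sp_om A v (f i)
  rw [(hA i hi).1, om_e, om_e, hv i hi] at h1
  rw [(hA i hi).2, om_f, om_f, hv i hi] at h2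
  refine Prod.ext h2 ?_
  have h3 : -((A v) i).2 = -0 := h1
  change ((A v) i).2 = 0
  omega

lemma sum_e_mem {J : Finset (Fin g)} (a : Fin g → ℤ) {i : Fin g} (hi : i ∈ J) :
    (∑ j ∈ J, a j • e j : V g) i = (a i, 0) := by
  rw [Finset.sum_apply, Finset.sum_eq_single i]
  · rw [Pi.smul_apply, e_self]
    simp
  · intro j _ hj
    rw [Pi.smul_apply, e_ne hj.symm, smul_zero]
  · intro h
    exact absurd hi h

lemma sum_e_not_mem {J : Finset (Fin g)} (a : Fin g → ℤ) {i : Fin g} (hi : i ∉ J) :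
    (∑ j ∈ J, a j • e j : V g) i = 0 := by
  rw [Finset.sum_apply]
  refine Finset.sum_eq_zero fun j hj => ?_
  rw [Pi.smul_apply, e_ne (fun h : i = j => hi (h ▸ hj)), smul_zero]

/-- One step: a vector orthogonal to `e j` for `j` in `J` can be moved to `e m`. -/
theorem frame_step {R J : Finset (Fin g)} (hJ : J ⊆ R) {m : Fin g} (hmR : m ∈ R) (hmJ : m ∉ J)
    {w c : V g} (hw : ∀ i, i ∉ R → w i = 0) (hJw : ∀ j ∈ J, om (e j) w = 0)
    (hJc : ∀ j ∈ J, om (e j) c = 0) (hwc : om w c = 1) :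
    ∃ B : Sp g, Fixo R B ∧ (∀ j ∈ J, B (e j) = e j) ∧ B w = e m := by
  classical
  obtain ⟨y, hy⟩ : ∃ y : V g, y = ∑ j ∈ J, (w j).1 • e j := ⟨_, rfl⟩
  have yJ : ∀ i ∈ J, y i = w i := by
    intro i hi
    rw [hy, sum_e_mem _ hi]
    refine Prod.ext rfl ?_
    have := hJw i hi
    rw [om_e'] at this
    exact this.symm
  have yN : ∀ i, i ∉ J → y i = 0 := fun i hi => by rw [hy, sum_e_not_mem _ hi]
  have y2 : ∀ i, (y i).2 = 0 := by
    intro i
    by_cases hi : i ∈ J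
    · rw [hy, sum_e_mem _ hi]
    · rw [yN i hi]
      rfl
  have hyc : om y c = 0 := by
    have h1 : om y c = omL c y := rfl
    rw [h1, hy, map_sum]
    refine Finset.sum_eq_zero fun j hj => ?_
    rw [map_smul, omL_apply, hJc j hj, smul_zero]
  have hu : ∀ i, i ∉ R \ J → (w - y) i = 0 := by
    intro i hi
    rw [Pi.sub_apply]
    by_cases h1 : i ∈ J
    · rw [yJ i h1, sub_self]
    · have h2 : i ∉ R := fun h => hi (Finset.mem_sdiff.2 ⟨h, h1⟩)
      rw [yN i h1, hw i h2, sub_zero]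
  have huc : om (w - y) c = 1 := by rw [om_sub_left, hwc, hyc, sub_zero]
  have hm : m ∈ R \ J := Finset.mem_sdiff.2 ⟨hmR, hmJ⟩
  obtain ⟨B, hB, hBu⟩ := (egen_top (R \ J)).red_prim hm hu huc
  have hBJ : ∀ j ∈ J, B (e j) = e j := by
    intro j hj
    exact (hB.2 j (fun h => (Finset.mem_sdiff.1 h).2 hj)).1
  have hBy : B y = y := by
    have h1 : B y = ∑ j ∈ J, B ((w j).1 • e j) := by
      rw [hy]
      exact map_sum B.1 _ _
    rw [h1, hy]
    refine Finset.sum_congr rfl fun j hj => ?_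
    rw [sp_smul, hBJ j hj]
  have hBw : B w = e m + y := by
    have h1 : w = (w - y) + y := by abel
    rw [h1, sp_add, hBu, hBy]
  have hyf : om y (f m) = 0 := by
    rw [om_f, yN m hmJ]
    rfl
  have hfy : om (f m) y = 0 := by rw [om_swap, hyf, neg_zero]
  have hey : ∀ i, om (e i) y = 0 := fun i => by rw [om_e', y2]
  refine ⟨S y (f m) (-1) * B, Fixo.mul ?_ ?_, ?_, ?_⟩
  · intro i hi
    have him : i ≠ m := fun h => hi (h ▸ hmR)
    have hiJ : i ∉ J := fun h => hi (hJ h)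
    refine ⟨S_fix hyf (hey i) (om_e_f_ne him) _, S_fix hyf ?_ (om_f_f i m) _⟩
    rw [om_f', yN i hiJ]
    rfl
  · intro i hi
    exact hB.2 i (fun h => hi (Finset.mem_sdiff.1 h).1)
  · intro j hj
    rw [sp_mul, hBJ j hj]
    exact S_fix hyf (hey j) (om_e_f_ne (fun h => hmJ (h ▸ hj))) _
  · rw [sp_mul, hBw, S_apply hyf, om_add_left, om_add_left, hey, om_self, om_e_f, hyf]
    module

theorem red_one {R : Finset (Fin g)} {k : Fin g} (hk : k ∈ R) {v : V g}
    (hv : ∀ i, i ∉ R → v i = 0) (h : Prim v) : ∃ B : Sp g, Fixo R B ∧ B v = e k := by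
  obtain ⟨c, hc⟩ := h
  obtain ⟨B, h1, -, h2⟩ := frame_step (Finset.empty_subset R) hk (Finset.notMem_empty k) hv
    (fun j hj => absurd hj (Finset.notMem_empty j))
    (fun j hj => absurd hj (Finset.notMem_empty j)) hc
  exact ⟨B, h1, h2⟩

theorem red_two {R : Finset (Fin g)} {k l : Fin g} (hk : k ∈ R) (hl : l ∈ R) (hkl : k ≠ l)
    {v w : V g} (hv : ∀ i, i ∉ R → v i = 0) (hw : ∀ i, i ∉ R → w i = 0) (h : AdjA v w) :
    ∃ B : Sp g, Fixo R B ∧ B v = e k ∧ B w = e l := by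
  obtain ⟨h0, h1, b, hb1, hb2⟩ := h
  obtain ⟨B, hB, hBv⟩ := red_one hk hv (Uni.left ⟨h1, b, hb1, hb2⟩)
  have j1 : ∀ j ∈ ({k} : Finset (Fin g)), om (e j) (B w) = 0 := by
    intro j hj
    rw [Finset.mem_singleton.1 hj, ← hBv, sp_om, h0]
  have j2 : ∀ j ∈ ({k} : Finset (Fin g)), om (e j) (B b) = 0 := by
    intro j hj
    rw [Finset.mem_singleton.1 hj, ← hBv, sp_om, hb1]
  obtain ⟨C, hC, hCk, hCw⟩ := frame_step (R := R) (J := {k})
    (Finset.singleton_subset_iff.2 hk) hl (fun h => hkl (Finset.mem_singleton.1 h).symm)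
    (hB.supp hw) j1 j2 (by rw [sp_om, hb2])
  refine ⟨C * B, hC.mul hB, ?_, ?_⟩
  · rw [sp_mul, hBv]
    exact hCk k (Finset.mem_singleton_self k)
  · rw [sp_mul, hCw]

theorem red_three {R : Finset (Fin g)} {k l m : Fin g} (hk : k ∈ R) (hl : l ∈ R) (hm : m ∈ R)
    (hkl : k ≠ l) (hkm : k ≠ m) (hlm : l ≠ m)
    {u v w : V g} (hu : ∀ i, i ∉ R → u i = 0) (hv : ∀ i, i ∉ R → v i = 0)
    (hw : ∀ i, i ∉ R → w i = 0) (h : Iso3 u v w) :
    ∃ B : Sp g, Fixo R B ∧ B u = e k ∧ B v = e l ∧ B w = e m := by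
  classical
  obtain ⟨B, hB, hBu, hBv⟩ := red_two hk hl hkl hu hv h.adjA
  obtain ⟨-, h2, h3, -, -, c, c1, c2, c3⟩ := h
  have j1 : ∀ j ∈ ({k, l} : Finset (Fin g)), om (e j) (B w) = 0 := by
    intro j hj
    rcases Finset.mem_insert.1 hj with hj | hj
    · rw [hj, ← hBu, sp_om, h2]
    · rw [Finset.mem_singleton.1 hj, ← hBv, sp_om, h3]
  have j2 : ∀ j ∈ ({k, l} : Finset (Fin g)), om (e j) (B c) = 0 := by
    intro j hj
    rcases Finset.mem_insert.1 hj with hj | hj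
    · rw [hj, ← hBu, sp_om, c1]
    · rw [Finset.mem_singleton.1 hj, ← hBv, sp_om, c2]
  have hsub : ({k, l} : Finset (Fin g)) ⊆ R := by
    intro j hj
    rcases Finset.mem_insert.1 hj with hj | hj
    · rw [hj]
      exact hk
    · rw [Finset.mem_singleton.1 hj]
      exact hl
  have hmJ : m ∉ ({k, l} : Finset (Fin g)) := by
    intro hj
    rcases Finset.mem_insert.1 hj with hj | hj
    · exact hkm hj.symm
    · exact hlm (Finset.mem_singleton.1 hj).symm
  obtain ⟨C, hC, hCk, hCw⟩ := frame_step hsub hm hmJ (hB.supp hw) j1 j2 (by rw [sp_om, c3])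
  refine ⟨C * B, hC.mul hB, ?_, ?_, ?_⟩
  · rw [sp_mul, hBu]
    exact hCk k (Finset.mem_insert_self k {l})
  · rw [sp_mul, hBv]
    exact hCk l (Finset.mem_insert_of_mem (Finset.mem_singleton_self l))
  · rw [sp_mul, hCw]

lemma supp_erase {z : Fin g} {v : V g} (h1 : om v (e z) = 0) (h2 : om v (f z) = 0) :
    ∀ i, i ∉ (Finset.univ.erase z : Finset (Fin g)) → v i = 0 := by
  intro i hi
  have hiz : i = z := by
    by_contra h
    exact hi (Finset.mem_erase.2 ⟨h, Finset.mem_univ i⟩)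
  rw [om_e] at h1
  rw [om_f] at h2
  rw [hiz]
  refine Prod.ext h2 ?_
  change (v z).2 = 0
  omega

lemma supp_univ {v : V g} : ∀ i, i ∉ (Finset.univ : Finset (Fin g)) → v i = 0 :=
  fun i hi => absurd (Finset.mem_univ i) hi

/-- (S1'') -/
theorem trans_one (k : Fin g) {v : V g} (h : Prim v) : ∃ A : Sp g, A (e k) = v := by
  obtain ⟨B, -, h1⟩ := red_one (Finset.mem_univ k) supp_univ h
  exact ⟨B⁻¹, by rw [← h1, sp_inv_apply]⟩

/-- (S1'') in the complement of the handle `z`. -/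
theorem trans_one_block {z k : Fin g} (hk : k ≠ z) {v : V g} (h : Prim v)
    (h1 : om v (e z) = 0) (h2 : om v (f z) = 0) :
    ∃ A : Sp g, A (e z) = e z ∧ A (f z) = f z ∧ A (e k) = v := by
  obtain ⟨B, hB, h3⟩ := red_one (Finset.mem_erase.2 ⟨hk, Finset.mem_univ k⟩) (supp_erase h1 h2) h
  have h4 := hB.inv z (Finset.notMem_erase z _)
  exact ⟨B⁻¹, h4.1, h4.2, by rw [← h3, sp_inv_apply]⟩

/-- (S1) -/
theorem trans_two {k l : Fin g} (hkl : k ≠ l) {v w : V g} (h : AdjA v w) :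
    ∃ A : Sp g, A (e k) = v ∧ A (e l) = w := by
  obtain ⟨B, -, h1, h2⟩ := red_two (Finset.mem_univ k) (Finset.mem_univ l) hkl supp_univ
    supp_univ h
  exact ⟨B⁻¹, by rw [← h1, sp_inv_apply], by rw [← h2, sp_inv_apply]⟩

/-- (S1) in the complement of the handle `z`. -/
theorem trans_two_block {z k l : Fin g} (hk : k ≠ z) (hl : l ≠ z) (hkl : k ≠ l) {v w : V g}
    (h : AdjA v w) (h1 : om v (e z) = 0) (h2 : om v (f z) = 0) (h3 : om w (e z) = 0)
    (h4 : om w (f z) = 0) :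
    ∃ A : Sp g, A (e z) = e z ∧ A (f z) = f z ∧ A (e k) = v ∧ A (e l) = w := by
  obtain ⟨B, hB, h5, h6⟩ := red_two (Finset.mem_erase.2 ⟨hk, Finset.mem_univ k⟩)
    (Finset.mem_erase.2 ⟨hl, Finset.mem_univ l⟩) hkl (supp_erase h1 h2) (supp_erase h3 h4) h
  have h7 := hB.inv z (Finset.notMem_erase z _)
  exact ⟨B⁻¹, h7.1, h7.2, by rw [← h5, sp_inv_apply], by rw [← h6, sp_inv_apply]⟩

/-- (S1') -/
theorem trans_three {k l m : Fin g} (hkl : k ≠ l) (hkm : k ≠ m) (hlm : l ≠ m) {u v w : V g}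
    (h : Iso3 u v w) : ∃ A : Sp g, A (e k) = u ∧ A (e l) = v ∧ A (e m) = w := by
  obtain ⟨B, -, h1, h2, h3⟩ := red_three (Finset.mem_univ k) (Finset.mem_univ l)
    (Finset.mem_univ m) hkl hkm hlm supp_univ supp_univ supp_univ h
  exact ⟨B⁻¹, by rw [← h1, sp_inv_apply], by rw [← h2, sp_inv_apply],
    by rw [← h3, sp_inv_apply]⟩

/-- (S1') in the complement of the handle `z`. -/
theorem trans_three_block {z k l m : Fin g} (hk : k ≠ z) (hl : l ≠ z) (hm : m ≠ z) (hkl : k ≠ l)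
    (hkm : k ≠ m) (hlm : l ≠ m) {u v w : V g} (h : Iso3 u v w)
    (h1 : om u (e z) = 0) (h2 : om u (f z) = 0) (h3 : om v (e z) = 0) (h4 : om v (f z) = 0)
    (h5 : om w (e z) = 0) (h6 : om w (f z) = 0) :
    ∃ A : Sp g, A (e z) = e z ∧ A (f z) = f z ∧ A (e k) = u ∧ A (e l) = v ∧ A (e m) = w := by
  obtain ⟨B, hB, h7, h8, h9⟩ := red_three (Finset.mem_erase.2 ⟨hk, Finset.mem_univ k⟩)
    (Finset.mem_erase.2 ⟨hl, Finset.mem_univ l⟩) (Finset.mem_erase.2 ⟨hm, Finset.mem_univ m⟩)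
    hkl hkm hlm (supp_erase h1 h2) (supp_erase h3 h4) (supp_erase h5 h6) h
  have h10 := hB.inv z (Finset.notMem_erase z _)
  exact ⟨B⁻¹, h10.1, h10.2, by rw [← h7, sp_inv_apply], by rw [← h8, sp_inv_apply],
    by rw [← h9, sp_inv_apply]⟩

/-! ### The stabiliser of `e k` -/

/-- Elements fixing `e k`, abstract version: `R` a set of handles not containing `k`, and `A`
fixes `e k` and all handles outside `insert k R`. -/
theorem stab_e_aux {H : Subgroup (Sp g)} {R : Finset (Fin g)} {k : Fin g} (hk : k ∉ R)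
    (hH : EGen H R) (he : ∀ s, T (e k) s ∈ H)
    (hS : ∀ i ∈ R, ∀ s, S (e k) (e i) s ∈ H ∧ S (e k) (f i) s ∈ H) {A : Sp g}
    (hAe : A (e k) = e k) (hA : Fixo (insert k R) A) : A ∈ H := by
  classical
  let K : Subgroup (Sp g) := H.map (MulAut.conj (Rt k)).toMonoidHom
  have hK : ∀ B : Sp g, B ∈ H → Rt k * B * (Rt k)⁻¹ ∈ K := fun B hB =>
    Subgroup.mem_map.2 ⟨B, hB, rfl⟩
  have hne : ∀ i ∈ R, k ≠ i := fun i hi h => hk (h ▸ hi)
  have hEK : EGen K R := by
    refine ⟨fun i hi s => ?_, fun i hi s => ?_, fun i hi j hj hij s => ?_⟩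
    · have h1 := hK _ (hH.he i hi s)
      rwa [T_conj, Rt_e_ne (hne i hi)] at h1
    · have h1 := hK _ (hH.hf i hi s)
      rwa [T_conj, Rt_f_ne (hne i hi)] at h1
    · have h1 := hK _ (hH.hS i hi j hj hij s)
      rwa [S_conj, Rt_e_ne (hne i hi), Rt_f_ne (hne j hj)] at h1
  have hfK : ∀ s, T (f k) s ∈ K := fun s => by
    have h1 := hK _ (he s)
    rwa [T_conj, Rt_e] at h1
  have hSK : ∀ i ∈ R, ∀ s, S (f k) (e i) s ∈ K ∧ S (f k) (f i) s ∈ K := by
    intro i hi s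
    have h1 := hK _ (hS i hi s).1
    have h2 := hK _ (hS i hi s).2
    rw [S_conj, Rt_e, Rt_e_ne (hne i hi)] at h1
    rw [S_conj, Rt_e, Rt_f_ne (hne i hi)] at h2
    exact ⟨h1, h2⟩
  have hinv : ∀ x : V g, (Rt k)⁻¹ (Rt k x) = x := fun x => sp_inv_apply (Rt k) x
  have h1 : Rt k * A * (Rt k)⁻¹ ∈ K := by
    refine stab_f_aux hk hEK hfK hSK ?_ ?_
    · have e1 : (Rt k)⁻¹ (f k) = e k := by
        rw [← Rt_e k, hinv]
      rw [sp_mul, sp_mul, e1, hAe, Rt_e]
    · intro i hi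
      have hki : k ≠ i := fun h => hi (h ▸ Finset.mem_insert_self k R)
      have e1 : (Rt k)⁻¹ (e i) = e i := by
        conv_lhs => rw [← Rt_e_ne hki]
        rw [hinv]
      have e2 : (Rt k)⁻¹ (f i) = f i := by
        conv_lhs => rw [← Rt_f_ne hki]
        rw [hinv]
      rw [sp_mul, sp_mul, sp_mul, sp_mul, e1, e2, (hA i hi).1, (hA i hi).2, Rt_e_ne hki,
        Rt_f_ne hki]
      exact ⟨rfl, rfl⟩
  obtain ⟨B, hB, hBA⟩ := Subgroup.mem_map.1 h1
  have h2 : Rt k * B * (Rt k)⁻¹ = Rt k * A * (Rt k)⁻¹ := hBA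
  have h3 : B = A := by
    have := mul_right_cancel h2
    exact mul_left_cancel this
  rwa [← h3]

/-- (S2) The elements fixing `e z` and all handles outside `r, …, z` are products of the
transvections along the standard classes of these handles but `f z`. -/
theorem stab_e_last {r : ℕ} {P Q R : ℕ → Prop} {z : Fin g} (hrz : r ≤ (z : ℕ))
    (hP : ∀ i, r ≤ i → i ≤ z → P i) (hQ : ∀ i, r ≤ i → i < z → Q i)
    (hR : ∀ j, r + 1 ≤ j → j ≤ z → R j) {A : Sp g} (hA : A (e z) = e z)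
    (hfix : ∀ i : Fin g, (i : ℕ) < r ∨ (z : ℕ) < i → A (e i) = e i ∧ A (f i) = f i) :
    A ∈ HumP g P Q R := by
  classical
  have hE : EGen (HumP g P Q R) (Iv g r z) :=
    egen_Iv (fun i hi hi' => ⟨he_mem (hP i hi hi'.le) 1, hf_mem (hQ i hi hi') 1⟩)
      (fun i j hij hi hj => hc_mem hij (hR j (by omega) hj.le) 1)
  have hzI : z ∉ Iv g r z := by
    rw [mem_Iv]
    omega
  refine stab_e_aux hzI hE (fun s => he_mem (hP z hrz (le_refl _)) s) ?_ hA (fun i hi => hfix i ?_)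
  · intro i hi
    have hi1 := mem_Iv.1 hi
    let o : Fin g := ⟨z - 1, by omega⟩
    have hov : (o : ℕ) = z - 1 := rfl
    have hoI : o ∈ Iv g r z := mem_Iv.2 ⟨by omega, by omega⟩
    have hoz : (z : ℕ) = o + 1 := by omega
    have hne : o ≠ z := adj_ne hoz
    have h1 : ∀ s, S (e z) (e o) s ∈ HumP g P Q R := by
      intro s
      have h2 : T (f o - e z) 1 ∈ HumP g P Q R := hc_mem hoz (hR z (by omega) (le_refl _)) 1
      have h3 : T (-e z) 1 ∈ HumP g P Q R := by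
        rw [T_neg]
        exact he_mem (hP z hrz (le_refl _)) 1
      have h4 := S_mem_of (hf_mem (hQ o (by omega) (by omega)) 1) h3
        (by rw [← sub_eq_add_neg]; exact h2) s
      rw [S_neg_right (om_f_e_ne hne), S_comm (om_f_e_ne hne)] at h4
      have h5 := S_conj_mem (hE.rt hoI) h4
      rwa [Rt_e_ne hne, Rt_f, S_neg_right (om_e_e z o), neg_neg] at h5
    exact spread_S hE hoI (fun j hj => e_ne (fun h : j = z => hzI (h ▸ hj))) h1 i hi
  · by_contra h
    apply hi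
    rw [Finset.mem_insert, mem_Iv]
    by_cases hiz : i = z
    · exact Or.inl hiz
    · right
      have : (i : ℕ) ≠ z := fun h => hiz (Fin.ext h)
      omega

/-! ### The stabiliser of `e k, e l` -/

/-- Elements fixing `e k` and `e l`, abstract version. -/
theorem stab_ee_aux {H : Subgroup (Sp g)} {R : Finset (Fin g)} {k l : Fin g} (hkl : k ≠ l)
    (hk : k ∉ R) (hl : l ∉ R) (hH : EGen H R) (hek : ∀ s, T (e k) s ∈ H)
    (hel : ∀ s, T (e l) s ∈ H) (hkle : ∀ s, S (e k) (e l) s ∈ H)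
    (hSk : ∀ i ∈ R, ∀ s, S (e k) (e i) s ∈ H ∧ S (e k) (f i) s ∈ H)
    (hSl : ∀ i ∈ R, ∀ s, S (e l) (e i) s ∈ H ∧ S (e l) (f i) s ∈ H) {A : Sp g}
    (hAk : A (e k) = e k) (hAl : A (e l) = e l) (hA : Fixo (insert k (insert l R)) A) :
    A ∈ H := by
  classical
  obtain ⟨w, hw⟩ : ∃ w : V g, w = A (f k) := ⟨_, rfl⟩
  have hwk : (w k).2 = 0 + 1 := by
    have h1 := sp_om A (e k) (f k)
    rw [hAk, om_e_f, ← hw, om_e'] at h1
    rw [h1, zero_add]
  have hwl : (w l).2 = 0 := by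
    have h1 := sp_om A (e l) (f k)
    rw [hAl, om_e_f_ne hkl.symm, ← hw, om_e'] at h1
    exact h1
  have hwsupp : ∀ i, i ∉ insert k (insert l R) → w i = 0 := by
    intro i hi
    have hik : i ≠ k := fun h => hi (by rw [h]; exact Finset.mem_insert_self k _)
    have h1 := sp_om A (f k) (e i)
    have h2 := sp_om A (f k) (f i)
    rw [(hA i hi).1, ← hw, om_e, om_f_e_ne hik.symm] at h1
    rw [(hA i hi).2, ← hw, om_f, om_f_f] at h2
    refine Prod.ext h2 ?_
    change (w i).2 = 0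
    omega
  obtain ⟨u, hu⟩ : ∃ u : V g, u = ∑ i ∈ R, ((w i).1 • e i + (w i).2 • f i) := ⟨_, rfl⟩
  obtain ⟨y, hy⟩ : ∃ y : V g, y = (w l).1 • e l + u := ⟨_, rfl⟩
  have hwy : w = f k + (w k).1 • e k + y := by
    have h1 : ∑ i, ((w i).1 • e i + (w i).2 • f i) =
        ∑ i ∈ insert k (insert l R), ((w i).1 • e i + (w i).2 • f i) := by
      symm
      refine Finset.sum_subset (Finset.subset_univ _) ?_
      intro i _ hi
      rw [hwsupp i hi]
      simp
    have hk' : k ∉ insert l R := by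
      intro h
      rcases Finset.mem_insert.1 h with h | h
      · exact hkl h
      · exact hk h
    conv_lhs => rw [expand w]
    rw [h1, Finset.sum_insert hk', Finset.sum_insert hl, hwk, hwl, hy, hu]
    module
  have hui : ∀ i, i ∉ R → u i = 0 := by
    intro i hi
    rw [hu, Finset.sum_apply, Finset.sum_eq_zero]
    intro j hj
    have hij : i ≠ j := fun h => hi (h ▸ hj)
    rw [Pi.add_apply, Pi.smul_apply, Pi.smul_apply, e_ne hij, f_ne hij]
    simp
  have hyk : y k = 0 := by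
    rw [hy, Pi.add_apply, Pi.smul_apply, e_ne hkl, hui k hk]
    simp
  have hyl : (y l).2 = 0 := by
    rw [hy, Pi.add_apply, Pi.smul_apply, e_self, hui l hl]
    simp
  have hyi : ∀ i, i ∉ insert k (insert l R) → y i = 0 := by
    intro i hi
    have h1 : i ≠ l := fun h => hi (Finset.mem_insert_of_mem (by rw [h]; exact Finset.mem_insert_self l _))
    have h2 : i ∉ R := fun h => hi (Finset.mem_insert_of_mem (Finset.mem_insert_of_mem h))
    rw [hy, Pi.add_apply, Pi.smul_apply, e_ne h1, hui i h2]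
    simp
  have heky : om (e k) y = 0 := by rw [om_e', hyk]; rfl
  have hfky : om (f k) y = 0 := by rw [om_f', hyk]; rfl
  have hely : om (e l) y = 0 := by rw [om_e', hyl]
  have h1 : om (e k) ((w l).1 • (e l : V g)) = 0 := by rw [om_smul_right, om_e_e, mul_zero]
  have h2 : om (e k) u = 0 := by rw [om_e', hui k hk]; rfl
  have hSy : S (e k) y 1 ∈ H := by
    rw [hy, S_add_right h1 h2, S_smul_right (om_e_e k l)]
    have m1 := hkle ((w l).1 * 1)
    have m2 : S (e k) u 1 ∈ H := by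
      rw [hu]
      refine S_sum_mem hek R (fun i hi => ⟨om_e_e k i, om_e_f_ne (fun h => hk (h ▸ hi))⟩) hSk w 1
    exact mul_mem (mul_mem m1 m2) (hek _)
  obtain ⟨C, hC⟩ : ∃ C : Sp g, C = T (e k) (w k).1 * S (e k) y 1 := ⟨_, rfl⟩
  have hCH : C ∈ H := by
    rw [hC]
    exact H.mul_mem (hek _) hSy
  have hCk : C (e k) = e k := by
    rw [hC, sp_mul, S_fix heky (om_self _) heky, T_fix (om_self _)]
  have hCl : C (e l) = e l := by
    rw [hC, sp_mul, S_fix heky (om_e_e l k) hely, T_fix (om_e_e l k)]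
  have hCw : C w = f k := by
    have e1 : S (e k) y 1 w = f k + (w k).1 • e k := by
      conv_lhs => rw [hwy]
      have e2 : om y (e k) = 0 := by rw [om_swap, heky, neg_zero]
      have e3 : om y y = 0 := om_self y
      rw [S_apply heky, om_add_left, om_add_left, om_add_left, om_add_left, om_smul_left,
        om_smul_left, om_f_e, om_e_e, e2, hfky, heky, e3]
      module
    rw [hC, sp_mul, e1, T_apply, om_add_left, om_smul_left, om_f_e, om_e_e]
    module
  have hCfix : Fixo (insert k (insert l R)) C := by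
    intro i hi
    have hik : i ≠ k := fun h => hi (by rw [h]; exact Finset.mem_insert_self k _)
    have h3 : om (e i) y = 0 := by rw [om_e', hyi i hi]; rfl
    have h4 : om (f i) y = 0 := by rw [om_f', hyi i hi]; rfl
    rw [hC]
    constructor
    · rw [sp_mul, S_fix heky (om_e_e i k) h3, T_fix (om_e_e i k)]
    · rw [sp_mul, S_fix heky (om_f_e_ne hik) h4, T_fix (om_f_e_ne hik)]
  have hfin : C * A ∈ H := by
    refine stab_e_aux hl hH hel hSl ?_ ?_
    · rw [sp_mul, hAl, hCl]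
    · intro i hi
      by_cases hik : i = k
      · rw [hik, sp_mul, sp_mul, hAk, hCk, ← hw, hCw]
        exact ⟨rfl, rfl⟩
      · have hi' : i ∉ insert k (insert l R) := by
          intro h
          rcases Finset.mem_insert.1 h with h | h
          · exact hik h
          · exact hi h
        exact (hCfix.mul hA) i hi'
  have h3 := H.mul_mem (H.inv_mem hCH) hfin
  rwa [inv_mul_cancel_left] at h3

/-- (S2c) The stabiliser of `e k` and `e l` is generated by its elements fixing a third handle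
`z` and the elements fixing the handles `k` and `l`; there has to be a fourth handle `o`. -/
theorem stab_ee {k l z o : Fin g} (hkl : k ≠ l) (hzk : z ≠ k) (hzl : z ≠ l) (hok : o ≠ k)
    (hol : o ≠ l) (hoz : o ≠ z) {A : Sp g} (hAk : A (e k) = e k) (hAl : A (e l) = e l) :
    A ∈ Subgroup.closure ({B : Sp g | B (e k) = e k ∧ B (e l) = e l ∧ B (e z) = e z ∧
      B (f z) = f z} ∪ {B : Sp g | B (e k) = e k ∧ B (f k) = f k ∧ B (e l) = e l ∧
      B (f l) = f l}) := by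
  classical
  obtain ⟨H, hH⟩ : ∃ H : Subgroup (Sp g), H = Subgroup.closure ({B : Sp g | B (e k) = e k ∧
      B (e l) = e l ∧ B (e z) = e z ∧ B (f z) = f z} ∪ {B : Sp g | B (e k) = e k ∧
      B (f k) = f k ∧ B (e l) = e l ∧ B (f l) = f l}) := ⟨_, rfl⟩
  rw [← hH]
  have m1 : ∀ B : Sp g, B (e k) = e k → B (e l) = e l → B (e z) = e z → B (f z) = f z →
      B ∈ H := by
    intro B h1 h2 h3 h4
    rw [hH]
    exact Subgroup.subset_closure (Or.inl ⟨h1, h2, h3, h4⟩)
  have m2 : ∀ B : Sp g, B (e k) = e k → B (f k) = f k → B (e l) = e l → B (f l) = f l →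
      B ∈ H := by
    intro B h1 h2 h3 h4
    rw [hH]
    exact Subgroup.subset_closure (Or.inr ⟨h1, h2, h3, h4⟩)
  obtain ⟨R, hR⟩ : ∃ R : Finset (Fin g), R = (Finset.univ.erase k).erase l := ⟨_, rfl⟩
  have hRm : ∀ i, i ∈ R ↔ i ≠ k ∧ i ≠ l := by
    intro i
    rw [hR, Finset.mem_erase, Finset.mem_erase]
    exact ⟨fun h => ⟨h.2.1, h.1⟩, fun h => ⟨h.2, h.1, Finset.mem_univ i⟩⟩
  have hkR : k ∉ R := fun h => ((hRm k).1 h).1 rfl
  have hlR : l ∉ R := fun h => ((hRm l).1 h).2 rfl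
  have hoR : o ∈ R := (hRm o).2 ⟨hok, hol⟩
  have hE : EGen H R := by
    refine ⟨fun i hi s => ?_, fun i hi s => ?_, fun i hi j hj hij s => ?_⟩
    · obtain ⟨h1, h2⟩ := (hRm i).1 hi
      exact m2 _ (T_fix (om_e_e k i) s) (T_fix (om_f_e_ne h1.symm) s) (T_fix (om_e_e l i) s)
        (T_fix (om_f_e_ne h2.symm) s)
    · obtain ⟨h1, h2⟩ := (hRm i).1 hi
      exact m2 _ (T_fix (om_e_f_ne h1.symm) s) (T_fix (om_f_f k i) s)
        (T_fix (om_e_f_ne h2.symm) s) (T_fix (om_f_f l i) s)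
    · obtain ⟨h1, h2⟩ := (hRm i).1 hi
      obtain ⟨h3, h4⟩ := (hRm j).1 hj
      have h0 : om (e i) (f j) = 0 := om_e_f_ne hij
      exact m2 _ (S_fix h0 (om_e_e k i) (om_e_f_ne h3.symm) s)
        (S_fix h0 (om_f_e_ne h1.symm) (om_f_f k j) s)
        (S_fix h0 (om_e_e l i) (om_e_f_ne h4.symm) s)
        (S_fix h0 (om_f_e_ne h2.symm) (om_f_f l j) s)
  refine stab_ee_aux hkl hkR hlR hE ?_ ?_ ?_ ?_ ?_ hAk hAl ?_
  · intro s
    exact m1 _ (T_fix (om_e_e k k) s) (T_fix (om_e_e l k) s) (T_fix (om_e_e z k) s)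
      (T_fix (om_f_e_ne hzk) s)
  · intro s
    exact m1 _ (T_fix (om_e_e k l) s) (T_fix (om_e_e l l) s) (T_fix (om_e_e z l) s)
      (T_fix (om_f_e_ne hzl) s)
  · intro s
    have h0 : om (e k) (e l) = 0 := om_e_e k l
    exact m1 _ (S_fix h0 (om_e_e k k) (om_e_e k l) s) (S_fix h0 (om_e_e l k) (om_e_e l l) s)
      (S_fix h0 (om_e_e z k) (om_e_e z l) s) (S_fix h0 (om_f_e_ne hzk) (om_f_e_ne hzl) s)
  · refine spread_S hE hoR (fun i hi => e_ne ((hRm i).1 hi).1) ?_
    intro s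
    have h0 : om (e k) (e o) = 0 := om_e_e k o
    exact m1 _ (S_fix h0 (om_e_e k k) (om_e_e k o) s) (S_fix h0 (om_e_e l k) (om_e_e l o) s)
      (S_fix h0 (om_e_e z k) (om_e_e z o) s) (S_fix h0 (om_f_e_ne hzk) (om_f_e_ne hoz.symm) s)
  · refine spread_S hE hoR (fun i hi => e_ne ((hRm i).1 hi).2) ?_
    intro s
    have h0 : om (e l) (e o) = 0 := om_e_e l o
    exact m1 _ (S_fix h0 (om_e_e k l) (om_e_e k o) s) (S_fix h0 (om_e_e l l) (om_e_e l o) s)
      (S_fix h0 (om_e_e z l) (om_e_e z o) s) (S_fix h0 (om_f_e_ne hzl) (om_f_e_ne hoz.symm) s)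
  · intro i hi
    exfalso
    apply hi
    rw [Finset.mem_insert, Finset.mem_insert, hRm]
    tauto

end Pool.Agent.H.MP_59b15d_al.PC
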