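/-
Lifts of symplectic maps to products of twists.
-/
import Pool.Agent.H.MP_59b15d_al.h11c.Hone
import Pool.Agent.H.MP_59b15d_al.h60g.Ba
import Pool.Agent.H.MP_59b15d_al.pk.SpF

set_option autoImplicit false

namespace Pool.Agent.H.MP_59b15d_al.PC

open SP
open Pool.MP_59b15d_al.H24T
open Pool.MP_59b15d_al.H76R hiding MR
open Pool.MP_59b15d_al.H60G (MR MR_le)

variable {g : ℕ} {G : Type*} [Group G] {a b : Fin g → G} (h : IsSurf a b)

/-- Elements of `HumP` lift to products of the corresponding twists. -/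
theorem exists_lift {P Q R : ℕ → Prop} {A : Sp g} (hA : A ∈ HumP g P Q R) :
    ∃ φ ∈ Subgroup.closure (Twists a b P Q R), H1 h φ = A.1 := by
  have hle : HumP g P Q R ≤
      ((Subgroup.closure (Twists a b P Q R)).map (H1 h)).comap (Sp g).subtype := by
    rw [HumP, Subgroup.closure_le]
    rintro _ (⟨i, hi, rfl⟩ | ⟨i, hi, rfl⟩ | ⟨i, j, hij, hj, rfl⟩)
    · refine Subgroup.mem_map.2 ⟨(TA h i)⁻¹, Subgroup.inv_mem _ (Subgroup.subset_closure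
        (Or.inl ⟨i, hi, (isA_iff h i _).2 rfl⟩)), ?_⟩
      rw [map_inv, H1_A h ((isA_iff h i _).2 rfl)]
      have h1 : ((T (e i) (-1))⁻¹ : Sp g) = T (e i) 1 := by rw [T_inv, neg_neg]
      exact congrArg Subtype.val h1
    · exact Subgroup.mem_map.2 ⟨TB h i, Subgroup.subset_closure
        (Or.inr (Or.inl ⟨i, hi, (isB_iff h i _).2 rfl⟩)), H1_B h ((isB_iff h i _).2 rfl)⟩
    · exact Subgroup.mem_map.2 ⟨TC h i j hij, Subgroup.subset_closure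
        (Or.inr (Or.inr ⟨i, j, hij, hj, (isC_iff h i j hij _).2 rfl⟩)),
        H1_C h (adj_ne hij) ((isC_iff h i j hij _).2 rfl)⟩
  obtain ⟨φ, h1, h2⟩ := Subgroup.mem_map.1 (hle hA)
  exact ⟨φ, h1, h2⟩

/-- Products of twists act by elements of `HumP`. -/
theorem exists_image {P Q R : ℕ → Prop} {φ : MulAut G}
    (hφ : φ ∈ Subgroup.closure (Twists a b P Q R)) : ∃ A ∈ HumP g P Q R, H1 h φ = A.1 := by
  have hle : Subgroup.closure (Twists a b P Q R) ≤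
      ((HumP g P Q R).map (Sp g).subtype).comap (H1 h) := by
    rw [Subgroup.closure_le]
    rintro τ (⟨i, hi, hT⟩ | ⟨i, hi, hT⟩ | ⟨i, j, hij, hj, hT⟩)
    · exact Subgroup.mem_map.2 ⟨T (e i) (-1), he_mem hi _, (H1_A h hT).symm⟩
    · exact Subgroup.mem_map.2 ⟨T (f i) 1, hf_mem hi _, (H1_B h hT).symm⟩
    · exact Subgroup.mem_map.2 ⟨T (f i - e j) 1, hc_mem hij hj _,
        (H1_C h (adj_ne hij) hT).symm⟩
  obtain ⟨A, h1, h2⟩ := Subgroup.mem_map.1 (hle hφ)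
  exact ⟨A, h1, h2.symm⟩

theorem MR_eq_closure (lo hi : ℕ) : MR h lo hi = Subgroup.closure
    (Twists a b (fun i => lo ≤ i ∧ i < hi) (fun i => lo ≤ i ∧ i < hi)
      (fun j => lo + 1 ≤ j ∧ j < hi)) := by
  rw [Twists_eq h, MR]
  congr 1
  ext T
  constructor
  · rintro (⟨i, h1, h2, rfl⟩ | ⟨i, h1, h2, rfl⟩ | ⟨i, j, hij, h1, h2, rfl⟩)
    · exact Or.inl ⟨i, ⟨h1, h2⟩, rfl⟩
    · exact Or.inr (Or.inl ⟨i, ⟨h1, h2⟩, rfl⟩)
    · exact Or.inr (Or.inr ⟨i, j, hij, ⟨by omega, h2⟩, rfl⟩)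
  · rintro (⟨i, ⟨h1, h2⟩, rfl⟩ | ⟨i, ⟨h1, h2⟩, rfl⟩ | ⟨i, j, hij, ⟨h1, h2⟩, rfl⟩)
    · exact Or.inl ⟨i, h1, h2, rfl⟩
    · exact Or.inr (Or.inl ⟨i, h1, h2, rfl⟩)
    · exact Or.inr (Or.inr ⟨i, j, hij, by omega, h2, rfl⟩)

/-- Symplectic maps fixing the handles outside `lo, …, hi - 1` lift to `MR h lo hi`. -/
theorem exists_lift_MR {lo hi : ℕ} {A : Sp g}
    (hA : ∀ i : Fin g, ¬ (lo ≤ (i : ℕ) ∧ (i : ℕ) < hi) → A (e i) = e i ∧ A (f i) = f i) :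
    ∃ φ ∈ MR h lo hi, H1 h φ = A.1 := by
  have h1 : A ∈ HumP g (fun i => lo ≤ i ∧ i < hi) (fun i => lo ≤ i ∧ i < hi)
      (fun j => lo + 1 ≤ j ∧ j < hi) :=
    mem_HumP_of_fix (fun i h1 h2 => ⟨h1, h2⟩) (fun i h1 h2 => ⟨h1, h2⟩)
      (fun j h1 h2 => ⟨h1, h2⟩) hA
  obtain ⟨φ, h2, h3⟩ := exists_lift h h1
  rw [← MR_eq_closure h] at h2
  exact ⟨φ, h2, h3⟩

/-- Elements of `MR h lo hi` act by symplectic maps fixing the other handles. -/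
theorem exists_image_MR {lo hi : ℕ} {φ : MulAut G} (hφ : φ ∈ MR h lo hi) :
    ∃ A : Sp g, H1 h φ = A.1 ∧
      ∀ i : Fin g, ¬ (lo ≤ (i : ℕ) ∧ (i : ℕ) < hi) → A (e i) = e i ∧ A (f i) = f i := by
  have hc : Subgroup.closure (Twists a b (fun i => lo ≤ i ∧ i < hi) (fun i => lo ≤ i ∧ i < hi)
      (fun j => lo + 1 ≤ j ∧ j < hi)) ≤ MCG a b := by
    rw [MCG]
    refine Subgroup.closure_mono ?_
    rintro τ (⟨i, -, hT⟩ | ⟨i, -, hT⟩ | ⟨i, j, hij, -, hT⟩)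
    · exact Or.inr (Or.inl ⟨i, trivial, hT⟩)
    · exact Or.inr (Or.inr (Or.inl ⟨i, trivial, hT⟩))
    · exact Or.inr (Or.inr (Or.inr ⟨i, j, hij, trivial, hT⟩))
  have hm : φ ∈ MCG a b := hc (by rw [← MR_eq_closure h]; exact hφ)
  refine ⟨⟨H1 h φ, H1_mem_Sp h hm⟩, rfl, ?_⟩
  let K : Subgroup (V g ≃ₗ[ℤ] V g) :=
    { carrier := {L | ∀ i : Fin g, ¬ (lo ≤ (i : ℕ) ∧ (i : ℕ) < hi) → L (e i) = e i ∧ L (f i) = f i}
      one_mem' := fun i _ => ⟨rfl, rfl⟩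
      mul_mem' := by
        intro L L' h1 h2 i hi
        change L (L' (e i)) = e i ∧ L (L' (f i)) = f i
        rw [(h2 i hi).1, (h2 i hi).2]
        exact h1 i hi
      inv_mem' := by
        intro L h1 i hi
        have e1 : L⁻¹ (L (e i)) = e i := L.symm_apply_apply _
        have e2 : L⁻¹ (L (f i)) = f i := L.symm_apply_apply _
        rw [(h1 i hi).1] at e1
        rw [(h1 i hi).2] at e2
        exact ⟨e1, e2⟩ }
  have hle : MR h lo hi ≤ K.comap (H1 h) := by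
    refine MR_le h ?_ ?_ ?_
    · intro i h1 h2 k hk
      have hne : k ≠ i := fun h3 => hk (h3 ▸ ⟨h1, h2⟩)
      rw [H1_A h ((isA_iff h i _).2 rfl)]
      exact ⟨T_fix (om_e_e k i) _, T_fix (om_f_e_ne hne) _⟩
    · intro i h1 h2 k hk
      have hne : k ≠ i := fun h3 => hk (h3 ▸ ⟨h1, h2⟩)
      rw [H1_B h ((isB_iff h i _).2 rfl)]
      exact ⟨T_fix (om_e_f_ne hne) _, T_fix (om_f_f k i) _⟩
    · intro i j hij h1 h2 k hk
      have hne : k ≠ i := fun h3 => hk (by rw [h3]; omega)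
      have hne' : k ≠ j := fun h3 => hk (by rw [h3]; omega)
      rw [H1_C h (adj_ne hij) ((isC_iff h i j hij _).2 rfl)]
      refine ⟨T_fix ?_ _, T_fix ?_ _⟩
      · rw [om_sub_right, om_e_f_ne hne, om_e_e, sub_zero]
      · rw [om_sub_right, om_f_f, om_f_e_ne hne', sub_zero]
  exact hle hφ

/-- Lifts of the elements of the stabiliser of `e z` which fix the handles outside `r, …, z`. -/
theorem exists_lift_stab {r : ℕ} {z : Fin g} (hrz : r ≤ (z : ℕ)) {A : Sp g} (hA : A (e z) = e z)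
    (hfix : ∀ i : Fin g, (i : ℕ) < r ∨ (z : ℕ) < i → A (e i) = e i ∧ A (f i) = f i) :
    ∃ φ ∈ Subgroup.closure (Twists a b (fun i => r ≤ i ∧ i ≤ z) (fun i => r ≤ i ∧ i < z)
      (fun j => r + 1 ≤ j ∧ j ≤ z)), H1 h φ = A.1 :=
  exists_lift h (stab_e_last hrz (fun i h1 h2 => ⟨h1, h2⟩) (fun i h1 h2 => ⟨h1, h2⟩)
    (fun i h1 h2 => ⟨h1, h2⟩) hA hfix)

end Pool.Agent.H.MP_59b15d_al.PC
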