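import Pool.Agent.H.MP_59b15d_al.h95g.Rec
import Pool.Agent.H.MP_59b15d_al.pk.GTwo
import Pool.Agent.H.MP_59b15d_al.pk.Quo
import Pool.Agent.H.MP_59b15d_al.pk.SpL

/-!
# The Torelli group is generated by the conjugates of the Torelli group of a smaller block
-/

set_option autoImplicit false

namespace Pool.Agent.H.MP_59b15d_al.PK

open SP PC
open Pool.MP_59b15d_al
open Pool.MP_59b15d_al.H24T Pool.MP_59b15d_al.H60G Pool.MP_59b15d_al.H73E
open Pool.MP_59b15d_al.H76R hiding MR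

variable {n : ℕ} {G : Type*} [Group G] {a b : Fin (n + 1) → G}

/-- The action on the first homology. -/
noncomputable def phG (h : IsSurf a b) : MMs h →* Sp (n + 1) :=
  ((H1 h).comp (MMs h).subtype).codRestrict (Sp (n + 1))
    (fun x => H1_mem_Sp h (by rw [MCG_eq h]; exact x.2))

lemma phG_val (h : IsSurf a b) (x : MMs h) : (phG h x).1 = H1 h x.1 := rfl

lemma phG_apply (h : IsSurf a b) (x : MMs h) (v : V (n + 1)) : phG h x v = H1 h x.1 v := rfl

lemma phG_one (h : IsSurf a b) {x : MMs h} (hx : phG h x = 1) : H1 h x.1 = 1 := by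
  rw [← phG_val, hx]; rfl

lemma phG_eq (h : IsSurf a b) {x : MMs h} {A : Sp (n + 1)} (hx : H1 h x.1 = A.1) :
    phG h x = A := Subtype.ext hx

lemma Mcs_MMs (h : IsSurf a b) : Mcs h ≤ MMs h := by
  rw [Mcs, Subgroup.closure_le]
  rintro T (⟨i, rfl⟩ | ⟨i, rfl⟩ | ⟨i, j, hij, rfl⟩)
  · exact Subgroup.subset_closure (Or.inr (Or.inl ⟨_, rfl⟩))
  · exact Subgroup.subset_closure (Or.inr (Or.inr (Or.inl ⟨_, rfl⟩)))
  · exact Subgroup.subset_closure (Or.inr (Or.inr (Or.inr ⟨_, _, _, rfl⟩)))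

lemma Mcs_fix (h : IsSurf a b) {φ : MulAut G} (hφ : φ ∈ Mcs h) :
    H1 h φ (e (Fin.last n)) = e (Fin.last n) := by
  obtain ⟨y, k, f, hf, rfl⟩ := Mcs_form h hφ
  obtain ⟨f', hp⟩ := pair_of_MR h le_rfl f hf
  rw [map_mul, map_mul]
  change H1 h (XX h y) (H1 h (TT h ^ k) (H1 h f (e (Fin.last n)))) = _
  rw [H1_e, hp.fa, cls_a, (H1_TT h k).1, (XF_XX h y).el]

/-- Twists of the closure with all conditions. -/
lemma tw_le_Mcs (h : IsSurf a b) {P Q R : ℕ → Prop} (hQ : ∀ i, Q i → i < n) :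
    Subgroup.closure (Twists a b P Q R) ≤ Mcs h := by
  rw [Twists_eq h, Subgroup.closure_le]
  rintro T (⟨i, _, rfl⟩ | ⟨i, hi, rfl⟩ | ⟨i, j, hij, _, rfl⟩)
  · exact Subgroup.subset_closure (Or.inl ⟨_, rfl⟩)
  · exact Subgroup.subset_closure (Or.inr (Or.inl ⟨⟨i, hQ _ hi⟩, rfl⟩))
  · exact Subgroup.subset_closure (Or.inr (Or.inr ⟨_, _, _, rfl⟩))

lemma tw_le_MR (h : IsSurf a b) {P Q R : ℕ → Prop} {lo hi : ℕ} (hP : ∀ i, P i → lo ≤ i ∧ i < hi)
    (hQ : ∀ i, Q i → lo ≤ i ∧ i < hi) (hR : ∀ j, R j → lo + 1 ≤ j ∧ j < hi) :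
    Subgroup.closure (Twists a b P Q R) ≤ H60G.MR h lo hi := by
  rw [Twists_eq h, Subgroup.closure_le]
  rintro T (⟨i, h1, rfl⟩ | ⟨i, h1, rfl⟩ | ⟨i, j, hij, h1, rfl⟩)
  · exact TA_mem h i (hP _ h1).1 (hP _ h1).2
  · exact TB_mem h i (hQ _ h1).1 (hQ _ h1).2
  · exact TC_mem h i j hij (by have := (hR _ h1).1; omega) (hR _ h1).2

/-- Lifts to the stabiliser. -/
lemma lift_Mcs (h : IsSurf a b) {A : Sp (n + 1)} (hA : A (e (Fin.last n)) = e (Fin.last n)) :
    ∃ c ∈ Mcs h, H1 h c = A.1 := by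
  obtain ⟨φ, h1, h2⟩ := exists_lift_stab h (r := 0) (z := Fin.last n) (Nat.zero_le _) hA
    (fun i hi => by
      exfalso
      rcases hi with hi | hi
      · omega
      · have := i.2
        rw [Fin.val_last] at hi
        omega)
  exact ⟨φ, tw_le_Mcs h (fun i hi => by rw [Fin.val_last] at hi; exact hi.2) h1, h2⟩

lemma lift_Mcs_block (h : IsSurf a b) (hn : 1 ≤ n) {A : Sp (n + 1)}
    (hA : A (e (Fin.last n)) = e (Fin.last n)) (h0 : A (e 0) = e 0 ∧ A (f 0) = f 0) :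
    ∃ c ∈ Mcs h, c ∈ H60G.MR h 1 (n + 1) ∧ H1 h c = A.1 := by
  obtain ⟨φ, h1, h2⟩ := exists_lift_stab h (r := 1) (z := Fin.last n)
    (by rw [Fin.val_last]; exact hn) hA
    (fun i hi => by
      rcases hi with hi | hi
      · have : i = 0 := Fin.ext (by rw [Fin.val_zero]; omega)
        rw [this]
        exact h0
      · exfalso
        have := i.2
        rw [Fin.val_last] at hi
        omega)
  refine ⟨φ, tw_le_Mcs h (fun i hi => by rw [Fin.val_last] at hi; exact hi.2) h1,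
    tw_le_MR h ?_ ?_ ?_ h1, h2⟩
  · intro i hi
    rw [Fin.val_last] at hi
    omega
  · intro i hi
    rw [Fin.val_last] at hi
    omega
  · intro i hi
    rw [Fin.val_last] at hi
    omega

lemma lift_block (h : IsSurf a b) {A : Sp (n + 1)} (h0 : A (e 0) = e 0 ∧ A (f 0) = f 0) :
    ∃ c ∈ H60G.MR h 1 (n + 1), H1 h c = A.1 := by
  refine exists_lift_MR h (fun i hi => ?_)
  have : i = 0 := by
    have := i.2
    apply Fin.ext
    rw [Fin.val_zero]
    omega
  rw [this]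
  exact h0

lemma lift_all (h : IsSurf a b) (A : Sp (n + 1)) : ∃ c : MMs h, phG h c = A := by
  obtain ⟨φ, h1, h2⟩ := exists_lift_MR (lo := 0) (hi := n + 1) (A := A) h (fun i hi => by
    exfalso
    have := i.2
    omega)
  exact ⟨⟨φ, MR_le_MMs h _ _ h1⟩, phG_eq h h2⟩

lemma block_fix (h : IsSurf a b) {m : MMs h} (hm : m.1 ∈ H60G.MR h 1 (n + 1)) :
    phG h m (e 0) = e 0 ∧ phG h m (f 0) = f 0 := by
  obtain ⟨A, h1, h2⟩ := exists_image_MR h hm
  rw [phG_eq h h1]
  exact h2 0 (by rw [Fin.val_zero]; omega)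

/-- Generation. -/
lemma gen_top (h : IsSurf a b) (hn : 1 ≤ n) : (Mcs h).subgroupOf (MMs h) ⊔
    (H60G.MR h 1 (n + 1)).subgroupOf (MMs h) = ⊤ := by
  have hle : TW h ≤ ((Mcs h).subgroupOf (MMs h) ⊔
      (H60G.MR h 1 (n + 1)).subgroupOf (MMs h)).map (MMs h).subtype := by
    rw [TW, Subgroup.closure_le]
    rintro T (⟨i, rfl⟩ | ⟨i, rfl⟩ | ⟨i, j, hij, rfl⟩)
    · have h1 : TA h i ∈ Mcs h := Subgroup.subset_closure (Or.inl ⟨_, rfl⟩)
      exact ⟨⟨TA h i, Mcs_MMs h h1⟩, Subgroup.mem_sup_left h1, rfl⟩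
    · rcases Fin.eq_castSucc_or_eq_last i with ⟨i', rfl⟩ | rfl
      · have h1 : TB h i'.castSucc ∈ Mcs h := Subgroup.subset_closure (Or.inr (Or.inl ⟨_, rfl⟩))
        exact ⟨⟨_, Mcs_MMs h h1⟩, Subgroup.mem_sup_left h1, rfl⟩
      · have h1 : TB h (Fin.last n) ∈ H60G.MR h 1 (n + 1) :=
          TB_mem h _ (by rw [Fin.val_last]; omega) (by rw [Fin.val_last]; omega)
        exact ⟨⟨_, MR_le_MMs h _ _ h1⟩, Subgroup.mem_sup_right h1, rfl⟩
    · have h1 : TC h i j hij ∈ Mcs h := Subgroup.subset_closure (Or.inr (Or.inr ⟨_, _, _, rfl⟩))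
      exact ⟨⟨_, Mcs_MMs h h1⟩, Subgroup.mem_sup_left h1, rfl⟩
  rw [eq_top_iff]
  rintro ⟨x, hx⟩ -
  obtain ⟨y, hy, hyx⟩ := hle (by rw [← MMs_eq_TW]; exact hx)
  have h1 : y = ⟨x, hx⟩ := Subtype.ext hyx
  rwa [h1] at hy

/-- The Torelli group is generated by the conjugates of the Torelli group of the first `n`
handles. -/
theorem torelli (h : IsSurf a b) (hn : 4 ≤ n) {φ : MulAut G} (hφ : φ ∈ MMs h) (h1 : H1 h φ = 1) :
    φ ∈ Rk h := by
  have e0 : ∀ {i : Fin (n + 1)}, 0 < (i : ℕ) → i ≠ 0 := by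
    rintro i hi rfl
    exact lt_irrefl _ hi
  let l : Fin (n + 1) := ⟨n - 1, by omega⟩
  let k : Fin (n + 1) := ⟨n - 2, by omega⟩
  have hlast0 : Fin.last n ≠ 0 := e0 (by rw [Fin.val_last]; omega)
  have hl0 : l ≠ 0 := e0 (by simp only [l]; omega)
  have hk0 : k ≠ 0 := e0 (by simp only [k]; omega)
  have hll : Fin.last n ≠ l := fun h0 => by
    have := congrArg Fin.val h0
    simp only [l, Fin.val_last] at this
    omega
  have hlk : Fin.last n ≠ k := fun h0 => by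
    have := congrArg Fin.val h0
    simp only [k, Fin.val_last] at this
    omega
  have hkl : l ≠ k := fun h0 => by
    have := congrArg Fin.val h0
    simp only [k, l] at this
    omega
  obtain ⟨σ, s1, ⟨s2, s3⟩, -⟩ := exists_swap' h (n - 1) (by omega)
  rw [show n - 1 + 1 = n by omega] at s2 s3
  rw [show n - 1 + 2 = n + 1 by omega] at s1
  have hσ : σ ∈ MMs h := MR_le_MMs h _ _ s1
  have D : Dat (phG h) ((Mcs h).subgroupOf (MMs h)) ((H60G.MR h 1 (n + 1)).subgroupOf (MMs h))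
      ((H60G.MR h 0 (n - 1)).subgroupOf (MMs h)) ((Rk h).subgroupOf (MMs h)) ⟨σ, hσ⟩
      (e (Fin.last n)) (e l) (e k) (fun v => om v (e 0) = 0 ∧ om v (f 0) = 0) := by
    refine
      { normal := ⟨fun x hx y => ?_⟩
        triv := fun r hr => phG_eq h (Rk_H1 h hr)
        cfix := fun c hc => Mcs_fix h hc
        csec := fun A hA => ?_
        ctor := fun m hm h2 => ?_
        dsec := fun m hm h2 => ?_
        dtor := fun m hm h2 => ?_
        du := fun m hm v hv => ?_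
        gen := ?_
        rhoD := ?_
        rho1 := ?_
        rcomm := fun c hc => ?_
        rle := fun c hc => ?_
        stab := fun c hc h2 => ?_
        u1 := ⟨om_e_e _ _, om_e_f_ne hlast0⟩
        u2 := ⟨om_e_e _ _, om_e_f_ne hl0⟩
        u3 := ⟨om_e_e _ _, om_e_f_ne hk0⟩
        iso := ?_
        dtrans := fun v w hv hw h2 => ?_
        trans2 := fun v w h2 => ?_
        trans3 := fun u v w h2 => ?_ }
    · exact Rk_conj h y.2 hx
    · obtain ⟨c, hc, h2⟩ := lift_Mcs h hA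
      exact ⟨⟨c, Mcs_MMs h hc⟩, hc, phG_eq h h2⟩
    · exact Mcs_torelli h (by omega) hm (phG_one h h2)
    · obtain ⟨c, hc, hc', h3⟩ := lift_Mcs_block h (by omega) (A := phG h m) h2 (block_fix h hm)
      exact ⟨⟨c, Mcs_MMs h hc⟩, hc, hc', phG_eq h h3⟩
    · exact Rk_last h hm (phG_one h h2)
    · obtain ⟨h3, h4⟩ := block_fix h hm
      constructor
      · have := sp_om (phG h m) v (e 0)
        rw [h3] at this
        rw [this]
        exact hv.1
      · have := sp_om (phG h m) v (f 0)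
        rw [h4] at this
        rw [this]
        exact hv.2
    · exact gen_top h (by omega)
    · exact MR_mono h (by omega) le_rfl s1
    · rw [phG_apply, H1_e]
      have h2 : σ (a (Fin.last n)) = a l := by
        have h3 : ex a n = a (Fin.last n) := ex_lt a (by omega)
        have h4 : ex a (n - 1) = a l := ex_lt a (by omega)
        rw [h3, h4] at s2
        exact s2
      rw [h2, cls_a]
    · have h2 : Commute c.1 σ := by
        have h3 : c.1 ∈ H60G.MR h 0 (n - 1) := hc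
        exact (MulEquiv.ext fun z => H95G.MR_comm h (by omega) s1 h3 z :
          σ * c.1 = c.1 * σ).symm
      apply Subtype.ext
      change σ⁻¹ * c.1 * σ = c.1
      rw [mul_assoc, h2.eq, inv_mul_cancel_left]
    · have h2 : H60G.MR h 0 (n - 1) ≤ Mcs h := by
        rw [MR_eq_closure h]
        exact tw_le_Mcs h (fun i hi => by omega)
      exact h2 hc
    · have h3 := stab_ee (k := Fin.last n) (l := l) (z := 0) (o := k) hll (Ne.symm hlast0)
        (Ne.symm hl0) (Ne.symm hlk) (Ne.symm hkl) hk0 (Mcs_fix h hc : phG h c _ = _) h2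
      refine Subgroup.closure_mono ?_ h3
      rintro B (⟨b1, b2, b3, b4⟩ | ⟨b1, b2, b3, b4⟩)
      · obtain ⟨c', hc', hc2, h4⟩ := lift_Mcs_block h (by omega) b1 ⟨b3, b4⟩
        have h5 : phG h ⟨c', Mcs_MMs h hc'⟩ = B := phG_eq h h4
        exact Or.inl ⟨⟨c', Mcs_MMs h hc'⟩, hc', hc2, by rw [h5]; exact b2, h5⟩
      · obtain ⟨c', hc', h4⟩ := exists_lift_MR (lo := 0) (hi := n - 1) (A := B) h (fun i hi => by
          have := i.2
          have h5 : i = Fin.last n ∨ i = l := by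
            rcases Nat.lt_or_ge (i : ℕ) n with h6 | h6
            · right
              apply Fin.ext
              simp only [l]
              omega
            · left
              apply Fin.ext
              rw [Fin.val_last]
              omega
          rcases h5 with rfl | rfl
          · exact ⟨b1, b2⟩
          · exact ⟨b3, b4⟩)
        exact Or.inr ⟨⟨c', MR_le_MMs h _ _ hc'⟩, hc', phG_eq h h4⟩
    · refine ⟨om_e_e _ _, om_e_e _ _, om_e_e _ _, ⟨f (Fin.last n), om_e_f _, ?_, ?_⟩,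
        ⟨f l, ?_, om_e_f _, ?_⟩, ⟨f k, ?_, ?_, om_e_f _⟩⟩
      · exact om_e_f_ne (Ne.symm hll)
      · exact om_e_f_ne (Ne.symm hlk)
      · exact om_e_f_ne hll
      · exact om_e_f_ne (Ne.symm hkl)
      · exact om_e_f_ne hlk
      · exact om_e_f_ne hkl
    · obtain ⟨A, a1, a2, a3, a4⟩ := trans_two_block (z := 0) hlast0 hl0 hll h2 hv.1 hv.2 hw.1 hw.2
      obtain ⟨c, hc, h3⟩ := lift_block h ⟨a1, a2⟩
      have h4 : phG h ⟨c, MR_le_MMs h _ _ hc⟩ = A := phG_eq h h3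
      exact ⟨⟨c, MR_le_MMs h _ _ hc⟩, hc, by rw [h4, a3], by rw [h4, a4]⟩
    · obtain ⟨A, a1, a2⟩ := trans_two hll h2
      obtain ⟨c, h4⟩ := lift_all h A
      exact ⟨c, by rw [h4, a1], by rw [h4, a2]⟩
    · obtain ⟨A, a1, a2, a3⟩ := trans_three hll hlk hkl h2
      obtain ⟨c, h4⟩ := lift_all h A
      exact ⟨c, by rw [h4, a1], by rw [h4, a2], by rw [h4, a3]⟩
  have hU : ∀ v : V (n + 1), (om v (e 0) = 0 ∧ om v (f 0) = 0) → Prim v →
      ∃ u, (om u (e 0) = 0 ∧ om u (f 0) = 0) ∧ AdjA (e (Fin.last n)) u ∧ AdjA u v := by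
    intro v hv hp
    obtain ⟨s, s', h2, h3⟩ := exists_pair_orth [e 0, f 0, e (Fin.last n), v] (by simp; omega)
    have k1 := h3 (e 0) (by simp)
    have k2 := h3 (f 0) (by simp)
    have k3 := h3 (e (Fin.last n)) (by simp)
    have k4 := h3 v (by simp)
    refine ⟨s, ⟨by rw [om_swap, k1.1, neg_zero], by rw [om_swap, k2.1, neg_zero]⟩, ?_, ?_⟩
    · exact adjA_of_pair ⟨f (Fin.last n), om_e_f _⟩ h2 k3.1 k3.2
    · exact (adjA_of_pair hp h2 k4.1 k4.2).symm
  exact D.ker_le hU (fun x y hxy hpi => CovA.inj (by omega) D.covA hxy hpi) ⟨φ, hφ⟩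
    (phG_eq h (A := 1) h1)

/-- The form with inner automorphisms. -/
theorem thmG (h : IsSurf a b) (hn : 5 ≤ n + 1) {φ : MulAut G} (hφ : φ ∈ MMs h)
    (h1 : H1 h φ = 1) :
    φ ∈ Subgroup.closure ({x | ∃ ψ ∈ MMs h, ∃ r ∈ H60G.MR h 0 n, H1 h r = 1 ∧ x = ψ * r * ψ⁻¹} ∪
      Set.range (MulAut.conj : G → MulAut G)) :=
  Subgroup.closure_mono Set.subset_union_left (torelli h (by omega) hφ h1)

end Pool.Agent.H.MP_59b15d_al.PK
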