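import Pool.Agent.H.MP_59b15d_al.pc.Lin

/-!
# Few vectors are orthogonal to a hyperbolic pair
-/

set_option autoImplicit false

namespace Pool.Agent.H.MP_59b15d_al.PC

open SP

variable {g : ℕ}

/-- `x` is orthogonal to all vectors of a list of pairs. -/
def InL (P : List (V g × V g)) (x : V g) : Prop := ∀ p ∈ P, InQ p.1 p.2 x

/-- A list of mutually orthogonal hyperbolic pairs. -/
def Hyp : List (V g × V g) → Prop
  | [] => True
  | p :: P => om p.1 p.2 = 1 ∧ InL P p.1 ∧ InL P p.2 ∧ Hyp P

theorem InL.prQ {P : List (V g × V g)} {r r' x : V g} (hr : InL P r) (hr' : InL P r')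
    (hx : InL P x) : InL P (prQ r r' x) := by
  intro p hp
  have h1 := hr p hp
  have h2 := hr' p hp
  have h3 := hx p hp
  constructor
  · unfold PC.prQ
    rw [om_add_left, om_sub_left, om_smul_left, om_smul_left, h1.1, h2.1, h3.1]
    ring
  · unfold PC.prQ
    rw [om_add_left, om_sub_left, om_smul_left, om_smul_left, h1.2, h2.2, h3.2]
    ring

/-- Projection to the orthogonal complement of a list of pairs. -/
theorem exists_proj : ∀ (P : List (V g × V g)), Hyp P → ∀ x : V g,
    ∃ y, InL P y ∧ ∀ s, InL P s → om s y = om s x := by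
  intro P
  induction P with
  | nil =>
    intro _ x
    exact ⟨x, fun p hp => absurd hp List.not_mem_nil, fun s _ => rfl⟩
  | cons p P ih =>
    intro hP x
    obtain ⟨h1, h2, h3, h4⟩ := hP
    obtain ⟨y, hy, hys⟩ := ih h4 x
    refine ⟨prQ p.1 p.2 y, ?_, ?_⟩
    · intro q hq
      rcases List.mem_cons.1 hq with hq | hq
      · rw [hq]
        exact prQ_mem h1 y
      · exact (h2.prQ h3 hy) q hq
    · intro s hs
      rw [om_prQ (hs p List.mem_cons_self)]
      exact hys s (fun q hq => hs q (List.mem_cons_of_mem p hq))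

/-- A linear map with kernel the vectors orthogonal to the list. -/
noncomputable def omList (P : List (V g × V g)) : V g →ₗ[ℤ] (Fin P.length → ℤ × ℤ) where
  toFun x := fun i => (om x (P.get i).1, om x (P.get i).2)
  map_add' x y := by
    funext i
    exact Prod.ext (om_add_left _ _ _) (om_add_left _ _ _)
  map_smul' k x := by
    funext i
    exact Prod.ext (om_smul_left _ _ _) (om_smul_left _ _ _)

theorem finrank_V (n : ℕ) : Module.finrank ℤ (Fin n → ℤ × ℤ) = 2 * n := by
  rw [Module.finrank_pi_fintype]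
  simp [Module.finrank_prod]
  ring

/-- There is a nonzero vector orthogonal to fewer than `g` pairs. -/
theorem exists_ne_InL (P : List (V g × V g)) (hP : P.length < g) : ∃ x, x ≠ 0 ∧ InL P x := by
  have h1 : LinearMap.ker (omList P) ≠ ⊥ := by
    intro h0
    have h2 := LinearMap.finrank_le_finrank_of_injective (LinearMap.ker_eq_bot.1 h0)
    rw [finrank_V, finrank_V] at h2
    omega
  obtain ⟨x, hx, hx0⟩ := Submodule.exists_mem_ne_zero_of_ne_bot h1
  refine ⟨x, hx0, ?_⟩
  intro p hp
  obtain ⟨i, hi⟩ := List.get_of_mem hp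
  have h2 : omList P x i = 0 := by
    rw [LinearMap.mem_ker.1 hx]
    rfl
  have h3 : (om x (P.get i).1, om x (P.get i).2) = (0, 0) := h2
  rw [hi] at h3
  exact ⟨congrArg Prod.fst h3, congrArg Prod.snd h3⟩

/-- The primitive part of a vector orthogonal to the list. -/
theorem InL.exists_prim {P : List (V g × V g)} {x : V g} (hx : InL P x) (h0 : x ≠ 0) :
    ∃ (b : ℤ) (y : V g), 0 < b ∧ Prim y ∧ InL P y ∧ x = b • y := by
  obtain ⟨b, y, hb, hy, hxy⟩ := PC.exists_prim h0
  refine ⟨b, y, hb, hy, ?_, hxy⟩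
  intro p hp
  have := hx p hp
  rw [hxy] at this
  exact this.smul_of hb.ne'

/-- A primitive vector orthogonal to the list has a dual vector orthogonal to the list. -/
theorem InL.dual {P : List (V g × V g)} (hP : Hyp P) {x : V g} (hx : InL P x) (hp : Prim x) :
    ∃ w, InL P w ∧ om x w = 1 := by
  obtain ⟨w, hw⟩ := hp
  obtain ⟨y, hy, hys⟩ := exists_proj P hP w
  exact ⟨y, hy, by rw [hys x hx, hw]⟩

/-- `k` vectors and `m` hyperbolic pairs with `m + k < g` are orthogonal to a hyperbolic pair. -/
theorem exists_pair_list : ∀ (L : List (V g)) (P : List (V g × V g)), Hyp P →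
    P.length + L.length < g →
    ∃ s s', om s s' = 1 ∧ InL P s ∧ InL P s' ∧ ∀ x ∈ L, om x s = 0 ∧ om x s' = 0 := by
  intro L
  induction L with
  | nil =>
    intro P hP hlen
    obtain ⟨x, hx0, hx⟩ := exists_ne_InL P (by simpa using hlen)
    obtain ⟨b, y, -, hy, hyP, -⟩ := hx.exists_prim hx0
    obtain ⟨w, hw, hyw⟩ := hyP.dual hP hy
    exact ⟨y, w, hyw, hyP, hw, fun x hx => absurd hx List.not_mem_nil⟩
  | cons x L ih =>
    intro P hP hlen
    rw [List.length_cons] at hlen
    obtain ⟨q, hq, hqs⟩ := exists_proj P hP x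
    have hx : ∀ s, InL P s → om x s = om q s := by
      intro s hs
      rw [om_swap x s, om_swap q s, hqs s hs]
    by_cases hq0 : q = 0
    · obtain ⟨s, s', h1, h2, h3, h4⟩ := ih P hP (by omega)
      refine ⟨s, s', h1, h2, h3, ?_⟩
      intro y hy
      rcases List.mem_cons.1 hy with hy | hy
      · rw [hy, hx s h2, hx s' h3, hq0, om_zero_left, om_zero_left]
        exact ⟨rfl, rfl⟩
      · exact h4 y hy
    · obtain ⟨b, r, hb, hr, hrP, hqr⟩ := hq.exists_prim hq0
      obtain ⟨r', hr'P, hrr⟩ := hrP.dual hP hr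
      obtain ⟨s, s', h1, h2, h3, h4⟩ := ih ((r, r') :: P) ⟨hrr, hrP, hr'P, hP⟩ (by
        rw [List.length_cons]
        omega)
      have h2' : InL P s := fun p hp => h2 p (List.mem_cons_of_mem _ hp)
      have h3' : InL P s' := fun p hp => h3 p (List.mem_cons_of_mem _ hp)
      refine ⟨s, s', h1, h2', h3', ?_⟩
      intro y hy
      rcases List.mem_cons.1 hy with hy | hy
      · have k1 : om s r = 0 := (h2 (r, r') List.mem_cons_self).1
        have k2 : om s' r = 0 := (h3 (r, r') List.mem_cons_self).1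
        rw [hy, hx s h2', hx s' h3', hqr, om_smul_left, om_smul_left, om_swap r s, om_swap r s', k1,
          k2]
        simp
      · exact h4 y hy

/-- `k < g` vectors are orthogonal to a hyperbolic pair. -/
theorem exists_pair_orth (L : List (V g)) (h : L.length < g) :
    ∃ s s', om s s' = 1 ∧ ∀ x ∈ L, om x s = 0 ∧ om x s' = 0 := by
  obtain ⟨s, s', h1, -, -, h4⟩ := exists_pair_list L [] trivial (by simpa using h)
  exact ⟨s, s', h1, h4⟩

end Pool.Agent.H.MP_59b15d_al.PC
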