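import Pool.Agent.H.MP_59b15d_al.pk.Eta2
import Pool.Agent.H.MP_59b15d_al.h73x.Fld

/-!
# The field `gen` of the local data
-/

set_option autoImplicit false

namespace Pool.Agent.H.MP_59b15d_al.H73X

open Pool.Agent.H.MP_59b15d_al.SP
open Pool.Agent.H.MP_59b15d_al.H93C
open Pool.MP_59b15d_al.H24T Pool.MP_59b15d_al.H76R Pool.MP_59b15d_al.H73E
open Pool.MP_59b15d_al.H60G
open FreeGroup (of)

variable {n : ℕ} {G : Type*} [Group G] {a b : Fin (n + 1) → G} {Q : Type*} [Group Q]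

lemma act_tA' (h : IsSurf a b) (hn : 1 ≤ n) (i : Fin (n + 1)) {v : V (n + 1)} {w c : ℤ}
    (hc : om (e i) v = c) : act h hn (tA h i) (v, w) = (v + c • e i, w - c) := by
  rw [act_tA, ← hc]
  refine Prod.ext ?_ ?_
  · change v + om (e i) v • (e i - 0) = _
    rw [sub_zero]
  · change w + om (e i) v * (0 - 1) = w - om (e i) v
    ring

lemma act_tAi' (h : IsSurf a b) (hn : 1 ≤ n) (i : Fin (n + 1)) {v : V (n + 1)} {w c : ℤ}
    (hc : om (e i) v = c) : act h hn (tA h i)⁻¹ (v, w) = (v - c • e i, w + c) := by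
  rw [act_tAi, ← hc]
  refine Prod.ext ?_ ?_
  · change v - om (e i) v • (e i - 0) = _
    rw [sub_zero]
  · change w - om (e i) v * (0 - 1) = w + om (e i) v
    ring

lemma act_tB' (h : IsSurf a b) (hn : 1 ≤ n) (i : Fin (n + 1)) {v : V (n + 1)} {w c : ℤ}
    (hc : om (f i) v = c) : act h hn (tB h i) (v, w) = (v - c • f i, w - c) := by
  rw [act_tB, ← hc]
  refine Prod.ext ?_ ?_
  · change v - om (f i) v • (f i - 0) = _
    rw [sub_zero]
  · change w - om (f i) v * (2 - 1) = w - om (f i) v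
    ring

lemma act_tBi' (h : IsSurf a b) (hn : 1 ≤ n) (i : Fin (n + 1)) {v : V (n + 1)} {w c : ℤ}
    (hc : om (f i) v = c) : act h hn (tB h i)⁻¹ (v, w) = (v + c • f i, w + c) := by
  rw [act_tBi, ← hc]
  refine Prod.ext ?_ ?_
  · change v + om (f i) v • (f i - 0) = _
    rw [sub_zero]
  · change w + om (f i) v * (2 - 1) = w + om (f i) v
    ring

lemma act_tCi' (h : IsSurf a b) (hn : 1 ≤ n) {i j : Fin (n + 1)} (hij : (j : ℕ) = i + 1)
    {v : V (n + 1)} {w c : ℤ} (hc : om (f i - e j) v = c) :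
    act h hn (tC h hij)⁻¹ (v, w) = (v + c • (f i - e j), w + c) := by
  rw [act_tCi, ← hc]
  refine Prod.ext ?_ ?_
  · change v + om (f i - e j) v • (f i - e j - 0) = _
    rw [sub_zero]
  · change w + om (f i - e j) v * (2 - 1) = w + om (f i - e j) v
    ring

/-- The element `gw` as an element of the mapping class group. -/
noncomputable def gM (h : IsSurf a b) (i : Fin n)
    (hl : ((Fin.last n : Fin (n + 1)) : ℕ) = i.castSucc + 1) : MMs h :=
  (tB h (Fin.last n))⁻¹ * (tA h (Fin.last n))⁻¹ * (tA h (Fin.last n))⁻¹ *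
    (tC h hl)⁻¹ * tA h i.castSucc * (tB h i.castSucc)⁻¹ *
    (tB h i.castSucc)⁻¹ * tA h i.castSucc * (tC h hl)⁻¹ *
    tB h (Fin.last n)

lemma gM_val (h : IsSurf a b) (i : Fin n)
    (hl : ((Fin.last n : Fin (n + 1)) : ℕ) = i.castSucc + 1) : (gM h i hl).1 = PK.gw h i hl := rfl

/-- The curve on the other side of the handle. -/
theorem act_gM (h : IsSurf a b) (hn : 1 ≤ n) (i : Fin n)
    (hl : ((Fin.last n : Fin (n + 1)) : ℕ) = i.castSucc + 1) :
    act h hn (gM h i hl) (e (Fin.last n), 0) = (e (Fin.last n), 2) := by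
  have hne : i.castSucc ≠ Fin.last n := ne_of_hij hl
  have o1 : om (e (Fin.last n) : V (n + 1)) (f (Fin.last n)) = 1 := om_e_f _
  have o2 : om (f (Fin.last n) : V (n + 1)) (e (Fin.last n)) = -1 := om_f_e _
  have o3 : om (e i.castSucc : V (n + 1)) (f i.castSucc) = 1 := om_e_f _
  have o4 : om (f i.castSucc : V (n + 1)) (e i.castSucc) = -1 := om_f_e _
  have o5 : om (e i.castSucc : V (n + 1)) (f (Fin.last n)) = 0 := om_e_f_ne hne
  have o6 : om (f i.castSucc : V (n + 1)) (e (Fin.last n)) = 0 := om_f_e_ne hne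
  have o7 : om (e (Fin.last n) : V (n + 1)) (f i.castSucc) = 0 := om_e_f_ne hne.symm
  have o8 : om (f (Fin.last n) : V (n + 1)) (e i.castSucc) = 0 := om_f_e_ne hne.symm
  have s1 : act h hn (tB h (Fin.last n)) (e (Fin.last n), 0) =
      (e (Fin.last n) + f (Fin.last n), 1) := by
    rw [act_tB' h hn _ (c := -1) o2]
    refine Prod.ext ?_ ?_
    · simp only; module
    · rfl
  have s2 : act h hn (tC h hl)⁻¹ (e (Fin.last n) + f (Fin.last n), 1) =
      ((2 : ℤ) • e (Fin.last n) + f (Fin.last n) - f i.castSucc, 0) := by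
    rw [act_tCi' h hn hl (c := -1) (by
      simp only [om_sub_left, om_add_right, o6, om_f_f, om_e_e, o1]; norm_num)]
    refine Prod.ext ?_ ?_
    · simp only; module
    · rfl
  have s3 : act h hn (tA h i.castSucc)
      ((2 : ℤ) • e (Fin.last n) + f (Fin.last n) - f i.castSucc, 0) =
      ((2 : ℤ) • e (Fin.last n) + f (Fin.last n) - f i.castSucc - e i.castSucc, 1) := by
    rw [act_tA' h hn _ (c := -1) (by
      simp only [om_sub_right, om_add_right, om_smul_right, om_e_e, o5, o3]; norm_num)]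
    refine Prod.ext ?_ ?_
    · simp only; module
    · rfl
  have s4 : act h hn (tB h i.castSucc)⁻¹
      ((2 : ℤ) • e (Fin.last n) + f (Fin.last n) - f i.castSucc - e i.castSucc, 1) =
      ((2 : ℤ) • e (Fin.last n) + f (Fin.last n) - e i.castSucc, 2) := by
    rw [act_tBi' h hn _ (c := 1) (by
      simp only [om_sub_right, om_add_right, om_smul_right, om_f_f, o6, o4]; norm_num)]
    refine Prod.ext ?_ ?_
    · simp only; module
    · rfl
  have s5 : act h hn (tB h i.castSucc)⁻¹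
      ((2 : ℤ) • e (Fin.last n) + f (Fin.last n) - e i.castSucc, 2) =
      ((2 : ℤ) • e (Fin.last n) + f (Fin.last n) - e i.castSucc + f i.castSucc, 3) := by
    rw [act_tBi' h hn _ (c := 1) (by
      simp only [om_sub_right, om_add_right, om_smul_right, om_f_f, o6, o4]; norm_num)]
    refine Prod.ext ?_ ?_
    · simp only; module
    · rfl
  have s6 : act h hn (tA h i.castSucc)
      ((2 : ℤ) • e (Fin.last n) + f (Fin.last n) - e i.castSucc + f i.castSucc, 3) =
      ((2 : ℤ) • e (Fin.last n) + f (Fin.last n) + f i.castSucc, 2) := by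
    rw [act_tA' h hn _ (c := 1) (by
      simp only [om_sub_right, om_add_right, om_smul_right, om_e_e, o5, o3]; norm_num)]
    refine Prod.ext ?_ ?_
    · simp only; module
    · rfl
  have s7 : act h hn (tC h hl)⁻¹
      ((2 : ℤ) • e (Fin.last n) + f (Fin.last n) + f i.castSucc, 2) =
      ((3 : ℤ) • e (Fin.last n) + f (Fin.last n), 1) := by
    rw [act_tCi' h hn hl (c := -1) (by
      simp only [om_sub_left, om_add_right, om_smul_right, o6, om_f_f, om_e_e, o1, o7]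
      norm_num)]
    refine Prod.ext ?_ ?_
    · simp only; module
    · rfl
  have s8 : act h hn (tA h (Fin.last n))⁻¹ ((3 : ℤ) • e (Fin.last n) + f (Fin.last n), 1) =
      ((2 : ℤ) • e (Fin.last n) + f (Fin.last n), 2) := by
    rw [act_tAi' h hn _ (c := 1) (by
      simp only [om_add_right, om_smul_right, om_e_e, o1]; norm_num)]
    refine Prod.ext ?_ ?_
    · simp only; module
    · rfl
  have s9 : act h hn (tA h (Fin.last n))⁻¹ ((2 : ℤ) • e (Fin.last n) + f (Fin.last n), 2) =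
      (e (Fin.last n) + f (Fin.last n), 3) := by
    rw [act_tAi' h hn _ (c := 1) (by
      simp only [om_add_right, om_smul_right, om_e_e, o1]; norm_num)]
    refine Prod.ext ?_ ?_
    · simp only; module
    · rfl
  have s10 : act h hn (tB h (Fin.last n))⁻¹ (e (Fin.last n) + f (Fin.last n), 3) =
      (e (Fin.last n), 2) := by
    rw [act_tBi' h hn _ (c := -1) (by
      simp only [om_add_right, om_f_f, o2]; norm_num)]
    refine Prod.ext ?_ ?_
    · simp only; module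
    · rfl
  rw [gM, act_mul', act_mul', act_mul', act_mul', act_mul', act_mul', act_mul', act_mul',
    act_mul', s1, s2, s3, s4, s5, s6, s7, s8, s9, s10]

/-- The field `two`. -/
theorem fld_two (h : IsSurf a b) (hn : 1 ≤ n) :
    ((e (Fin.last n), 2) : U (n + 1)) ∈ Om (act h hn) (Fin.last n) := by
  let i : Fin n := ⟨n - 1, by omega⟩
  have hl : ((Fin.last n : Fin (n + 1)) : ℕ) = i.castSucc + 1 := by
    rw [Fin.val_last, Fin.val_castSucc]
    simp only [i]
    omega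
  exact ⟨gM h i hl, act_gM h hn i hl⟩

/-- The field `gen`. -/
theorem fld_gen (h : IsSurf a b) (hn : 2 ≤ n) (q : MMs h →* Q) (hq : Cz h q)
    {N : Subgroup (MulAut G)} (hN : ∀ φ ∈ MMs h, ∀ x ∈ N, φ * x * φ⁻¹ ∈ N) (hR : Rels h N)
    (hqN : ∀ x : MMs h, x.1 ∈ N → q x = 1) {s : Q} (hsc : ∀ y : Q, Commute s y)
    (hs : q ((tA h (Fin.last n) * (tB h (Fin.last n))⁻¹) ^ 6) = s) (g : MMs h)
    (hg : ∀ x : U (n + 1), (act h (by omega) g x).1 = x.1) :
    q g ∈ Subgroup.closure ({t | ∃ u ∈ Om (act h (by omega)) (Fin.last n),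
      t = TQ h (by omega) q (u + (0, 2)) * (TQ h (by omega) q u)⁻¹} ∪ {s}) := by
  have hn1 : 1 ≤ n := by omega
  obtain ⟨W, hW⟩ : ∃ W : Subgroup Q, W = Subgroup.closure
      ({t | ∃ u ∈ Om (act h hn1) (Fin.last n),
        t = TQ h hn1 q (u + (0, 2)) * (TQ h hn1 q u)⁻¹} ∪ {s}) := ⟨_, rfl⟩
  rw [← hW]
  have hsW : s ∈ W := by
    rw [hW]
    exact Subgroup.subset_closure (Or.inr rfl)
  have hOm : ∀ u ∈ Om (act h hn1) (Fin.last n), u + (0, 2) ∈ Om (act h hn1) (Fin.last n) := by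
    rintro u ⟨k, rfl⟩
    obtain ⟨k', hk'⟩ := fld_two h hn1
    refine ⟨k * k', ?_⟩
    rw [act_mul', hk']
    have h1 : ((e (Fin.last n), 2) : U (n + 1)) = (e (Fin.last n), 0) + (0, 2) := by
      refine Prod.ext ?_ ?_
      · change e (Fin.last n) = e (Fin.last n) + 0
        rw [add_zero]
      · rfl
    rw [h1, map_add, act_fix]
  -- normality
  have hWn : ∀ (k : MMs h) (y : Q), y ∈ W → q k * y * (q k)⁻¹ ∈ W := by
    intro k y hy
    have hle : W ≤ W.comap (MulAut.conj (q k)).toMonoidHom := by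
      conv_lhs => rw [hW]
      rw [Subgroup.closure_le]
      rintro t (⟨u, hu, rfl⟩ | rfl)
      · change q k * (TQ h hn1 q (u + (0, 2)) * (TQ h hn1 q u)⁻¹) * (q k)⁻¹ ∈ W
        have h1 : q k * (TQ h hn1 q (u + (0, 2)) * (TQ h hn1 q u)⁻¹) * (q k)⁻¹ =
            (q k * TQ h hn1 q (u + (0, 2)) * (q k)⁻¹) * (q k * TQ h hn1 q u * (q k)⁻¹)⁻¹ := by
          group
        rw [h1, eqv h hn q hq k u hu, eqv h hn q hq k _ (hOm u hu), map_add, act_fix, hW]
        refine Subgroup.subset_closure (Or.inl ⟨_, ?_, rfl⟩)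
        obtain ⟨k', rfl⟩ := hu
        exact ⟨k * k', by rw [act_mul']⟩
      · change q k * t * (q k)⁻¹ ∈ W
        rw [← (hsc (q k)).eq, mul_inv_cancel_right]
        exact hsW
    exact hle hy
  -- the subgroup
  let K : Subgroup (MulAut G) := (W.comap q).map (MMs h).subtype
  have hK : ∀ (x : MMs h), q x ∈ W → x.1 ∈ K := fun x hx => ⟨x, hx, rfl⟩
  have hKc : ∀ ψ ∈ MMs h, ∀ x ∈ K, ψ * x * ψ⁻¹ ∈ K := by
    rintro ψ hψ _ ⟨x, hx, rfl⟩
    refine hK (⟨ψ, hψ⟩ * x * (⟨ψ, hψ⟩)⁻¹) ?_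
    rw [map_mul, map_mul, map_inv]
    exact hWn _ _ hx
  have hN' : ∀ φ ∈ MMs h, ∀ x ∈ N ⊓ MMs h, φ * x * φ⁻¹ ∈ N ⊓ MMs h := fun φ hφ x hx =>
    ⟨hN φ hφ x hx.1, (MMs h).mul_mem ((MMs h).mul_mem hφ hx.2) ((MMs h).inv_mem hφ)⟩
  have hXM : ∀ y, XX h y ∈ MMs h := fun y => PK.XX_MMs h y
  have hR' : Rels h (N ⊓ MMs h) :=
    ⟨fun i j hij x hx y hy => ⟨hR.r1 i j hij x hx y hy, hXM _⟩,
      fun i j => ⟨hR.r2 i j, hXM _⟩, fun i z => ⟨hR.r3 i z, hXM _⟩⟩
  have hNK : N ⊓ MMs h ≤ K := by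
    rintro x ⟨h1, h2⟩
    refine hK ⟨x, h2⟩ ?_
    rw [hqN ⟨x, h2⟩ h1]
    exact one_mem _
  have h1 : H1 h g.1 = 1 := by
    refine LinearEquiv.ext fun v => ?_
    exact hg (v, 0)
  have h2 := PK.gen_bp h hn1 hN' hR' hNK hKc ?_ ?_ g.1 g.2 h1
  · obtain ⟨y, hy, hyg⟩ := h2
    have h3 : y = g := Subtype.ext hyg
    rw [← h3]
    exact hy
  · intro i hl
    refine hK (gM h i hl * tA h (Fin.last n) * (gM h i hl)⁻¹ * (tA h (Fin.last n))⁻¹) ?_
    rw [map_mul, ← TQ_eq h hn q hq _ (act_gM h hn1 i hl), map_inv, hW]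
    refine Subgroup.subset_closure (Or.inl ⟨(e (Fin.last n), 0), ⟨1, by rw [map_one]; rfl⟩, ?_⟩)
    have h3 : ((e (Fin.last n), 0) + (0, 2) : U (n + 1)) = (e (Fin.last n), 2) := by
      refine Prod.ext ?_ ?_
      · change e (Fin.last n) + 0 = e (Fin.last n)
        rw [add_zero]
      · rfl
    rw [h3, (Tw_last h hn q hq).2]
  · refine hK (((tA h (Fin.last n))⁻¹ * tB h (Fin.last n)) ^ 6) ?_
    have h3 : ((tA h (Fin.last n))⁻¹ * tB h (Fin.last n)) ^ 6 =
        (tA h (Fin.last n))⁻¹ * ((tA h (Fin.last n) * (tB h (Fin.last n))⁻¹) ^ 6)⁻¹ *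
        (tA h (Fin.last n)) := by
      have h4 : (tA h (Fin.last n))⁻¹ * ((tA h (Fin.last n) * (tB h (Fin.last n))⁻¹) ^ 6)⁻¹ *
          (tA h (Fin.last n)) = (tA h (Fin.last n))⁻¹ *
          ((tA h (Fin.last n) * (tB h (Fin.last n))⁻¹)⁻¹ ^ 6) * (tA h (Fin.last n))⁻¹⁻¹ := by
        rw [inv_pow, inv_inv]
      rw [h4, ← conj_pow]
      congr 1
      group
    rw [h3, map_mul, map_mul, map_inv, map_inv, hs, ← (hsc _).inv_left.eq, inv_mul_cancel_right]
    exact W.inv_mem hsW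

end Pool.Agent.H.MP_59b15d_al.H73X
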