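import Pool.Agent.H.MP_59b15d_al.h73x.Wd
import Pool.Agent.H.MP_59b15d_al.h93c.BPx
import Pool.Agent.H.MP_59b15d_al.h93c.End
import Pool.Agent.H.MP_59b15d_al.h93c.Fin

/-!
# The field `cen` of the local data
-/

set_option autoImplicit false

namespace Pool.Agent.H.MP_59b15d_al.H73X

open Pool.Agent.H.MP_59b15d_al.SP
open Pool.Agent.H.MP_59b15d_al.H93C
open Pool.MP_59b15d_al.H24T Pool.MP_59b15d_al.H76R Pool.MP_59b15d_al.H73E
open Pool.MP_59b15d_al.H60G Pool.MP_59b15d_al.H95G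
open FreeGroup (of)

variable {n : ℕ} {G : Type*} [Group G] {a b : Fin (n + 1) → G}

/-- The second half of the last step: a mapping class with a lift acting trivially on the
Heisenberg group modulo `2 * M`. -/
theorem half_step (h : IsSurf a b) (hn : 2 ≤ n) (Z : Subgroup (MulAut G))
    (hZ : ∀ ψ ∈ MMs h, ∀ x ∈ Z, ψ * x * ψ⁻¹ ∈ Z)
    (M : ℕ) (hM : M ≠ 0) (k : Fin (n + 1)) (hT : TA h k ^ (2 * M) ∈ Z)
    (hTL : ∀ φ ∈ MMs h, ∀ u : V (n + 1), TL a b φ ((M : ℤ) • u) → φ ∈ Z)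
    {φ : MulAut G} (hφ : φ ∈ MMs h) {F : MulAut (Fr (n + 1))} (hF : Lf a b φ F)
    (hTrF : TrF ((2 * M : ℕ) : ℤ) F) : φ ∈ Z := by
  have h2M : 2 * M ≠ 0 := by omega
  have hcls : ∀ x : G, Dv ((2 * M : ℕ) : ℤ) (cls h (φ x) - cls h x) := by
    intro x
    obtain ⟨z, rfl⟩ := qH_surj h x
    have h1 := (hTrF z).1
    rw [Hs.mul_v, Hs.inv_v, ← sub_eq_add_neg] at h1
    rw [hF.ind, cls_qH, cls_qH]
    exact h1
  -- the group generated by the conjugates of the power of the twist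
  let R : Subgroup (MulAut G) :=
    Subgroup.closure {x | ∃ ψ ∈ MMs h, x = ψ * TA h k ^ (2 * M) * ψ⁻¹}
  have hRn : ∀ f ∈ MCG a b, ∀ x ∈ R, f * x * f⁻¹ ∈ R := by
    intro f hf
    rw [MCG_eq h] at hf
    have h1 : R ≤ R.comap (MulAut.conj f).toMonoidHom := by
      change Subgroup.closure _ ≤ _
      rw [Subgroup.closure_le]
      rintro _ ⟨ψ, hψ, rfl⟩
      change f * (ψ * TA h k ^ (2 * M) * ψ⁻¹) * f⁻¹ ∈ R
      exact Subgroup.subset_closure ⟨f * ψ, (MMs h).mul_mem hf hψ, by group⟩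
    exact fun x hx => h1 hx
  have hRZ : R ≤ Z := by
    change Subgroup.closure _ ≤ _
    rw [Subgroup.closure_le]
    rintro _ ⟨ψ, hψ, rfl⟩
    exact hZ ψ hψ _ hT
  have hRT : ∀ r ∈ R, ∃ K, Lf a b r K ∧ TrF (M : ℤ) K := by
    intro r hr
    refine Subgroup.closure_induction
      (p := fun r _ => ∃ K, Lf a b r K ∧ TrF (M : ℤ) K) ?_ ?_ ?_ ?_ hr
    · rintro _ ⟨ψ, hψ, rfl⟩
      obtain ⟨K, hK⟩ := exists_Lf h hψ
      refine ⟨K * FA k ^ (2 * M) * K⁻¹, (hK.mul ((Lf_TA h k).pow _)).mul hK.inv, ?_⟩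
      refine TrF.conj ?_ (FT_sym hK.mem)
      have := TrF_FA k (2 * M)
      push_cast at this
      exact this
    · exact ⟨1, Lf.one a b, TrF.one _⟩
    · rintro x y _ _ ⟨K, h1, h2⟩ ⟨L, h3, h4⟩
      exact ⟨K * L, h1.mul h3, h2.mul h4⟩
    · rintro x _ ⟨K, h1, h2⟩
      exact ⟨K⁻¹, h1.inv, h2.inv⟩
  obtain ⟨r, hrR, hrM, hr1⟩ := power_H1 h (by omega) hRn (m := ((2 * M : ℕ) : ℤ))
    (by exact_mod_cast h2M) (k := k)
    (by
      rw [zpow_natCast]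
      exact Subgroup.subset_closure ⟨1, (MMs h).one_mem, by group⟩)
    (f := φ) (by rw [MCG_eq h]; exact hφ) hcls
  obtain ⟨K, hK, hKT⟩ := hRT r hrR
  have hmem : φ * r⁻¹ ∈ MMs h := by
    rw [MCG_eq h] at hrM
    exact (MMs h).mul_mem hφ ((MMs h).inv_mem hrM)
  obtain ⟨u₀, hu₀⟩ := exists_TL h hmem hr1
  have hL : Lf a b (φ * r⁻¹) (F * K⁻¹) := hF.mul hK.inv
  have hdvd : ∀ z, (M : ℤ) ∣ om u₀ (clr z) := by
    intro z
    have h1 := hu₀.all h (by omega) hL z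
    have h2 := ((hTrF.mono (N' := (M : ℤ)) (by push_cast; exact dvd_mul_left _ _)).mul hKT.inv) z
    rw [h1] at h2
    have h3 : hs z * Hs.z ^ om u₀ (clr z) * (hs z)⁻¹ = Hs.z ^ om u₀ (clr z) := by
      rw [← ((Hs.z_comm (hs z)).zpow_left _).eq, mul_inv_cancel_right]
    rw [h3] at h2
    exact z_mem_KD.1 h2
  have hDv : ∃ u : V (n + 1), u₀ = (M : ℤ) • u := by
    have h1 : ∀ i, (M : ℤ) ∣ (u₀ i).1 := by
      intro i
      have := hdvd (of (Sum.inr i))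
      rwa [clr_b, om_f] at this
    have h2 : ∀ i, (M : ℤ) ∣ (u₀ i).2 := by
      intro i
      have := hdvd (of (Sum.inl i))
      rw [clr_a, om_e] at this
      exact (dvd_neg).1 this
    choose p hp using h1
    choose q hq using h2
    refine ⟨fun i => (p i, q i), ?_⟩
    funext i
    exact Prod.ext (hp i) (hq i)
  obtain ⟨u, rfl⟩ := hDv
  have h1 : φ * r⁻¹ ∈ Z := hTL _ hmem u hu₀
  have h2 : φ ∈ Z := by
    have := Z.mul_mem h1 (hRZ hrR)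
    rwa [inv_mul_cancel_right] at this
  exact h2

lemma co_smul_right' {m : ℕ} (k : ℤ) (v w : V m) : co v (k • w) = k * co v w := by
  simp only [co, Finset.mul_sum, Pi.smul_apply, Prod.smul_fst, smul_eq_mul]
  exact Finset.sum_congr rfl fun i _ => by ring

/-- A mapping class acting trivially on the framed classes modulo `4 * M`. -/
theorem TrF_of_act (h : IsSurf a b) (hn : 1 ≤ n) (M : ℕ) (g : MMs h)
    (hg : ∀ x : U (n + 1), ∃ y : U (n + 1), act h hn g x = x + ((4 * M : ℕ) : ℤ) • y) :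
    TrF ((2 * M : ℕ) : ℤ) (lft h g) := by
  intro y
  obtain ⟨⟨v, w⟩, hvw⟩ := hg (clr y, WD y)
  rw [act_lift h hn g (lft_spec h g)] at hvw
  have h1 : clr (lft h g y) = clr y + ((4 * M : ℕ) : ℤ) • v := congrArg Prod.fst hvw
  have h2 : WD (lft h g y) = WD y + ((4 * M : ℕ) : ℤ) * w := congrArg Prod.snd hvw
  obtain ⟨κ, hκ⟩ : ∃ κ : Hs (n + 1), κ = hs (lft h g y) * (hs y)⁻¹ := ⟨_, rfl⟩
  rw [← hκ]
  have h3 : κ.v = ((4 * M : ℕ) : ℤ) • v := by
    rw [hκ, Hs.mul_v, Hs.inv_v]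
    change clr (lft h g y) + -clr y = _
    rw [h1]
    module
  have h4 : wd κ = ((4 * M : ℕ) : ℤ) * (w - om v (clr y)) := by
    rw [hκ, wd_mul, wd_inv, Hs.inv_v]
    change WD (lft h g y) + -WD y + om (clr (lft h g y)) (-clr y) = _
    rw [h1, h2, om_neg_right, om_add_left, om_self, om_smul_left]
    ring
  rw [wd, h3, co_smul_left, co_smul_right'] at h4
  refine ⟨⟨(2 : ℤ) • v, ?_⟩, ?_⟩
  · rw [h3, smul_smul]
    congr 1
    push_cast
    ring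
  · refine ⟨w - om v (clr y) - ((4 * M : ℕ) : ℤ) * co v v, ?_⟩
    push_cast at h4 ⊢
    linarith

/-- The field `cen`. -/
theorem fld_cen (h : IsSurf a b) (hn : 4 ≤ n) (N : Subgroup (MulAut G))
    (hN : ∀ φ ∈ MMs h, ∀ x ∈ N, φ * x * φ⁻¹ ∈ N) (hI : ∀ x : G, MulAut.conj x ∈ N)
    (hf : N.relIndex (MMs h) ≠ 0) (hR : Rels h N) {Q : Type*} [Group Q] (q : MMs h →* Q)
    (hqs : Function.Surjective q) (hq : ∀ x : MMs h, x.1 ∈ N → q x = 1) :
    ∃ M : ℕ, M ≠ 0 ∧ ∀ g : MMs h,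
      (∀ x : U (n + 1), ∃ y : U (n + 1), act h (by omega) g x = x + (M : ℤ) • y) →
      ∀ y : Q, Commute (q g) y := by
  obtain ⟨M, hM0, hM⟩ := exists_exp h N hN hf
  have hG : ∀ K : Subgroup (MulAut G), (∀ ψ ∈ MMs h, ∀ x ∈ K, ψ * x * ψ⁻¹ ∈ K) →
      (∀ r ∈ MR h 0 n, H1 h r = 1 → r ∈ K) → ∀ φ ∈ MMs h, H1 h φ = 1 → φ ∈ K := by
    intro K hK hr φ hφ h1
    have h2 := PK.torelli h hn hφ h1
    refine (Subgroup.closure_le _).2 ?_ h2
    rintro x ⟨ψ, hψ, r, hr1, hr2, rfl⟩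
    exact hK ψ hψ r (hr r hr1 hr2)
  have hT : TA h (Fin.last n) ^ (2 * M) ∈ Zc h N hN := by
    have hA : TA h (Fin.last n) ∈ MMs h := Subgroup.subset_closure (Or.inr (Or.inl ⟨_, rfl⟩))
    rw [mul_comm, pow_mul]
    exact (Zc h N hN).pow_mem (mem_Zc h N hN ((MMs h).pow_mem hA M) (hM _ hA)) 2
  refine ⟨4 * M, by omega, fun g hg y => ?_⟩
  have h1 := half_step h (by omega) (Zc h N hN) (Zc_conj h N hN) M hM0 (Fin.last n) hT
    (fun φ hφ u hu => central_of_TL h hn N hN hI hR (fun i j hij s hs' => exists_bp h hij s hs')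
      hG M hM hφ hu) g.2 (lft_spec h g) (TrF_of_act h (by omega) M g hg)
  obtain ⟨y, rfl⟩ := hqs y
  have h2 := hq (g * y * g⁻¹ * y⁻¹) (h1.2 y y.2)
  rw [map_mul, map_mul, map_mul, map_inv, map_inv, mul_inv_eq_one, mul_inv_eq_iff_eq_mul] at h2
  exact h2

end Pool.Agent.H.MP_59b15d_al.H73X
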