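import Pool.Agent.H.MP_59b15d_al.h40x.Fin
import Pool.Agent.H.MP_59b15d_al.h73x.Mk
import Pool.Agent.H.MP_59b15d_al.h11r.Sg

/-!
# A subgroup of finite index with the relations of the pushes is a congruence subgroup
-/

set_option autoImplicit false

namespace Pool.Agent.H.MP_59b15d_al.H73X

open Pool.Agent.H.MP_59b15d_al.SP
open Pool.Agent.H.MP_59b15d_al.H93C
open Pool.MP_59b15d_al.H24T Pool.MP_59b15d_al.H76R Pool.MP_59b15d_al.H73E
open Pool.MP_59b15d_al.H60G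
open Pool.MP_59b15d_al.H76 (InnMod)

universe w

variable {n : ℕ} {G : Type w} [Group G] {a b : Fin (n + 1) → G}

/-- **The subgroup `N` is a congruence subgroup.** -/
theorem congr_of_rels (h : IsSurf a b) (hn : 4 ≤ n) (N : Subgroup (MulAut G))
    (hN : ∀ φ ∈ MMs h, ∀ x ∈ N, φ * x * φ⁻¹ ∈ N) (hI : ∀ x : G, MulAut.conj x ∈ N)
    (hf : N.relIndex (MMs h) ≠ 0) (hR : Rels h N) :
    ∃ Γ : Subgroup G, Γ.Characteristic ∧ Γ.FiniteIndex ∧
      ∀ φ ∈ MMs h, InnMod Γ φ → φ ∈ N := by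
  have hn1 : 1 ≤ n := by omega
  have hnm : (N.subgroupOf (MMs h)).Normal := ⟨fun x hx g => by
    rw [Subgroup.mem_subgroupOf] at hx ⊢
    exact hN g g.2 x hx⟩
  have hfi : (N.subgroupOf (MMs h)).FiniteIndex := ⟨hf⟩
  let q : MMs h →* MMs h ⧸ N.subgroupOf (MMs h) := QuotientGroup.mk' _
  have hqs : Function.Surjective q := QuotientGroup.mk'_surjective _
  have hq : ∀ x : MMs h, q x = 1 ↔ x.1 ∈ N := fun x => by
    change ((x : MMs h ⧸ N.subgroupOf (MMs h))) = 1 ↔ _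
    rw [QuotientGroup.eq_one_iff, Subgroup.mem_subgroupOf]
  obtain ⟨T, s, M, i, j, l, D⟩ := exists_Loc h hn N hN hI hf hR q hqs hq
  have hfin : Finite (MMs h ⧸ N.subgroupOf (MMs h)) :=
    Subgroup.finite_quotient_of_finiteIndex
  exact H40X.end_loc h hn hn1 N hN hI hf q hqs hq D (R1.sg_cube D)

end Pool.Agent.H.MP_59b15d_al.H73X
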