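import Pool.Agent.H.MP_59b15d_al.pk.Eta

/-!
# A bounding pair map of genus one as a push
-/

set_option autoImplicit false
set_option linter.unusedSimpArgs false

namespace Pool.Agent.H.MP_59b15d_al.PK

open SP PC
open Pool.MP_59b15d_al
open Pool.MP_59b15d_al.H24T Pool.MP_59b15d_al.H60G Pool.MP_59b15d_al.H73E
open Pool.MP_59b15d_al.H76R hiding MR
open Pool.MP_59b15d_al.H95G
open H93C (Rels)
open FreeGroup (of)

variable {n : ℕ} {G : Type*} [Group G] {a b : Fin (n + 1) → G}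

/-- A mapping class that moves the curve `a` of the last handle to the curve on the other side of
the handle before. -/
noncomputable def gw (h : IsSurf a b) (i : Fin n)
    (hl : ((Fin.last n : Fin (n + 1)) : ℕ) = i.castSucc + 1) : MulAut G :=
  (TB h (Fin.last n))⁻¹ * (TA h (Fin.last n))⁻¹ * (TA h (Fin.last n))⁻¹ *
    (TC h i.castSucc (Fin.last n) hl)⁻¹ * TA h i.castSucc * (TB h i.castSucc)⁻¹ *
    (TB h i.castSucc)⁻¹ * TA h i.castSucc * (TC h i.castSucc (Fin.last n) hl)⁻¹ *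
    TB h (Fin.last n)

section inv

variable (h : IsSurf a b) {i : Fin n} (hl : ((Fin.last n : Fin (n + 1)) : ℕ) = i.castSucc + 1)

lemma inv_of {F : MulAut G} {x y : G} (h1 : F y = x) : F⁻¹ x = y := by
  rw [← h1, MulAut.inv_apply_self]

lemma TCi_al : (TC h i.castSucc (Fin.last n) hl)⁻¹ (a (Fin.last n)) =
    ((a (Fin.last n))⁻¹ * b i.castSucc) * a (Fin.last n) *
      ((a (Fin.last n))⁻¹ * b i.castSucc)⁻¹ := by
  apply inv_of
  simp only [map_mul, map_inv, TC_aj, TC_bi]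
  group

lemma TCi_bi : (TC h i.castSucc (Fin.last n) hl)⁻¹ (b i.castSucc) =
    (a (Fin.last n))⁻¹ * b i.castSucc * a (Fin.last n) := by
  apply inv_of
  simp only [map_mul, map_inv, TC_aj, TC_bi]
  group

lemma TCi_ai : (TC h i.castSucc (Fin.last n) hl)⁻¹ (a i.castSucc) =
    a i.castSucc * ((a (Fin.last n))⁻¹ * b i.castSucc)⁻¹ := by
  apply inv_of
  simp only [map_mul, map_inv, TC_aj, TC_bi, TC_ai]
  group

lemma TCi_bl : (TC h i.castSucc (Fin.last n) hl)⁻¹ (b (Fin.last n)) =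
    b (Fin.last n) * ((a (Fin.last n))⁻¹ * b i.castSucc)⁻¹ := by
  apply inv_of
  simp only [map_mul, map_inv, TC_aj, TC_bi, TC_bj]
  group

end inv

/-- The twist about the curve on the other side of the handle before the last one. -/
theorem gw_vals (h : IsSurf a b) {i : Fin n}
    (hl : ((Fin.last n : Fin (n + 1)) : ℕ) = i.castSucc + 1) :
    (gw h i hl * TA h (Fin.last n) * (gw h i hl)⁻¹) (a i.castSucc) = 
      (a (Fin.last n))⁻¹ * b i.castSucc * a i.castSucc * (b i.castSucc)⁻¹ * a i.castSucc *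
      b i.castSucc * (a i.castSucc)⁻¹ * (b i.castSucc)⁻¹ * a (Fin.last n) ∧
    (gw h i hl * TA h (Fin.last n) * (gw h i hl)⁻¹) (b i.castSucc) = 
      (a (Fin.last n))⁻¹ * b i.castSucc * a i.castSucc * (b i.castSucc)⁻¹ * (a i.castSucc)⁻¹ *
      b i.castSucc * a i.castSucc * b i.castSucc * (a i.castSucc)⁻¹ * (b i.castSucc)⁻¹ *
      a (Fin.last n) ∧
    (gw h i hl * TA h (Fin.last n) * (gw h i hl)⁻¹) (a (Fin.last n)) = 
      (a (Fin.last n))⁻¹ * b i.castSucc * a i.castSucc * (b i.castSucc)⁻¹ * (a i.castSucc)⁻¹ *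
      a (Fin.last n) * a i.castSucc * b i.castSucc * (a i.castSucc)⁻¹ * (b i.castSucc)⁻¹ *
      a (Fin.last n) ∧
    (gw h i hl * TA h (Fin.last n) * (gw h i hl)⁻¹) (b (Fin.last n)) = 
      b (Fin.last n) * a i.castSucc * b i.castSucc * (a i.castSucc)⁻¹ * (b i.castSucc)⁻¹ *
      a (Fin.last n) := by
  have hne := lne i
  have n1 : TA h (Fin.last n) (b i.castSucc) = b i.castSucc := TA_b_ne h hne.symm
  have n2 : TA h i.castSucc (b (Fin.last n)) = b (Fin.last n) := TA_b_ne h hne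
  have n3 : TB h (Fin.last n) (a i.castSucc) = a i.castSucc := TB_a_ne h hne.symm
  have n4 : TB h i.castSucc (a (Fin.last n)) = a (Fin.last n) := TB_a_ne h hne
  have n5 : (TA h (Fin.last n))⁻¹ (b i.castSucc) = b i.castSucc := TAi_b_ne h hne.symm
  have n6 : (TA h i.castSucc)⁻¹ (b (Fin.last n)) = b (Fin.last n) := TAi_b_ne h hne
  have n7 : (TB h (Fin.last n))⁻¹ (a i.castSucc) = a i.castSucc := TBi_a_ne h hne.symm
  have n8 : (TB h i.castSucc)⁻¹ (a (Fin.last n)) = a (Fin.last n) := TBi_a_ne h hne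
  have t1 := TCi_ai h hl
  have t2 := TCi_bi h hl
  have t3 := TCi_al h hl
  have t4 := TCi_bl h hl
  obtain ⟨y1, e1⟩ : ∃ y, y = TB h (Fin.last n) * TA h (Fin.last n) *
      (TB h (Fin.last n))⁻¹ := ⟨_, rfl⟩
  have p1 : y1 (a i.castSucc) = a i.castSucc := by
    simp only [e1, MulAut.mul_apply, map_mul, map_inv, TA_a, TA_b, TAi_a, TAi_b, TB_a, TB_b, TBi_a, TBi_b, TC_ai, TC_bi,
      TC_aj, TC_bj, n1, n2, n3, n4, n5, n6, n7, n8, t1, t2, t3, t4]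
    try group
  have q1 : y1 (b i.castSucc) = b i.castSucc := by
    simp only [e1, MulAut.mul_apply, map_mul, map_inv, TA_a, TA_b, TAi_a, TAi_b, TB_a, TB_b, TBi_a, TBi_b, TC_ai, TC_bi,
      TC_aj, TC_bj, n1, n2, n3, n4, n5, n6, n7, n8, t1, t2, t3, t4]
    try group
  have c1 : y1 (a (Fin.last n)) = (b (Fin.last n))⁻¹ := by
    simp only [e1, MulAut.mul_apply, map_mul, map_inv, TA_a, TA_b, TAi_a, TAi_b, TB_a, TB_b, TBi_a, TBi_b, TC_ai, TC_bi,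
      TC_aj, TC_bj, n1, n2, n3, n4, n5, n6, n7, n8, t1, t2, t3, t4]
    try group
  have d1 : y1 (b (Fin.last n)) = b (Fin.last n) * a (Fin.last n) * b (Fin.last n) := by
    simp only [e1, MulAut.mul_apply, map_mul, map_inv, TA_a, TA_b, TAi_a, TAi_b, TB_a, TB_b, TBi_a, TBi_b, TC_ai, TC_bi,
      TC_aj, TC_bj, n1, n2, n3, n4, n5, n6, n7, n8, t1, t2, t3, t4]
    try group
  obtain ⟨y2, e2⟩ : ∃ y, y = (TC h i.castSucc (Fin.last n) hl)⁻¹ * y1 *
      TC h i.castSucc (Fin.last n) hl := ⟨_, rfl⟩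
  have p2 : y2 (a i.castSucc) = a i.castSucc * (b i.castSucc)⁻¹ * a (Fin.last n) *
      b (Fin.last n) * a (Fin.last n) := by
    simp only [e2, MulAut.mul_apply, map_mul, map_inv, p1, q1, c1, d1, TA_a, TA_b, TAi_a, TAi_b, TB_a, TB_b, TBi_a, TBi_b, TC_ai, TC_bi,
      TC_aj, TC_bj, n1, n2, n3, n4, n5, n6, n7, n8, t1, t2, t3, t4]
    try group
  have q2 : y2 (b i.castSucc) = (a (Fin.last n))⁻¹ * (b (Fin.last n))⁻¹ * (a (Fin.last n))⁻¹ *
      b i.castSucc * a (Fin.last n) * b (Fin.last n) * a (Fin.last n) := by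
    simp only [e2, MulAut.mul_apply, map_mul, map_inv, p1, q1, c1, d1, TA_a, TA_b, TAi_a, TAi_b, TB_a, TB_b, TBi_a, TBi_b, TC_ai, TC_bi,
      TC_aj, TC_bj, n1, n2, n3, n4, n5, n6, n7, n8, t1, t2, t3, t4]
    try group
  have c2 : y2 (a (Fin.last n)) = (a (Fin.last n))⁻¹ * (b (Fin.last n))⁻¹ * (a (Fin.last n))⁻¹ *
      b i.castSucc * a (Fin.last n) := by
    simp only [e2, MulAut.mul_apply, map_mul, map_inv, p1, q1, c1, d1, TA_a, TA_b, TAi_a, TAi_b, TB_a, TB_b, TBi_a, TBi_b, TC_ai, TC_bi,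
      TC_aj, TC_bj, n1, n2, n3, n4, n5, n6, n7, n8, t1, t2, t3, t4]
    try group
  have d2 : y2 (b (Fin.last n)) = b (Fin.last n) * a (Fin.last n) * (b i.castSucc)⁻¹ *
      a (Fin.last n) * b (Fin.last n) * (b i.castSucc)⁻¹ * a (Fin.last n) * b (Fin.last n) *
      a (Fin.last n) := by
    simp only [e2, MulAut.mul_apply, map_mul, map_inv, p1, q1, c1, d1, TA_a, TA_b, TAi_a, TAi_b, TB_a, TB_b, TBi_a, TBi_b, TC_ai, TC_bi,
      TC_aj, TC_bj, n1, n2, n3, n4, n5, n6, n7, n8, t1, t2, t3, t4]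
    try group
  obtain ⟨y3, e3⟩ : ∃ y, y = TA h i.castSucc * y2 *
      (TA h i.castSucc)⁻¹ := ⟨_, rfl⟩
  have p3 : y3 (a i.castSucc) = (b i.castSucc)⁻¹ * a (Fin.last n) * b (Fin.last n) *
      a (Fin.last n) := by
    simp only [e3, MulAut.mul_apply, map_mul, map_inv, p2, q2, c2, d2, TA_a, TA_b, TAi_a, TAi_b, TB_a, TB_b, TBi_a, TBi_b, TC_ai, TC_bi,
      TC_aj, TC_bj, n1, n2, n3, n4, n5, n6, n7, n8, t1, t2, t3, t4]
    try group
  have q3 : y3 (b i.castSucc) = (a (Fin.last n))⁻¹ * (b (Fin.last n))⁻¹ * (a (Fin.last n))⁻¹ *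
      b i.castSucc * a i.castSucc * b i.castSucc := by
    simp only [e3, MulAut.mul_apply, map_mul, map_inv, p2, q2, c2, d2, TA_a, TA_b, TAi_a, TAi_b, TB_a, TB_b, TBi_a, TBi_b, TC_ai, TC_bi,
      TC_aj, TC_bj, n1, n2, n3, n4, n5, n6, n7, n8, t1, t2, t3, t4]
    try group
  have c3 : y3 (a (Fin.last n)) = (a (Fin.last n))⁻¹ * (b (Fin.last n))⁻¹ * (a (Fin.last n))⁻¹ *
      b i.castSucc * a i.castSucc * a (Fin.last n) := by
    simp only [e3, MulAut.mul_apply, map_mul, map_inv, p2, q2, c2, d2, TA_a, TA_b, TAi_a, TAi_b, TB_a, TB_b, TBi_a, TBi_b, TC_ai, TC_bi,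
      TC_aj, TC_bj, n1, n2, n3, n4, n5, n6, n7, n8, t1, t2, t3, t4]
    try group
  have d3 : y3 (b (Fin.last n)) = b (Fin.last n) * a (Fin.last n) * (a i.castSucc)⁻¹ *
      (b i.castSucc)⁻¹ * a (Fin.last n) * b (Fin.last n) * (a i.castSucc)⁻¹ * (b i.castSucc)⁻¹ *
      a (Fin.last n) * b (Fin.last n) * a (Fin.last n) := by
    simp only [e3, MulAut.mul_apply, map_mul, map_inv, p2, q2, c2, d2, TA_a, TA_b, TAi_a, TAi_b, TB_a, TB_b, TBi_a, TBi_b, TC_ai, TC_bi,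
      TC_aj, TC_bj, n1, n2, n3, n4, n5, n6, n7, n8, t1, t2, t3, t4]
    try group
  obtain ⟨y4, e4⟩ : ∃ y, y = (TB h i.castSucc)⁻¹ * y3 *
      TB h i.castSucc := ⟨_, rfl⟩
  have p4 : y4 (a i.castSucc) = a i.castSucc := by
    simp only [e4, MulAut.mul_apply, map_mul, map_inv, p3, q3, c3, d3, TA_a, TA_b, TAi_a, TAi_b, TB_a, TB_b, TBi_a, TBi_b, TC_ai, TC_bi,
      TC_aj, TC_bj, n1, n2, n3, n4, n5, n6, n7, n8, t1, t2, t3, t4]
    try group
  have q4 : y4 (b i.castSucc) = (a (Fin.last n))⁻¹ * (b (Fin.last n))⁻¹ * (a (Fin.last n))⁻¹ *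
      b i.castSucc * a i.castSucc := by
    simp only [e4, MulAut.mul_apply, map_mul, map_inv, p3, q3, c3, d3, TA_a, TA_b, TAi_a, TAi_b, TB_a, TB_b, TBi_a, TBi_b, TC_ai, TC_bi,
      TC_aj, TC_bj, n1, n2, n3, n4, n5, n6, n7, n8, t1, t2, t3, t4]
    try group
  have c4 : y4 (a (Fin.last n)) = (a (Fin.last n))⁻¹ * (b (Fin.last n))⁻¹ * (a (Fin.last n))⁻¹ *
      b i.castSucc * a i.castSucc * (b i.castSucc)⁻¹ * a (Fin.last n) := by
    simp only [e4, MulAut.mul_apply, map_mul, map_inv, p3, q3, c3, d3, TA_a, TA_b, TAi_a, TAi_b, TB_a, TB_b, TBi_a, TBi_b, TC_ai, TC_bi,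
      TC_aj, TC_bj, n1, n2, n3, n4, n5, n6, n7, n8, t1, t2, t3, t4]
    try group
  have d4 : y4 (b (Fin.last n)) = b (Fin.last n) * a (Fin.last n) * b i.castSucc *
      (a i.castSucc)⁻¹ * (b i.castSucc)⁻¹ * a (Fin.last n) * b (Fin.last n) * b i.castSucc *
      (a i.castSucc)⁻¹ * (b i.castSucc)⁻¹ * a (Fin.last n) * b (Fin.last n) * a (Fin.last n) := by
    simp only [e4, MulAut.mul_apply, map_mul, map_inv, p3, q3, c3, d3, TA_a, TA_b, TAi_a, TAi_b, TB_a, TB_b, TBi_a, TBi_b, TC_ai, TC_bi,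
      TC_aj, TC_bj, n1, n2, n3, n4, n5, n6, n7, n8, t1, t2, t3, t4]
    try group
  obtain ⟨y5, e5⟩ : ∃ y, y = (TB h i.castSucc)⁻¹ * y4 *
      TB h i.castSucc := ⟨_, rfl⟩
  have p5 : y5 (a i.castSucc) = a i.castSucc * (b i.castSucc)⁻¹ * (a (Fin.last n))⁻¹ *
      (b (Fin.last n))⁻¹ * (a (Fin.last n))⁻¹ * b i.castSucc * a i.castSucc * (b i.castSucc)⁻¹ := by
    simp only [e5, MulAut.mul_apply, map_mul, map_inv, p4, q4, c4, d4, TA_a, TA_b, TAi_a, TAi_b, TB_a, TB_b, TBi_a, TBi_b, TC_ai, TC_bi,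
      TC_aj, TC_bj, n1, n2, n3, n4, n5, n6, n7, n8, t1, t2, t3, t4]
    try group
  have q5 : y5 (b i.castSucc) = (a (Fin.last n))⁻¹ * (b (Fin.last n))⁻¹ * (a (Fin.last n))⁻¹ *
      b i.castSucc * a i.castSucc * (b i.castSucc)⁻¹ := by
    simp only [e5, MulAut.mul_apply, map_mul, map_inv, p4, q4, c4, d4, TA_a, TA_b, TAi_a, TAi_b, TB_a, TB_b, TBi_a, TBi_b, TC_ai, TC_bi,
      TC_aj, TC_bj, n1, n2, n3, n4, n5, n6, n7, n8, t1, t2, t3, t4]
    try group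
  have c5 : y5 (a (Fin.last n)) = (a (Fin.last n))⁻¹ * (b (Fin.last n))⁻¹ * (a (Fin.last n))⁻¹ *
      b i.castSucc * a i.castSucc * (b i.castSucc)⁻¹ * (b i.castSucc)⁻¹ * a (Fin.last n) := by
    simp only [e5, MulAut.mul_apply, map_mul, map_inv, p4, q4, c4, d4, TA_a, TA_b, TAi_a, TAi_b, TB_a, TB_b, TBi_a, TBi_b, TC_ai, TC_bi,
      TC_aj, TC_bj, n1, n2, n3, n4, n5, n6, n7, n8, t1, t2, t3, t4]
    try group
  have d5 : y5 (b (Fin.last n)) = b (Fin.last n) * a (Fin.last n) * b i.castSucc *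
      b i.castSucc * (a i.castSucc)⁻¹ * (b i.castSucc)⁻¹ * a (Fin.last n) * b (Fin.last n) *
      b i.castSucc * b i.castSucc * (a i.castSucc)⁻¹ * (b i.castSucc)⁻¹ * a (Fin.last n) *
      b (Fin.last n) * a (Fin.last n) := by
    simp only [e5, MulAut.mul_apply, map_mul, map_inv, p4, q4, c4, d4, TA_a, TA_b, TAi_a, TAi_b, TB_a, TB_b, TBi_a, TBi_b, TC_ai, TC_bi,
      TC_aj, TC_bj, n1, n2, n3, n4, n5, n6, n7, n8, t1, t2, t3, t4]
    try group
  obtain ⟨y6, e6⟩ : ∃ y, y = TA h i.castSucc * y5 *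
      (TA h i.castSucc)⁻¹ := ⟨_, rfl⟩
  have p6 : y6 (a i.castSucc) = (b i.castSucc)⁻¹ * (a (Fin.last n))⁻¹ * (b (Fin.last n))⁻¹ *
      (a (Fin.last n))⁻¹ * b i.castSucc * a i.castSucc * (b i.castSucc)⁻¹ := by
    simp only [e6, MulAut.mul_apply, map_mul, map_inv, p5, q5, c5, d5, TA_a, TA_b, TAi_a, TAi_b, TB_a, TB_b, TBi_a, TBi_b, TC_ai, TC_bi,
      TC_aj, TC_bj, n1, n2, n3, n4, n5, n6, n7, n8, t1, t2, t3, t4]
    try group
  have q6 : y6 (b i.castSucc) = b i.castSucc := by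
    simp only [e6, MulAut.mul_apply, map_mul, map_inv, p5, q5, c5, d5, TA_a, TA_b, TAi_a, TAi_b, TB_a, TB_b, TBi_a, TBi_b, TC_ai, TC_bi,
      TC_aj, TC_bj, n1, n2, n3, n4, n5, n6, n7, n8, t1, t2, t3, t4]
    try group
  have c6 : y6 (a (Fin.last n)) = (a (Fin.last n))⁻¹ * (b (Fin.last n))⁻¹ * (a (Fin.last n))⁻¹ *
      b i.castSucc * a i.castSucc * (b i.castSucc)⁻¹ * (a i.castSucc)⁻¹ * (b i.castSucc)⁻¹ *
      a (Fin.last n) := by
    simp only [e6, MulAut.mul_apply, map_mul, map_inv, p5, q5, c5, d5, TA_a, TA_b, TAi_a, TAi_b, TB_a, TB_b, TBi_a, TBi_b, TC_ai, TC_bi,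
      TC_aj, TC_bj, n1, n2, n3, n4, n5, n6, n7, n8, t1, t2, t3, t4]
    try group
  have d6 : y6 (b (Fin.last n)) = b (Fin.last n) * a (Fin.last n) * b i.castSucc *
      a i.castSucc * b i.castSucc * (a i.castSucc)⁻¹ * (b i.castSucc)⁻¹ * a (Fin.last n) *
      b (Fin.last n) * b i.castSucc * a i.castSucc * b i.castSucc * (a i.castSucc)⁻¹ *
      (b i.castSucc)⁻¹ * a (Fin.last n) * b (Fin.last n) * a (Fin.last n) := by
    simp only [e6, MulAut.mul_apply, map_mul, map_inv, p5, q5, c5, d5, TA_a, TA_b, TAi_a, TAi_b, TB_a, TB_b, TBi_a, TBi_b, TC_ai, TC_bi,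
      TC_aj, TC_bj, n1, n2, n3, n4, n5, n6, n7, n8, t1, t2, t3, t4]
    try group
  obtain ⟨y7, e7⟩ : ∃ y, y = (TC h i.castSucc (Fin.last n) hl)⁻¹ * y6 *
      TC h i.castSucc (Fin.last n) hl := ⟨_, rfl⟩
  have p7 : y7 (a i.castSucc) = (a (Fin.last n))⁻¹ * (a (Fin.last n))⁻¹ * (b (Fin.last n))⁻¹ *
      (a (Fin.last n))⁻¹ * b i.castSucc * a i.castSucc * (b i.castSucc)⁻¹ * a i.castSucc *
      b i.castSucc * (a i.castSucc)⁻¹ * (b i.castSucc)⁻¹ * a (Fin.last n) * b (Fin.last n) *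
      a (Fin.last n) * a (Fin.last n) := by
    simp only [e7, MulAut.mul_apply, map_mul, map_inv, p6, q6, c6, d6, TA_a, TA_b, TAi_a, TAi_b, TB_a, TB_b, TBi_a, TBi_b, TC_ai, TC_bi,
      TC_aj, TC_bj, n1, n2, n3, n4, n5, n6, n7, n8, t1, t2, t3, t4]
    try group
  have q7 : y7 (b i.castSucc) = (a (Fin.last n))⁻¹ * (a (Fin.last n))⁻¹ * (b (Fin.last n))⁻¹ *
      (a (Fin.last n))⁻¹ * b i.castSucc * a i.castSucc * (b i.castSucc)⁻¹ * (a i.castSucc)⁻¹ *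
      b i.castSucc * a i.castSucc * b i.castSucc * (a i.castSucc)⁻¹ * (b i.castSucc)⁻¹ *
      a (Fin.last n) * b (Fin.last n) * a (Fin.last n) * a (Fin.last n) := by
    simp only [e7, MulAut.mul_apply, map_mul, map_inv, p6, q6, c6, d6, TA_a, TA_b, TAi_a, TAi_b, TB_a, TB_b, TBi_a, TBi_b, TC_ai, TC_bi,
      TC_aj, TC_bj, n1, n2, n3, n4, n5, n6, n7, n8, t1, t2, t3, t4]
    try group
  have c7 : y7 (a (Fin.last n)) = (a (Fin.last n))⁻¹ * (a (Fin.last n))⁻¹ * (b (Fin.last n))⁻¹ *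
      (a (Fin.last n))⁻¹ * b i.castSucc * a i.castSucc * (b i.castSucc)⁻¹ * (a i.castSucc)⁻¹ *
      a (Fin.last n) := by
    simp only [e7, MulAut.mul_apply, map_mul, map_inv, p6, q6, c6, d6, TA_a, TA_b, TAi_a, TAi_b, TB_a, TB_b, TBi_a, TBi_b, TC_ai, TC_bi,
      TC_aj, TC_bj, n1, n2, n3, n4, n5, n6, n7, n8, t1, t2, t3, t4]
    try group
  have d7 : y7 (b (Fin.last n)) = b (Fin.last n) * a (Fin.last n) * a (Fin.last n) *
      a i.castSucc * b i.castSucc * (a i.castSucc)⁻¹ * (b i.castSucc)⁻¹ * a (Fin.last n) *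
      b (Fin.last n) * a (Fin.last n) * a i.castSucc * b i.castSucc * (a i.castSucc)⁻¹ *
      (b i.castSucc)⁻¹ * a (Fin.last n) * b (Fin.last n) * a (Fin.last n) * a i.castSucc *
      b i.castSucc * (a i.castSucc)⁻¹ * (b i.castSucc)⁻¹ * a (Fin.last n) * b (Fin.last n) *
      a (Fin.last n) * a (Fin.last n) := by
    simp only [e7, MulAut.mul_apply, map_mul, map_inv, p6, q6, c6, d6, TA_a, TA_b, TAi_a, TAi_b, TB_a, TB_b, TBi_a, TBi_b, TC_ai, TC_bi,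
      TC_aj, TC_bj, n1, n2, n3, n4, n5, n6, n7, n8, t1, t2, t3, t4]
    try group
  obtain ⟨y8, e8⟩ : ∃ y, y = (TA h (Fin.last n))⁻¹ * y7 *
      TA h (Fin.last n) := ⟨_, rfl⟩
  have p8 : y8 (a i.castSucc) = (a (Fin.last n))⁻¹ * (b (Fin.last n))⁻¹ * (a (Fin.last n))⁻¹ *
      b i.castSucc * a i.castSucc * (b i.castSucc)⁻¹ * a i.castSucc * b i.castSucc *
      (a i.castSucc)⁻¹ * (b i.castSucc)⁻¹ * a (Fin.last n) * b (Fin.last n) * a (Fin.last n) := by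
    simp only [e8, MulAut.mul_apply, map_mul, map_inv, p7, q7, c7, d7, TA_a, TA_b, TAi_a, TAi_b, TB_a, TB_b, TBi_a, TBi_b, TC_ai, TC_bi,
      TC_aj, TC_bj, n1, n2, n3, n4, n5, n6, n7, n8, t1, t2, t3, t4]
    try group
  have q8 : y8 (b i.castSucc) = (a (Fin.last n))⁻¹ * (b (Fin.last n))⁻¹ * (a (Fin.last n))⁻¹ *
      b i.castSucc * a i.castSucc * (b i.castSucc)⁻¹ * (a i.castSucc)⁻¹ * b i.castSucc *
      a i.castSucc * b i.castSucc * (a i.castSucc)⁻¹ * (b i.castSucc)⁻¹ * a (Fin.last n) *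
      b (Fin.last n) * a (Fin.last n) := by
    simp only [e8, MulAut.mul_apply, map_mul, map_inv, p7, q7, c7, d7, TA_a, TA_b, TAi_a, TAi_b, TB_a, TB_b, TBi_a, TBi_b, TC_ai, TC_bi,
      TC_aj, TC_bj, n1, n2, n3, n4, n5, n6, n7, n8, t1, t2, t3, t4]
    try group
  have c8 : y8 (a (Fin.last n)) = (a (Fin.last n))⁻¹ * (b (Fin.last n))⁻¹ * (a (Fin.last n))⁻¹ *
      b i.castSucc * a i.castSucc * (b i.castSucc)⁻¹ * (a i.castSucc)⁻¹ * a (Fin.last n) := by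
    simp only [e8, MulAut.mul_apply, map_mul, map_inv, p7, q7, c7, d7, TA_a, TA_b, TAi_a, TAi_b, TB_a, TB_b, TBi_a, TBi_b, TC_ai, TC_bi,
      TC_aj, TC_bj, n1, n2, n3, n4, n5, n6, n7, n8, t1, t2, t3, t4]
    try group
  have d8 : y8 (b (Fin.last n)) = b (Fin.last n) * a (Fin.last n) * a i.castSucc *
      b i.castSucc * (a i.castSucc)⁻¹ * (b i.castSucc)⁻¹ * a (Fin.last n) * b (Fin.last n) *
      a i.castSucc * b i.castSucc * (a i.castSucc)⁻¹ * (b i.castSucc)⁻¹ * a (Fin.last n) *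
      b (Fin.last n) * a (Fin.last n) := by
    simp only [e8, MulAut.mul_apply, map_mul, map_inv, p7, q7, c7, d7, TA_a, TA_b, TAi_a, TAi_b, TB_a, TB_b, TBi_a, TBi_b, TC_ai, TC_bi,
      TC_aj, TC_bj, n1, n2, n3, n4, n5, n6, n7, n8, t1, t2, t3, t4]
    try group
  obtain ⟨y9, e9⟩ : ∃ y, y = (TA h (Fin.last n))⁻¹ * y8 *
      TA h (Fin.last n) := ⟨_, rfl⟩
  have p9 : y9 (a i.castSucc) = (b (Fin.last n))⁻¹ * (a (Fin.last n))⁻¹ * b i.castSucc *
      a i.castSucc * (b i.castSucc)⁻¹ * a i.castSucc * b i.castSucc * (a i.castSucc)⁻¹ *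
      (b i.castSucc)⁻¹ * a (Fin.last n) * b (Fin.last n) := by
    simp only [e9, MulAut.mul_apply, map_mul, map_inv, p8, q8, c8, d8, TA_a, TA_b, TAi_a, TAi_b, TB_a, TB_b, TBi_a, TBi_b, TC_ai, TC_bi,
      TC_aj, TC_bj, n1, n2, n3, n4, n5, n6, n7, n8, t1, t2, t3, t4]
    try group
  have q9 : y9 (b i.castSucc) = (b (Fin.last n))⁻¹ * (a (Fin.last n))⁻¹ * b i.castSucc *
      a i.castSucc * (b i.castSucc)⁻¹ * (a i.castSucc)⁻¹ * b i.castSucc * a i.castSucc *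
      b i.castSucc * (a i.castSucc)⁻¹ * (b i.castSucc)⁻¹ * a (Fin.last n) * b (Fin.last n) := by
    simp only [e9, MulAut.mul_apply, map_mul, map_inv, p8, q8, c8, d8, TA_a, TA_b, TAi_a, TAi_b, TB_a, TB_b, TBi_a, TBi_b, TC_ai, TC_bi,
      TC_aj, TC_bj, n1, n2, n3, n4, n5, n6, n7, n8, t1, t2, t3, t4]
    try group
  have c9 : y9 (a (Fin.last n)) = (b (Fin.last n))⁻¹ * (a (Fin.last n))⁻¹ * b i.castSucc *
      a i.castSucc * (b i.castSucc)⁻¹ * (a i.castSucc)⁻¹ * a (Fin.last n) := by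
    simp only [e9, MulAut.mul_apply, map_mul, map_inv, p8, q8, c8, d8, TA_a, TA_b, TAi_a, TAi_b, TB_a, TB_b, TBi_a, TBi_b, TC_ai, TC_bi,
      TC_aj, TC_bj, n1, n2, n3, n4, n5, n6, n7, n8, t1, t2, t3, t4]
    try group
  have d9 : y9 (b (Fin.last n)) = b (Fin.last n) * a i.castSucc * b i.castSucc *
      (a i.castSucc)⁻¹ * (b i.castSucc)⁻¹ * a (Fin.last n) * b (Fin.last n) := by
    simp only [e9, MulAut.mul_apply, map_mul, map_inv, p8, q8, c8, d8, TA_a, TA_b, TAi_a, TAi_b, TB_a, TB_b, TBi_a, TBi_b, TC_ai, TC_bi,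
      TC_aj, TC_bj, n1, n2, n3, n4, n5, n6, n7, n8, t1, t2, t3, t4]
    try group
  obtain ⟨y10, e10⟩ : ∃ y, y = (TB h (Fin.last n))⁻¹ * y9 *
      TB h (Fin.last n) := ⟨_, rfl⟩
  have p10 : y10 (a i.castSucc) = (a (Fin.last n))⁻¹ * b i.castSucc * a i.castSucc *
      (b i.castSucc)⁻¹ * a i.castSucc * b i.castSucc * (a i.castSucc)⁻¹ * (b i.castSucc)⁻¹ *
      a (Fin.last n) := by
    simp only [e10, MulAut.mul_apply, map_mul, map_inv, p9, q9, c9, d9, TA_a, TA_b, TAi_a, TAi_b, TB_a, TB_b, TBi_a, TBi_b, TC_ai, TC_bi,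
      TC_aj, TC_bj, n1, n2, n3, n4, n5, n6, n7, n8, t1, t2, t3, t4]
    try group
  have q10 : y10 (b i.castSucc) = (a (Fin.last n))⁻¹ * b i.castSucc * a i.castSucc *
      (b i.castSucc)⁻¹ * (a i.castSucc)⁻¹ * b i.castSucc * a i.castSucc * b i.castSucc *
      (a i.castSucc)⁻¹ * (b i.castSucc)⁻¹ * a (Fin.last n) := by
    simp only [e10, MulAut.mul_apply, map_mul, map_inv, p9, q9, c9, d9, TA_a, TA_b, TAi_a, TAi_b, TB_a, TB_b, TBi_a, TBi_b, TC_ai, TC_bi,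
      TC_aj, TC_bj, n1, n2, n3, n4, n5, n6, n7, n8, t1, t2, t3, t4]
    try group
  have c10 : y10 (a (Fin.last n)) = (a (Fin.last n))⁻¹ * b i.castSucc * a i.castSucc *
      (b i.castSucc)⁻¹ * (a i.castSucc)⁻¹ * a (Fin.last n) * a i.castSucc * b i.castSucc *
      (a i.castSucc)⁻¹ * (b i.castSucc)⁻¹ * a (Fin.last n) := by
    simp only [e10, MulAut.mul_apply, map_mul, map_inv, p9, q9, c9, d9, TA_a, TA_b, TAi_a, TAi_b, TB_a, TB_b, TBi_a, TBi_b, TC_ai, TC_bi,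
      TC_aj, TC_bj, n1, n2, n3, n4, n5, n6, n7, n8, t1, t2, t3, t4]
    try group
  have d10 : y10 (b (Fin.last n)) = b (Fin.last n) * a i.castSucc * b i.castSucc *
      (a i.castSucc)⁻¹ * (b i.castSucc)⁻¹ * a (Fin.last n) := by
    simp only [e10, MulAut.mul_apply, map_mul, map_inv, p9, q9, c9, d9, TA_a, TA_b, TAi_a, TAi_b, TB_a, TB_b, TBi_a, TBi_b, TC_ai, TC_bi,
      TC_aj, TC_bj, n1, n2, n3, n4, n5, n6, n7, n8, t1, t2, t3, t4]
    try group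
  have hg : gw h i hl * TA h (Fin.last n) * (gw h i hl)⁻¹ = y10 := by
    rw [e10, e9, e8, e7, e6, e5, e4, e3, e2, e1, gw]
    simp only [mul_inv_rev, inv_inv, mul_assoc]
  rw [hg]
  exact ⟨p10, q10, c10, d10⟩

lemma gw_mem (h : IsSurf a b) {i : Fin n} (hi : (i : ℕ) + 1 = n)
    (hl : ((Fin.last n : Fin (n + 1)) : ℕ) = i.castSucc + 1) :
    gw h i hl ∈ H60G.MR h (n - 1) (n + 1) := by
  have h1 := TAl_mem2 h
  have h2 : TB h (Fin.last n) ∈ H60G.MR h (n - 1) (n + 1) :=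
    TB_mem h _ (by rw [Fin.val_last]; omega) (by rw [Fin.val_last]; omega)
  have h3 : TA h i.castSucc ∈ H60G.MR h (n - 1) (n + 1) :=
    TA_mem h _ (by rw [Fin.val_castSucc]; omega) (by rw [Fin.val_castSucc]; omega)
  have h4 : TB h i.castSucc ∈ H60G.MR h (n - 1) (n + 1) :=
    TB_mem h _ (by rw [Fin.val_castSucc]; omega) (by rw [Fin.val_castSucc]; omega)
  have h5 : TC h i.castSucc (Fin.last n) hl ∈ H60G.MR h (n - 1) (n + 1) :=
    TC_mem h _ _ hl (by rw [Fin.val_castSucc]; omega) (by rw [Fin.val_last]; omega)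
  exact mul_mem (mul_mem (mul_mem (mul_mem (mul_mem (mul_mem (mul_mem (mul_mem (mul_mem
    (inv_mem h2) (inv_mem h1)) (inv_mem h1)) (inv_mem h5)) h3) (inv_mem h4)) (inv_mem h4)) h3)
    (inv_mem h5)) h2

/-- The push of a foot about the boundary of a handle is the product of a bounding pair map of
genus one and a Dehn twist about a separating curve of genus one. -/
theorem Yk_eq (h : IsSurf a b) {i : Fin n} (hi : (i : ℕ) + 1 = n)
    (hl : ((Fin.last n : Fin (n + 1)) : ℕ) = i.castSucc + 1) :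
    Yk h i = ((TA h i.castSucc)⁻¹ * TB h i.castSucc) ^ 6 *
      (gw h i hl * TA h (Fin.last n) * (gw h i hl)⁻¹) * (TA h (Fin.last n))⁻¹ := by
  have hne := lne i
  obtain ⟨v1, v2, v3, v4⟩ := gw_vals h hl
  have hg := gw_mem h hi hl
  have hA := TAl_mem2 h
  have hr := rti_mem2 h hi
  have hy := mul_mem (mul_mem hg hA) (inv_mem hg)
  rw [eq_mul_inv_iff_mul_eq, ← rt_six]
  obtain ⟨y, hy'⟩ : ∃ y, y = gw h i hl * TA h (Fin.last n) * (gw h i hl)⁻¹ := ⟨_, rfl⟩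
  rw [← hy'] at v1 v2 v3 v4 hy ⊢
  refine ext_last h (mul_mem (Yk_mem h hi) hA)
    (mul_mem (mul_mem (mul_mem hr hr) (mul_mem hr hr)) hy) fun k hk => ?_
  rcases mem_two hi hk with rfl | rfl
  · constructor
    · simp only [MulAut.mul_apply, map_mul, map_inv, v1, v2, v3, v4, TA_a, TA_b,
        TA_b_ne h hne.symm, Yk_p, Yk_q, Yk_c, Yk_d, rt_a, rt_b, rt_a_ne h _ hne, rt_b_ne h _ hne]
      group
    · simp only [MulAut.mul_apply, map_mul, map_inv, v1, v2, v3, v4, TA_a, TA_b,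
        TA_b_ne h hne.symm, Yk_p, Yk_q, Yk_c, Yk_d, rt_a, rt_b, rt_a_ne h _ hne, rt_b_ne h _ hne]
      group
  · constructor
    · simp only [MulAut.mul_apply, map_mul, map_inv, v1, v2, v3, v4, TA_a, TA_b,
        TA_b_ne h hne.symm, Yk_p, Yk_q, Yk_c, Yk_d, rt_a, rt_b, rt_a_ne h _ hne, rt_b_ne h _ hne]
      group
    · simp only [MulAut.mul_apply, map_mul, map_inv, v1, v2, v3, v4, TA_a, TA_b,
        TA_b_ne h hne.symm, Yk_p, Yk_q, Yk_c, Yk_d, rt_a, rt_b, rt_a_ne h _ hne, rt_b_ne h _ hne]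
      group

lemma XX_cf_Yk (h : IsSurf a b) (i : Fin n) : XX h (cf i) * TT h ^ (-2 : ℤ) = Yk h i := by
  rw [cf, map_mul, map_mul, map_mul, map_inv, map_inv, XX_a, XX_b, Yk, ← TT_eq]
  group

/-- The separating twists of genus one of the last two handles are conjugate. -/
lemma sep_conj (h : IsSurf a b) {i : Fin n} (hi : (i : ℕ) + 1 = n) :
    ∃ σ ∈ MMs h, ((TA h i.castSucc)⁻¹ * TB h i.castSucc) ^ 6 =
      σ * ((TA h (Fin.last n))⁻¹ * TB h (Fin.last n)) ^ 6 * σ⁻¹ := by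
  obtain ⟨σ, S⟩ := exists_Sw h hi
  refine ⟨σ, MR_le_MMs h _ _ S.mem, ?_⟩
  have h1 : σ * TA h (Fin.last n) * σ⁻¹ = TA h i.castSucc := by
    rw [Sw_TAl h hi S, mul_inv_cancel_right]
  have h2 : σ * TB h (Fin.last n) * σ⁻¹ = TB h i.castSucc := by
    rw [Sw_TBl h hi S, mul_inv_cancel_right]
  rw [← conj_pow]
  congr 1
  rw [← h1, ← h2]
  group

/-- Generation of the Torelli group modulo the relations of the pushes, by bounding pair maps of
genus one and separating twists of genus one. -/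
theorem gen_bp (h : IsSurf a b) (hn : 1 ≤ n) {N K : Subgroup (MulAut G)}
    (hN : ∀ φ ∈ MMs h, ∀ x ∈ N, φ * x * φ⁻¹ ∈ N) (hR : Rels h N) (hNK : N ≤ K)
    (hK : ∀ ψ ∈ MMs h, ∀ x ∈ K, ψ * x * ψ⁻¹ ∈ K)
    (h2 : ∀ (i : Fin n) (hl : ((Fin.last n : Fin (n + 1)) : ℕ) = i.castSucc + 1),
      gw h i hl * TA h (Fin.last n) * (gw h i hl)⁻¹ * (TA h (Fin.last n))⁻¹ ∈ K)
    (K2 : ((TA h (Fin.last n))⁻¹ * TB h (Fin.last n)) ^ 6 ∈ K) :
    ∀ φ ∈ MMs h, H1 h φ = 1 → φ ∈ K := by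
  let i : Fin n := ⟨n - 1, by omega⟩
  have hi : (i : ℕ) + 1 = n := by simp only [i]; omega
  have hl : ((Fin.last n : Fin (n + 1)) : ℕ) = i.castSucc + 1 := by
    rw [Fin.val_last, Fin.val_castSucc, hi]
  refine gen_of h hn hN hR hNK hK i ?_ K2
  rw [XX_cf_Yk, Yk_eq h hi hl, mul_assoc]
  obtain ⟨σ, s1, s2⟩ := sep_conj h hi
  rw [s2]
  exact mul_mem (hK σ s1 _ K2) (h2 i hl)

end Pool.Agent.H.MP_59b15d_al.PK
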