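import Mathlib
import Pool.Agent.H.MP_59b15d_al.h60g.Bl

/-!
# The last `n` handles can be moved to the first `n` handles
-/

set_option autoImplicit false

namespace Pool.Agent.H.MP_59b15d_al.PK

open Pool.MP_59b15d_al.H24T Pool.MP_59b15d_al.H76R Pool.MP_59b15d_al.H73E Pool.MP_59b15d_al.H60G

variable {n : ℕ} {G : Type*} [Group G] {a b : Fin (n + 1) → G}

/-- There is a mapping class that conjugates the twists of the last `n` handles to those of the
first `n` handles. -/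
theorem exists_shift_one (h : IsSurf a b) :
    ∃ ψ ∈ MR h 0 (n + 1), ∀ f ∈ MR h 1 (n + 1), ψ⁻¹ * f * ψ ∈ MR h 0 n := by
  obtain ⟨β, b1, b2, b3⟩ := exists_beta h n 1 le_rfl
  refine ⟨β, b1, ?_⟩
  have b4 : β (ex a n) = ex a 0 ∧ β (ex b n) = ex b 0 := b3 0 (by omega)
  have key : ∀ F F' : MulAut G, F ∈ MR h 1 (n + 1) → F' ∈ MR h 0 n →
      (∀ k, k < n → β⁻¹ (F (ex a (1 + k))) = β⁻¹ (DD a b 1)⁻¹ * F' (ex a k) * β⁻¹ (DD a b 1) ∧
        β⁻¹ (F (ex b (1 + k))) = β⁻¹ (DD a b 1)⁻¹ * F' (ex b k) * β⁻¹ (DD a b 1)) →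
      β⁻¹ * F * β ∈ MR h 0 n := by
    intro F F' hF hF' h1
    have h3 : F * β = β * F' := by
      apply ext_ex h
      intro k hk
      rw [MulAut.mul_apply, MulAut.mul_apply, MulAut.mul_apply, MulAut.mul_apply]
      rcases lt_or_ge k n with hkn | hkn
      · have h6 : F (DD a b 1) = DD a b 1 := MR_DD h hF (Or.inr le_rfl)
        obtain ⟨e1, e2⟩ := h1 k hkn
        have e3 := congrArg β e1
        have e4 := congrArg β e2
        rw [MulAut.apply_inv_self, map_mul, map_mul, MulAut.apply_inv_self,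
          MulAut.apply_inv_self] at e3 e4
        rw [(b2 k hkn).1, (b2 k hkn).2]
        simp only [map_mul, map_inv, h6, e3, e4]
        constructor <;> group
      · have hk2 : k = n := by omega
        subst hk2
        rw [b4.1, b4.2, (MR_fix h hF 0 (Or.inl (by omega))).1,
          (MR_fix h hF 0 (Or.inl (by omega))).2, (MR_fix h hF' k (Or.inr le_rfl)).1,
          (MR_fix h hF' k (Or.inr le_rfl)).2]
        exact ⟨b4.1.symm, b4.2.symm⟩
    have h7 : β⁻¹ * F * β = F' := by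
      rw [mul_assoc, h3, inv_mul_cancel_left]
    rw [h7]
    exact hF'
  -- values of the inverse
  have c0 : ∀ k, k < n → β⁻¹ (ex a (1 + k)) = β⁻¹ (DD a b 1)⁻¹ * ex a k * β⁻¹ (DD a b 1) ∧
      β⁻¹ (ex b (1 + k)) = β⁻¹ (DD a b 1)⁻¹ * ex b k * β⁻¹ (DD a b 1) := by
    intro k hk
    obtain ⟨e1, e2⟩ := b2 k hk
    have e3 := congrArg (fun x => β⁻¹ x) e1
    have e4 := congrArg (fun x => β⁻¹ x) e2
    simp only [MulAut.inv_apply_self, map_mul, map_inv] at e3 e4
    rw [e3, e4, map_inv]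
    constructor <;> group
  have hle : MR h 1 (n + 1) ≤ (MR h 0 n).comap (MulAut.conj β⁻¹).toMonoidHom := by
    apply MR_le h
    · intro i h1 hi
      change β⁻¹ * TA h i * β⁻¹⁻¹ ∈ MR h 0 n
      rw [inv_inv]
      have hin : (i : ℕ) - 1 < n + 1 := by omega
      refine key _ (TA h ⟨(i : ℕ) - 1, hin⟩) (TA_mem h i h1 hi)
        (TA_mem h _ (Nat.zero_le _) (by simp only; omega)) ?_
      intro k hk
      have hgk : 1 + k < n + 1 := by omega
      have hk' : k < n + 1 := by omega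
      have c1 := c0 k hk
      rw [ex_lt a hgk, ex_lt b hgk, ex_lt a hk', ex_lt b hk'] at c1
      rw [ex_lt a hgk, ex_lt b hgk, ex_lt a hk', ex_lt b hk', TA_a, TA_a]
      refine ⟨c1.1, ?_⟩
      by_cases hki : 1 + k = i
      · have e1 : (⟨1 + k, hgk⟩ : Fin (n + 1)) = i := Fin.ext hki
        have e2 : (⟨k, hk'⟩ : Fin (n + 1)) = ⟨(i : ℕ) - 1, hin⟩ := Fin.ext (by simp only; omega)
        rw [e1, e2] at c1 ⊢
        rw [TA_b, TA_b, map_mul, c1.1, c1.2, map_inv]
        group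
      · rw [TA_b_ne h (by simp [Fin.ext_iff, hki]), TA_b_ne h (by simp [Fin.ext_iff]; omega), c1.2]
    · intro i h1 hi
      change β⁻¹ * TB h i * β⁻¹⁻¹ ∈ MR h 0 n
      rw [inv_inv]
      have hin : (i : ℕ) - 1 < n + 1 := by omega
      refine key _ (TB h ⟨(i : ℕ) - 1, hin⟩) (TB_mem h i h1 hi)
        (TB_mem h _ (Nat.zero_le _) (by simp only; omega)) ?_
      intro k hk
      have hgk : 1 + k < n + 1 := by omega
      have hk' : k < n + 1 := by omega
      have c1 := c0 k hk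
      rw [ex_lt a hgk, ex_lt b hgk, ex_lt a hk', ex_lt b hk'] at c1
      rw [ex_lt a hgk, ex_lt b hgk, ex_lt a hk', ex_lt b hk', TB_b, TB_b]
      refine ⟨?_, c1.2⟩
      by_cases hki : 1 + k = i
      · have e1 : (⟨1 + k, hgk⟩ : Fin (n + 1)) = i := Fin.ext hki
        have e2 : (⟨k, hk'⟩ : Fin (n + 1)) = ⟨(i : ℕ) - 1, hin⟩ := Fin.ext (by simp only; omega)
        rw [e1, e2] at c1 ⊢
        rw [TB_a, TB_a, map_mul, c1.1, c1.2, map_inv]
        group
      · rw [TB_a_ne h (by simp [Fin.ext_iff, hki]), TB_a_ne h (by simp [Fin.ext_iff]; omega), c1.1]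
    · intro i j hij h1 hj
      change β⁻¹ * TC h i j hij * β⁻¹⁻¹ ∈ MR h 0 n
      rw [inv_inv]
      have hin : (i : ℕ) - 1 < n + 1 := by omega
      have hjn : (j : ℕ) - 1 < n + 1 := by omega
      have hij' : ((⟨(j : ℕ) - 1, hjn⟩ : Fin (n + 1)) : ℕ) = (⟨(i : ℕ) - 1, hin⟩ : Fin (n + 1)) + 1 := by
        simp only; omega
      refine key _ (TC h ⟨(i : ℕ) - 1, hin⟩ ⟨(j : ℕ) - 1, hjn⟩ hij') (TC_mem h i j hij h1 hj)
        (TC_mem h _ _ hij' (Nat.zero_le _) (by simp only; omega)) ?_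
      intro k hk
      have hgk : 1 + k < n + 1 := by omega
      have hk' : k < n + 1 := by omega
      have c1 := c0 k hk
      have ci := c0 ((i : ℕ) - 1) (by omega)
      have cj := c0 ((j : ℕ) - 1) (by omega)
      rw [show 1 + ((i : ℕ) - 1) = (i : ℕ) by omega, ex_val, ex_val, ex_lt a hin, ex_lt b hin] at ci
      rw [show 1 + ((j : ℕ) - 1) = (j : ℕ) by omega, ex_val, ex_val, ex_lt a hjn, ex_lt b hjn] at cj
      rw [ex_lt a hgk, ex_lt b hgk, ex_lt a hk', ex_lt b hk'] at c1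
      rw [ex_lt a hgk, ex_lt b hgk, ex_lt a hk', ex_lt b hk']
      by_cases hki : 1 + k = i
      · have e1 : (⟨1 + k, hgk⟩ : Fin (n + 1)) = i := Fin.ext hki
        have e2 : (⟨k, hk'⟩ : Fin (n + 1)) = ⟨(i : ℕ) - 1, hin⟩ := Fin.ext (by simp only; omega)
        rw [e1, e2, TC_ai, TC_ai, TC_bi, TC_bi]
        simp only [map_mul, map_inv, ci.1, ci.2, cj.1]
        constructor <;> group
      · by_cases hkj : 1 + k = j
        · have e1 : (⟨1 + k, hgk⟩ : Fin (n + 1)) = j := Fin.ext hkj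
          have e2 : (⟨k, hk'⟩ : Fin (n + 1)) = ⟨(j : ℕ) - 1, hjn⟩ := Fin.ext (by simp only; omega)
          rw [e1, e2, TC_aj, TC_aj, TC_bj, TC_bj]
          simp only [map_mul, map_inv, ci.2, cj.1, cj.2]
          constructor <;> group
        · rw [TC_a_ne h hij (by simp [Fin.ext_iff, hki]) (by simp [Fin.ext_iff, hkj]),
            TC_b_ne h hij (by simp [Fin.ext_iff, hki]) (by simp [Fin.ext_iff, hkj]),
            TC_a_ne h hij' (by simp [Fin.ext_iff]; omega) (by simp [Fin.ext_iff]; omega),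
            TC_b_ne h hij' (by simp [Fin.ext_iff]; omega) (by simp [Fin.ext_iff]; omega)]
          exact c1
  intro f hf
  have h1 := hle hf
  change β⁻¹ * f * β⁻¹⁻¹ ∈ MR h 0 n at h1
  rwa [inv_inv] at h1

end Pool.Agent.H.MP_59b15d_al.PK
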