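import Pool.Agent.H.MP_59b15d_al.h11c.Hone
import Pool.Agent.H.MP_59b15d_al.h60g.Fin
import Pool.Agent.H.MP_59b15d_al.h93c.Heis
import Pool.Agent.H.MP_59b15d_al.pk.Shift

/-!
# The Torelli elements of the stabiliser of a curve
-/

set_option autoImplicit false

namespace Pool.Agent.H.MP_59b15d_al.PK

open SP H93C
open Pool.MP_59b15d_al.H24T Pool.MP_59b15d_al.H76R Pool.MP_59b15d_al.H60G Pool.MP_59b15d_al.H73E
open FreeGroup (of)

variable {n : ℕ} {G : Type*} [Group G] {a b : Fin (n + 1) → G}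

/-- The group generated by the conjugates of the Torelli elements of the first `n` handles. -/
def Rk (h : IsSurf a b) : Subgroup (MulAut G) :=
  Subgroup.closure {x | ∃ ψ ∈ MMs h, ∃ r ∈ MR h 0 n, H1 h r = 1 ∧ x = ψ * r * ψ⁻¹}

/-- The twists fixing the curve `a` of the last handle. -/
def Mcs (h : IsSurf a b) : Subgroup (MulAut G) :=
  Subgroup.closure {x | (∃ i, x = TA h i) ∨ (∃ i : Fin n, x = TB h i.castSucc) ∨
    ∃ i j hij, x = TC h i j hij}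

lemma Rk_conj (h : IsSurf a b) {ψ x : MulAut G} (hψ : ψ ∈ MMs h) (hx : x ∈ Rk h) :
    ψ * x * ψ⁻¹ ∈ Rk h := by
  have hle : Rk h ≤ (Rk h).comap (MulAut.conj ψ).toMonoidHom := by
    rw [Rk, Subgroup.closure_le]
    rintro _ ⟨χ, hχ, r, hr, h1, rfl⟩
    change ψ * (χ * r * χ⁻¹) * ψ⁻¹ ∈ Rk h
    have h2 : ψ * (χ * r * χ⁻¹) * ψ⁻¹ = (ψ * χ) * r * (ψ * χ)⁻¹ := by group
    rw [h2]
    exact Subgroup.subset_closure ⟨ψ * χ, (MMs h).mul_mem hψ hχ, r, hr, h1, rfl⟩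
  exact hle hx

lemma Rk_H1 (h : IsSurf a b) {x : MulAut G} (hx : x ∈ Rk h) : H1 h x = 1 := by
  have hle : Rk h ≤ (H1 h).ker := by
    rw [Rk, Subgroup.closure_le]
    rintro _ ⟨χ, hχ, r, hr, h1, rfl⟩
    change H1 h (χ * r * χ⁻¹) = 1
    rw [map_mul, map_mul, h1, mul_one, ← map_mul, mul_inv_cancel, map_one]
  exact hle hx

lemma Rk_MMs (h : IsSurf a b) : Rk h ≤ MMs h := by
  rw [Rk, Subgroup.closure_le]
  rintro _ ⟨χ, hχ, r, hr, h1, rfl⟩
  exact (MMs h).mul_mem ((MMs h).mul_mem hχ (MR_le_MMs h 0 n hr)) ((MMs h).inv_mem hχ)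

lemma Rk_first (h : IsSurf a b) {r : MulAut G} (hr : r ∈ MR h 0 n) (h1 : H1 h r = 1) :
    r ∈ Rk h :=
  Subgroup.subset_closure ⟨1, (MMs h).one_mem, r, hr, h1, by simp⟩

lemma Rk_last (h : IsSurf a b) {r : MulAut G} (hr : r ∈ MR h 1 (n + 1)) (h1 : H1 h r = 1) :
    r ∈ Rk h := by
  obtain ⟨ψ, hψ, h2⟩ := exists_shift_one h
  refine Subgroup.subset_closure ⟨ψ, MR_le_MMs h _ _ hψ, ψ⁻¹ * r * ψ, h2 r hr, ?_, by group⟩
  rw [map_mul, map_mul, h1, mul_one, ← map_mul, inv_mul_cancel, map_one]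

/-- The form of the elements of the stabiliser. -/
theorem Mcs_form (h : IsSurf a b) {φ : MulAut G} (hφ : φ ∈ Mcs h) :
    ∃ (y : Fr n) (k : ℤ) (f : MulAut G), f ∈ MR h 0 n ∧ φ = XX h y * TT h ^ k * f := by
  have hlast : ∀ (j : Fin n) (hj : ((Fin.last n : Fin (n + 1)) : ℕ) = j.castSucc + 1),
      TC h j.castSucc (Fin.last n) hj = XX h (of (Sum.inr j)) * TB h j.castSucc := by
    intro j hj
    rw [XX_b, X0_eq h j hj]
  have hidx : ∀ i j : Fin (n + 1), (j : ℕ) = i + 1 → ∃ i' : Fin n, i = i'.castSucc := by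
    intro i j hij
    have hi : (i : ℕ) < n := by
      have := j.2
      omega
    exact ⟨⟨i, hi⟩, rfl⟩
  have dM : ∀ (t φ : MulAut G), t ∈ MR h 0 n →
      (∃ (y : Fr n) (k : ℤ) (f : MulAut G), f ∈ MR h 0 n ∧ φ = XX h y * TT h ^ k * f) →
      ∃ (y : Fr n) (k : ℤ) (f : MulAut G), f ∈ MR h 0 n ∧ t * φ = XX h y * TT h ^ k * f := by
    rintro t _ ht ⟨y, k, f, hf, rfl⟩
    obtain ⟨t', hp⟩ := pair_of_MR h le_rfl t ht
    obtain ⟨l, hl⟩ := hp.fX y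
    refine ⟨t' y, l + k, t * f, (MR h 0 n).mul_mem ht hf, ?_⟩
    have h2 := ((comm_TT h hp.fj hp.fa hp.fb).zpow_right k).eq
    calc t * (XX h y * TT h ^ k * f) = (t * XX h y * t⁻¹) * (t * TT h ^ k) * f := by group
      _ = _ := by rw [hl, h2, zpow_add]; group
  have dX : ∀ (x : Fr n) (φ : MulAut G),
      (∃ (y : Fr n) (k : ℤ) (f : MulAut G), f ∈ MR h 0 n ∧ φ = XX h y * TT h ^ k * f) →
      ∃ (y : Fr n) (k : ℤ) (f : MulAut G), f ∈ MR h 0 n ∧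
        XX h x * φ = XX h y * TT h ^ k * f := by
    rintro x _ ⟨y, k, f, hf, rfl⟩
    exact ⟨x * y, k, f, hf, by rw [map_mul]; group⟩
  have dT : ∀ (l : ℤ) (φ : MulAut G),
      (∃ (y : Fr n) (k : ℤ) (f : MulAut G), f ∈ MR h 0 n ∧ φ = XX h y * TT h ^ k * f) →
      ∃ (y : Fr n) (k : ℤ) (f : MulAut G), f ∈ MR h 0 n ∧
        TT h ^ l * φ = XX h y * TT h ^ k * f := by
    rintro l _ ⟨y, k, f, hf, rfl⟩
    refine ⟨y, l + k, f, hf, ?_⟩
    have h2 := ((TT_XX h y).zpow_left l).eq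
    calc TT h ^ l * (XX h y * TT h ^ k * f) = (TT h ^ l * XX h y) * TT h ^ k * f := by group
      _ = _ := by rw [h2, zpow_add]; group
  refine Subgroup.closure_induction_left
    (p := fun φ _ => ∃ (y : Fr n) (k : ℤ) (f : MulAut G), f ∈ MR h 0 n ∧
      φ = XX h y * TT h ^ k * f) ?_ ?_ ?_ hφ
  · exact ⟨1, 0, 1, (MR h 0 n).one_mem, by simp⟩
  · rintro T (⟨i, rfl⟩ | ⟨i, rfl⟩ | ⟨i, j, hij, rfl⟩) φ _ ih
    · rcases Fin.eq_castSucc_or_eq_last i with ⟨i', rfl⟩ | rfl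
      · exact dM _ _ (TA_mem h _ (Nat.zero_le _) i'.2) ih
      · have := dT 1 _ ih
        rwa [zpow_one] at this
    · exact dM _ _ (TB_mem h _ (Nat.zero_le _) i.2) ih
    · obtain ⟨i', rfl⟩ := hidx i j hij
      rcases Fin.eq_castSucc_or_eq_last j with ⟨j', rfl⟩ | rfl
      · exact dM _ _ (TC_mem h _ _ hij (Nat.zero_le _) j'.2) ih
      · rw [hlast i' hij, mul_assoc]
        exact dX _ _ (dM _ _ (TB_mem h _ (Nat.zero_le _) i'.2) ih)
  · rintro T (⟨i, rfl⟩ | ⟨i, rfl⟩ | ⟨i, j, hij, rfl⟩) φ _ ih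
    · rcases Fin.eq_castSucc_or_eq_last i with ⟨i', rfl⟩ | rfl
      · exact dM _ _ ((MR h 0 n).inv_mem (TA_mem h _ (Nat.zero_le _) i'.2)) ih
      · have := dT (-1) _ ih
        rwa [zpow_neg_one] at this
    · exact dM _ _ ((MR h 0 n).inv_mem (TB_mem h _ (Nat.zero_le _) i.2)) ih
    · obtain ⟨i', rfl⟩ := hidx i j hij
      rcases Fin.eq_castSucc_or_eq_last j with ⟨j', rfl⟩ | rfl
      · exact dM _ _ ((MR h 0 n).inv_mem (TC_mem h _ _ hij (Nat.zero_le _) j'.2)) ih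
      · rw [hlast i' hij, mul_inv_rev, mul_assoc, ← map_inv]
        exact dM _ _ ((MR h 0 n).inv_mem (TB_mem h _ (Nat.zero_le _) i'.2)) (dX _ _ ih)

/-- The elements of the free group whose push is in `Rk` up to a power of the twist. -/
def KR (h : IsSurf a b) : Subgroup (Fr n) where
  carrier := {y | ∃ k : ℤ, XX h y * TT h ^ k ∈ Rk h}
  one_mem' := ⟨0, by simpa using (Rk h).one_mem⟩
  mul_mem' := by
    rintro x y ⟨k, hk⟩ ⟨l, hl⟩
    refine ⟨k + l, ?_⟩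
    have h1 := ((TT_XX h y).zpow_left k).eq
    have h2 : XX h (x * y) * TT h ^ (k + l) = XX h x * TT h ^ k * (XX h y * TT h ^ l) := by
      rw [map_mul, zpow_add]
      calc XX h x * XX h y * (TT h ^ k * TT h ^ l) = XX h x * (XX h y * TT h ^ k) * TT h ^ l := by
            group
        _ = _ := by rw [← h1]; group
    rw [h2]
    exact (Rk h).mul_mem hk hl
  inv_mem' := by
    rintro x ⟨k, hk⟩
    refine ⟨-k, ?_⟩
    have h1 := ((TT_XX h x).zpow_left k).eq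
    have h2 : XX h x⁻¹ * TT h ^ (-k) = (XX h x * TT h ^ k)⁻¹ := by
      rw [← h1, mul_inv_rev, map_inv, zpow_neg]
    rw [h2]
    exact (Rk h).inv_mem hk

lemma mem_KR (h : IsSurf a b) {y : Fr n} : y ∈ KR h ↔ ∃ k : ℤ, XX h y * TT h ^ k ∈ Rk h := Iff.rfl

lemma XX_MMs (h : IsSurf a b) (y : Fr n) : XX h y ∈ MMs h := by
  rw [MMs_eq_TW]; exact XX_TW h y

lemma KR_normal (h : IsSurf a b) : (KR h).Normal := by
  refine ⟨fun y hy x => ?_⟩
  obtain ⟨k, hk⟩ := hy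
  refine ⟨k, ?_⟩
  have h1 := ((TT_XX h x).zpow_left k).inv_right.eq
  have h2 : XX h (x * y * x⁻¹) * TT h ^ k = XX h x * (XX h y * TT h ^ k) * (XX h x)⁻¹ := by
    rw [map_mul, map_mul, map_inv]
    calc XX h x * XX h y * (XX h x)⁻¹ * TT h ^ k = XX h x * XX h y * ((XX h x)⁻¹ * TT h ^ k) := by
          group
      _ = _ := by rw [← h1]; group
  rw [h2]
  exact Rk_conj h (XX_MMs h x) hk

lemma KR_pair (h : IsSurf a b) {f' : MulAut (Fr n)} {f : MulAut G} (hp : Pair h f' f)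
    (hf : f ∈ MMs h) {y : Fr n} (hy : y ∈ KR h) : f' y ∈ KR h := by
  obtain ⟨k, hk⟩ := hy
  obtain ⟨l, hl⟩ := hp.fX y
  refine ⟨l + k, ?_⟩
  have h2 := ((comm_TT h hp.fj hp.fa hp.fb).zpow_right k).eq
  have h3 : XX h (f' y) * TT h ^ (l + k) = f * (XX h y * TT h ^ k) * f⁻¹ := by
    calc XX h (f' y) * TT h ^ (l + k) = (XX h (f' y) * TT h ^ l) * TT h ^ k := by
          rw [zpow_add]; group
      _ = (f * XX h y * f⁻¹) * TT h ^ k := by rw [hl]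
      _ = f * XX h y * f⁻¹ * (TT h ^ k * f) * f⁻¹ := by group
      _ = _ := by rw [← h2]; group
  rw [h3]
  exact Rk_conj h hf hk

end Pool.Agent.H.MP_59b15d_al.PK
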