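import Pool.Agent.H.MP_59b15d_al.pk.Bk
import Pool.Agent.H.MP_59b15d_al.h93c.Cent
import Pool.Agent.H.MP_59b15d_al.h93c.BP
import Pool.Agent.H.MP_59b15d_al.h93c.Kern

/-!
# Generation of the Torelli group modulo the relations of the pushes
-/

set_option autoImplicit false

namespace Pool.Agent.H.MP_59b15d_al.PK

open SP PC
open Pool.MP_59b15d_al
open Pool.MP_59b15d_al.H24T Pool.MP_59b15d_al.H60G Pool.MP_59b15d_al.H73E
open Pool.MP_59b15d_al.H76R hiding MR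
open Pool.MP_59b15d_al.H95G
open H93C hiding emb emb_e emb_f emb_last cls_jR
open FreeGroup (of)

variable {n : ℕ} {G : Type*} [Group G] {a b : Fin (n + 1) → G}

lemma hs_cf (i : Fin n) : hs (cf i) = Hs.z := hs_kf i

lemma wn_zz (k : ℤ) : wn (Hs.z ^ k : Hs n) = 2 * k := by
  rw [Hs.z_zpow, wn]
  simp [qf, lf]

/-- The pushes with trivial action on the homology. -/
lemma push_triv (h : IsSurf a b) {y : Fr n} {k : ℤ} (h1 : H1 h (XX h y * TT h ^ k) = 1) :
    clr y = 0 ∧ wn (hs y) + k = 0 := by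
  have h2 : H1 h (XX h y * TT h ^ k) (f (Fin.last n)) = f (Fin.last n) := by rw [h1]; rfl
  have h3 := H93C.XX_H1 h y
  rw [map_mul] at h2
  change H1 h (XX h y) (H1 h (TT h ^ k) _) = _ at h2
  rw [(H1_TT h k).2.2, map_add, map_smul, h3.1, h3.2.2] at h2
  constructor
  · funext i
    have h4 := congrFun h2 i.castSucc
    simp only [Pi.add_apply, Pi.smul_apply, H93C.emb_cs, e_ne (Fin.castSucc_lt_last i).ne,
      f_ne (Fin.castSucc_lt_last i).ne, smul_zero, add_zero, zero_add] at h4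
    exact h4
  · have h4 := congrFun h2 (Fin.last n)
    simp only [Pi.add_apply, Pi.smul_apply, H93C.emb_last, e_self, f_self, add_zero] at h4
    have h5 := congrArg Prod.fst h4
    simp at h5
    omega

/-- Generation of the Torelli group modulo the relations of the pushes. -/
theorem gen_of (h : IsSurf a b) (hn : 1 ≤ n) {N K : Subgroup (MulAut G)}
    (hN : ∀ φ ∈ MMs h, ∀ x ∈ N, φ * x * φ⁻¹ ∈ N) (hR : Rels h N) (hNK : N ≤ K)
    (hK : ∀ ψ ∈ MMs h, ∀ x ∈ K, ψ * x * ψ⁻¹ ∈ K) (i : Fin n)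
    (h2 : XX h (cf i) * TT h ^ (-2 : ℤ) ∈ K)
    (K2 : ((TA h (Fin.last n))⁻¹ * TB h (Fin.last n)) ^ 6 ∈ K) :
    ∀ φ ∈ MMs h, H1 h φ = 1 → φ ∈ K := by
  refine torelli_gen h K hK (fun y k h1 => ?_) K2
  obtain ⟨c1, c2⟩ := push_triv h h1
  obtain ⟨j, hj⟩ : ∃ j : ℤ, hs y = Hs.z ^ j := ⟨_, Hs.eq_z_of_v (a := hs y) c1⟩
  rw [hj, wn_zz] at c2
  have h3 : XX h (y * (cf i) ^ (-j)) ∈ N := by
    apply XX_mem_of_hs h hn N hN hR
    rw [map_mul, map_zpow, hj, hs_cf, ← zpow_add, add_neg_cancel, zpow_zero]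
  have h4 : XX h y * TT h ^ k = XX h (y * (cf i) ^ (-j)) * (XX h (cf i) * TT h ^ (-2 : ℤ)) ^ j := by
    have h5 : Commute (XX h (cf i)) (TT h ^ (-2 : ℤ)) := (TT_XX h (cf i)).symm.zpow_right _
    rw [h5.mul_zpow, ← zpow_mul, map_mul, map_zpow, mul_assoc, ← mul_assoc (XX h (cf i) ^ (-j)),
      ← zpow_add, neg_add_cancel, zpow_zero, one_mul]
    congr 2
    omega
  rw [h4]
  exact mul_mem (hNK h3) (zpow_mem h2 j)

end Pool.Agent.H.MP_59b15d_al.PK
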