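import Pool.Agent.H.MP_59b15d_al.pk.GTwo

/-!
# Identities between mapping classes of the last two or three handles
-/

set_option autoImplicit false
set_option linter.unusedSimpArgs false

namespace Pool.Agent.H.MP_59b15d_al.PK

open SP H93C
open Pool.MP_59b15d_al.H24T Pool.MP_59b15d_al.H76R Pool.MP_59b15d_al.H60G Pool.MP_59b15d_al.H73E
open FreeGroup (of)

variable {n : ℕ} {G : Type*} [Group G] {a b : Fin (n + 1) → G}

/-- Automorphisms of the last handles are determined by the values there. -/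
lemma ext_last (h : IsSurf a b) {lo : ℕ} {F F' : MulAut G} (hF : F ∈ MR h lo (n + 1))
    (hF' : F' ∈ MR h lo (n + 1)) (h1 : ∀ k : Fin (n + 1), lo ≤ (k : ℕ) → F (a k) = F' (a k) ∧
      F (b k) = F' (b k)) : F = F' := by
  apply ext_ex h
  intro k hk
  rcases lt_or_ge k lo with h2 | h2
  · rw [(MR_fix h hF k (Or.inl h2)).1, (MR_fix h hF k (Or.inl h2)).2,
      (MR_fix h hF' k (Or.inl h2)).1, (MR_fix h hF' k (Or.inl h2)).2]
    exact ⟨rfl, rfl⟩
  · have h3 := h1 ⟨k, hk⟩ h2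
    rwa [ex_lt a hk, ex_lt b hk]

/-- The quarter turn of a handle. -/
noncomputable def rt {m : ℕ} {a b : Fin m → G} (h : IsSurf a b) (i : Fin m) : MulAut G :=
  (TA h i)⁻¹ * TB h i * (TA h i)⁻¹

section rt

variable {m : ℕ} {a b : Fin m → G} (h : IsSurf a b) (i : Fin m)

lemma rt_a : rt h i (a i) = a i * b i * (a i)⁻¹ := by
  rw [rt, MulAut.mul_apply, MulAut.mul_apply, TAi_a, TB_a, map_mul, TAi_a, TAi_b]
  group

lemma rt_b : rt h i (b i) = (a i)⁻¹ := by
  rw [rt, MulAut.mul_apply, MulAut.mul_apply, TAi_b, map_mul, map_inv, TB_a, TB_b, map_mul,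
    map_inv, map_mul, TAi_a, TAi_b]
  group

lemma rt_a_ne {k : Fin m} (hk : k ≠ i) : rt h i (a k) = a k := by
  rw [rt, MulAut.mul_apply, MulAut.mul_apply, TAi_a, TB_a_ne h hk, TAi_a]

lemma rt_b_ne {k : Fin m} (hk : k ≠ i) : rt h i (b k) = b k := by
  rw [rt, MulAut.mul_apply, MulAut.mul_apply, TAi_b_ne h hk, TB_b, TAi_b_ne h hk]

lemma rt_mem {lo hi : ℕ} (h1 : lo ≤ (i : ℕ)) (h2 : (i : ℕ) < hi) : rt h i ∈ MR h lo hi :=
  mul_mem (mul_mem (inv_mem (TA_mem h i h1 h2)) (TB_mem h i h1 h2)) (inv_mem (TA_mem h i h1 h2))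

end rt

section two

variable (h : IsSurf a b) {i : Fin n} (hi : (i : ℕ) + 1 = n) {σ : MulAut G}

/-- The data of the exchange of the last two handles. -/
structure Sw (i : Fin n) (σ : MulAut G) : Prop where
  mem : σ ∈ MR h (n - 1) (n + 1)
  c : σ (a (Fin.last n)) = a i.castSucc
  d : σ (b (Fin.last n)) = b i.castSucc
  p : σ (a i.castSucc) = (a i.castSucc * b i.castSucc * (a i.castSucc)⁻¹ * (b i.castSucc)⁻¹) *
    a (Fin.last n) * (a i.castSucc * b i.castSucc * (a i.castSucc)⁻¹ * (b i.castSucc)⁻¹)⁻¹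
  q : σ (b i.castSucc) = (a i.castSucc * b i.castSucc * (a i.castSucc)⁻¹ * (b i.castSucc)⁻¹) *
    b (Fin.last n) * (a i.castSucc * b i.castSucc * (a i.castSucc)⁻¹ * (b i.castSucc)⁻¹)⁻¹

include hi in
lemma exists_Sw : ∃ σ, Sw h i σ := by
  obtain ⟨σ, s1, ⟨s2, s3⟩, s4, s5⟩ := exists_swap' h (i : ℕ) (by omega)
  have e1 : ex a ((i : ℕ) + 1) = a (Fin.last n) := by
    rw [ex_lt a (by omega)]; congr 1; exact Fin.ext (by simp only [Fin.val_last]; omega)
  have e2 : ex b ((i : ℕ) + 1) = b (Fin.last n) := by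
    rw [ex_lt b (by omega)]; congr 1; exact Fin.ext (by simp only [Fin.val_last]; omega)
  have e3 : ex a (i : ℕ) = a i.castSucc := by
    rw [ex_lt a (by omega)]; rfl
  have e4 : ex b (i : ℕ) = b i.castSucc := by
    rw [ex_lt b (by omega)]; rfl
  rw [cm] at s4 s5
  rw [e1, e3] at s2
  rw [e2, e4] at s3
  rw [e3, e1, e4] at s4
  rw [e4, e2, e3] at s5
  have h1 : (i : ℕ) = n - 1 := by omega
  have h2 : (i : ℕ) + 2 = n + 1 := by omega
  rw [h2] at s1
  rw [h1] at s1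
  exact ⟨σ, s1, s2, s3, s4, s5⟩

/-- The push of one foot around the boundary of the other handle, with trivial action on the
homology. -/
noncomputable def Yk (i : Fin n) : MulAut G :=
  Xa h i * Xb h i * (Xa h i)⁻¹ * (Xb h i)⁻¹ * ((TA h (Fin.last n))⁻¹ * (TA h (Fin.last n))⁻¹)

include hi in
lemma mem_two {k : Fin (n + 1)} (hk : n - 1 ≤ (k : ℕ)) : k = i.castSucc ∨ k = Fin.last n := by
  have := k.2
  rcases Nat.lt_or_ge (k : ℕ) n with h1 | h1
  · left
    apply Fin.ext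
    rw [Fin.val_castSucc]
    omega
  · right
    apply Fin.ext
    rw [Fin.val_last]
    omega

include hi in
lemma Xa_mem2 : Xa h i ∈ MR h (n - 1) (n + 1) := by
  have := XX_a_mem h i hi
  rwa [XX_a] at this

include hi in
lemma Xb_mem2 : Xb h i ∈ MR h (n - 1) (n + 1) := by
  have := XX_b_mem h i hi
  rwa [XX_b] at this

lemma TAl_mem2 : TA h (Fin.last n) ∈ MR h (n - 1) (n + 1) := by
  have := TT_mem h 1
  rwa [zpow_one] at this

lemma rtl_mem2 : rt h (Fin.last n) ∈ MR h (n - 1) (n + 1) :=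
  rt_mem h _ (by rw [Fin.val_last]; omega) (by rw [Fin.val_last]; omega)

include hi in
lemma rti_mem2 : rt h i.castSucc ∈ MR h (n - 1) (n + 1) :=
  rt_mem h _ (by rw [Fin.val_castSucc]; omega) (by rw [Fin.val_castSucc]; omega)

include hi in
lemma Yk_mem : Yk h i ∈ MR h (n - 1) (n + 1) :=
  mul_mem (mul_mem (mul_mem (mul_mem (Xa_mem2 h hi) (Xb_mem2 h hi)) (inv_mem (Xa_mem2 h hi)))
    (inv_mem (Xb_mem2 h hi))) (mul_mem (inv_mem (TAl_mem2 h)) (inv_mem (TAl_mem2 h)))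

lemma lne (i : Fin n) : Fin.last n ≠ i.castSucc := (Fin.castSucc_lt_last i).ne'

lemma Yk_p : Yk h i (a i.castSucc) = (a (Fin.last n))⁻¹ * a i.castSucc * a (Fin.last n) := by
  rw [Yk]
  simp only [MulAut.mul_apply, TAi_a, Xbi_aj, map_mul, map_inv, Xai_aj, Xai_al, Xb_aj, Xb_al,
    Xa_aj, Xa_bj, Xa_al]
  group

lemma Yk_q : Yk h i (b i.castSucc) = (a (Fin.last n))⁻¹ * b i.castSucc * a (Fin.last n) := by
  have hne := (lne i).symm
  rw [Yk]
  simp only [MulAut.mul_apply, TAi_a, TAi_b_ne h hne, Xbi_bj, map_mul, map_inv, Xai_bj, Xai_al,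
    Xb_aj, Xb_bj, Xb_al, Xa_aj, Xa_bj, Xa_al]
  group

lemma Yk_c : Yk h i (a (Fin.last n)) = (a (Fin.last n))⁻¹ *
    (a i.castSucc * b i.castSucc * (a i.castSucc)⁻¹ * (b i.castSucc)⁻¹)⁻¹ * a (Fin.last n) *
    (a i.castSucc * b i.castSucc * (a i.castSucc)⁻¹ * (b i.castSucc)⁻¹) * a (Fin.last n) := by
  rw [Yk]
  simp only [MulAut.mul_apply, TAi_a, Xbi_al, map_mul, map_inv, Xai_aj, Xai_bj, Xai_al, Xb_aj,
    Xb_bj, Xb_al, Xa_aj, Xa_bj, Xa_al]
  group

lemma Yk_d : Yk h i (b (Fin.last n)) = b (Fin.last n) * (a (Fin.last n))⁻¹ *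
    (a i.castSucc * b i.castSucc * (a i.castSucc)⁻¹ * (b i.castSucc)⁻¹) * a (Fin.last n) := by
  rw [Yk]
  simp only [MulAut.mul_apply, TAi_a, TAi_b, Xbi_al, Xbi_bl, map_mul, map_inv, Xai_aj, Xai_bj,
    Xai_al, Xai_bl, Xb_aj, Xb_bj, Xb_al, Xb_bl, Xa_aj, Xa_bj, Xa_al, Xa_bl]
  group

include hi in
/-- The square of the exchange. -/
theorem id_one (S : Sw h i σ) : Yk h i * (σ * σ) * (rt h (Fin.last n) * rt h (Fin.last n)) *
    Yk h i = rt h (Fin.last n) * rt h (Fin.last n) := by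
  have hne := lne i
  have hr := mul_mem (rtl_mem2 h) (rtl_mem2 h)
  refine ext_last h (mul_mem (mul_mem (mul_mem (Yk_mem h hi) (mul_mem S.mem S.mem)) hr)
    (Yk_mem h hi)) hr fun k hk => ?_
  rcases mem_two hi hk with rfl | rfl
  · constructor
    · simp only [MulAut.mul_apply, map_mul, map_inv, Yk_p, Yk_q, Yk_c, Yk_d, rt_a, rt_b,
        rt_a_ne h _ hne.symm, rt_b_ne h _ hne.symm, S.c, S.d, S.p, S.q]
      group
    · simp only [MulAut.mul_apply, map_mul, map_inv, Yk_p, Yk_q, Yk_c, Yk_d, rt_a, rt_b,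
        rt_a_ne h _ hne.symm, rt_b_ne h _ hne.symm, S.c, S.d, S.p, S.q]
      group
  · constructor
    · simp only [MulAut.mul_apply, map_mul, map_inv, Yk_p, Yk_q, Yk_c, Yk_d, rt_a, rt_b,
        rt_a_ne h _ hne.symm, rt_b_ne h _ hne.symm, S.c, S.d, S.p, S.q]
      group
    · simp only [MulAut.mul_apply, map_mul, map_inv, Yk_p, Yk_q, Yk_c, Yk_d, rt_a, rt_b,
        rt_a_ne h _ hne.symm, rt_b_ne h _ hne.symm, S.c, S.d, S.p, S.q]
      group

include hi in
/-- The push of the other foot. -/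
theorem id_two (S : Sw h i σ) : Yk h i * rt h (Fin.last n) * σ * Xb h i *
    (rt h (Fin.last n) * rt h (Fin.last n)) * Xb h i *
    (TA h (Fin.last n) * TA h (Fin.last n)) =
    rt h (Fin.last n) * σ * (rt h (Fin.last n) * rt h (Fin.last n)) := by
  have hne := lne i
  have hr := rtl_mem2 h
  have hX := Xb_mem2 h hi
  have hT := TAl_mem2 h
  refine ext_last h (mul_mem (mul_mem (mul_mem (mul_mem (mul_mem (mul_mem (Yk_mem h hi) hr)
    S.mem) hX) (mul_mem hr hr)) hX) (mul_mem hT hT)) (mul_mem (mul_mem hr S.mem)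
    (mul_mem hr hr)) fun k hk => ?_
  rcases mem_two hi hk with rfl | rfl
  · constructor
    · simp only [MulAut.mul_apply, map_mul, map_inv, Yk_p, Yk_q, Yk_c, Yk_d, rt_a, rt_b,
        rt_a_ne h _ hne.symm, rt_b_ne h _ hne.symm, S.c, S.d, S.p, S.q, TA_a, Xb_aj, Xb_bj,
        Xb_al, Xb_bl]
      group
    · simp only [MulAut.mul_apply, map_mul, map_inv, Yk_p, Yk_q, Yk_c, Yk_d, rt_a, rt_b,
        rt_a_ne h _ hne.symm, rt_b_ne h _ hne.symm, S.c, S.d, S.p, S.q, TA_a,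
        TA_b_ne h hne.symm, Xb_aj, Xb_bj, Xb_al, Xb_bl]
      group
  · constructor
    · simp only [MulAut.mul_apply, map_mul, map_inv, Yk_p, Yk_q, Yk_c, Yk_d, rt_a, rt_b,
        rt_a_ne h _ hne.symm, rt_b_ne h _ hne.symm, S.c, S.d, S.p, S.q, TA_a, Xb_aj, Xb_bj,
        Xb_al, Xb_bl]
      group
    · simp only [MulAut.mul_apply, map_mul, map_inv, Yk_p, Yk_q, Yk_c, Yk_d, rt_a, rt_b,
        rt_a_ne h _ hne.symm, rt_b_ne h _ hne.symm, S.c, S.d, S.p, S.q, TA_a, TA_b, Xb_aj, Xb_bj,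
        Xb_al, Xb_bl]
      group

include hi in
/-- The slide. -/
theorem id_five (S : Sw h i σ) : Xb h i * σ *
    ((rt h (Fin.last n) * rt h (Fin.last n)) * (rt h (Fin.last n) * rt h (Fin.last n))) *
    (Xb h i)⁻¹ * σ * (rt h (Fin.last n) * rt h (Fin.last n)) * (Xb h i)⁻¹ =
    σ * ((rt h (Fin.last n) * rt h (Fin.last n)) * (rt h (Fin.last n) * rt h (Fin.last n))) *
    (Xa h i)⁻¹ * (TA h (Fin.last n) * TA h (Fin.last n) * TA h (Fin.last n)) *
    (rt h i.castSucc * rt h i.castSucc) * (rt h (Fin.last n) * rt h (Fin.last n)) := by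
  have hne := lne i
  have hr := rtl_mem2 h
  have hri := rti_mem2 h hi
  have hX := Xb_mem2 h hi
  have hXa := Xa_mem2 h hi
  have hT := TAl_mem2 h
  have hrr := mul_mem hr hr
  refine ext_last h (mul_mem (mul_mem (mul_mem (mul_mem (mul_mem (mul_mem hX S.mem)
    (mul_mem hrr hrr)) (inv_mem hX)) S.mem) hrr) (inv_mem hX)) (mul_mem (mul_mem (mul_mem
    (mul_mem (mul_mem S.mem (mul_mem hrr hrr)) (inv_mem hXa)) (mul_mem (mul_mem hT hT) hT))
    (mul_mem hri hri)) hrr) fun k hk => ?_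
  rcases mem_two hi hk with rfl | rfl
  · constructor
    · simp only [MulAut.mul_apply, map_mul, map_inv, rt_a, rt_b,
        rt_a_ne h _ hne.symm, rt_b_ne h _ hne.symm, rt_a_ne h _ hne, rt_b_ne h _ hne, S.c, S.d,
        S.p, S.q, TA_a, TA_b_ne h hne.symm, TA_b, Xb_aj, Xb_bj, Xb_al, Xb_bl, Xbi_aj, Xbi_bj,
        Xbi_al, Xbi_bl, Xai_aj, Xai_bj, Xai_al, Xai_bl]
      group
    · simp only [MulAut.mul_apply, map_mul, map_inv, rt_a, rt_b,
        rt_a_ne h _ hne.symm, rt_b_ne h _ hne.symm, rt_a_ne h _ hne, rt_b_ne h _ hne, S.c, S.d,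
        S.p, S.q, TA_a, TA_b_ne h hne.symm, TA_b, Xb_aj, Xb_bj, Xb_al, Xb_bl, Xbi_aj, Xbi_bj,
        Xbi_al, Xbi_bl, Xai_aj, Xai_bj, Xai_al, Xai_bl]
      group
  · constructor
    · simp only [MulAut.mul_apply, map_mul, map_inv, rt_a, rt_b,
        rt_a_ne h _ hne.symm, rt_b_ne h _ hne.symm, rt_a_ne h _ hne, rt_b_ne h _ hne, S.c, S.d,
        S.p, S.q, TA_a, TA_b_ne h hne.symm, TA_b, Xb_aj, Xb_bj, Xb_al, Xb_bl, Xbi_aj, Xbi_bj,
        Xbi_al, Xbi_bl, Xai_aj, Xai_bj, Xai_al, Xai_bl]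
      group
    · simp only [MulAut.mul_apply, map_mul, map_inv, rt_a, rt_b,
        rt_a_ne h _ hne.symm, rt_b_ne h _ hne.symm, rt_a_ne h _ hne, rt_b_ne h _ hne, S.c, S.d,
        S.p, S.q, TA_a, TA_b_ne h hne.symm, TA_b, Xb_aj, Xb_bj, Xb_al, Xb_bl, Xbi_aj, Xbi_bj,
        Xbi_al, Xbi_bl, Xai_aj, Xai_bj, Xai_al, Xai_bl]
      group

include hi in
lemma Sw_TAl (S : Sw h i σ) : σ * TA h (Fin.last n) = TA h i.castSucc * σ := by
  have hne := lne i
  refine ext_last h (mul_mem S.mem (TAl_mem2 h)) (mul_mem (TA_mem h _ (by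
    rw [Fin.val_castSucc]; omega) (by rw [Fin.val_castSucc]; omega)) S.mem) fun k hk => ?_
  rcases mem_two hi hk with rfl | rfl
  · constructor
    · simp only [MulAut.mul_apply, map_mul, map_inv, S.c, S.d, S.p, S.q, TA_a, TA_b]
      group
    · simp only [MulAut.mul_apply, map_mul, map_inv, S.c, S.d, S.p, S.q, TA_a, TA_b,
        TA_b_ne h hne.symm, TA_b_ne h hne]
      group
  · constructor
    · simp only [MulAut.mul_apply, map_mul, map_inv, S.c, S.d, S.p, S.q, TA_a, TA_b]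
    · simp only [MulAut.mul_apply, map_mul, map_inv, S.c, S.d, S.p, S.q, TA_a, TA_b,
        TA_b_ne h hne.symm, TA_b_ne h hne]

include hi in
lemma Sw_TBl (S : Sw h i σ) : σ * TB h (Fin.last n) = TB h i.castSucc * σ := by
  have hne := lne i
  refine ext_last h (mul_mem S.mem (TB_mem h _ (by rw [Fin.val_last]; omega)
    (by rw [Fin.val_last]; omega))) (mul_mem (TB_mem h _ (by
    rw [Fin.val_castSucc]; omega) (by rw [Fin.val_castSucc]; omega)) S.mem) fun k hk => ?_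
  rcases mem_two hi hk with rfl | rfl
  · constructor
    · simp only [MulAut.mul_apply, map_mul, map_inv, S.c, S.d, S.p, S.q, TB_a, TB_b,
        TB_a_ne h hne.symm, TB_a_ne h hne]
      group
    · simp only [MulAut.mul_apply, map_mul, map_inv, S.c, S.d, S.p, S.q, TB_a, TB_b,
        TB_a_ne h hne.symm, TB_a_ne h hne]
      group
  · constructor
    · simp only [MulAut.mul_apply, map_mul, map_inv, S.c, S.d, S.p, S.q, TB_a, TB_b,
        TB_a_ne h hne.symm, TB_a_ne h hne]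
    · simp only [MulAut.mul_apply, map_mul, map_inv, S.c, S.d, S.p, S.q, TB_a, TB_b,
        TB_a_ne h hne.symm, TB_a_ne h hne]

include hi in
lemma Sw_TAi (S : Sw h i σ) : σ * TA h i.castSucc = TA h (Fin.last n) * σ := by
  have hne := lne i
  refine ext_last h (mul_mem S.mem (TA_mem h _ (by
    rw [Fin.val_castSucc]; omega) (by rw [Fin.val_castSucc]; omega))) (mul_mem (TAl_mem2 h) S.mem)
    fun k hk => ?_
  rcases mem_two hi hk with rfl | rfl
  · constructor
    · simp only [MulAut.mul_apply, map_mul, map_inv, S.c, S.d, S.p, S.q, TA_a, TA_b,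
        TA_b_ne h hne.symm, TA_b_ne h hne]
    · simp only [MulAut.mul_apply, map_mul, map_inv, S.c, S.d, S.p, S.q, TA_a, TA_b,
        TA_b_ne h hne.symm, TA_b_ne h hne]
      group
  · constructor
    · simp only [MulAut.mul_apply, map_mul, map_inv, S.c, S.d, S.p, S.q, TA_a, TA_b]
    · simp only [MulAut.mul_apply, map_mul, map_inv, S.c, S.d, S.p, S.q, TA_a, TA_b,
        TA_b_ne h hne.symm, TA_b_ne h hne]

include hi in
lemma Sw_TBi (S : Sw h i σ) : σ * TB h i.castSucc = TB h (Fin.last n) * σ := by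
  have hne := lne i
  refine ext_last h (mul_mem S.mem (TB_mem h _ (by
    rw [Fin.val_castSucc]; omega) (by rw [Fin.val_castSucc]; omega))) (mul_mem (TB_mem h _ (by
    rw [Fin.val_last]; omega) (by rw [Fin.val_last]; omega)) S.mem) fun k hk => ?_
  rcases mem_two hi hk with rfl | rfl
  · constructor
    · simp only [MulAut.mul_apply, map_mul, map_inv, S.c, S.d, S.p, S.q, TB_a, TB_b,
        TB_a_ne h hne.symm, TB_a_ne h hne]
      group
    · simp only [MulAut.mul_apply, map_mul, map_inv, S.c, S.d, S.p, S.q, TB_a, TB_b,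
        TB_a_ne h hne.symm, TB_a_ne h hne]
  · constructor
    · simp only [MulAut.mul_apply, map_mul, map_inv, S.c, S.d, S.p, S.q, TB_a, TB_b,
        TB_a_ne h hne.symm, TB_a_ne h hne]
    · simp only [MulAut.mul_apply, map_mul, map_inv, S.c, S.d, S.p, S.q, TB_a, TB_b,
        TB_a_ne h hne.symm, TB_a_ne h hne]

end two

end Pool.Agent.H.MP_59b15d_al.PK
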