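import Pool.Agent.H.MP_59b15d_al.h11r.Gr

/-!
# The kernel of the map of a braid pair to `SL(2, ℤ)`

If `A B A = B A B` and `ψ A = X 1`, `ψ B = Y (-1)`, then the kernel of `ψ` on the group generated by
`A` and `B` consists of the powers of `(A B) ^ 6`.
-/

set_option autoImplicit false

namespace Pool.Agent.H.MP_59b15d_al.Braid3

open Pool.Agent.H.MP_59b15d_al.R1

variable {S : Type*} [Group S]

/-- Words in `A` and `B⁻¹`. -/
def ev (A B : S) : List Bool → S
  | [] => 1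
  | true :: l => A * ev A B l
  | false :: l => B⁻¹ * ev A B l

/-- Normal forms. -/
def NF (A B : S) : Set S :=
  {g | ∃ (m : ℤ) (s : S) (l : List Bool) (t : S), (s = 1 ∨ s = A * B * A) ∧
    (t = 1 ∨ t = A * B ∨ t = (A * B)⁻¹) ∧ g = ((A * B) ^ 3) ^ m * (s * ev A B l * t)}

section

variable {A B : S} (hbr : A * B * A = B * A * B)
include hbr

lemma U_sq : A * B * A * (A * B * A) = (A * B) ^ 3 := by
  have h1 : (A * B) ^ 3 = A * B * A * (B * A * B) := by
    simp only [pow_succ, pow_zero, one_mul, mul_assoc]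
  rw [h1, ← hbr]

lemma U_A : A * B * A * A = B * (A * B * A) := by
  rw [hbr]
  simp only [mul_assoc] at hbr ⊢
  rw [← hbr]

lemma U_B : A * B * A * B = A * (A * B * A) := by
  have h1 : A * B * A * B = A * (B * A * B) := by simp only [mul_assoc]
  rw [h1, ← hbr]

lemma z_A : Commute ((A * B) ^ 3) A := by
  change _ = _
  rw [← U_sq hbr, mul_assoc, U_A hbr, ← mul_assoc (A * B * A) B, U_B hbr]
  simp only [mul_assoc]

lemma z_B : Commute ((A * B) ^ 3) B := by
  change _ = _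
  rw [← U_sq hbr, mul_assoc, U_B hbr, ← mul_assoc (A * B * A) A, U_A hbr]
  simp only [mul_assoc]

lemma z_U : Commute ((A * B) ^ 3) (A * B * A) :=
  ((z_A hbr).mul_right (z_B hbr)).mul_right (z_A hbr)

lemma z_W : Commute ((A * B) ^ 3) (A * B) := (z_A hbr).mul_right (z_B hbr)

lemma NF_z {g : S} (hg : g ∈ NF A B) (k : ℤ) : ((A * B) ^ 3) ^ k * g ∈ NF A B := by
  obtain ⟨m, s, l, t, hs, ht, rfl⟩ := hg
  exact ⟨k + m, s, l, t, hs, ht, by rw [zpow_add, mul_assoc (((A * B) ^ 3) ^ k)]⟩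

lemma NF_U {g : S} (hg : g ∈ NF A B) : A * B * A * g ∈ NF A B := by
  obtain ⟨m, s, l, t, hs, ht, rfl⟩ := hg
  have h1 : A * B * A * (((A * B) ^ 3) ^ m * (s * ev A B l * t)) =
      ((A * B) ^ 3) ^ m * (A * B * A * s * ev A B l * t) := by
    rw [← mul_assoc, ← ((z_U hbr).zpow_left m).eq]
    simp only [mul_assoc]
  rw [h1]
  apply NF_z hbr
  rcases hs with rfl | rfl
  · exact ⟨0, _, l, t, Or.inr rfl, ht, by rw [zpow_zero, one_mul, mul_one]⟩
  · refine ⟨1, 1, l, t, Or.inl rfl, ht, ?_⟩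
    rw [zpow_one, U_sq hbr, one_mul]
    simp only [mul_assoc]

lemma NF_W {g : S} (hg : g ∈ NF A B) : A * B * g ∈ NF A B := by
  obtain ⟨m, s, l, t, hs, ht, rfl⟩ := hg
  have h1 : A * B * (((A * B) ^ 3) ^ m * (s * ev A B l * t)) =
      ((A * B) ^ 3) ^ m * (A * B * s * ev A B l * t) := by
    rw [← mul_assoc, ← ((z_W hbr).zpow_left m).eq]
    simp only [mul_assoc]
  rw [h1]
  apply NF_z hbr
  have h3 : A * B * (A * B * A) = (A * B) ^ 3 * B⁻¹ := by
    rw [eq_mul_inv_iff_mul_eq]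
    simp only [pow_succ, pow_zero, one_mul, mul_assoc]
  rcases hs with rfl | rfl
  · rw [mul_one]
    cases l with
    | nil =>
      rcases ht with rfl | rfl | rfl
      · exact ⟨0, 1, [], A * B, Or.inl rfl, Or.inr (Or.inl rfl), by
          rw [zpow_zero, one_mul, mul_one, one_mul]; simp [ev]⟩
      · refine ⟨1, 1, [], (A * B)⁻¹, Or.inl rfl, Or.inr (Or.inr rfl), ?_⟩
        simp only [ev, zpow_one, one_mul, mul_one, pow_succ, pow_zero]
        group
      · exact ⟨0, 1, [], 1, Or.inl rfl, Or.inl rfl, by simp [ev]⟩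
    | cons c l =>
      cases c with
      | true =>
        refine ⟨0, A * B * A, l, t, Or.inr rfl, ht, ?_⟩
        rw [zpow_zero, one_mul, ev]
        simp only [mul_assoc]
      | false =>
        refine ⟨0, 1, true :: l, t, Or.inl rfl, ht, ?_⟩
        rw [zpow_zero, one_mul, one_mul, ev, ev]
        simp only [mul_assoc]
        rw [mul_inv_cancel_left]
  · refine ⟨1, 1, false :: l, t, Or.inl rfl, ht, ?_⟩
    rw [zpow_one, one_mul, ev, h3]
    simp only [mul_assoc]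

omit hbr in
lemma NF_one : (1 : S) ∈ NF A B := ⟨0, 1, [], 1, Or.inl rfl, Or.inl rfl, by simp [ev]⟩

lemma closure_NF {g : S} (hg : g ∈ Subgroup.closure {A, B}) : g ∈ NF A B := by
  have hU : (A * B * A)⁻¹ = ((A * B) ^ 3) ^ (-1 : ℤ) * (A * B * A) := by
    rw [zpow_neg_one, ← U_sq hbr]; group
  have hW : (A * B)⁻¹ = ((A * B) ^ 3) ^ (-1 : ℤ) * (A * B * (A * B)) := by
    simp only [pow_succ, pow_zero, one_mul, zpow_neg_one]; group
  have hinvU : ∀ {g : S}, g ∈ NF A B → (A * B * A)⁻¹ * g ∈ NF A B := by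
    intro g hg
    rw [hU, mul_assoc]
    exact NF_z hbr (NF_U hbr hg) _
  have hinvW : ∀ {g : S}, g ∈ NF A B → (A * B)⁻¹ * g ∈ NF A B := by
    intro g hg
    rw [hW, mul_assoc, mul_assoc (A * B)]
    exact NF_z hbr (NF_W hbr (NF_W hbr hg)) _
  refine Subgroup.closure_induction_left (p := fun g _ => g ∈ NF A B) NF_one ?_ ?_ hg
  · rintro x hx y _ hy
    rcases hx with rfl | rfl
    · have h1 : x * y = (x * B)⁻¹ * (x * B * x * y) := by group
      rw [h1]
      exact hinvW (NF_U hbr hy)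
    · -- B = U⁻¹ W W
      have h1 : x * y = (A * x * A)⁻¹ * (A * x * (A * x * y)) := by
        have h2 : A * x * (A * x * y) = A * x * A * (x * y) := by simp only [mul_assoc]
        rw [h2, inv_mul_cancel_left]
      rw [h1]
      exact hinvU (NF_W hbr (NF_W hbr hy))
  · rintro x hx y _ hy
    rcases hx with rfl | rfl
    · have h1 : x⁻¹ * y = (x * B * x)⁻¹ * (x * B * y) := by group
      rw [h1]
      exact hinvU (NF_W hbr hy)
    · -- B⁻¹ = W⁻¹ W⁻¹ U
      have h1 : x⁻¹ * y = (A * x)⁻¹ * ((A * x)⁻¹ * (A * x * A * y)) := by group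
      rw [h1]
      exact hinvW (hinvW (NF_U hbr hy))

end

lemma val_mul (M N : Matrix.SpecialLinearGroup (Fin 2) ℤ) : (M * N).1 = M.1 * N.1 := rfl

lemma val_inv (M : Matrix.SpecialLinearGroup (Fin 2) ℤ) : (M⁻¹).1 = Matrix.adjugate M.1 := rfl

lemma val_one : (1 : Matrix.SpecialLinearGroup (Fin 2) ℤ).1 = 1 := rfl

/-- Nonnegative matrices with nonzero rows. -/
structure NN (M : Matrix (Fin 2) (Fin 2) ℤ) (k : ℕ) : Prop where
  a : 0 ≤ M 0 0
  b : 0 ≤ M 0 1
  c : 0 ≤ M 1 0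
  d : 0 ≤ M 1 1
  r1 : 1 ≤ M 0 0 + M 0 1
  r2 : 1 ≤ M 1 0 + M 1 1
  s : (k : ℤ) + 2 ≤ M 0 0 + M 0 1 + M 1 0 + M 1 1

variable {A B : S} (ψ : S →* Matrix.SpecialLinearGroup (Fin 2) ℤ) (hA : ψ A = X 1) (hB : ψ B = Y (-1))
include hA hB

lemma coe_A : (ψ A).1 = !![1, 1; 0, 1] := by rw [hA]; rfl

lemma coe_B : (ψ B).1 = !![1, 0; -1, 1] := by rw [hB]; rfl

lemma coe_B_inv : (ψ B⁻¹).1 = !![1, 0; 1, 1] := by
  rw [map_inv, val_inv, coe_B ψ hA hB, Matrix.adjugate_fin_two_of]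
  simp

lemma coe_AB : (ψ (A * B)).1 = !![0, 1; -1, 1] := by
  rw [map_mul, val_mul, coe_A ψ hA hB, coe_B ψ hA hB]
  simp [Matrix.mul_fin_two]

lemma coe_AB_inv : (ψ (A * B)⁻¹).1 = !![1, -1; 1, 0] := by
  rw [map_inv, val_inv, coe_AB ψ hA hB, Matrix.adjugate_fin_two_of]
  simp

lemma coe_U : (ψ (A * B * A)).1 = !![0, 1; -1, 0] := by
  rw [map_mul, val_mul, coe_AB ψ hA hB, coe_A ψ hA hB]
  simp [Matrix.mul_fin_two]

lemma coe_z : (ψ ((A * B) ^ 3)).1 = !![-1, 0; 0, -1] := by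
  rw [map_pow, pow_succ, pow_two, val_mul, val_mul,
    coe_AB ψ hA hB]
  simp [Matrix.mul_fin_two]

lemma NN_ev (l : List Bool) : NN (ψ (ev A B l)).1 l.length := by
  induction l with
  | nil =>
    rw [ev, map_one, val_one]
    constructor <;> simp
  | cons c l ih =>
    obtain ⟨h1, h2, h3, h4, h5, h6, h7⟩ := ih
    cases c with
    | true =>
      rw [ev, map_mul, val_mul, coe_A ψ hA hB]
      constructor <;> simp [Matrix.mul_apply, Fin.sum_univ_two] <;> omega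
    | false =>
      rw [ev, map_mul, val_mul, coe_B_inv ψ hA hB]
      constructor <;> simp [Matrix.mul_apply, Fin.sum_univ_two] <;> omega

/-- **The kernel of a braid pair.** -/
theorem ker_eq (hbr : A * B * A = B * A * B) {g : S} (hg : g ∈ Subgroup.closure {A, B})
    (h1 : ψ g = 1) : ∃ j : ℤ, g = ((A * B) ^ 6) ^ j := by
  obtain ⟨m, s, l, t, hs, ht, rfl⟩ := closure_NF hbr hg
  have hN := NN_ev ψ hA hB l
  obtain ⟨p, hp⟩ : ∃ p : Matrix (Fin 2) (Fin 2) ℤ,
      p = (ψ (ev A B l)).1 := ⟨_, rfl⟩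
  rw [← hp] at hN
  obtain ⟨n1, n2, n3, n4, n5, n6, n7⟩ := hN
  have hz2 : ψ ((A * B) ^ 3) * ψ ((A * B) ^ 3) = 1 := by
    apply Subtype.ext
    rw [val_mul, coe_z ψ hA hB, val_one, Matrix.mul_fin_two, Matrix.one_fin_two]
    norm_num
  have hm : ψ (((A * B) ^ 3) ^ m) = 1 ∧ (∃ j, m = 2 * j) ∨
      ψ (((A * B) ^ 3) ^ m) = ψ ((A * B) ^ 3) := by
    rcases Int.even_or_odd' m with ⟨j, rfl | rfl⟩
    · left
      refine ⟨?_, j, rfl⟩
      rw [map_zpow, zpow_mul, zpow_two, hz2, one_zpow]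
    · right
      rw [map_zpow, zpow_add_one, zpow_mul, zpow_two, hz2, one_zpow, one_mul]
  have h2 := congrArg (fun M : Matrix.SpecialLinearGroup (Fin 2) ℤ => M.1) h1
  simp only [map_mul ψ (((A * B) ^ 3) ^ m), map_mul ψ _ t, map_mul ψ s, val_mul, val_one] at h2
  rw [← hp, Matrix.eta_fin_two p, Matrix.one_fin_two] at h2
  generalize p 0 0 = a at *
  generalize p 0 1 = b at *
  generalize p 1 0 = c at *
  generalize p 1 1 = d at *
  have inj : ∀ {x y z w x' y' z' w' : ℤ}, !![x, y; z, w] = !![x', y'; z', w'] →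
      x = x' ∧ y = y' ∧ z = z' ∧ w = w' := by
    intro x y z w x' y' z' w' h
    exact ⟨congrFun (congrFun h 0) 0, congrFun (congrFun h 0) 1, congrFun (congrFun h 1) 0,
      congrFun (congrFun h 1) 1⟩
  have key : l.length = 0 ∧ s = 1 ∧ t = 1 ∧ ∃ j, m = 2 * j := by
    have hU := coe_U ψ hA hB
    have hW := coe_AB ψ hA hB
    have hWi := coe_AB_inv ψ hA hB
    have hz := coe_z ψ hA hB
    rcases hm with ⟨hm, hj⟩ | hm
    · rw [hm] at h2
      rcases hs with rfl | rfl <;> rcases ht with rfl | rfl | rfl <;>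
        simp only [hU, hW, hWi, map_one, val_one, one_mul, mul_one, Matrix.mul_fin_two] at h2 <;>
        obtain ⟨e1, e2, e3, e4⟩ := inj h2
      · exact ⟨by omega, rfl, rfl, hj⟩
      all_goals omega
    · rw [hm] at h2
      rcases hs with rfl | rfl <;> rcases ht with rfl | rfl | rfl <;>
        simp only [hU, hW, hWi, hz, map_one, val_one, one_mul, mul_one, Matrix.mul_fin_two] at h2 <;>
        obtain ⟨e1, e2, e3, e4⟩ := inj h2 <;> omega
  obtain ⟨k1, rfl, rfl, j, rfl⟩ := key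
  rw [List.length_eq_zero_iff] at k1
  subst k1
  refine ⟨j, ?_⟩
  rw [ev, mul_one, mul_one, mul_one, zpow_mul, ← zpow_natCast (A * B) 6,
    ← zpow_natCast (A * B) 3]
  simp only [← zpow_mul]
  congr 1

end Pool.Agent.H.MP_59b15d_al.Braid3
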