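import Pool.Agent.H.MP_59b15d_al.pk.BkZ
import Pool.Agent.H.MP_59b15d_al.pk.Braid3

/-!
# Normal generation of the Torelli group

The Torelli group of a closed surface of genus at least two is normally generated, in the mapping
class group, by the null homologous pushes of a foot of the last handle and by the Dehn twist about
the boundary of one handle.
-/

set_option autoImplicit false

namespace Pool.Agent.H.MP_59b15d_al.PK

open SP PC
open Pool.MP_59b15d_al
open Pool.MP_59b15d_al.H24T Pool.MP_59b15d_al.H60G Pool.MP_59b15d_al.H73E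
open Pool.MP_59b15d_al.H76R hiding MR
open H93C
open FreeGroup (of)

section sl

lemma exp_one (x : V 1) : x = (x 0).1 • e 0 + (x 0).2 • f 0 := by
  conv_lhs => rw [expand x]
  rw [Fin.sum_univ_one]

lemma om_one (u v : V 1) : om u v = (u 0).1 * (v 0).2 - (u 0).2 * (v 0).1 := by
  rw [om, Fin.sum_univ_one]

lemma co_one (s t : ℤ) (u v : V 1) :
    ((s • u + t • v) 0).1 = s * (u 0).1 + t * (v 0).1 ∧
      ((s • u + t • v) 0).2 = s * (u 0).2 + t * (v 0).2 := by
  constructor <;> simp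

/-- The matrix of a symplectic map in genus one. -/
def mt (A : Sp 1) : Matrix (Fin 2) (Fin 2) ℤ :=
  !![(A (e 0) 0).1, (A (f 0) 0).1; (A (e 0) 0).2, (A (f 0) 0).2]

lemma mt_mul (A B : Sp 1) : mt (A * B) = mt A * mt B := by
  have h1 : ∀ x : V 1, A x = (x 0).1 • A (e 0) + (x 0).2 • A (f 0) := by
    intro x
    conv_lhs => rw [exp_one x]
    rw [sp_add, sp_smul, sp_smul]
  rw [mt, mt, mt, Matrix.mul_fin_two, sp_mul, sp_mul, h1 (B (e 0)), h1 (B (f 0))]
  obtain ⟨c1, c2⟩ := co_one (B (e 0) 0).1 (B (e 0) 0).2 (A (e 0)) (A (f 0))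
  obtain ⟨c3, c4⟩ := co_one (B (f 0) 0).1 (B (f 0) 0).2 (A (e 0)) (A (f 0))
  rw [c1, c2, c3, c4]
  congr 1
  ext i j
  fin_cases i <;> fin_cases j <;> simp <;> ring

/-- The isomorphism with the special linear group in genus one. -/
def sl1 : Sp 1 →* Matrix.SpecialLinearGroup (Fin 2) ℤ where
  toFun A := ⟨mt A, by
    rw [mt, Matrix.det_fin_two_of]
    have h1 := sp_om A (e 0) (f 0)
    rw [om_e_f, om_one] at h1
    linarith⟩
  map_one' := by
    apply Subtype.ext
    change mt 1 = 1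
    rw [mt, sp_one, sp_one, e_self, f_self, Matrix.one_fin_two]
  map_mul' A B := Subtype.ext (mt_mul A B)

end sl

variable {n : ℕ} {G : Type*} [Group G] {a b : Fin (n + 1) → G}
variable {h : IsSurf a b} {K : Subgroup (MulAut G)}

/-- The base case. -/
theorem base (hy : Hyp h K) {φ : MulAut G} (hφ : φ ∈ H60G.MR h n (n + 1)) (h1 : H1 h φ = 1) :
    φ ∈ K := by
  have hk : n + 1 = n + 1 := rfl
  have u0 : up hk (0 : Fin 1) = Fin.last n := Fin.ext (by rw [up_val, Fin.val_last]; rfl)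
  have E0 : EE hk (e 0) = e (Fin.last n) := by rw [EE_e, u0]
  have F0 : EE hk (f 0) = f (Fin.last n) := by rw [EE_f, u0]
  have hA : TA h (Fin.last n) ∈ H60G.MR h n (n + 1) :=
    TA_mem h _ (by rw [Fin.val_last]) (by rw [Fin.val_last]; omega)
  have hB : TB h (Fin.last n) ∈ H60G.MR h n (n + 1) :=
    TB_mem h _ (by rw [Fin.val_last]) (by rw [Fin.val_last]; omega)
  let A : H60G.MR h n (n + 1) := ⟨_, hA⟩
  let B : H60G.MR h n (n + 1) := ⟨_, inv_mem hB⟩
  have pA : ph hk h A = T (e 0) (-1) := by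
    apply ph_T
    rw [E0]
    exact H1_A h ((isA_iff h (Fin.last n) _).2 rfl)
  have pB : ph hk h B = T (f 0) (-1) := by
    apply ph_T
    rw [F0]
    change H1 h (TB h (Fin.last n))⁻¹ = _
    rw [map_inv, H1_B h ((isB_iff h (Fin.last n) _).2 rfl)]
    exact congrArg Subtype.val (T_inv (f (Fin.last n) : V (n + 1)) 1)
  have sA : (sl1.comp (ph hk h)) A = R1.X 1 := by
    apply Subtype.ext
    change mt (ph hk h A) = !![1, 1; 0, 1]
    rw [pA, mt, T_apply, T_apply, om_self, om_f_e]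
    simp [e_self, f_self]
  have sB : (sl1.comp (ph hk h)) B = R1.Y (-1) := by
    apply Subtype.ext
    change mt (ph hk h B) = !![1, 0; -1, 1]
    rw [pB, mt, T_apply, T_apply, om_self, om_e_f]
    simp [e_self, f_self]
  have hbr : A * B * A = B * A * B := by
    apply Subtype.ext
    change TA h (Fin.last n) * (TB h (Fin.last n))⁻¹ * TA h (Fin.last n) =
      (TB h (Fin.last n))⁻¹ * TA h (Fin.last n) * (TB h (Fin.last n))⁻¹
    have h2 := congrArg (fun x => x⁻¹) (rt_braid h (Fin.last n))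
    simp only [mul_inv_rev, inv_inv] at h2
    rw [← mul_assoc, ← mul_assoc] at h2
    exact h2
  have hcl : (⟨φ, hφ⟩ : H60G.MR h n (n + 1)) ∈ Subgroup.closure {A, B} := by
    have hle : H60G.MR h n (n + 1) ≤
        (Subgroup.closure {A, B}).map (H60G.MR h n (n + 1)).subtype := by
      have hj : ∀ j : Fin (n + 1), n ≤ (j : ℕ) → j = Fin.last n := by
        intro j hj
        apply Fin.ext
        rw [Fin.val_last]
        have := j.2
        omega
      apply MR_le h
      · intro j h2 _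
        rw [hj j h2]
        exact ⟨A, Subgroup.subset_closure (Or.inl rfl), rfl⟩
      · intro j h2 _
        rw [hj j h2]
        refine ⟨B⁻¹, inv_mem (Subgroup.subset_closure (Or.inr rfl)), ?_⟩
        change ((TB h (Fin.last n))⁻¹)⁻¹ = _
        rw [inv_inv]
      · intro j j' hjj h2 h3
        exfalso
        omega
    obtain ⟨x, hx, hxe⟩ := hle hφ
    have h2 : x = ⟨φ, hφ⟩ := Subtype.ext hxe
    rwa [h2] at hx
  obtain ⟨j, hj⟩ := Braid3.ker_eq (sl1.comp (ph hk h)) sA sB hbr hcl (by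
    rw [MonoidHom.comp_apply, ph_of_one hk h (x := ⟨φ, hφ⟩) h1, map_one])
  have h2 := congrArg Subtype.val hj
  have h3 : φ = ((TA h (Fin.last n) * (TB h (Fin.last n))⁻¹) ^ 6) ^ j := by
    rw [show φ = (⟨φ, hφ⟩ : H60G.MR h n (n + 1)).1 from rfl, h2]
    rfl
  rw [h3]
  apply zpow_mem
  have h4 : (TA h (Fin.last n) * (TB h (Fin.last n))⁻¹) ^ 6 =
      TB h (Fin.last n) * (((TA h (Fin.last n))⁻¹ * TB h (Fin.last n)) ^ 6)⁻¹ *
      (TB h (Fin.last n))⁻¹ := by
    rw [← inv_pow, ← conj_pow]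
    congr 1
    group
  rw [h4]
  exact hy.conj _ (MR_le_MMs h _ _ hB) _ (inv_mem hy.k2)

/-- All blocks. -/
theorem all_blocks (hy : Hyp h K) : ∀ (p lo : ℕ), lo + p = n → ∀ φ ∈ H60G.MR h lo (n + 1),
    H1 h φ = 1 → φ ∈ K := by
  intro p
  induction p with
  | zero =>
    intro lo hlo φ hφ h1
    have h2 : lo = n := by omega
    subst h2
    exact base hy hφ h1
  | succ p ih =>
    intro lo hlo φ hφ h1
    exact step hy (by omega) (ih (lo + 1) (by omega)) hφ h1

/-- **Normal generation of the Torelli group.** If `K` is normalised by the mapping class group and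
contains all null homologous pushes of the foot of the last handle and the Dehn twist about the
boundary of the last handle, then `K` contains the Torelli group. -/
theorem torelli_gen (h : IsSurf a b) (K : Subgroup (MulAut G))
    (hK : ∀ ψ ∈ MMs h, ∀ x ∈ K, ψ * x * ψ⁻¹ ∈ K)
    (K1 : ∀ (y : Fr n) (k : ℤ), H1 h (XX h y * TT h ^ k) = 1 → XX h y * TT h ^ k ∈ K)
    (K2 : ((TA h (Fin.last n))⁻¹ * TB h (Fin.last n)) ^ 6 ∈ K) :
    ∀ φ ∈ MMs h, H1 h φ = 1 → φ ∈ K := by
  intro φ hφ
  refine all_blocks ⟨hK, K1, K2⟩ n 0 (Nat.zero_add n) φ ?_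
  rw [MMs_eq_TW] at hφ
  have hle : TW h ≤ H60G.MR h 0 (n + 1) := by
    rw [TW, Subgroup.closure_le]
    rintro T (⟨i, rfl⟩ | ⟨i, rfl⟩ | ⟨i, j, hij, rfl⟩)
    · exact TA_mem h i (Nat.zero_le _) i.2
    · exact TB_mem h i (Nat.zero_le _) i.2
    · exact TC_mem h i j hij (Nat.zero_le _) j.2
  exact hle hφ

end Pool.Agent.H.MP_59b15d_al.PK
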