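import Pool.Agent.H.MP_59b15d_al.pk.Eta3
import Pool.Agent.H.MP_59b15d_al.pk.Cen
import Pool.Agent.H.MP_59b15d_al.h73x.Lx
import Pool.Agent.H.MP_59b15d_al.h40th.Inn
import Pool.Agent.H.MP_59b15d_al.h11r.Ns
import Pool.Agent.H.MP_59b15d_al.h93c.Final
import Pool.Agent.H.MP_59b15d_al.h11c.Tree

/-!
# The local data of the quotient of the mapping class group by `N`
-/

set_option autoImplicit false

namespace Pool.Agent.H.MP_59b15d_al.H73X

open Pool.Agent.H.MP_59b15d_al.SP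
open Pool.Agent.H.MP_59b15d_al.H93C
open Pool.MP_59b15d_al.H24T Pool.MP_59b15d_al.H76R Pool.MP_59b15d_al.H73E
open Pool.MP_59b15d_al.H60G Pool.MP_59b15d_al.H95G
open FreeGroup (of)

variable {n : ℕ} {G : Type*} [Group G] {a b : Fin (n + 1) → G} {Q : Type*} [Group Q]

/-- The null homologous pushes act trivially. -/
theorem fld_X (h : IsSurf a b) (hn : 4 ≤ n) (N : Subgroup (MulAut G))
    (hN : ∀ φ ∈ MMs h, ∀ x ∈ N, φ * x * φ⁻¹ ∈ N) (hR : Rels h N) (q : MMs h →* Q)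
    (hq : ∀ x : MMs h, x.1 ∈ N → q x = 1) (y : Fr n) (hy : hs y = 1) : q (xX h y) = 1 :=
  hq _ (XX_mem_of_hs h (by omega) N hN hR y hy)

/-- The elements with trivial shift are central. -/
theorem fld_Cz (h : IsSurf a b) (hn : 4 ≤ n) (N : Subgroup (MulAut G))
    (hN : ∀ φ ∈ MMs h, ∀ x ∈ N, φ * x * φ⁻¹ ∈ N) (hI : ∀ x : G, MulAut.conj x ∈ N)
    (hf : N.relIndex (MMs h) ≠ 0) (hR : Rels h N) (q : MMs h →* Q)
    (hq : ∀ x : MMs h, x.1 ∈ N → q x = 1) : Cz h q := by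
  obtain ⟨M, hM0, hM⟩ := exists_exp h N hN hf
  have hG : ∀ K : Subgroup (MulAut G), (∀ ψ ∈ MMs h, ∀ x ∈ K, ψ * x * ψ⁻¹ ∈ K) →
      (∀ r ∈ MR h 0 n, H1 h r = 1 → r ∈ K) → ∀ φ ∈ MMs h, H1 h φ = 1 → φ ∈ K := by
    intro K hK hr φ hφ h1
    have h2 := PK.torelli h hn hφ h1
    refine (Subgroup.closure_le _).2 ?_ h2
    rintro x ⟨ψ, hψ, r, hr1, hr2, rfl⟩
    exact hK ψ hψ r (hr r hr1 hr2)
  intro φ hφ y
  have h1 := central_of_TL h hn N hN hI hR (fun i j hij s hs' => exists_bp h hij s hs')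
    hG M hM φ.2 (u := 0) (by rw [smul_zero]; exact hφ)
  have h2 := hq (φ * y * φ⁻¹ * y⁻¹) (h1.2 y y.2)
  rw [map_mul, map_mul, map_mul, map_inv, map_inv, mul_inv_eq_one, mul_inv_eq_iff_eq_mul] at h2
  exact h2

/-- The field `inn`. -/
theorem fld_inn (h : IsSurf a b) (hn : 1 ≤ n) (N : Subgroup (MulAut G))
    (hI : ∀ x : G, MulAut.conj x ∈ N) (q : MMs h →* Q) (hq : ∀ x : MMs h, x.1 ∈ N → q x = 1)
    (v : V (n + 1)) : ∃ g : MMs h, q g = 1 ∧
    ∀ x : U (n + 1), act h hn g x = x + (0, 2 * (((n + 1 : ℕ) : ℤ) - 1) * om v x.1) := by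
  obtain ⟨x, hx⟩ := H40T.exists_inner h hn v
  refine ⟨⟨MulAut.conj x, Subgroup.subset_closure (Or.inl ⟨x, rfl⟩)⟩, hq _ (hI x), fun z => ?_⟩
  rw [act_TL h hn _ hx, om_smul_left]
  congr 2
  push_cast
  ring

/-- A mapping class acting on the framed classes by a shift. -/
theorem TL_of_act (h : IsSurf a b) (hn : 1 ≤ n) (φ : MMs h) (u : V (n + 1))
    (hx : ∀ x : U (n + 1), act h hn φ x = x + (0, 2 * om u x.1)) : TL a b φ.1 u := by
  refine ⟨lft h φ, lft_spec h φ, fun z => ?_⟩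
  have h1 := act_lift h hn φ (lft_spec h φ) z
  rw [hx] at h1
  have h2 : clr z + 0 = clr (lft h φ z) := congrArg Prod.fst h1
  have h3 : WD z + 2 * om u (clr z) = WD (lft h φ z) := congrArg Prod.snd h1
  rw [add_zero] at h2
  obtain ⟨y, hy⟩ : ∃ y : Hs (n + 1), y = hs z * Hs.z ^ om u (clr z) := ⟨_, rfl⟩
  have h4 : wd y = wd (hs (lft h φ z)) := by
    rw [hy, wd_mul_z]
    exact h3
  have h5 : y.v = (hs (lft h φ z)).v := by
    rw [hy, Hs.mul_v, Hs.z_zpow]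
    change clr z + 0 = _
    rw [add_zero]
    exact h2
  rw [← hy]
  have h6 : y.s = (hs (lft h φ z)).s := by
    rw [wd, wd, h5] at h4
    omega
  have h7 : ∀ {p r : Hs (n + 1)}, p.v = r.v → p.s = r.s → p = r := by
    rintro ⟨_, _⟩ ⟨_, _⟩ rfl rfl
    rfl
  exact (h7 h5 h6).symm

lemma act_step (h : IsSurf a b) (hn : 1 ≤ n) (i : Fin (n + 1)) (x : U (n + 1)) {p r : ℤ}
    (hp : om (e i) x.1 = p) (hr : om (f i) x.1 = r) (c d : ℤ) :
    act h hn (tA h i * (tB h i)⁻¹) (x + c • ((e i, 0) - (0, 1) : U (n + 1)) +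
      d • ((f i, 2) - (0, 1) : U (n + 1))) =
    x + (p + d + r) • ((e i, 0) - (0, 1) : U (n + 1)) +
      (d + r - c) • ((f i, 2) - (0, 1) : U (n + 1)) := by
  have h1 : ∀ y : U (n + 1), ∀ s t : ℤ, (y + s • ((e i, 0) - (0, 1) : U (n + 1)) +
      t • ((f i, 2) - (0, 1) : U (n + 1))).1 = y.1 + s • e i + t • f i := by
    intro y s t
    change y.1 + s • (e i - 0) + t • (f i - 0) = _
    rw [sub_zero, sub_zero]
  have h2 : ∀ s t : ℤ, om (f i) (x + s • ((e i, 0) - (0, 1) : U (n + 1)) +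
      t • ((f i, 2) - (0, 1) : U (n + 1))).1 = r - s := by
    intro s t
    rw [h1, om_add_right, om_add_right, om_smul_right, om_smul_right, om_f_e, om_f_f, hr]
    ring
  have h3 : ∀ s t : ℤ, om (e i) (x + s • ((e i, 0) - (0, 1) : U (n + 1)) +
      t • ((f i, 2) - (0, 1) : U (n + 1))).1 = p + t := by
    intro s t
    rw [h1, om_add_right, om_add_right, om_smul_right, om_smul_right, om_e_e, om_e_f, hp]
    ring
  rw [act_mul', act_tBi, h2]
  have h4 : x + c • ((e i, 0) - (0, 1) : U (n + 1)) + d • ((f i, 2) - (0, 1) : U (n + 1)) +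
      (r - c) • ((f i, 2) - (0, 1) : U (n + 1)) = x + c • ((e i, 0) - (0, 1) : U (n + 1)) +
      (d + r - c) • ((f i, 2) - (0, 1) : U (n + 1)) := by module
  rw [h4, act_tA, h3]
  module

theorem act_six (h : IsSurf a b) (hn : 1 ≤ n) (i : Fin (n + 1)) (x : U (n + 1)) :
    act h hn ((tA h i * (tB h i)⁻¹) ^ 6) x = x := by
  have s := fun c d => act_step h hn i x rfl rfl c d
  have h0 : x = x + (0 : ℤ) • ((e i, 0) - (0, 1) : U (n + 1)) +
      (0 : ℤ) • ((f i, 2) - (0, 1) : U (n + 1)) := by module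
  have h6 : (tA h i * (tB h i)⁻¹) ^ 6 = (tA h i * (tB h i)⁻¹) * ((tA h i * (tB h i)⁻¹) *
      ((tA h i * (tB h i)⁻¹) * ((tA h i * (tB h i)⁻¹) * ((tA h i * (tB h i)⁻¹) *
      (tA h i * (tB h i)⁻¹))))) := by
    simp only [pow_succ, pow_zero, one_mul, mul_assoc]
  rw [h6]
  simp only [act_mul' h hn (tA h i * (tB h i)⁻¹)]
  conv_lhs => rw [h0]
  rw [s, s, s, s, s, s]
  conv_rhs => rw [h0]
  congr 2
  · ring_nf
  · ring_nf

/-- The sixth power of the product of the two twists of a handle has trivial shift. -/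
theorem TL_six (h : IsSurf a b) (hn : 1 ≤ n) (i : Fin (n + 1)) :
    TL a b ((tA h i * (tB h i)⁻¹) ^ 6 : MMs h).1 0 := by
  refine TL_of_act h hn _ 0 fun x => ?_
  rw [act_six, om_zero_left, mul_zero]
  exact (add_zero x).symm

/-- The image of the separating twist of genus one. -/
noncomputable def sQ (h : IsSurf a b) (q : MMs h →* Q) : Q :=
  q ((tA h (Fin.last n) * (tB h (Fin.last n))⁻¹) ^ 6)

/-- **The local data of the quotient.** -/
theorem exists_loc (h : IsSurf a b) (hn : 4 ≤ n) (N : Subgroup (MulAut G))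
    (hN : ∀ φ ∈ MMs h, ∀ x ∈ N, φ * x * φ⁻¹ ∈ N) (hI : ∀ x : G, MulAut.conj x ∈ N)
    (hf : N.relIndex (MMs h) ≠ 0) (hR : Rels h N) (q : MMs h →* Q)
    (hqs : Function.Surjective q) (hq : ∀ x : MMs h, x.1 ∈ N → q x = 1) {j k : Fin n}
    (hk : ((Fin.last n : Fin (n + 1)) : ℕ) = k.castSucc + 1)
    (hjk : (k.castSucc : ℕ) = j.castSucc + 1)
    (hl2 : Cz h q → (∀ y : Fr n, hs y = 1 → q (xX h y) = 1) →
      TQ h (by omega) q (e (Fin.last n) + e k.castSucc, 2) *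
        (TQ h (by omega) q (e k.castSucc, 2))⁻¹ =
      TQ h (by omega) q (e (Fin.last n) + e k.castSucc, 0) *
        (TQ h (by omega) q (e k.castSucc, 0))⁻¹ *
        (TQ h (by omega) q (e (Fin.last n), 2) * (TQ h (by omega) q (e (Fin.last n), 0))⁻¹) *
        (sQ h q)⁻¹) :
    ∃ M : ℕ, Loc q (act h (by omega)) (TQ h (by omega) q) (sQ h q) M k.castSucc j.castSucc
      (Fin.last n) := by
  have hn1 : 1 ≤ n := by omega
  have hn2 : 2 ≤ n := by omega
  have hC := fld_Cz h hn N hN hI hf hR q hq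
  have hX := fld_X h hn N hN hR q hq
  obtain ⟨M, hM, hcen⟩ := fld_cen h hn N hN hI hf hR q hqs hq
  have hsc : ∀ y : Q, Commute (sQ h q) y := by
    intro y
    obtain ⟨x, rfl⟩ := hqs y
    exact hC _ (TL_six h hn1 _) x
  exact ⟨M, {
    hij := (ne_of_hij hjk).symm
    hil := ne_of_hij hk
    hjl := (Fin.castSucc_lt_last j).ne
    fix := act_fix h hn1
    sp := act_sp h hn1
    par := act_par h hn1
    surj := act_surj h hn1
    two := fld_two h hn1
    tact := tact h hn2 q hC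
    eqv := eqv h hn2 q hC
    sym := sym h hn2 q hC
    lan := lan h hn2 q hC hX hk hjk
    lan2 := hl2 hC hX
    sc := hsc
    s6 := by
      rw [(Tw_last h hn2 q hC).2, (Tw_B h hn2 q hC (Fin.last n)).2, ← map_mul, ← map_pow]
      rfl
    hM := hM
    cen := hcen
    gen := fld_gen h hn2 q hC hN hR hq hsc rfl
    inn := fld_inn h hn1 N hI q hq }⟩

end Pool.Agent.H.MP_59b15d_al.H73X
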