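import Pool.Agent.H.MP_59b15d_al.pk.BkS

/-!
# Identities between mapping classes of the last three handles
-/

set_option autoImplicit false
set_option linter.unusedSimpArgs false

namespace Pool.Agent.H.MP_59b15d_al.PK

open SP H93C
open Pool.MP_59b15d_al.H24T Pool.MP_59b15d_al.H76R Pool.MP_59b15d_al.H60G Pool.MP_59b15d_al.H73E
open FreeGroup (of)

variable {n : ℕ} {G : Type*} [Group G] {a b : Fin (n + 1) → G}

variable (h : IsSurf a b) {i j : Fin n} (hi : (i : ℕ) + 1 = n) (hj : (j : ℕ) + 2 = n)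
  {σ τ : MulAut G}

include hi hj in
lemma mem_three {k : Fin (n + 1)} (hk : n - 2 ≤ (k : ℕ)) :
    k = j.castSucc ∨ k = i.castSucc ∨ k = Fin.last n := by
  have := k.2
  rcases Nat.lt_or_ge (k : ℕ) (n - 1) with h1 | h1
  · left
    apply Fin.ext
    rw [Fin.val_castSucc]
    omega
  · exact Or.inr (mem_two hi h1)

include hi hj in
lemma cs_ji : ((i.castSucc : Fin (n + 1)) : ℕ) = j.castSucc + 1 := by
  rw [Fin.val_castSucc, Fin.val_castSucc]
  omega

include hi hj in
/-- The twist between the handles before the last one. -/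
theorem id_four (S : Sw h i σ) : TC h j.castSucc i.castSucc (cs_ji hi hj) * σ =
    σ * (Xb h j * TB h j.castSucc) := by
  have h1 : i.castSucc ≠ j.castSucc := fun h0 => by
    have := congrArg Fin.val h0
    simp only [Fin.val_castSucc] at this
    omega
  have hli := lne i
  have hlj := lne j
  have hlt : j.castSucc < i.castSucc := by
    rw [Fin.lt_def, Fin.val_castSucc, Fin.val_castSucc]
    omega
  have hlt2 : i.castSucc < Fin.last n := Fin.castSucc_lt_last i
  have mσ : σ ∈ MR h (n - 2) (n + 1) := MR_mono h (by omega) le_rfl S.mem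
  have mX : Xb h j ∈ MR h (n - 2) (n + 1) := by
    have := (XX_mem_two h i j hi hj).2.2.2
    rwa [XX_b] at this
  have mC : TC h j.castSucc i.castSucc (cs_ji hi hj) ∈ MR h (n - 2) (n + 1) :=
    TC_mem h _ _ _ (by rw [Fin.val_castSucc]; omega) (by rw [Fin.val_castSucc]; omega)
  have mB : TB h j.castSucc ∈ MR h (n - 2) (n + 1) :=
    TB_mem h _ (by rw [Fin.val_castSucc]; omega) (by rw [Fin.val_castSucc]; omega)
  have hfix := MR_fix h S.mem (j : ℕ) (Or.inl (by omega))
  have e1 : ex a (j : ℕ) = a j.castSucc := by rw [ex_lt a (by omega)]; rfl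
  have e2 : ex b (j : ℕ) = b j.castSucc := by rw [ex_lt b (by omega)]; rfl
  rw [e1, e2] at hfix
  obtain ⟨f1, f2⟩ := hfix
  refine ext_last h (mul_mem mC mσ) (mul_mem mσ (mul_mem mX mB)) fun k hk => ?_
  rcases mem_three hi hj hk with rfl | rfl | rfl
  · constructor
    · simp only [MulAut.mul_apply, map_mul, map_inv, S.c, S.d, S.p, S.q, f1, f2, TC_ai, TB_a,
        Xb_aj, Xb_bj, Xb_al, Xb_bl]
      group
    · simp only [MulAut.mul_apply, map_mul, map_inv, S.c, S.d, S.p, S.q, f1, f2, TC_bi, TB_b,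
        Xb_aj, Xb_bj, Xb_al, Xb_bl]
      group
  · constructor
    · simp only [MulAut.mul_apply, map_mul, map_inv, S.c, S.d, S.p, S.q, f1, f2, TC_ai, TC_aj,
        TC_bi, TC_bj, TC_a_ne h _ hlj hli, TC_b_ne h _ hlj hli, TB_a_ne h h1, TB_b,
        Xb_a_mid h j hlt hlt2]
      group
    · simp only [MulAut.mul_apply, map_mul, map_inv, S.c, S.d, S.p, S.q, f1, f2, TC_ai, TC_aj,
        TC_bi, TC_bj, TC_a_ne h _ hlj hli, TC_b_ne h _ hlj hli, TB_a_ne h h1, TB_b,
        Xb_b_mid h j hlt hlt2]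
      group
  · constructor
    · simp only [MulAut.mul_apply, map_mul, map_inv, S.c, S.d, S.p, S.q, f1, f2, TC_ai, TC_aj,
        TC_bi, TC_bj, TC_a_ne h _ hlj hli, TC_b_ne h _ hlj hli, TB_a_ne h hlj, TB_b,
        Xb_al, Xb_bl]
      group
    · simp only [MulAut.mul_apply, map_mul, map_inv, S.c, S.d, S.p, S.q, f1, f2, TC_ai, TC_aj,
        TC_bi, TC_bj, TC_a_ne h _ hlj hli, TC_b_ne h _ hlj hli, TB_a_ne h hlj, TB_b,
        Xb_al, Xb_bl]
      group

/-- The exchange of the handles `j` and `i`. -/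
structure Sv (j i : Fin n) (τ : MulAut G) : Prop where
  mem : τ ∈ MR h (n - 2) n
  c : τ (a i.castSucc) = a j.castSucc
  d : τ (b i.castSucc) = b j.castSucc
  p : τ (a j.castSucc) = (a j.castSucc * b j.castSucc * (a j.castSucc)⁻¹ * (b j.castSucc)⁻¹) *
    a i.castSucc * (a j.castSucc * b j.castSucc * (a j.castSucc)⁻¹ * (b j.castSucc)⁻¹)⁻¹
  q : τ (b j.castSucc) = (a j.castSucc * b j.castSucc * (a j.castSucc)⁻¹ * (b j.castSucc)⁻¹) *
    b i.castSucc * (a j.castSucc * b j.castSucc * (a j.castSucc)⁻¹ * (b j.castSucc)⁻¹)⁻¹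

include hi hj in
lemma exists_Sv : ∃ τ, Sv h j i τ := by
  obtain ⟨τ, s1, ⟨s2, s3⟩, s4, s5⟩ := exists_swap' h (j : ℕ) (by omega)
  have e1 : ex a ((j : ℕ) + 1) = a i.castSucc := by
    rw [ex_lt a (by omega)]; congr 1; exact Fin.ext (by simp only [Fin.val_castSucc]; omega)
  have e2 : ex b ((j : ℕ) + 1) = b i.castSucc := by
    rw [ex_lt b (by omega)]; congr 1; exact Fin.ext (by simp only [Fin.val_castSucc]; omega)
  have e3 : ex a (j : ℕ) = a j.castSucc := by
    rw [ex_lt a (by omega)]; rfl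
  have e4 : ex b (j : ℕ) = b j.castSucc := by
    rw [ex_lt b (by omega)]; rfl
  rw [cm] at s4 s5
  rw [e1, e3] at s2
  rw [e2, e4] at s3
  rw [e3, e1, e4] at s4
  rw [e4, e2, e3] at s5
  have h1 : (j : ℕ) = n - 2 := by omega
  have h2 : (j : ℕ) + 2 = n := by omega
  rw [h2] at s1
  rw [h1] at s1
  exact ⟨τ, s1, s2, s3, s4, s5⟩

include hi hj in
/-- The braid relation of the exchanges. -/
theorem id_eight (S : Sw h i σ) (S' : Sv h j i τ) : σ * τ * σ = τ * σ * τ := by
  have mσ : σ ∈ MR h (n - 2) (n + 1) := MR_mono h (by omega) le_rfl S.mem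
  have mτ : τ ∈ MR h (n - 2) (n + 1) := MR_mono h le_rfl (by omega) S'.mem
  have hfix := MR_fix h S.mem (j : ℕ) (Or.inl (by omega))
  have e1 : ex a (j : ℕ) = a j.castSucc := by rw [ex_lt a (by omega)]; rfl
  have e2 : ex b (j : ℕ) = b j.castSucc := by rw [ex_lt b (by omega)]; rfl
  rw [e1, e2] at hfix
  obtain ⟨f1, f2⟩ := hfix
  have hfix' := MR_fix h S'.mem n (Or.inr le_rfl)
  have e3 : ex a n = a (Fin.last n) := by rw [ex_lt a (by omega)]; rfl
  have e4 : ex b n = b (Fin.last n) := by rw [ex_lt b (by omega)]; rfl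
  rw [e3, e4] at hfix'
  obtain ⟨g1, g2⟩ := hfix'
  refine ext_last h (mul_mem (mul_mem mσ mτ) mσ) (mul_mem (mul_mem mτ mσ) mτ) fun k hk => ?_
  rcases mem_three hi hj hk with rfl | rfl | rfl
  · constructor
    · simp only [MulAut.mul_apply, map_mul, map_inv, S.c, S.d, S.p, S.q, f1, f2, S'.c, S'.d,
        S'.p, S'.q, g1, g2]
      group
    · simp only [MulAut.mul_apply, map_mul, map_inv, S.c, S.d, S.p, S.q, f1, f2, S'.c, S'.d,
        S'.p, S'.q, g1, g2]
      group
  · constructor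
    · simp only [MulAut.mul_apply, map_mul, map_inv, S.c, S.d, S.p, S.q, f1, f2, S'.c, S'.d,
        S'.p, S'.q, g1, g2]
    · simp only [MulAut.mul_apply, map_mul, map_inv, S.c, S.d, S.p, S.q, f1, f2, S'.c, S'.d,
        S'.p, S'.q, g1, g2]
  · constructor
    · simp only [MulAut.mul_apply, map_mul, map_inv, S.c, S.d, S.p, S.q, f1, f2, S'.c, S'.d,
        S'.p, S'.q, g1, g2]
    · simp only [MulAut.mul_apply, map_mul, map_inv, S.c, S.d, S.p, S.q, f1, f2, S'.c, S'.d,
        S'.p, S'.q, g1, g2]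

end Pool.Agent.H.MP_59b15d_al.PK
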