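import Pool.Agent.H.MP_59b15d_al.pk.GTwo

/-!
# Moving a block by one handle
-/

set_option autoImplicit false

namespace Pool.Agent.H.MP_59b15d_al.PK

open SP H93C
open Pool.MP_59b15d_al.H24T Pool.MP_59b15d_al.H76R Pool.MP_59b15d_al.H60G Pool.MP_59b15d_al.H73E
open FreeGroup (of)

variable {n : ℕ} {G : Type*} [Group G] {a b : Fin (n + 1) → G}

/-- There is a mapping class that moves the handles `lo, ..., n - 1` to `lo + 1, ..., n`. -/
theorem exists_up (h : IsSurf a b) {lo : ℕ} (hlo : lo ≤ n) :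
    ∃ μ ∈ MR h lo (n + 1), ∀ f ∈ MR h lo n, μ * f * μ⁻¹ ∈ MR h (lo + 1) (n + 1) := by
  obtain ⟨μ, m1, m2, m3⟩ := exists_mu h lo (n - lo) (by omega)
  rw [show lo + (n - lo) = n by omega] at m1 m2
  refine ⟨μ, m1, ?_⟩
  -- values of `μ`
  have c0 : ∀ k, lo ≤ k → k < n → μ (ex a k) = cm a b lo * ex a (k + 1) * (cm a b lo)⁻¹ ∧
      μ (ex b k) = cm a b lo * ex b (k + 1) * (cm a b lo)⁻¹ := by
    intro k h1 h2
    have := m3 (k - lo) (by omega)
    rwa [show lo + (k - lo) = k by omega] at this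
  have key : ∀ F F' : MulAut G, F ∈ MR h (lo + 1) (n + 1) → F' ∈ MR h lo n →
      (∀ k, lo ≤ k → k < n →
        μ (F' (ex a k)) = cm a b lo * F (ex a (k + 1)) * (cm a b lo)⁻¹ ∧
        μ (F' (ex b k)) = cm a b lo * F (ex b (k + 1)) * (cm a b lo)⁻¹) →
      μ * F' * μ⁻¹ ∈ MR h (lo + 1) (n + 1) := by
    intro F F' hF hF' h1
    have h3 : μ * F' = F * μ := by
      apply ext_ex h
      intro k hk
      rw [MulAut.mul_apply, MulAut.mul_apply, MulAut.mul_apply, MulAut.mul_apply]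
      have f0 := MR_fix h hF lo (Or.inl (by omega))
      have fc : F (cm a b lo) = cm a b lo := by
        rw [cm]
        simp only [map_mul, map_inv, f0.1, f0.2]
      rcases lt_or_ge k lo with h4 | h4
      · have e1 := MR_fix h m1 k (Or.inl h4)
        have e2 := MR_fix h hF' k (Or.inl h4)
        have e3 := MR_fix h hF k (Or.inl (by omega))
        rw [e2.1, e2.2, e1.1, e1.2, e3.1, e3.2]
        exact ⟨rfl, rfl⟩
      · rcases lt_or_ge k n with h5 | h5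
        · obtain ⟨e1, e2⟩ := h1 k h4 h5
          rw [e1, e2, (c0 k h4 h5).1, (c0 k h4 h5).2]
          simp only [map_mul, map_inv, fc]
          exact ⟨trivial, trivial⟩
        · have h6 : k = n := by omega
          subst h6
          have e2 := MR_fix h hF' k (Or.inr le_rfl)
          rw [e2.1, e2.2, m2.1, m2.2, f0.1, f0.2]
          exact ⟨rfl, rfl⟩
    rw [h3, mul_inv_cancel_right]
    exact hF
  have hle : MR h lo n ≤ (MR h (lo + 1) (n + 1)).comap (MulAut.conj μ).toMonoidHom := by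
    apply MR_le h
    · intro i h1 hi
      change μ * TA h i * μ⁻¹ ∈ MR h (lo + 1) (n + 1)
      have hin : (i : ℕ) + 1 < n + 1 := by omega
      refine key (TA h ⟨(i : ℕ) + 1, hin⟩) _ (TA_mem h _ (by simp only; omega)
        (by simp only; omega)) (TA_mem h i h1 hi) ?_
      intro k hk1 hk2
      have hk' : k + 1 < n + 1 := by omega
      have hk : k < n + 1 := by omega
      have c1 := c0 k hk1 hk2
      rw [ex_lt a hk, ex_lt b hk, ex_lt a hk', ex_lt b hk'] at c1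
      rw [ex_lt a hk, ex_lt b hk, ex_lt a hk', ex_lt b hk', TA_a, TA_a]
      refine ⟨c1.1, ?_⟩
      by_cases hki : k = i
      · have e1 : (⟨k, hk⟩ : Fin (n + 1)) = i := Fin.ext hki
        have e2 : (⟨k + 1, hk'⟩ : Fin (n + 1)) = ⟨(i : ℕ) + 1, hin⟩ := Fin.ext (by simp only; omega)
        rw [e1, e2] at c1 ⊢
        rw [TA_b, TA_b, map_mul, c1.1, c1.2]
        group
      · rw [TA_b_ne h (by simp [Fin.ext_iff, hki]), TA_b_ne h (by simp [Fin.ext_iff, hki]), c1.2]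
    · intro i h1 hi
      change μ * TB h i * μ⁻¹ ∈ MR h (lo + 1) (n + 1)
      have hin : (i : ℕ) + 1 < n + 1 := by omega
      refine key (TB h ⟨(i : ℕ) + 1, hin⟩) _ (TB_mem h _ (by simp only; omega)
        (by simp only; omega)) (TB_mem h i h1 hi) ?_
      intro k hk1 hk2
      have hk' : k + 1 < n + 1 := by omega
      have hk : k < n + 1 := by omega
      have c1 := c0 k hk1 hk2
      rw [ex_lt a hk, ex_lt b hk, ex_lt a hk', ex_lt b hk'] at c1
      rw [ex_lt a hk, ex_lt b hk, ex_lt a hk', ex_lt b hk', TB_b, TB_b]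
      refine ⟨?_, c1.2⟩
      by_cases hki : k = i
      · have e1 : (⟨k, hk⟩ : Fin (n + 1)) = i := Fin.ext hki
        have e2 : (⟨k + 1, hk'⟩ : Fin (n + 1)) = ⟨(i : ℕ) + 1, hin⟩ := Fin.ext (by simp only; omega)
        rw [e1, e2] at c1 ⊢
        rw [TB_a, TB_a]
        simp only [map_mul, map_inv, c1.1, c1.2]
        group
      · rw [TB_a_ne h (by simp [Fin.ext_iff, hki]), TB_a_ne h (by simp [Fin.ext_iff, hki]), c1.1]
    · intro i j hij h1 hj
      change μ * TC h i j hij * μ⁻¹ ∈ MR h (lo + 1) (n + 1)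
      have hin : (i : ℕ) + 1 < n + 1 := by omega
      have hjn : (j : ℕ) + 1 < n + 1 := by omega
      have hij' : ((⟨(j : ℕ) + 1, hjn⟩ : Fin (n + 1)) : ℕ) =
          (⟨(i : ℕ) + 1, hin⟩ : Fin (n + 1)) + 1 := by
        simp only; omega
      refine key (TC h ⟨(i : ℕ) + 1, hin⟩ ⟨(j : ℕ) + 1, hjn⟩ hij') _
        (TC_mem h _ _ hij' (by simp only; omega) (by simp only; omega))
        (TC_mem h i j hij h1 hj) ?_
      intro k hk1 hk2
      have hk' : k + 1 < n + 1 := by omega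
      have hk : k < n + 1 := by omega
      have c1 := c0 k hk1 hk2
      have ci := c0 (i : ℕ) h1 (by omega)
      have cj := c0 (j : ℕ) (by omega) hj
      rw [ex_val, ex_val, ex_lt a hin, ex_lt b hin] at ci
      rw [ex_val, ex_val, ex_lt a hjn, ex_lt b hjn] at cj
      rw [ex_lt a hk, ex_lt b hk, ex_lt a hk', ex_lt b hk'] at c1
      rw [ex_lt a hk, ex_lt b hk, ex_lt a hk', ex_lt b hk']
      by_cases hki : k = i
      · have e1 : (⟨k, hk⟩ : Fin (n + 1)) = i := Fin.ext hki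
        have e2 : (⟨k + 1, hk'⟩ : Fin (n + 1)) = ⟨(i : ℕ) + 1, hin⟩ := Fin.ext (by simp only; omega)
        rw [e1, e2, TC_ai, TC_ai, TC_bi, TC_bi]
        simp only [map_mul, map_inv, ci.1, ci.2, cj.1]
        constructor <;> group
      · by_cases hkj : k = j
        · have e1 : (⟨k, hk⟩ : Fin (n + 1)) = j := Fin.ext hkj
          have e2 : (⟨k + 1, hk'⟩ : Fin (n + 1)) = ⟨(j : ℕ) + 1, hjn⟩ :=
            Fin.ext (by simp only; omega)
          rw [e1, e2, TC_aj, TC_aj, TC_bj, TC_bj]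
          simp only [map_mul, map_inv, ci.2, cj.1, cj.2]
          constructor <;> group
        · rw [TC_a_ne h hij (by simp [Fin.ext_iff, hki]) (by simp [Fin.ext_iff, hkj]),
            TC_b_ne h hij (by simp [Fin.ext_iff, hki]) (by simp [Fin.ext_iff, hkj]),
            TC_a_ne h hij' (by simp [Fin.ext_iff, hki]) (by simp [Fin.ext_iff, hkj]),
            TC_b_ne h hij' (by simp [Fin.ext_iff, hki]) (by simp [Fin.ext_iff, hkj])]
          exact c1
  intro f hf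
  exact hle hf

/-- The twists of the handles `≥ lo` fixing the curve `a` of the last handle. -/
def Mcl (h : IsSurf a b) (lo : ℕ) : Subgroup (MulAut G) :=
  Subgroup.closure {x | (∃ i : Fin (n + 1), lo ≤ (i : ℕ) ∧ x = TA h i) ∨
    (∃ i : Fin n, lo ≤ (i : ℕ) ∧ x = TB h i.castSucc) ∨
    ∃ (i j : Fin (n + 1)) (hij : (j : ℕ) = i + 1), lo ≤ (i : ℕ) ∧ x = TC h i j hij}

section Mcl

variable (h : IsSurf a b) {lo : ℕ}

lemma Mcl_A {i : Fin (n + 1)} (hi : lo ≤ (i : ℕ)) : TA h i ∈ Mcl h lo :=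
  Subgroup.subset_closure (Or.inl ⟨i, hi, rfl⟩)

lemma Mcl_B {i : Fin n} (hi : lo ≤ (i : ℕ)) : TB h i.castSucc ∈ Mcl h lo :=
  Subgroup.subset_closure (Or.inr (Or.inl ⟨i, hi, rfl⟩))

lemma Mcl_C {i j : Fin (n + 1)} (hij : (j : ℕ) = i + 1) (hi : lo ≤ (i : ℕ)) :
    TC h i j hij ∈ Mcl h lo :=
  Subgroup.subset_closure (Or.inr (Or.inr ⟨i, j, hij, hi, rfl⟩))

lemma Mcl_le_Mcs : Mcl h lo ≤ Mcs h := by
  rw [Mcl, Subgroup.closure_le]
  rintro T (⟨i, _, rfl⟩ | ⟨i, _, rfl⟩ | ⟨i, j, hij, _, rfl⟩)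
  · exact Subgroup.subset_closure (Or.inl ⟨i, rfl⟩)
  · exact Subgroup.subset_closure (Or.inr (Or.inl ⟨i, rfl⟩))
  · exact Subgroup.subset_closure (Or.inr (Or.inr ⟨i, j, hij, rfl⟩))

lemma Mcl_le_MR : Mcl h lo ≤ MR h lo (n + 1) := by
  rw [Mcl, Subgroup.closure_le]
  rintro T (⟨i, hi, rfl⟩ | ⟨i, hi, rfl⟩ | ⟨i, j, hij, hi, rfl⟩)
  · exact TA_mem h i hi i.2
  · exact TB_mem h _ hi (by rw [Fin.val_castSucc]; omega)
  · exact TC_mem h i j hij hi j.2

lemma MR_le_Mcl : MR h lo n ≤ Mcl h lo := by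
  apply MR_le h
  · intro i h1 _
    exact Mcl_A h h1
  · intro i h1 h2
    have h3 : i = (⟨(i : ℕ), h2⟩ : Fin n).castSucc := Fin.ext rfl
    rw [h3]
    exact Mcl_B h h1
  · intro i j hij h1 _
    exact Mcl_C h hij h1

lemma TT_eq : TT h = TA h (Fin.last n) := rfl

lemma Mcl_T (hlo : lo ≤ n) (k : ℤ) : TT h ^ k ∈ Mcl h lo :=
  zpow_mem (Mcl_A h (by rw [Fin.val_last]; exact hlo)) k

lemma Mcl_b1 {j : Fin n} (hj : (j : ℕ) + 1 = n) (hlo : lo ≤ (j : ℕ)) :
    XX h (of (Sum.inr j)) ∈ Mcl h lo := by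
  have hl : ((Fin.last n : Fin (n + 1)) : ℕ) = j.castSucc + 1 := by
    simp only [Fin.val_last, Fin.val_castSucc]; omega
  have h1 := X0_eq h j hl
  have h2 : XX h (of (Sum.inr j)) = TC h j.castSucc (Fin.last n) hl * (TB h j.castSucc)⁻¹ := by
    rw [XX_b, ← h1, mul_inv_cancel_right]
  rw [h2]
  exact mul_mem (Mcl_C h hl (by rw [Fin.val_castSucc]; exact hlo)) (inv_mem (Mcl_B h hlo))

lemma Mcl_a1 {j : Fin n} (hj : (j : ℕ) + 1 = n) (hlo : lo ≤ (j : ℕ)) :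
    XX h (of (Sum.inl j)) ∈ Mcl h lo := by
  obtain ⟨l, hl⟩ := (pair_TA (h := h) j).fX (of (Sum.inr j))
  rw [FA_self, map_mul] at hl
  have hTA : TA h j.castSucc ∈ Mcl h lo := Mcl_A h (by rw [Fin.val_castSucc]; exact hlo)
  have hb := Mcl_b1 h hj hlo
  have h1 : XX h (of (Sum.inl j)) = (XX h (of (Sum.inr j)))⁻¹ *
      (TA h j.castSucc * XX h (of (Sum.inr j)) * (TA h j.castSucc)⁻¹) * (TT h ^ l)⁻¹ := by
    rw [hl]; group
  rw [h1]
  exact mul_mem (mul_mem (inv_mem hb) (mul_mem (mul_mem hTA hb) (inv_mem hTA)))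
    (inv_mem (Mcl_T h (by omega) l))

lemma Mcl_b2 {j1 j2 : Fin n} (h1 : (j1 : ℕ) + 1 = n) (h2 : (j2 : ℕ) + 2 = n)
    (hlo : lo ≤ (j2 : ℕ)) : XX h (of (Sum.inr j2)) ∈ Mcl h lo := by
  obtain ⟨σ, s1, ⟨s2, s3⟩, -⟩ := exists_swap' h (j2 : ℕ) (by omega)
  have hj : (j2 : ℕ) + 1 = j1 := by omega
  rw [hj] at s2 s3
  have s4 : σ ∈ MR h 0 n := MR_mono h (Nat.zero_le _) (by omega) s1
  have s5 : σ ∈ Mcl h lo := MR_le_Mcl h (MR_mono h hlo (by omega) s1)
  obtain ⟨σ', hp⟩ := pair_of_MR h le_rfl σ s4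
  obtain ⟨v1, v2⟩ := pair_val h hp s2 s3
  obtain ⟨l, hl⟩ := hp.fX (of (Sum.inr j1))
  rw [v2] at hl
  have h3 : XX h (of (Sum.inr j2)) = (σ * XX h (of (Sum.inr j1)) * σ⁻¹) * (TT h ^ l)⁻¹ := by
    rw [hl]; group
  rw [h3]
  exact mul_mem (mul_mem (mul_mem s5 (Mcl_b1 h h1 (by omega))) (inv_mem s5))
    (inv_mem (Mcl_T h (by omega) l))

/-- The form of the elements of the stabiliser in a block. -/
theorem Mcl_form {φ : MulAut G} (hφ : φ ∈ Mcl h lo) :
    ∃ (y : Fr n) (k : ℤ) (f : MulAut G), f ∈ MR h lo n ∧ φ = XX h y * TT h ^ k * f := by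
  have hlast : ∀ (j : Fin n) (hj : ((Fin.last n : Fin (n + 1)) : ℕ) = j.castSucc + 1),
      TC h j.castSucc (Fin.last n) hj = XX h (of (Sum.inr j)) * TB h j.castSucc := by
    intro j hj
    rw [XX_b, X0_eq h j hj]
  have hidx : ∀ i j : Fin (n + 1), (j : ℕ) = i + 1 → ∃ i' : Fin n, i = i'.castSucc := by
    intro i j hij
    have hi : (i : ℕ) < n := by
      have := j.2
      omega
    exact ⟨⟨i, hi⟩, rfl⟩
  have dM : ∀ (t φ : MulAut G), t ∈ MR h lo n →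
      (∃ (y : Fr n) (k : ℤ) (f : MulAut G), f ∈ MR h lo n ∧ φ = XX h y * TT h ^ k * f) →
      ∃ (y : Fr n) (k : ℤ) (f : MulAut G), f ∈ MR h lo n ∧ t * φ = XX h y * TT h ^ k * f := by
    rintro t _ ht ⟨y, k, f, hf, rfl⟩
    obtain ⟨t', hp⟩ := pair_of_MR h le_rfl t (MR_mono h (Nat.zero_le _) le_rfl ht)
    obtain ⟨l, hl⟩ := hp.fX y
    refine ⟨t' y, l + k, t * f, mul_mem ht hf, ?_⟩
    have h2 := ((comm_TT h hp.fj hp.fa hp.fb).zpow_right k).eq
    calc t * (XX h y * TT h ^ k * f) = (t * XX h y * t⁻¹) * (t * TT h ^ k) * f := by group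
      _ = _ := by rw [hl, h2, zpow_add]; group
  have dX : ∀ (x : Fr n) (φ : MulAut G),
      (∃ (y : Fr n) (k : ℤ) (f : MulAut G), f ∈ MR h lo n ∧ φ = XX h y * TT h ^ k * f) →
      ∃ (y : Fr n) (k : ℤ) (f : MulAut G), f ∈ MR h lo n ∧
        XX h x * φ = XX h y * TT h ^ k * f := by
    rintro x _ ⟨y, k, f, hf, rfl⟩
    exact ⟨x * y, k, f, hf, by rw [map_mul]; group⟩
  have dT : ∀ (l : ℤ) (φ : MulAut G),
      (∃ (y : Fr n) (k : ℤ) (f : MulAut G), f ∈ MR h lo n ∧ φ = XX h y * TT h ^ k * f) →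
      ∃ (y : Fr n) (k : ℤ) (f : MulAut G), f ∈ MR h lo n ∧
        TT h ^ l * φ = XX h y * TT h ^ k * f := by
    rintro l _ ⟨y, k, f, hf, rfl⟩
    refine ⟨y, l + k, f, hf, ?_⟩
    have h2 := ((TT_XX h y).zpow_left l).eq
    calc TT h ^ l * (XX h y * TT h ^ k * f) = (TT h ^ l * XX h y) * TT h ^ k * f := by group
      _ = _ := by rw [h2, zpow_add]; group
  refine Subgroup.closure_induction_left
    (p := fun φ _ => ∃ (y : Fr n) (k : ℤ) (f : MulAut G), f ∈ MR h lo n ∧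
      φ = XX h y * TT h ^ k * f) ?_ ?_ ?_ hφ
  · exact ⟨1, 0, 1, one_mem _, by simp⟩
  · rintro T (⟨i, hi, rfl⟩ | ⟨i, hi, rfl⟩ | ⟨i, j, hij, hi, rfl⟩) φ _ ih
    · rcases Fin.eq_castSucc_or_eq_last i with ⟨i', rfl⟩ | rfl
      · exact dM _ _ (TA_mem h _ hi i'.2) ih
      · have := dT 1 _ ih
        rwa [zpow_one] at this
    · exact dM _ _ (TB_mem h _ hi i.2) ih
    · obtain ⟨i', rfl⟩ := hidx i j hij
      rcases Fin.eq_castSucc_or_eq_last j with ⟨j', rfl⟩ | rfl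
      · exact dM _ _ (TC_mem h _ _ hij hi j'.2) ih
      · rw [hlast i' hij, mul_assoc]
        exact dX _ _ (dM _ _ (TB_mem h _ hi i'.2) ih)
  · rintro T (⟨i, hi, rfl⟩ | ⟨i, hi, rfl⟩ | ⟨i, j, hij, hi, rfl⟩) φ _ ih
    · rcases Fin.eq_castSucc_or_eq_last i with ⟨i', rfl⟩ | rfl
      · exact dM _ _ (inv_mem (TA_mem h _ hi i'.2)) ih
      · have := dT (-1) _ ih
        rwa [zpow_neg_one] at this
    · exact dM _ _ (inv_mem (TB_mem h _ hi i.2)) ih
    · obtain ⟨i', rfl⟩ := hidx i j hij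
      rcases Fin.eq_castSucc_or_eq_last j with ⟨j', rfl⟩ | rfl
      · exact dM _ _ (inv_mem (TC_mem h _ _ hij hi j'.2)) ih
      · rw [hlast i' hij, mul_inv_rev, mul_assoc, ← map_inv]
        exact dM _ _ (inv_mem (TB_mem h _ hi i'.2)) (dX _ _ ih)

/-- The twist of the last handle is central in the stabiliser. -/
theorem TT_central {φ : MulAut G} (hφ : φ ∈ Mcs h) : Commute φ (TT h) := by
  obtain ⟨y, k, f, hf, rfl⟩ := Mcs_form h hφ
  obtain ⟨f', hp⟩ := pair_of_MR h le_rfl f hf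
  exact ((TT_XX h y).symm.mul_left (Commute.zpow_self (TT h) k)).mul_left
    (comm_TT h hp.fj hp.fa hp.fb)

/-- The Torelli elements of the stabiliser in a block. -/
theorem Mcl_torelli {K : Subgroup (MulAut G)}
    (K1 : ∀ (y : Fr n) (k : ℤ), H1 h (XX h y * TT h ^ k) = 1 → XX h y * TT h ^ k ∈ K)
    (hf0 : ∀ f ∈ MR h lo n, H1 h f = 1 → f ∈ K) {φ : MulAut G} (hφ : φ ∈ Mcl h lo)
    (h1 : H1 h φ = 1) : φ ∈ K := by
  obtain ⟨y, k, f, hf, rfl⟩ := Mcl_form h hφ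
  obtain ⟨f', hp⟩ := pair_of_MR h le_rfl f (MR_mono h (Nat.zero_le _) le_rfl hf)
  obtain ⟨t1, t2, t3⟩ := H1_TT h k
  have hX := XF_XX h y
  have hval : ∀ z : Fr n, emb (clr (f' z)) - om (clr (f' z)) (clr y) • e (Fin.last n) =
      emb (clr z) := by
    intro z
    have h2 : H1 h (XX h y * TT h ^ k * f) (emb (clr z)) = emb (clr z) := by rw [h1]; rfl
    rw [map_mul, map_mul] at h2
    change H1 h (XX h y) (H1 h (TT h ^ k) (H1 h f (emb (clr z)))) = _ at h2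
    rw [← cls_jR h z, H1_cls, hp.fj, cls_jR, t2, hX.em, cls_jR] at h2
    exact h2
  have hcl : ∀ z : Fr n, clr (f' z) = clr z := by
    intro z
    funext i
    have h2 := congrFun (hval z) i.castSucc
    rw [Pi.sub_apply, Pi.smul_apply, emb_castSucc, emb_castSucc,
      e_ne (Fin.castSucc_lt_last i).ne, smul_zero, sub_zero] at h2
    exact h2
  have hf1 : H1 h f = 1 := by
    apply XF_ext
    · intro z
      obtain ⟨x, rfl⟩ := clr_surj z
      rw [← cls_jR h x, H1_cls, hp.fj, cls_jR, cls_jR, hcl]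
      rfl
    · rw [H1_e, hp.fa, cls_a]; rfl
    · rw [H1_f, hp.fb, cls_b]; rfl
  have h2 : H1 h (XX h y * TT h ^ k) = 1 := by
    rw [map_mul, hf1, mul_one] at h1
    exact h1
  exact mul_mem (K1 y k h2) (hf0 f hf hf1)

end Mcl

end Pool.Agent.H.MP_59b15d_al.PK
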