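import Pool.Agent.H.MP_59b15d_al.pk.SpL

/-!
# The action of a block on its own homology
-/

set_option autoImplicit false

namespace Pool.Agent.H.MP_59b15d_al.PK

open SP PC
open Pool.MP_59b15d_al
open Pool.MP_59b15d_al.H24T Pool.MP_59b15d_al.H60G Pool.MP_59b15d_al.H73E
open Pool.MP_59b15d_al.H76R hiding MR

section lin

variable {m lo k : ℕ} (hk : lo + k = m)

/-- The `i`-th handle of the block. -/
def up (i : Fin k) : Fin m := ⟨lo + i, by omega⟩

lemma up_val (i : Fin k) : (up hk i : ℕ) = lo + i := rfl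

lemma up_inj {i j : Fin k} (h : up hk i = up hk j) : i = j := by
  have := congrArg Fin.val h
  simp only [up_val] at this
  exact Fin.ext (by omega)

/-- The homology of the block. -/
def EE : V k →ₗ[ℤ] V m where
  toFun v := fun j => if hj : lo ≤ (j : ℕ) then v ⟨(j : ℕ) - lo, by omega⟩ else 0
  map_add' v w := by
    funext j
    by_cases hj : lo ≤ (j : ℕ)
    · simp only [hj, dif_pos, Pi.add_apply]
    · simp only [hj, dif_neg, not_false_eq_true, Pi.add_apply, add_zero]
  map_smul' c v := by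
    funext j
    by_cases hj : lo ≤ (j : ℕ)
    · simp only [hj, dif_pos, Pi.smul_apply, RingHom.id_apply]
    · simp only [hj, dif_neg, not_false_eq_true, Pi.smul_apply, RingHom.id_apply, smul_zero]

/-- The projection to the homology of the block. -/
def RR : V m →ₗ[ℤ] V k where
  toFun u := fun i => u (up hk i)
  map_add' _ _ := rfl
  map_smul' _ _ := rfl

/-- The projection to the homology of the first handles. -/
def LL : V m →ₗ[ℤ] V m where
  toFun u := fun j => if lo ≤ (j : ℕ) then 0 else u j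
  map_add' v w := by
    funext j
    by_cases hj : lo ≤ (j : ℕ) <;> simp [hj]
  map_smul' c v := by
    funext j
    by_cases hj : lo ≤ (j : ℕ) <;> simp [hj]

lemma EE_up (v : V k) (i : Fin k) : EE hk v (up hk i) = v i := by
  change (if hj : lo ≤ ((up hk i : Fin m) : ℕ) then _ else _) = _
  rw [dif_pos (by rw [up_val]; omega)]
  congr 1
  exact Fin.ext (by simp only [up_val]; omega)

lemma EE_lt (v : V k) {j : Fin m} (hj : (j : ℕ) < lo) : EE hk v j = 0 := by
  change (if hj : lo ≤ (j : ℕ) then _ else _) = _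
  rw [dif_neg (by omega)]

lemma RR_apply (u : V m) (i : Fin k) : RR hk u i = u (up hk i) := rfl

lemma RR_EE (v : V k) : RR hk (EE hk v) = v := by
  funext i
  rw [RR_apply, EE_up]

lemma fin_cases_up (j : Fin m) : (j : ℕ) < lo ∨ ∃ i : Fin k, j = up hk i := by
  rcases Nat.lt_or_ge (j : ℕ) lo with h1 | h1
  · exact Or.inl h1
  · refine Or.inr ⟨⟨(j : ℕ) - lo, by omega⟩, Fin.ext ?_⟩
    rw [up_val]
    simp only
    omega

lemma LL_lt (u : V m) {j : Fin m} (hj : (j : ℕ) < lo) : LL (lo := lo) u j = u j := by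
  change (if lo ≤ (j : ℕ) then (0 : ℤ × ℤ) else u j) = _
  rw [if_neg (by omega)]

lemma LL_up (u : V m) (i : Fin k) : LL (lo := lo) u (up hk i) = 0 := by
  change (if lo ≤ ((up hk i : Fin m) : ℕ) then (0 : ℤ × ℤ) else _) = _
  rw [if_pos (by rw [up_val]; omega)]

lemma split (u : V m) : u = LL (lo := lo) u + EE hk (RR hk u) := by
  funext j
  rw [Pi.add_apply]
  rcases fin_cases_up hk j with h1 | ⟨i, rfl⟩
  · rw [LL_lt u h1, EE_lt hk _ h1, add_zero]
  · rw [LL_up hk, EE_up, RR_apply, zero_add]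

lemma EE_e (i : Fin k) : EE hk (e i) = e (up hk i) := by
  funext j
  rcases fin_cases_up hk j with h1 | ⟨j, rfl⟩
  · rw [EE_lt hk _ h1, e_ne]
    intro h0
    rw [h0, up_val] at h1
    omega
  · rw [EE_up]
    by_cases hj : j = i
    · rw [hj, e_self, e_self]
    · rw [e_ne hj, e_ne (fun h0 => hj (up_inj hk h0))]

lemma EE_f (i : Fin k) : EE hk (f i) = f (up hk i) := by
  funext j
  rcases fin_cases_up hk j with h1 | ⟨j, rfl⟩
  · rw [EE_lt hk _ h1, f_ne]
    intro h0
    rw [h0, up_val] at h1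
    omega
  · rw [EE_up]
    by_cases hj : j = i
    · rw [hj, f_self, f_self]
    · rw [f_ne hj, f_ne (fun h0 => hj (up_inj hk h0))]

lemma RR_LL (u : V m) : RR hk (LL (lo := lo) u) = 0 := by
  funext i
  rw [RR_apply, LL_up hk]
  rfl

lemma om_EE (v : V k) (w : V m) : om (EE hk v) w = om v (RR hk w) := by
  conv_lhs => rw [expand v]
  conv_rhs => rw [expand v]
  rw [map_sum, om, om]
  rw [← om, ← om]
  have hs : ∀ (s : Finset (Fin k)) (x : Fin k → V k),
      (∀ i, om (EE hk (x i)) w = om (x i) (RR hk w)) →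
      om (∑ i ∈ s, EE hk (x i)) w = om (∑ i ∈ s, x i) (RR hk w) := by
    intro s x hx
    classical
    induction s using Finset.induction_on with
    | empty => rw [Finset.sum_empty, Finset.sum_empty, om_zero_left, om_zero_left]
    | insert i s hi ih =>
      rw [Finset.sum_insert hi, Finset.sum_insert hi, om_add_left, om_add_left, ih, hx]
  refine hs _ _ fun i => ?_
  rw [map_add, map_smul, map_smul, om_add_left, om_add_left, om_smul_left, om_smul_left,
    om_smul_left, om_smul_left, EE_e, EE_f, om_e', om_f', om_e', om_f', RR_apply]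

lemma om_EE' (v : V k) (w : V m) : om w (EE hk v) = om (RR hk w) v := by
  rw [om_swap, om_EE, om_swap v]
  ring

lemma om_EE_EE (v w : V k) : om (EE hk v) (EE hk w) = om v w := by
  rw [om_EE, RR_EE]

/-- The extension of a linear map of the homology of the block. -/
def exL (A : V k →ₗ[ℤ] V k) : V m →ₗ[ℤ] V m := LL (lo := lo) + (EE hk).comp (A.comp (RR hk))

lemma exL_apply (A : V k →ₗ[ℤ] V k) (u : V m) :
    exL hk A u = LL (lo := lo) u + EE hk (A (RR hk u)) := rfl

lemma LL_LL (u : V m) : LL (lo := lo) (LL (lo := lo) u) = LL (lo := lo) u := by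
  funext j
  by_cases hj : (j : ℕ) < lo
  · rw [LL_lt _ hj]
  · change (if lo ≤ (j : ℕ) then (0 : ℤ × ℤ) else _) = (if lo ≤ (j : ℕ) then (0 : ℤ × ℤ) else _)
    rw [if_pos (by omega), if_pos (by omega)]

lemma LL_EE (v : V k) : LL (lo := lo) (EE hk v) = 0 := by
  funext j
  rcases fin_cases_up hk j with h1 | ⟨i, rfl⟩
  · rw [LL_lt _ h1, EE_lt hk _ h1]
    rfl
  · rw [LL_up hk]
    rfl

lemma exL_comp (A B : V k →ₗ[ℤ] V k) (u : V m) : exL hk A (exL hk B u) = exL hk (A.comp B) u := by
  simp only [exL_apply, map_add, LL_LL, LL_EE, RR_LL, RR_EE, map_zero, add_zero, zero_add,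
    LinearMap.comp_apply]

lemma exL_om (A : V k →ₗ[ℤ] V k) (hA : ∀ u v, om (A u) (A v) = om u v) (u v : V m) :
    om (exL hk A u) (exL hk A v) = om u v := by
  conv_rhs => rw [split hk u, split hk v]
  rw [exL_apply, exL_apply]
  simp only [om_add_left, om_add_right, om_EE, om_EE', map_add, RR_LL, RR_EE, om_zero_left,
    om_zero_right, hA, zero_add, add_zero]

/-- The extension of a symplectic map of the homology of the block. -/
def exS (A : Sp k) : Sp m :=
  mk (exL hk A.1.toLinearMap) (exL hk (A⁻¹).1.toLinearMap)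
    (fun x => by
      rw [exL_comp, exL_apply]
      conv_rhs => rw [split hk x]
      rw [LinearMap.comp_apply]
      congr 2
      exact sp_apply_inv A _)
    (fun x => by
      rw [exL_comp, exL_apply]
      conv_rhs => rw [split hk x]
      rw [LinearMap.comp_apply]
      congr 2
      exact sp_inv_apply A _)
    (exL_om hk _ (fun u v => sp_om A u v))

lemma exS_apply (A : Sp k) (u : V m) : exS hk A u = LL (lo := lo) u + EE hk (A (RR hk u)) := rfl

lemma exS_EE (A : Sp k) (v : V k) : exS hk A (EE hk v) = EE hk (A v) := by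
  rw [exS_apply, LL_EE, RR_EE, zero_add]

lemma LL_of (u : V m) (hu : RR hk u = 0) : LL (lo := lo) u = u := by
  conv_rhs => rw [split hk u, hu, map_zero, add_zero]

lemma RR_e_lt {j : Fin m} (hj : (j : ℕ) < lo) : RR hk (e j) = 0 := by
  funext i
  rw [RR_apply, e_ne]
  · rfl
  · intro h0
    rw [← h0, up_val] at hj
    omega

lemma RR_f_lt {j : Fin m} (hj : (j : ℕ) < lo) : RR hk (f j) = 0 := by
  funext i
  rw [RR_apply, f_ne]
  · rfl
  · intro h0
    rw [← h0, up_val] at hj
    omega

lemma exS_e (A : Sp k) {j : Fin m} (hj : (j : ℕ) < lo) : exS hk A (e j) = e j := by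
  have h0 : A (0 : V k) = 0 := map_zero A.1
  rw [exS_apply, RR_e_lt hk hj, h0, map_zero, add_zero, LL_of hk _ (RR_e_lt hk hj)]

lemma exS_f (A : Sp k) {j : Fin m} (hj : (j : ℕ) < lo) : exS hk A (f j) = f j := by
  have h0 : A (0 : V k) = 0 := map_zero A.1
  rw [exS_apply, RR_f_lt hk hj, h0, map_zero, add_zero, LL_of hk _ (RR_f_lt hk hj)]

/-- The symplectic maps fixing the first handles. -/
def Fx (m lo : ℕ) : Subgroup (Sp m) where
  carrier := {B | ∀ j : Fin m, (j : ℕ) < lo → B (e j) = e j ∧ B (f j) = f j}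
  one_mem' := fun _ _ => ⟨rfl, rfl⟩
  mul_mem' := by
    intro A B hA hB j hj
    rw [sp_mul, sp_mul, (hB j hj).1, (hB j hj).2]
    exact hA j hj
  inv_mem' := by
    intro A hA j hj
    have h1 := sp_inv_apply A (e j)
    have h2 := sp_inv_apply A (f j)
    rw [(hA j hj).1] at h1
    rw [(hA j hj).2] at h2
    exact ⟨h1, h2⟩

lemma Fx_EE {B : Sp m} (hB : B ∈ Fx m lo) (v : V k) :
    EE hk (RR hk (B (EE hk v))) = B (EE hk v) := by
  have h1 : LL (lo := lo) (B (EE hk v)) = 0 := by
    funext j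
    rcases fin_cases_up hk j with h1 | ⟨i, rfl⟩
    · rw [LL_lt _ h1]
      have h2 : om (B (EE hk v)) (f j) = 0 := by
        conv_lhs => rw [← (hB j h1).2]
        rw [sp_om, om_EE, RR_f_lt hk h1, om_zero_right]
      have h3 : om (B (EE hk v)) (e j) = 0 := by
        conv_lhs => rw [← (hB j h1).1]
        rw [sp_om, om_EE, RR_e_lt hk h1, om_zero_right]
      rw [om_f] at h2
      rw [om_e] at h3
      exact Prod.ext h2 (by rw [Pi.zero_apply, Prod.snd_zero]; omega)
    · rw [LL_up hk]
      rfl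
  conv_rhs => rw [split hk (B (EE hk v)), h1, zero_add]

/-- The restriction to the homology of the block. -/
def rsL (B : Sp m) : V k →ₗ[ℤ] V k := (RR hk).comp (B.1.toLinearMap.comp (EE hk))

lemma rsL_apply (B : Sp m) (v : V k) : rsL hk B v = RR hk (B (EE hk v)) := rfl

/-- The restriction to the homology of the block. -/
def rs : Fx m lo →* Sp k where
  toFun B := mk (rsL hk B.1) (rsL hk (B⁻¹).1)
    (fun x => by
      rw [rsL_apply, rsL_apply, Fx_EE hk (B⁻¹).2]
      change RR hk (B.1 ((B.1⁻¹) (EE hk x))) = x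
      rw [sp_apply_inv, RR_EE])
    (fun x => by
      rw [rsL_apply, rsL_apply, Fx_EE hk B.2]
      change RR hk ((B.1⁻¹) (B.1 (EE hk x))) = x
      rw [sp_inv_apply, RR_EE])
    (fun u v => by
      rw [rsL_apply, rsL_apply, ← om_EE_EE hk, Fx_EE hk B.2, Fx_EE hk B.2, sp_om, om_EE_EE])
  map_one' := by
    refine sp_ext fun x => ?_
    rw [mk_apply, rsL_apply, sp_one]
    change RR hk (EE hk x) = x
    rw [RR_EE]
  map_mul' := by
    intro A B
    refine sp_ext fun x => ?_
    rw [mk_apply, rsL_apply, sp_mul, mk_apply, mk_apply, rsL_apply, rsL_apply, Fx_EE hk B.2]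
    rfl

lemma rs_apply (B : Fx m lo) (v : V k) : rs hk B v = RR hk (B.1 (EE hk v)) := rfl

lemma EE_rs (B : Fx m lo) (v : V k) : EE hk (rs hk B v) = B.1 (EE hk v) := by
  rw [rs_apply, Fx_EE hk B.2]

end lin

section grp

variable {m lo k : ℕ} (hk : lo + k = m) {G : Type*} [Group G] {a b : Fin m → G} (h : IsSurf a b)

lemma H1_Fx {x : MulAut G} (hx : x ∈ H60G.MR h lo m) : ∃ B ∈ Fx m lo, H1 h x = B.1 := by
  obtain ⟨A, h1, h2⟩ := exists_image_MR h hx
  exact ⟨A, fun j hj => h2 j (by omega), h1⟩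

/-- The action of a block on its homology. -/
noncomputable def ph : H60G.MR h lo m →* Sp k :=
  (rs hk).comp
    { toFun := fun x => ⟨⟨H1 h x.1, by
        obtain ⟨B, _, h2⟩ := H1_Fx h x.2
        rw [h2]
        exact B.2⟩, by
        obtain ⟨B, h1, h2⟩ := H1_Fx h x.2
        have h3 : (⟨H1 h x.1, by rw [h2]; exact B.2⟩ : Sp m) = B := Subtype.ext h2
        rw [h3]
        exact h1⟩
      map_one' := by
        apply Subtype.ext
        apply Subtype.ext
        exact map_one (H1 h)
      map_mul' := by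
        intro x y
        apply Subtype.ext
        apply Subtype.ext
        exact map_mul (H1 h) x.1 y.1 }

lemma ph_apply (x : H60G.MR h lo m) (v : V k) : ph hk h x v = RR hk (H1 h x.1 (EE hk v)) := rfl

lemma EE_ph (x : H60G.MR h lo m) (v : V k) : EE hk (ph hk h x v) = H1 h x.1 (EE hk v) :=
  EE_rs hk _ v

lemma ph_eq {x : H60G.MR h lo m} {A : Sp k} (hx : H1 h x.1 = (exS hk A).1) : ph hk h x = A := by
  refine sp_ext fun v => ?_
  rw [ph_apply, hx]
  change RR hk (exS hk A (EE hk v)) = _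
  rw [exS_EE, RR_EE]

/-- The kernel of the action. -/
lemma ph_one {x : H60G.MR h lo m} (hx : ph hk h x = 1) : H1 h x.1 = 1 := by
  obtain ⟨B, h1, h2⟩ := H1_Fx h x.2
  have h3 : ∀ v : V k, H1 h x.1 (EE hk v) = EE hk v := by
    intro v
    rw [← EE_ph, hx, sp_one]
  apply lin_ext
  · intro j
    rcases fin_cases_up hk j with hj | ⟨i, rfl⟩
    · rw [h2]
      exact (h1 j hj).1
    · rw [← EE_e, h3]
      rfl
  · intro j
    rcases fin_cases_up hk j with hj | ⟨i, rfl⟩
    · rw [h2]
      exact (h1 j hj).2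
    · rw [← EE_f, h3]
      rfl

lemma ph_of_one {x : H60G.MR h lo m} (hx : H1 h x.1 = 1) : ph hk h x = 1 := by
  refine sp_ext fun v => ?_
  rw [ph_apply, hx]
  exact RR_EE hk v

/-- The action is onto. -/
lemma ph_surj (A : Sp k) : ∃ x : H60G.MR h lo m, ph hk h x = A ∧ H1 h x.1 = (exS hk A).1 := by
  obtain ⟨φ, h1, h2⟩ := exists_lift_MR (lo := lo) (hi := m) (A := exS hk A) h (fun i hi => by
    have h3 : (i : ℕ) < lo := by
      have := i.2
      omega
    exact ⟨exS_e hk A h3, exS_f hk A h3⟩)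
  exact ⟨⟨φ, h1⟩, ph_eq hk h h2, h2⟩

end grp

end Pool.Agent.H.MP_59b15d_al.PK
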