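import Pool.Agent.H.MP_59b15d_al.pk.Quo2
import Pool.Agent.H.MP_59b15d_al.pk.SpF

/-!
# Coset coverings: the cells for the standard curves

The hypotheses of `Dat2` follow from a few identities between the swap `al` of two handles, the
rotation `be` of one handle, a slide and the twists `ta`, `tb` of one handle.
-/

set_option autoImplicit false

namespace Pool.Agent.H.MP_59b15d_al.PK

open SP PC

variable {g : ℕ} {M : Type*} [Group M]

lemma sp_neg (A : Sp g) (u : V g) : A (-u) = -A u := map_neg A.1 u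

/-- Move `f y` to a vector `w` with `om (e y) w = 1`. -/
theorem trans_ef (y : Fin g) {w : V g} (h1 : om (e y) w = 1) :
    ∃ A : Sp g, A (e y) = e y ∧ A (f y) = w ∧
      ∀ v, om v (e y) = 0 → om v w = 0 → om v (f y) = 0 → A v = v := by
  have hu : om (e y) (w - f y) = 0 := by rw [om_sub_right, h1, om_e_f, sub_self]
  have hu' : om (w - f y) (e y) = 0 := by rw [om_swap, hu, neg_zero]
  refine ⟨T (e y) (-om (f y) (w - f y)) * S (e y) (w - f y) (-1), ?_, ?_, ?_⟩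
  · rw [sp_mul, S_apply hu, om_self, hu, mul_zero, zero_smul, zero_smul, add_zero, add_zero,
      T_apply, om_self, mul_zero, zero_smul, add_zero]
  · rw [sp_mul, S_apply hu, om_f_e, T_apply, om_add_left, om_add_left, om_smul_left, om_smul_left,
      om_f_e, hu', om_self]
    module
  · intro v v1 v2 v3
    have v4 : om v (w - f y) = 0 := by rw [om_sub_right, v2, v3, sub_self]
    rw [sp_mul, S_apply hu, v1, v4, mul_zero, zero_smul, zero_smul, add_zero, add_zero, T_apply,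
      v1, mul_zero, zero_smul, add_zero]

lemma Adj.of_neg {x y : V g} (h : Adj x (-y)) : Adj x y := by
  rcases h with ⟨h1, ⟨a, a1, a2⟩, b, b1, b2⟩ | h
  · left
    rw [om_neg_right, neg_eq_zero] at h1
    rw [om_neg_left] at a2 b2
    exact ⟨h1, ⟨a, a1, by omega⟩, -b, by rw [om_neg_right, b1, neg_zero],
      by rw [om_neg_right, b2]⟩
  · right
    unfold AdjB at h ⊢
    rw [om_neg_right] at h
    omega

lemma Cell.of_neg {x y z : V g} (h : Cell x (-y) z) (hB : AdjB x y) : Cell x y z := by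
  have hx : om x y ≠ 0 := by
    unfold AdjB at hB
    omega
  rcases h with ⟨h1, s, t, hs, ht, e⟩ | h | h | h | h
  · refine Or.inl ⟨Adj.of_neg h1, s, -t, hs, by omega, ?_⟩
    rw [e, smul_neg, neg_smul]
  · exfalso
    have h2 := h.2.1
    rw [om_neg_right] at h2
    omega
  · exfalso
    have h2 := h.2.1
    rw [om_neg_left, om_swap] at h2
    omega
  · refine Or.inr (Or.inr (Or.inr (Or.inl ?_)))
    obtain ⟨h1, h2, h3, h4⟩ := h
    rw [om_neg_right, neg_eq_zero] at h3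
    exact ⟨h1, h2, h3, hB⟩
  · exfalso
    have h2 := h.1
    rw [om_neg_right] at h2
    omega

/-- The identities between the standard mapping classes. -/
structure Dat3 (φ : M →* Sp g) (Mc R : Subgroup M) (al be sl ta tb : M) (y z : Fin g) : Prop where
  yz : y ≠ z
  normal : R.Normal
  triv : ∀ r ∈ R, φ r = 1
  cfix : ∀ c ∈ Mc, φ c (e z) = e z
  csec : ∀ A : Sp g, A (e z) = e z → ∃ c ∈ Mc, φ c = A
  ctor : ∀ m ∈ Mc, φ m = 1 → m ∈ R
  alez : φ al (e z) = e y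
  aley : φ al (e y) = e z
  alfz : φ al (f z) = f y
  beez : φ be (e z) = f z
  befz : φ be (f z) = -e z
  beey : φ be (e y) = e y
  al2 : al * al ∈ R
  io2 : be * be * (be * be) ∈ R
  ioS : ∀ c ∈ Mc, be * be * c * (be * be)⁻¹ ∈ R ⊔ Mc
  ioS' : ∀ c ∈ Mc, (be * be)⁻¹ * c * (be * be) ∈ R ⊔ Mc
  alio : al * be * al⁻¹ ∈ Mc
  alio' : al⁻¹ * be * al ∈ Mc
  uniqA : ∀ c ∈ Mc, φ c (e y) = e y → al⁻¹ * c * al ∈ R ⊔ Mc
  uniqB : ∀ c ∈ Mc, φ c (f z) = f z → be⁻¹ * c * be ∈ R ⊔ Mc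
  slM : sl ∈ Mc
  sley : φ sl (e y) = e y + e z
  slide : al⁻¹ * sl⁻¹ * al * sl * al ∈ R ⊔ Mc
  taM : ta ∈ Mc
  tafz : φ ta (f z) = f z + e z
  br1 : be = ta⁻¹ * tb * ta⁻¹
  br2 : be = tb * ta⁻¹ * tb
  third : g = 2 ∨ ∃ (x : Fin g) (al3 : M), x ≠ y ∧ x ≠ z ∧ al3 ∈ Mc ∧ φ al3 (e y) = e x ∧
    al * al3 * al = al3 * al * al3

section

variable {φ : M →* Sp g} {Mc R : Subgroup M} {al be sl ta tb : M} {y z : Fin g}

namespace Dat3

variable (D : Dat3 φ Mc R al be sl ta tb y z)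

include D

lemma Rn {r : M} (hr : r ∈ R) (m : M) : m * r * m⁻¹ ∈ R := D.normal.conj_mem r hr m

lemma Rn' {r : M} (hr : r ∈ R) (m : M) : m⁻¹ * r * m ∈ R := by
  have := D.normal.conj_mem r hr m⁻¹
  rwa [inv_inv] at this

lemma mem_S {s : M} : s ∈ R ⊔ Mc ↔ ∃ r ∈ R, ∃ c ∈ Mc, s = r * c := by
  have := D.normal
  constructor
  · intro h
    have h1 : s ∈ (↑(R ⊔ Mc) : Set M) := h
    rw [Subgroup.normal_mul] at h1
    obtain ⟨r, hr, c, hc, rfl⟩ := Set.mem_mul.mp h1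
    exact ⟨r, hr, c, hc, rfl⟩
  · rintro ⟨r, hr, c, hc, rfl⟩
    exact Subgroup.mul_mem_sup hr hc

lemma inS {c : M} (hc : c ∈ Mc) : c ∈ R ⊔ Mc := Subgroup.mem_sup_right hc

lemma inS' {c : M} (hc : c ∈ R) : c ∈ R ⊔ Mc := Subgroup.mem_sup_left hc

lemma S_fix {s : M} (hs : s ∈ R ⊔ Mc) : φ s (e z) = e z := by
  obtain ⟨r, hr, c, hc, rfl⟩ := D.mem_S.mp hs
  rw [map_mul, D.triv r hr, one_mul, D.cfix c hc]

lemma conjS {s m : M} (hs : s ∈ R ⊔ Mc) {v : V g} (h : φ s v = v)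
    (hc : ∀ c ∈ Mc, φ c v = v → m⁻¹ * c * m ∈ R ⊔ Mc) : m⁻¹ * s * m ∈ R ⊔ Mc := by
  obtain ⟨r, hr, c, hc', rfl⟩ := D.mem_S.mp hs
  rw [map_mul, D.triv r hr, one_mul] at h
  have h1 : m⁻¹ * (r * c) * m = (m⁻¹ * r * m) * (m⁻¹ * c * m) := by group
  rw [h1]
  exact (R ⊔ Mc).mul_mem (D.inS' (D.Rn' hr m)) (hc c hc' h)

lemma io_conj {s : M} (hs : s ∈ R ⊔ Mc) : be * be * s * (be * be)⁻¹ ∈ R ⊔ Mc := by
  obtain ⟨r, hr, c, hc, rfl⟩ := D.mem_S.mp hs
  have h1 : be * be * (r * c) * (be * be)⁻¹ =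
      (be * be * r * (be * be)⁻¹) * (be * be * c * (be * be)⁻¹) := by group
  rw [h1]
  exact (R ⊔ Mc).mul_mem (D.inS' (D.Rn hr _)) (D.ioS c hc)

lemma io_conj' {s : M} (hs : s ∈ R ⊔ Mc) : (be * be)⁻¹ * s * (be * be) ∈ R ⊔ Mc := by
  obtain ⟨r, hr, c, hc, rfl⟩ := D.mem_S.mp hs
  have h1 : (be * be)⁻¹ * (r * c) * (be * be) =
      ((be * be)⁻¹ * r * (be * be)) * ((be * be)⁻¹ * c * (be * be)) := by group
  rw [h1]
  exact (R ⊔ Mc).mul_mem (D.inS' (D.Rn' hr _)) (D.ioS' c hc)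

omit D in
/-- The coset of `m`. -/
lemma cos_eq (D : Dat3 φ Mc R al be sl ta tb y z) {m m' : M} (h : m⁻¹ * m' ∈ R ⊔ Mc) :
    (m : M ⧸ (R ⊔ Mc)) = (m' : M ⧸ (R ⊔ Mc)) := QuotientGroup.eq.mpr h

lemma cos_mul {m s : M} (hs : s ∈ R ⊔ Mc) :
    ((m * s : M) : M ⧸ (R ⊔ Mc)) = (m : M ⧸ (R ⊔ Mc)) := by
  rw [eq_comm]
  exact D.cos_eq (by rwa [inv_mul_cancel_left])

omit D in
/-- The edges, for representatives. -/
lemma ed_smul {m m' : M} (k : M) (h : Ed2 (R ⊔ Mc) al be (m : M ⧸ (R ⊔ Mc)) (m' : M ⧸ (R ⊔ Mc))) :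
    Ed2 (R ⊔ Mc) al be ((k * m : M) : M ⧸ (R ⊔ Mc)) ((k * m' : M) : M ⧸ (R ⊔ Mc)) := h.smul k

lemma symA : Ed2 (R ⊔ Mc) al be ((al : M) : M ⧸ (R ⊔ Mc)) ((1 : M) : M ⧸ (R ⊔ Mc)) := by
  refine ⟨al, rfl, Or.inl ?_⟩
  apply D.cos_eq
  rw [inv_one, one_mul]
  exact D.inS' D.al2

lemma symm {x y : M ⧸ (R ⊔ Mc)} (h : Ed2 (R ⊔ Mc) al be x y) : Ed2 (R ⊔ Mc) al be y x := by
  obtain ⟨m, rfl, h⟩ := h
  rcases h with rfl | rfl | rfl
  · have h1 := ed_smul m D.symA
    rw [mul_one] at h1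
    exact h1
  · exact ⟨m * be, rfl, Or.inr (Or.inr (by rw [mul_inv_cancel_right]))⟩
  · exact ⟨m * be⁻¹, rfl, Or.inr (Or.inl (by rw [inv_mul_cancel_right]))⟩

/-- `E x (m)` implies `E x (m * io)`. -/
lemma io_right {x : M ⧸ (R ⊔ Mc)} {m : M} (h : Ed2 (R ⊔ Mc) al be x (m : M ⧸ (R ⊔ Mc))) :
    Ed2 (R ⊔ Mc) al be x ((m * (be * be) : M) : M ⧸ (R ⊔ Mc)) := by
  obtain ⟨p, rfl, h⟩ := h
  have key : ∀ q : M, (m : M ⧸ (R ⊔ Mc)) = ((p * q : M) : M ⧸ (R ⊔ Mc)) →
      ((m * (be * be) : M) : M ⧸ (R ⊔ Mc)) = ((p * q * (be * be) : M) : M ⧸ (R ⊔ Mc)) := by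
    intro q hq
    apply D.cos_eq
    have h1 := D.io_conj' (QuotientGroup.eq.mp hq)
    have h2 : (be * be)⁻¹ * (m⁻¹ * (p * q)) * (be * be) = (m * (be * be))⁻¹ *
        (p * q * (be * be)) := by group
    rwa [h2] at h1
  rcases h with h | h | h
  · rw [key _ h]
    have hc : al * (be * be) * al⁻¹ ∈ Mc := by
      have h1 : al * (be * be) * al⁻¹ = (al * be * al⁻¹) * (al * be * al⁻¹) := by group
      rw [h1]
      exact Mc.mul_mem D.alio D.alio
    have h1 : p * al * (be * be) = p * (al * (be * be) * al⁻¹) * al := by group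
    rw [h1, ← D.cos_mul (m := p) (D.inS hc)]
    exact Ed2.mk (Or.inl rfl) _
  · rw [key _ h]
    have h1 : p * be * (be * be) = p * be⁻¹ * (be * be * (be * be)) := by group
    rw [h1, D.cos_mul (D.inS' D.io2)]
    exact Ed2.mk (Or.inr (Or.inr rfl)) p
  · rw [key _ h]
    have h1 : p * be⁻¹ * (be * be) = p * be := by group
    rw [h1]
    exact Ed2.mk (Or.inr (Or.inl rfl)) p

lemma io_left {x : M ⧸ (R ⊔ Mc)} {m : M} (h : Ed2 (R ⊔ Mc) al be (m : M ⧸ (R ⊔ Mc)) x) :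
    Ed2 (R ⊔ Mc) al be ((m * (be * be) : M) : M ⧸ (R ⊔ Mc)) x :=
  D.symm (D.io_right (D.symm h))

lemma io_io {m : M} : ((m * (be * be) * (be * be) : M) : M ⧸ (R ⊔ Mc)) =
    (m : M ⧸ (R ⊔ Mc)) := by
  rw [mul_assoc]
  exact D.cos_mul (D.inS' D.io2)

/-- There is a vertex over `w` adjacent to the standard vertices `1` and `t`. -/
def PP (φ : M →* Sp g) (Mc R : Subgroup M) (al be : M) (z : Fin g) (t : M) (w : V g) : Prop :=
  ∃ k : M, φ k (e z) = w ∧ Ed2 (R ⊔ Mc) al be ((1 : M) : M ⧸ (R ⊔ Mc)) (k : M ⧸ (R ⊔ Mc)) ∧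
    Ed2 (R ⊔ Mc) al be (t : M ⧸ (R ⊔ Mc)) (k : M ⧸ (R ⊔ Mc))

lemma io_e : φ (be * be) (e z) = -e z := by
  rw [map_mul, sp_mul, D.beez, D.befz]

lemma PP_neg {t : M} {w : V g} (h : PP φ Mc R al be z t w) : PP φ Mc R al be z t (-w) := by
  obtain ⟨k, h1, h2, h3⟩ := h
  exact ⟨k * (be * be), by rw [map_mul, sp_mul, D.io_e, sp_neg, h1], D.io_right h2,
    D.io_right h3⟩

lemma PP_of_neg {t : M} {w : V g} (h : PP φ Mc R al be z t (-w)) : PP φ Mc R al be z t w := by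
  have := D.PP_neg h
  rwa [neg_neg] at this

/-- Transport by an element of `Mc` which fixes the coset of `t`. -/
lemma PP_trans {t : M} {w : V g} (h : PP φ Mc R al be z t w) {c : M} (hc : c ∈ Mc)
    (ht : t⁻¹ * c * t ∈ R ⊔ Mc) : PP φ Mc R al be z t (φ c w) := by
  obtain ⟨k, h1, h2, h3⟩ := h
  refine ⟨c * k, by rw [map_mul, sp_mul, h1], ?_, ?_⟩
  · have h4 := ed_smul c h2
    have h5 : c * 1 = 1 * c := by rw [mul_one, one_mul]
    rw [h5, D.cos_mul (D.inS hc)] at h4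
    exact h4
  · have h4 := ed_smul c h3
    have h5 : c * t = t * (t⁻¹ * c * t) := by group
    rw [h5, D.cos_mul ht] at h4
    exact h4

lemma PA_trans {w : V g} (h : PP φ Mc R al be z al w) {A : Sp g} (h1 : A (e z) = e z)
    (h2 : A (e y) = e y) : PP φ Mc R al be z al (A w) := by
  obtain ⟨c, hc, rfl⟩ := D.csec A h1
  exact D.PP_trans h hc (D.uniqA c hc h2)

lemma PB_trans {w : V g} (h : PP φ Mc R al be z be w) {A : Sp g} (h1 : A (e z) = e z)
    (h2 : A (f z) = f z) : PP φ Mc R al be z be (A w) := by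
  obtain ⟨c, hc, rfl⟩ := D.csec A h1
  exact D.PP_trans h hc (D.uniqB c hc h2)

lemma E1c {c t : M} (hc : c ∈ Mc) (ht : t = al ∨ t = be ∨ t = be⁻¹) :
    Ed2 (R ⊔ Mc) al be ((1 : M) : M ⧸ (R ⊔ Mc)) ((c * t : M) : M ⧸ (R ⊔ Mc)) := by
  rw [← D.cos_mul (m := 1) (D.inS hc), one_mul]
  exact Ed2.mk ht c

lemma Ebeal : Ed2 (R ⊔ Mc) al be (be : M ⧸ (R ⊔ Mc)) (al : M ⧸ (R ⊔ Mc)) := by
  have h1 : be * al = al * (al⁻¹ * be * al) := by group
  have h2 : Ed2 (R ⊔ Mc) al be (be : M ⧸ (R ⊔ Mc)) ((be * al : M) : M ⧸ (R ⊔ Mc)) :=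
    Ed2.mk (Or.inl rfl) be
  rwa [h1, D.cos_mul (D.inS D.alio')] at h2

lemma PA_slide : PP φ Mc R al be z al (e y + e z) := by
  refine ⟨sl * al, by rw [map_mul, sp_mul, D.alez, D.sley], D.E1c D.slM (Or.inl rfl), ?_⟩
  have h1 := ed_smul al (D.E1c D.slM (Or.inl rfl))
  rw [mul_one] at h1
  have h2 : al * (sl * al) = (sl * al) * (al⁻¹ * sl⁻¹ * al * sl * al) := by group
  rwa [h2, D.cos_mul D.slide] at h1

lemma PA_io {w : V g} (h : PP φ Mc R al be z al w) :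
    PP φ Mc R al be z al (φ (be * be) w) := by
  obtain ⟨k, h1, h2, h3⟩ := h
  refine ⟨(be * be) * k, by rw [map_mul, sp_mul, h1], ?_, ?_⟩
  · have h4 := D.io_left (ed_smul (be * be) h2)
    have h5 : be * be * 1 * (be * be) = 1 * (be * be) * (be * be) := by group
    rwa [h5, D.io_io] at h4
  · have h4 := ed_smul (be * be) h3
    have hc : al⁻¹ * (be * be) * al ∈ Mc := by
      have h1 : al⁻¹ * (be * be) * al = (al⁻¹ * be * al) * (al⁻¹ * be * al) := by group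
      rw [h1]
      exact Mc.mul_mem D.alio' D.alio'
    have h5 : be * be * al = al * (al⁻¹ * (be * be) * al) := by group
    rwa [h5, D.cos_mul (D.inS hc)] at h4

lemma PA_f : PP φ Mc R al be z al (f y) := by
  refine ⟨al * be, by rw [map_mul, sp_mul, D.beez, D.alfz], ?_, Ed2.mk (Or.inr (Or.inl rfl)) al⟩
  have h1 : al * be = al * be * al⁻¹ * al := by group
  rw [h1]
  exact D.E1c D.alio (Or.inl rfl)

lemma PA_fz : PP φ Mc R al be z al (f z) :=
  ⟨be, D.beez, ⟨1, rfl, Or.inr (Or.inl (by rw [one_mul]))⟩, D.symm D.Ebeal⟩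

lemma PB_ey : PP φ Mc R al be z be (e y) :=
  ⟨al, D.alez, ⟨1, rfl, Or.inl (by rw [one_mul])⟩, D.Ebeal⟩

lemma tb_eq : tb = ta * be * ta := by rw [D.br1]; group

lemma E1tb : Ed2 (R ⊔ Mc) al be ((1 : M) : M ⧸ (R ⊔ Mc)) (tb : M ⧸ (R ⊔ Mc)) := by
  rw [D.tb_eq, D.cos_mul (D.inS D.taM)]
  exact D.E1c D.taM (Or.inr (Or.inl rfl))

lemma tb_e : φ tb (e z) = e z + f z := by
  rw [D.tb_eq, map_mul, map_mul, sp_mul, sp_mul, D.cfix _ D.taM, D.beez, D.tafz, add_comm]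

lemma PB_tb : PP φ Mc R al be z be (e z + f z) := by
  refine ⟨tb, D.tb_e, D.E1tb, ?_⟩
  have h1 := ed_smul ta⁻¹ D.E1tb
  have h2 : ta⁻¹ * 1 = 1 * ta⁻¹ := by group
  rw [h2, D.cos_mul (D.inS (Mc.inv_mem D.taM))] at h1
  have h3 := ed_smul tb (D.symm h1)
  rw [mul_one, ← mul_assoc, ← D.br2] at h3
  exact h3

lemma PB_be {w : V g} (h : PP φ Mc R al be z be w) : PP φ Mc R al be z be (φ be w) := by
  obtain ⟨k, h1, h2, h3⟩ := h
  refine ⟨be * k, by rw [map_mul, sp_mul, h1], ?_, ?_⟩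
  · have h4 := D.io_left (ed_smul be h3)
    have h5 : be * be * (be * be) = 1 * (be * be) * (be * be) := by group
    rwa [h5, D.io_io] at h4
  · have h4 := ed_smul be h2
    rwa [mul_one] at h4

/-- From the vertex `be` to the vertex `be⁻¹`. -/
lemma PB_inv {w : V g} (h : PP φ Mc R al be z be w) : PP φ Mc R al be z be⁻¹ w := by
  obtain ⟨k, h1, h2, h3⟩ := h
  refine ⟨k, h1, h2, ?_⟩
  have h4 := D.io_left h3
  have h5 : be * (be * be) = be⁻¹ * (be * be * (be * be)) := by group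
  rwa [h5, D.cos_mul (D.inS' D.io2)] at h4

lemma om_yz : om (e y : V g) (f z) = 0 := om_e_f_ne D.yz

lemma om_zy : om (e z : V g) (f y) = 0 := om_e_f_ne D.yz.symm

lemma cellA {w : V g} (h : Cell (e z) (e y) w) : PP φ Mc R al be z al w := by
  rcases h with ⟨-, s, t, hs, ht, rfl⟩ | h | h | h | h
  · have h1 := D.PA_slide
    have h2 := D.PA_io h1
    rw [sp_add, D.io_e, map_mul, sp_mul, D.beey, D.beey] at h2
    rcases hs with rfl | rfl <;> rcases ht with rfl | rfl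
    · rw [one_smul, one_smul, add_comm]; exact h1
    · apply D.PP_of_neg
      have h3 : -((1 : ℤ) • e z + (-1 : ℤ) • e y : V g) = e y + -e z := by module
      rw [h3]; exact h2
    · have h3 : ((-1 : ℤ) • e z + (1 : ℤ) • e y : V g) = e y + -e z := by module
      rw [h3]; exact h2
    · apply D.PP_of_neg
      have h3 : -((-1 : ℤ) • e z + (-1 : ℤ) • e y : V g) = e y + e z := by module
      rw [h3]; exact h1
  · obtain ⟨-, -, h2, h3⟩ := h
    have key : ∀ w : V g, om (e z) w = 0 → om (e y) w = 1 → PP φ Mc R al be z al w := by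
      intro w h1 h2
      obtain ⟨A, a1, a2, a3⟩ := trans_ef y h2
      rw [← a2]
      exact D.PA_trans D.PA_f (a3 _ (om_e_e _ _) h1 D.om_zy) a1
    rcases h3 with h3 | h3
    · exact key w h2 h3
    · apply D.PP_of_neg
      exact key _ (by rw [om_neg_right, h2, neg_zero]) (by rw [om_neg_right, h3, neg_neg])
  · obtain ⟨-, -, h2, h3⟩ := h
    have key : ∀ w : V g, om (e y) w = 0 → om (e z) w = 1 → PP φ Mc R al be z al w := by
      intro w h1 h2
      obtain ⟨A, a1, a2, a3⟩ := trans_ef z h2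
      rw [← a2]
      exact D.PA_trans D.PA_fz a1 (a3 _ (om_e_e _ _) h1 D.om_yz)
    rcases h3 with h3 | h3
    · exact key w h2 h3
    · apply D.PP_of_neg
      exact key _ (by rw [om_neg_right, h2, neg_zero]) (by rw [om_neg_right, h3, neg_neg])
  · exfalso
    have h1 := h.2.2.2
    unfold AdjB at h1
    rw [om_e_e] at h1
    omega
  · rcases D.third with h2 | ⟨x, al3, hxy, hxz, hal, h3, h4⟩
    · exfalso
      obtain ⟨-, h1, h3, -, -, c, c1, c2, c3⟩ := h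
      have hz : ∀ i : Fin g, i = y ∨ i = z := by
        subst h2
        intro i
        have hyz := D.yz
        fin_cases i <;> fin_cases y <;> fin_cases z <;> simp_all
      have h5 : om w c = 0 := by
        rw [om]
        refine Finset.sum_eq_zero fun i _ => ?_
        rw [om_e'] at h1 h3 c1 c2
        rcases hz i with rfl | rfl
        · rw [h3, c2]; ring
        · rw [h1, c1]; ring
      rw [h5] at c3
      exact zero_ne_one c3
    · have h5 : PP φ Mc R al be z al (e x) := by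
        refine ⟨al3 * al, by rw [map_mul, sp_mul, D.alez, h3], D.E1c hal (Or.inl rfl), ?_⟩
        have h6 := ed_smul al (D.E1c hal (Or.inl rfl))
        rw [mul_one] at h6
        have h7 : al * (al3 * al) = al3 * al * al3 := by rw [← h4, mul_assoc]
        rwa [h7, D.cos_mul (D.inS hal)] at h6
      obtain ⟨A, a1, a2, a3⟩ := trans_three D.yz.symm hxz.symm hxy.symm h
      rw [← a3]
      exact D.PA_trans h5 a1 a2

lemma cellB {w : V g} (h : Cell (e z) (f z) w) : PP φ Mc R al be z be w := by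
  have h0 : om (e z : V g) (f z) = 1 := om_e_f z
  rcases h with ⟨-, s, t, hs, ht, rfl⟩ | h | h | h | h
  · have h1 := D.PB_tb
    have h2 := D.PB_be h1
    rw [sp_add, D.beez, D.befz] at h2
    rcases hs with rfl | rfl <;> rcases ht with rfl | rfl
    · rw [one_smul, one_smul]; exact h1
    · apply D.PP_of_neg
      have h3 : -((1 : ℤ) • e z + (-1 : ℤ) • f z : V g) = f z + -e z := by module
      rw [h3]; exact h2
    · have h3 : ((-1 : ℤ) • e z + (1 : ℤ) • f z : V g) = f z + -e z := by module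
      rw [h3]; exact h2
    · apply D.PP_of_neg
      have h3 : -((-1 : ℤ) • e z + (-1 : ℤ) • f z : V g) = e z + f z := by module
      rw [h3]; exact h1
  · exfalso
    have h1 := h.2.1
    omega
  · exfalso
    have h1 := h.2.1
    rw [om_f_e] at h1
    omega
  · obtain ⟨h1, h2, h3, -⟩ := h
    obtain ⟨A, a1, a2, a3⟩ := trans_one_block D.yz h1 h2 h3
    rw [← a3]
    exact D.PB_trans D.PB_ey a1 a2
  · exfalso
    have h1 := h.1
    omega

/-- The hypotheses of the covering theorem. -/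
theorem toDat2 : Dat2 φ Mc R al be (e z) (e y) (f z) (-f z) where
  normal := D.normal
  triv := D.triv
  cfix := D.cfix
  csec := D.csec
  ctor := D.ctor
  al1 := D.alez
  be1 := D.beez
  be1' := by
    have h : φ be (-f z) = e z := by rw [sp_neg, D.befz, neg_neg]
    rw [map_inv, ← h, sp_inv_apply]
  adjA := by
    refine ⟨om_e_e _ _, ⟨f z, om_e_f z, D.om_yz⟩, f y, D.om_zy, om_e_f y⟩
  adjB := Or.inl (om_e_f z)
  opp := om_neg_right _ _
  symA := D.symA
  uniqA := fun s hs h => D.conjS hs h D.uniqA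
  uniqB := fun s hs h => D.conjS hs h D.uniqB
  uniqB' := by
    intro s hs h
    rw [sp_neg, neg_inj] at h
    have h1 := D.conjS hs h D.uniqB
    have h2 := D.io_conj h1
    have h3 : be * be * (be⁻¹ * s * be) * (be * be)⁻¹ = be * s * be⁻¹ := by group
    rwa [h3] at h2
  transA := by
    intro w h
    obtain ⟨A, a1, a2⟩ := trans_two D.yz.symm h
    exact ⟨A, a1, a2⟩
  transB := by
    intro w h
    rw [om_e_f] at h
    obtain ⟨A, a1, a2, -⟩ := trans_ef z h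
    exact ⟨A, a1, a2⟩
  transB' := by
    intro w h
    rw [om_neg_right, om_e_f] at h
    obtain ⟨A, a1, a2, -⟩ := trans_ef z (w := -w) (by rw [om_neg_right, h, neg_neg])
    exact ⟨A, a1, by rw [sp_neg, a2, neg_neg]⟩
  cellA := fun w h => D.cellA h
  cellB := fun w h => D.cellB h
  cellB' := fun w h => D.PB_inv (D.cellB (Cell.of_neg h (Or.inl (om_e_f z))))

/-- The kernel of `φ` is contained in `R`. -/
theorem ker_le (hg : 2 ≤ g) (hT : Subgroup.closure ((Mc : Set M) ∪ {tb}) = ⊤)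
    (m : M) (hm : φ m = 1) : m ∈ R :=
  D.toDat2.ker_le hg {tb} hT (by
    rintro t rfl
    exact D.E1tb) m hm

end Dat3

end

end Pool.Agent.H.MP_59b15d_al.PK
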