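import Pool.Agent.H.MP_59b15d_al.pk.BkS
import Pool.Agent.H.MP_59b15d_al.pk.Quo3

/-!
# The stabiliser of two vectors and identities in one handle
-/

set_option autoImplicit false

namespace Pool.Agent.H.MP_59b15d_al.PK

open SP PC

section sp

variable {g : ℕ}

/-- Generation of the stabiliser of two vectors. -/
theorem stab_two {y z : Fin g} (hyz : y ≠ z) (H : Subgroup (Sp g))
    (h1 : ∀ A : Sp g, A (e y) = e y → A (e z) = e z → A (f z) = f z → A ∈ H)
    (h2 : ∀ A : Sp g, A (e y) = e y → A (f y) = f y → A (e z) = e z → A ∈ H)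
    (h3 : T (e y + e z) 1 ∈ H) {A : Sp g} (ay : A (e y) = e y) (az : A (e z) = e z) : A ∈ H := by
  have oyz : om (e y : V g) (f z) = 0 := om_e_f_ne hyz
  have ozy : om (e z : V g) (f y) = 0 := om_e_f_ne hyz.symm
  have ofz : om (f z : V g) (e z) = -1 := om_f_e z
  have ofy : om (f y : V g) (e y) = -1 := om_f_e y
  have ofzy : om (f z : V g) (e y) = 0 := om_f_e_ne hyz.symm
  have ofyz : om (f y : V g) (e z) = 0 := om_f_e_ne hyz
  have oef : om (e z : V g) (f z) = 1 := om_e_f z
  have oefy : om (e y : V g) (f y) = 1 := om_e_f y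
  have oee : om (e y : V g) (e z) = 0 := om_e_e _ _
  have oee' : om (e z : V g) (e y) = 0 := om_e_e _ _
  obtain ⟨a, ha⟩ : ∃ a : ℤ, a = om (A (f z)) (f y) := ⟨_, rfl⟩
  obtain ⟨w, hw⟩ : ∃ w : V g, w = A (f z) - a • e y := ⟨_, rfl⟩
  have k1 : om (e z) (A (f z)) = 1 := by
    conv_lhs => rw [← az]
    rw [sp_om, oef]
  have k2 : om (e y) (A (f z)) = 0 := by
    conv_lhs => rw [← ay]
    rw [sp_om, oyz]
  have w1 : om (e z) w = 1 := by
    rw [hw, om_sub_right, k1, om_smul_right, oee', mul_zero, sub_zero]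
  have w2 : om (e y) w = 0 := by
    rw [hw, om_sub_right, k2, om_smul_right, om_self, mul_zero, sub_zero]
  have w3 : om (f y) w = 0 := by
    rw [hw, om_sub_right, om_smul_right, ofy, om_swap, ← ha]
    ring
  obtain ⟨A', a1, a2, a3⟩ := trans_ef z w1
  have b1 : A' (e y) = e y := a3 _ oee w2 oyz
  have b2 : A' (f y) = f y := a3 _ ofyz w3 (om_f_f _ _)
  have c1 : A' ∈ H := h2 A' b1 b2 a1
  have c2 : T (e z) a ∈ H := by
    apply h2
    · rw [T_apply, oee]; module
    · rw [T_apply, ofyz]; module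
    · rw [T_apply, om_self]; module
  have c3 : T (e y + e z) (-a) ∈ H := by
    have := H.zpow_mem h3 (-a)
    rwa [T_zpow, one_mul] at this
  obtain ⟨B, hB⟩ : ∃ B : Sp g, B = A' * T (e z) a * T (e y + e z) (-a) := ⟨_, rfl⟩
  have hBH : B ∈ H := by
    rw [hB]
    exact H.mul_mem (H.mul_mem c1 c2) c3
  have d1 : B (f z) = A (f z) := by
    have : A (f z) = w + a • e y := by rw [hw]; module
    rw [this, hB, sp_mul, sp_mul, T_apply (e y + e z), om_add_right, ofzy, ofz]
    have h5 : (f z : V g) + (-a * (0 + -1)) • (e y + e z) = f z + a • e y + a • e z := by module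
    rw [h5, T_apply, om_add_left, om_add_left, om_smul_left, om_smul_left, ofz, oee, om_self]
    have h6 : (f z : V g) + a • e y + a • e z + (a * (-1 + a * 0 + a * 0)) • e z =
        f z + a • e y := by module
    rw [h6, sp_add, sp_smul, a2, b1]
  have d2 : B (e z) = e z := by
    rw [hB, sp_mul, sp_mul, T_apply (e y + e z), om_add_right, oee', om_self]
    have h5 : (e z : V g) + (-a * (0 + 0)) • (e y + e z) = e z := by module
    rw [h5, T_apply, om_self]
    have h6 : (e z : V g) + (a * 0) • e z = e z := by module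
    rw [h6, a1]
  have d3 : B (e y) = e y := by
    rw [hB, sp_mul, sp_mul, T_apply (e y + e z), om_add_right, oee, om_self]
    have h5 : (e y : V g) + (-a * (0 + 0)) • (e y + e z) = e y := by module
    rw [h5, T_apply, oee]
    have h6 : (e y : V g) + (a * 0) • e z = e y := by module
    rw [h6, b1]
  have hinv : ∀ u v : V g, B u = v → (B⁻¹) v = u := by
    rintro u v rfl
    exact sp_inv_apply B u
  have h7 : B⁻¹ * A ∈ H := by
    apply h1
    · rw [sp_mul, ay]
      exact hinv _ _ d3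
    · rw [sp_mul, az]
      exact hinv _ _ d2
    · rw [sp_mul]
      exact hinv _ _ d1
  have h8 := H.mul_mem hBH h7
  rwa [mul_inv_cancel_left] at h8

end sp

open Pool.MP_59b15d_al
open Pool.MP_59b15d_al.H24T Pool.MP_59b15d_al.H60G Pool.MP_59b15d_al.H73E
open Pool.MP_59b15d_al.H76R hiding MR

section rt

variable {m : ℕ} {G : Type*} [Group G] {a b : Fin m → G} (h : IsSurf a b) (i : Fin m)

/-- The braid relation. -/
lemma rt_braid : (TA h i)⁻¹ * TB h i * (TA h i)⁻¹ = TB h i * (TA h i)⁻¹ * TB h i := by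
  apply aut_ext h
  · intro k
    by_cases hk : k = i
    · subst hk
      simp only [MulAut.mul_apply, TAi_a, TAi_b, TB_a, TB_b, map_mul, map_inv]
      group
    · simp only [MulAut.mul_apply, TAi_a, TB_a_ne h hk]
  · intro k
    by_cases hk : k = i
    · subst hk
      simp only [MulAut.mul_apply, TAi_a, TAi_b, TB_a, TB_b, map_mul, map_inv]
      group
    · simp only [MulAut.mul_apply, TAi_b_ne h hk, TB_b]

lemma rt_eq : rt h i = TB h i * (TA h i)⁻¹ * TB h i := rt_braid h i

lemma rt_six : (rt h i * rt h i) * (rt h i * rt h i) = ((TA h i)⁻¹ * TB h i) ^ 6 := by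
  have h1 := rt_eq h i
  have h2 : rt h i = (TA h i)⁻¹ * TB h i * (TA h i)⁻¹ := rfl
  have h3 : rt h i * rt h i = ((TA h i)⁻¹ * TB h i) ^ 3 := by
    calc rt h i * rt h i = ((TA h i)⁻¹ * TB h i * (TA h i)⁻¹) * (TB h i * (TA h i)⁻¹ * TB h i) := by
          rw [← h1, ← h2]
      _ = _ := by simp only [pow_succ, pow_zero, one_mul, mul_assoc]
  rw [h3, ← pow_add]

lemma rt_comm_A : rt h i * rt h i * TA h i = TA h i * (rt h i * rt h i) := by
  have h1 := rt_eq h i
  have h2 : rt h i = (TA h i)⁻¹ * TB h i * (TA h i)⁻¹ := rfl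
  have h3 : rt h i * TA h i = (TB h i)⁻¹ * rt h i := by
    calc rt h i * TA h i = (TA h i)⁻¹ * TB h i := by rw [h2]; group
      _ = _ := by rw [h1]; group
  have h4 : rt h i * (TB h i)⁻¹ = TA h i * rt h i := by
    calc rt h i * (TB h i)⁻¹ = TB h i * (TA h i)⁻¹ := by rw [h1]; group
      _ = _ := by rw [h2]; group
  calc rt h i * rt h i * TA h i = rt h i * (rt h i * TA h i) := by group
    _ = (rt h i * (TB h i)⁻¹) * rt h i := by rw [h3]; group
    _ = _ := by rw [h4]; group

lemma H1_rt_e : H1 h (rt h i) (e i) = f i := by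
  rw [H1_e, rt_a]
  simp only [cls_mul, cls_inv, cls_a, cls_b]
  abel

lemma H1_rt_f : H1 h (rt h i) (f i) = -e i := by
  rw [H1_f, rt_b, cls_inv, cls_a]

lemma H1_rt_e_ne {k : Fin m} (hk : k ≠ i) : H1 h (rt h i) (e k) = e k := by
  rw [H1_e, rt_a_ne h i hk, cls_a]

lemma H1_rt_f_ne {k : Fin m} (hk : k ≠ i) : H1 h (rt h i) (f k) = f k := by
  rw [H1_f, rt_b_ne h i hk, cls_b]

lemma H1_rt_four : H1 h ((rt h i * rt h i) * (rt h i * rt h i)) = 1 := by
  rw [map_mul, map_mul]
  apply lin_ext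
  · intro k
    change H1 h (rt h i) (H1 h (rt h i) (H1 h (rt h i) (H1 h (rt h i) (e k)))) = e k
    by_cases hk : k = i
    · rw [hk, H1_rt_e, H1_rt_f, map_neg, H1_rt_e, map_neg, H1_rt_f, neg_neg]
    · rw [H1_rt_e_ne h i hk, H1_rt_e_ne h i hk, H1_rt_e_ne h i hk, H1_rt_e_ne h i hk]
  · intro k
    change H1 h (rt h i) (H1 h (rt h i) (H1 h (rt h i) (H1 h (rt h i) (f k)))) = f k
    by_cases hk : k = i
    · rw [hk, H1_rt_f, map_neg, H1_rt_e, map_neg, H1_rt_f, neg_neg, H1_rt_e]
    · rw [H1_rt_f_ne h i hk, H1_rt_f_ne h i hk, H1_rt_f_ne h i hk, H1_rt_f_ne h i hk]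

end rt

end Pool.Agent.H.MP_59b15d_al.PK
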