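import Pool.Agent.H.MP_59b15d_al.h95g.Rec
import Pool.Agent.H.MP_59b15d_al.pk.BkU
import Pool.Agent.H.MP_59b15d_al.pk.BkW

/-!
# The step: the Torelli elements of a block
-/

set_option autoImplicit false

namespace Pool.Agent.H.MP_59b15d_al.PK

open SP PC
open Pool.MP_59b15d_al
open Pool.MP_59b15d_al.H24T Pool.MP_59b15d_al.H60G Pool.MP_59b15d_al.H73E
open Pool.MP_59b15d_al.H76R hiding MR
open H93C
open FreeGroup (of)

variable {n : ℕ} {G : Type*} [Group G] {a b : Fin (n + 1) → G}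

/-- The hypotheses on `K`. -/
structure Hyp (h : IsSurf a b) (K : Subgroup (MulAut G)) : Prop where
  conj : ∀ ψ ∈ MMs h, ∀ x ∈ K, ψ * x * ψ⁻¹ ∈ K
  k1 : ∀ (y : Fr n) (k : ℤ), H1 h (XX h y * TT h ^ k) = 1 → XX h y * TT h ^ k ∈ K
  k2 : ((TA h (Fin.last n))⁻¹ * TB h (Fin.last n)) ^ 6 ∈ K

variable {h : IsSurf a b} {K : Subgroup (MulAut G)} {lo : ℕ}

/-- The Torelli elements of the block lying in `K`. -/
noncomputable def RM (h : IsSurf a b) (K : Subgroup (MulAut G)) (lo : ℕ) : Subgroup (MulAut G) :=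
  K ⊓ (H1 h).ker ⊓ H60G.MR h lo (n + 1)

lemma mem_RM {x : MulAut G} :
    x ∈ RM h K lo ↔ (x ∈ K ∧ H1 h x = 1) ∧ x ∈ H60G.MR h lo (n + 1) := Iff.rfl

lemma RM_conj (hy : Hyp h K) {ψ x : MulAut G} (hψ : ψ ∈ H60G.MR h lo (n + 1))
    (hx : x ∈ RM h K lo) : ψ * x * ψ⁻¹ ∈ RM h K lo := by
  obtain ⟨⟨h1, h2⟩, h3⟩ := hx
  refine ⟨⟨hy.conj ψ (MR_le_MMs h _ _ hψ) x h1, ?_⟩, (H60G.MR h lo (n + 1)).mul_mem
    ((H60G.MR h lo (n + 1)).mul_mem hψ h3) ((H60G.MR h lo (n + 1)).inv_mem hψ)⟩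
  change H1 h (ψ * x * ψ⁻¹) = 1
  have h4 : H1 h x = 1 := h2
  rw [map_mul, map_mul, h4, mul_one, ← map_mul, mul_inv_cancel, map_one]

lemma RM_conj' (hy : Hyp h K) {ψ x : MulAut G} (hψ : ψ ∈ H60G.MR h lo (n + 1))
    (hx : x ∈ RM h K lo) : ψ⁻¹ * x * ψ ∈ RM h K lo := by
  have := RM_conj hy (inv_mem hψ) hx
  rwa [inv_inv] at this

/-- The stabiliser of the standard vertex. -/
def SS (hy : Hyp h K) (lo : ℕ) : Subgroup (MulAut G) where
  carrier := {s | ∃ r ∈ RM h K lo, ∃ c ∈ Mcl h lo, s = r * c}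
  one_mem' := ⟨1, one_mem _, 1, one_mem _, by simp⟩
  mul_mem' := by
    rintro _ _ ⟨r, hr, c, hc, rfl⟩ ⟨r', hr', c', hc', rfl⟩
    exact ⟨r * (c * r' * c⁻¹), mul_mem hr (RM_conj hy (Mcl_le_MR h hc) hr'), c * c',
      mul_mem hc hc', by group⟩
  inv_mem' := by
    rintro _ ⟨r, hr, c, hc, rfl⟩
    exact ⟨c⁻¹ * r⁻¹ * c, RM_conj' hy (Mcl_le_MR h hc) (inv_mem hr), c⁻¹, inv_mem hc, by group⟩

lemma SS_R (hy : Hyp h K) {r : MulAut G} (hr : r ∈ RM h K lo) : r ∈ SS hy lo :=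
  ⟨r, hr, 1, one_mem _, by simp⟩

lemma SS_M (hy : Hyp h K) {c : MulAut G} (hc : c ∈ Mcl h lo) : c ∈ SS hy lo :=
  ⟨1, one_mem _, c, hc, by simp⟩

/-- Torelli elements of the stabiliser. -/
lemma RM_of_Mcl (hy : Hyp h K) (hlo : lo ≤ n)
    (ind : ∀ f ∈ H60G.MR h (lo + 1) (n + 1), H1 h f = 1 → f ∈ K) {c : MulAut G}
    (hc : c ∈ Mcl h lo) (h1 : H1 h c = 1) : c ∈ RM h K lo := by
  refine ⟨⟨Mcl_torelli h hy.k1 ?_ hc h1, h1⟩, Mcl_le_MR h hc⟩
  intro f hf h2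
  obtain ⟨μ, m1, m2⟩ := exists_up h hlo
  have h3 : μ * f * μ⁻¹ ∈ K := by
    apply ind _ (m2 f hf)
    rw [map_mul, map_mul, h2, mul_one, ← map_mul, mul_inv_cancel, map_one]
  have h4 := hy.conj μ⁻¹ (inv_mem (MR_le_MMs h _ _ m1)) _ h3
  have h5 : μ⁻¹ * (μ * f * μ⁻¹) * μ⁻¹⁻¹ = f := by group
  rwa [h5] at h4

section two

variable {i : Fin n} (hi : (i : ℕ) + 1 = n) (hlo : lo ≤ (i : ℕ)) {σ : MulAut G}

include hi hlo

lemma up2 {x : MulAut G} (hx : x ∈ H60G.MR h (n - 1) (n + 1)) : x ∈ H60G.MR h lo (n + 1) :=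
  MR_mono h (by omega) le_rfl hx

lemma Yk_RM (hy : Hyp h K) : Yk h i ∈ RM h K lo := by
  have h1 : H1 h (Yk h i) = 1 := by
    apply lin_ext
    · intro k
      rcases Nat.lt_or_ge (k : ℕ) (n - 1) with h1 | h1
      · have h2 := (MR_fix h (Yk_mem h hi) (k : ℕ) (Or.inl h1)).1
        rw [ex_val] at h2
        rw [H1_e, h2, cls_a]
        rfl
      · rw [H1_e]
        rcases mem_two hi h1 with rfl | rfl
        · rw [Yk_p]
          simp only [cls_mul, cls_inv, cls_a, cls_b]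
          change _ = e i.castSucc
          abel
        · rw [Yk_c]
          simp only [cls_mul, cls_inv, cls_a, cls_b]
          change _ = e (Fin.last n)
          abel
    · intro k
      rcases Nat.lt_or_ge (k : ℕ) (n - 1) with h1 | h1
      · have h2 := (MR_fix h (Yk_mem h hi) (k : ℕ) (Or.inl h1)).2
        rw [ex_val] at h2
        rw [H1_f, h2, cls_b]
        rfl
      · rw [H1_f]
        rcases mem_two hi h1 with rfl | rfl
        · rw [Yk_q]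
          simp only [cls_mul, cls_inv, cls_a, cls_b]
          change _ = f i.castSucc
          abel
        · rw [Yk_d]
          simp only [cls_mul, cls_inv, cls_a, cls_b]
          change _ = f (Fin.last n)
          abel
  refine ⟨⟨?_, h1⟩, up2 hi hlo (Yk_mem h hi)⟩
  have h2 : Yk h i = XX h (of (Sum.inl i) * of (Sum.inr i) * (of (Sum.inl i))⁻¹ *
      (of (Sum.inr i))⁻¹) * TT h ^ (-2 : ℤ) := by
    rw [map_mul, map_mul, map_mul, map_inv, map_inv, XX_a, XX_b, Yk]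
    rw [← TT_eq]
    group
  rw [h2] at h1 ⊢
  exact hy.k1 _ _ h1

lemma io2_RM (hy : Hyp h K) : (rt h (Fin.last n) * rt h (Fin.last n)) *
    (rt h (Fin.last n) * rt h (Fin.last n)) ∈ RM h K lo := by
  have h1 := mul_mem (rtl_mem2 h) (rtl_mem2 h)
  refine ⟨⟨?_, H1_rt_four h _⟩, up2 hi hlo (mul_mem h1 h1)⟩
  change _ ∈ K
  rw [rt_six]
  exact hy.k2

lemma al2_RM (hy : Hyp h K) (S : Sw h i σ) : σ * σ ∈ RM h K lo := by
  have h1 := id_one h hi S
  have hY := Yk_RM hi hlo hy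
  have h2 : σ * σ = (Yk h i)⁻¹ * ((rt h (Fin.last n) * rt h (Fin.last n)) * (Yk h i)⁻¹ *
      (rt h (Fin.last n) * rt h (Fin.last n))⁻¹) := by
    have h3 : σ * σ = (Yk h i)⁻¹ * (Yk h i * (σ * σ) * (rt h (Fin.last n) * rt h (Fin.last n)) *
      Yk h i) * (Yk h i)⁻¹ * (rt h (Fin.last n) * rt h (Fin.last n))⁻¹ := by group
    rw [h1] at h3
    rw [h3]
    group
  rw [h2]
  exact mul_mem (inv_mem hY) (RM_conj hy (up2 hi hlo (mul_mem (rtl_mem2 h) (rtl_mem2 h)))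
    (inv_mem hY))

lemma MX : Xb h i ∈ Mcl h lo := by
  have := Mcl_b1 h hi hlo
  rwa [XX_b] at this

lemma MXa : Xa h i ∈ Mcl h lo := by
  have := Mcl_a1 h hi hlo
  rwa [XX_a] at this

lemma MTl : TA h (Fin.last n) ∈ Mcl h lo := Mcl_A h (by rw [Fin.val_last]; omega)

lemma MTi : TA h i.castSucc ∈ Mcl h lo := Mcl_A h (by rw [Fin.val_castSucc]; exact hlo)

lemma Mrti : rt h i.castSucc ∈ Mcl h lo :=
  mul_mem (mul_mem (inv_mem (MTi hi hlo)) (Mcl_B h hlo)) (inv_mem (MTi hi hlo))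

/-- Conjugation of the push by the half turn. -/
lemma io_X (hy : Hyp h K) (S : Sw h i σ) : (rt h (Fin.last n) * rt h (Fin.last n)) * Xb h i *
    (rt h (Fin.last n) * rt h (Fin.last n))⁻¹ ∈ SS hy lo := by
  have h1 := id_two h hi S
  have hY := Yk_RM hi hlo hy
  have hr := up2 hi hlo (rtl_mem2 h)
  have hσ := up2 hi hlo S.mem
  have hA := rt_comm_A h (Fin.last n)
  have hW : (rt h (Fin.last n) * σ)⁻¹ * (Yk h i)⁻¹ * (rt h (Fin.last n) * σ) ∈ RM h K lo :=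
    RM_conj' hy (mul_mem hr hσ) (inv_mem hY)
  have hA' : (rt h (Fin.last n) * rt h (Fin.last n)) * ((TA h (Fin.last n) *
      TA h (Fin.last n)))⁻¹ * (rt h (Fin.last n) * rt h (Fin.last n))⁻¹ =
      (TA h (Fin.last n) * TA h (Fin.last n))⁻¹ := by
    have h2 : Commute (rt h (Fin.last n) * rt h (Fin.last n)) (TA h (Fin.last n)) := hA
    have h3 := (h2.mul_right h2).inv_right.eq
    rw [h3, mul_inv_cancel_right]
  have h2 : (rt h (Fin.last n) * rt h (Fin.last n)) * Xb h i *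
      (rt h (Fin.last n) * rt h (Fin.last n))⁻¹ = (Xb h i)⁻¹ *
      ((rt h (Fin.last n) * σ)⁻¹ * (Yk h i)⁻¹ * (rt h (Fin.last n) * σ)) *
      ((rt h (Fin.last n) * rt h (Fin.last n)) * ((TA h (Fin.last n) *
      TA h (Fin.last n)))⁻¹ * (rt h (Fin.last n) * rt h (Fin.last n))⁻¹) := by
    have h3 : (rt h (Fin.last n) * rt h (Fin.last n)) * Xb h i *
      (rt h (Fin.last n) * rt h (Fin.last n))⁻¹ = (Xb h i)⁻¹ *
      ((rt h (Fin.last n) * σ)⁻¹ * (Yk h i)⁻¹ *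
      (Yk h i * rt h (Fin.last n) * σ * Xb h i *
    (rt h (Fin.last n) * rt h (Fin.last n)) * Xb h i *
    (TA h (Fin.last n) * TA h (Fin.last n)))) * (TA h (Fin.last n) * TA h (Fin.last n))⁻¹ *
      (rt h (Fin.last n) * rt h (Fin.last n))⁻¹ := by group
    rw [h1] at h3
    rw [h3]
    group
  rw [h2, hA']
  exact mul_mem (mul_mem (SS_M hy (inv_mem (MX hi hlo))) (SS_R hy hW))
    (SS_M hy (inv_mem (mul_mem (MTl hi hlo) (MTl hi hlo))))

lemma io_comm {x : MulAut G} (hx : x ∈ H60G.MR h 0 n) :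
    (rt h (Fin.last n) * rt h (Fin.last n)) * x *
      (rt h (Fin.last n) * rt h (Fin.last n))⁻¹ = x := by
  have hr : rt h (Fin.last n) ∈ H60G.MR h n (n + 1) :=
    rt_mem h _ (by rw [Fin.val_last]) (by rw [Fin.val_last]; omega)
  have h2 : (rt h (Fin.last n) * rt h (Fin.last n)) * x =
      x * (rt h (Fin.last n) * rt h (Fin.last n)) :=
    MulEquiv.ext fun z => H95G.MR_comm h (by omega) (mul_mem hr hr) hx z
  rw [h2, mul_inv_cancel_right]

/-- The half turn normalises the stabiliser. -/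
lemma io_S (hy : Hyp h K) (S : Sw h i σ) {c : MulAut G} (hc : c ∈ Mcl h lo) :
    (rt h (Fin.last n) * rt h (Fin.last n)) * c *
      (rt h (Fin.last n) * rt h (Fin.last n))⁻¹ ∈ SS hy lo := by
  have hle : Mcl h lo ≤ (SS hy lo).comap
      (MulAut.conj (rt h (Fin.last n) * rt h (Fin.last n))).toMonoidHom := by
    have key : ∀ x ∈ H60G.MR h lo n, x ∈ (SS hy lo).comap
      (MulAut.conj (rt h (Fin.last n) * rt h (Fin.last n))).toMonoidHom := by
      intro x hx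
      change (rt h (Fin.last n) * rt h (Fin.last n)) * x *
        (rt h (Fin.last n) * rt h (Fin.last n))⁻¹ ∈ SS hy lo
      rw [io_comm hi hlo (MR_mono h (Nat.zero_le _) le_rfl hx)]
      exact SS_M hy (MR_le_Mcl h hx)
    rw [Mcl, Subgroup.closure_le]
    rintro T (⟨k, hk, rfl⟩ | ⟨k, hk, rfl⟩ | ⟨k, j, hkj, hk, rfl⟩)
    · rcases Fin.eq_castSucc_or_eq_last k with ⟨k, rfl⟩ | rfl
      · exact key _ (TA_mem h _ hk k.2)
      · change (rt h (Fin.last n) * rt h (Fin.last n)) * TA h (Fin.last n) *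
          (rt h (Fin.last n) * rt h (Fin.last n))⁻¹ ∈ SS hy lo
        rw [rt_comm_A, mul_inv_cancel_right]
        exact SS_M hy (MTl hi hlo)
    · exact key _ (TB_mem h _ hk k.2)
    · rcases Fin.eq_castSucc_or_eq_last j with ⟨j, rfl⟩ | rfl
      · exact key _ (TC_mem h _ _ hkj hk j.2)
      · have h1 : k = i.castSucc := by
          apply Fin.ext
          rw [Fin.val_last] at hkj
          rw [Fin.val_castSucc]
          omega
        subst h1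
        have h2 : TC h i.castSucc (Fin.last n) hkj = Xb h i * TB h i.castSucc := by
          rw [X0_eq h i hkj]
        rw [h2]
        exact mul_mem (io_X hi hlo hy S) (key _ (TB_mem h _ (by rw [Fin.val_castSucc]; exact hlo)
          i.2))
  exact hle hc

omit hi hlo in
/-- The swap conjugates the quarter turns. -/
lemma al_rt (hi : (i : ℕ) + 1 = n) (S : Sw h i σ) :
    σ * rt h (Fin.last n) * σ⁻¹ = rt h i.castSucc := by
  have h1 : σ * TA h (Fin.last n) * σ⁻¹ = TA h i.castSucc := by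
    rw [Sw_TAl h hi S, mul_inv_cancel_right]
  have h2 : σ * TB h (Fin.last n) * σ⁻¹ = TB h i.castSucc := by
    rw [Sw_TBl h hi S, mul_inv_cancel_right]
  rw [rt, rt, ← h1, ← h2]
  group

omit hi hlo in
lemma al_rt' (hi : (i : ℕ) + 1 = n) (S : Sw h i σ) :
    σ⁻¹ * rt h (Fin.last n) * σ = rt h i.castSucc := by
  have h1 : σ⁻¹ * TA h (Fin.last n) * σ = TA h i.castSucc := by
    rw [mul_assoc, ← Sw_TAi h hi S, inv_mul_cancel_left]
  have h2 : σ⁻¹ * TB h (Fin.last n) * σ = TB h i.castSucc := by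
    rw [mul_assoc, ← Sw_TBi h hi S, inv_mul_cancel_left]
  rw [rt, rt, ← h1, ← h2]
  group

/-- The slide. -/
lemma slide_S (hy : Hyp h K) (S : Sw h i σ) :
    σ⁻¹ * (Xb h i)⁻¹⁻¹ * σ * (Xb h i)⁻¹ * σ ∈ SS hy lo := by
  have h1 := id_five h hi S
  have hσ := up2 hi hlo S.mem
  have hX := Mcl_le_MR h (MX (h := h) hi hlo)
  have h4 := io2_RM (K := K) hi hlo hy
  have h5 := io_X hi hlo hy S
  obtain ⟨ρ, hρ⟩ : ∃ ρ, ρ = (rt h (Fin.last n) * rt h (Fin.last n)) *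
    (rt h (Fin.last n) * rt h (Fin.last n)) := ⟨_, rfl⟩
  obtain ⟨io, hio⟩ : ∃ io, io = rt h (Fin.last n) * rt h (Fin.last n) := ⟨_, rfl⟩
  obtain ⟨ii, hii⟩ : ∃ ii, ii = rt h i.castSucc * rt h i.castSucc := ⟨_, rfl⟩
  rw [← hio, ← hii] at h1
  rw [← hio] at hρ h4 h5
  rw [← hρ] at h4 h1
  have hiiS : ii ∈ SS hy lo := by
    rw [hii]
    exact SS_M hy (mul_mem (Mrti hi hlo) (Mrti hi hlo))
  have h6 : σ⁻¹ * (Xb h i)⁻¹⁻¹ * σ * (Xb h i)⁻¹ * σ =
      ((σ⁻¹ * Xb h i * σ) * ρ⁻¹ * (σ⁻¹ * Xb h i * σ)⁻¹) *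
      (σ⁻¹ * (Xb h i * σ * ρ * (Xb h i)⁻¹ * σ * io * (Xb h i)⁻¹) * Xb h i * io⁻¹) := by group
  have h7 : σ⁻¹ * (σ * ρ * (Xa h i)⁻¹ * (TA h (Fin.last n) * TA h (Fin.last n) *
      TA h (Fin.last n)) * ii * io) * Xb h i * io⁻¹ = ρ * (Xa h i)⁻¹ *
      (TA h (Fin.last n) * TA h (Fin.last n) * TA h (Fin.last n)) * ii *
      (io * Xb h i * io⁻¹) := by group
  rw [h6, h1, h7]
  have hT := SS_M (K := K) hy (MTl (h := h) hi hlo)
  have hXa := SS_M (K := K) hy (MXa (h := h) hi hlo)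
  exact mul_mem (SS_R hy (RM_conj hy (mul_mem (mul_mem (inv_mem hσ) hX) hσ) (inv_mem h4)))
    (mul_mem (mul_mem (mul_mem (mul_mem (SS_R hy h4) (inv_mem hXa)) (mul_mem (mul_mem hT hT) hT))
      hiiS) h5)

end two

end Pool.Agent.H.MP_59b15d_al.PK
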