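import Pool.Agent.H.MP_59b15d_al.pk.BkT
import Pool.Agent.H.MP_59b15d_al.pk.BkV
import Pool.Agent.H.MP_59b15d_al.pk.BkX

/-!
# The step, end
-/

set_option autoImplicit false

namespace Pool.Agent.H.MP_59b15d_al.PK

open SP PC
open Pool.MP_59b15d_al
open Pool.MP_59b15d_al.H24T Pool.MP_59b15d_al.H60G Pool.MP_59b15d_al.H73E
open Pool.MP_59b15d_al.H76R hiding MR
open H93C
open FreeGroup (of)

variable {n : ℕ} {G : Type*} [Group G] {a b : Fin (n + 1) → G}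
variable {h : IsSurf a b} {K : Subgroup (MulAut G)} {lo : ℕ}

lemma tw_le_Mcl (h : IsSurf a b) {P Q R : ℕ → Prop} (hP : ∀ i, P i → lo ≤ i)
    (hQ : ∀ i, Q i → lo ≤ i ∧ i < n) (hR : ∀ j, R j → lo + 1 ≤ j) :
    Subgroup.closure (Twists a b P Q R) ≤ Mcl h lo := by
  rw [Twists_eq h, Subgroup.closure_le]
  rintro T (⟨i, h1, rfl⟩ | ⟨i, h1, rfl⟩ | ⟨i, j, hij, h1, rfl⟩)
  · exact Mcl_A h (hP _ h1)
  · have h3 : i = (⟨(i : ℕ), (hQ _ h1).2⟩ : Fin n).castSucc := Fin.ext rfl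
    rw [h3]
    exact Mcl_B h (hQ _ h1).1
  · exact Mcl_C h hij (by have := hR _ h1; omega)

section ph

variable {k : ℕ} (hk : lo + k = n + 1)

lemma ph_of {x : H60G.MR h lo (n + 1)} {v w : V k} (hv : H1 h x.1 (EE hk v) = EE hk w) :
    ph hk h x v = w := by
  rw [ph_apply, hv, RR_EE]

lemma of_ph {x : H60G.MR h lo (n + 1)} {v w : V k} (hv : ph hk h x v = w) :
    H1 h x.1 (EE hk v) = EE hk w := by
  rw [← hv, EE_ph]

lemma ph_T {x : H60G.MR h lo (n + 1)} {w : V k} {s : ℤ} (hx : H1 h x.1 = (T (EE hk w) s).1) :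
    ph hk h x = T w s := by
  refine sp_ext fun v => ?_
  apply ph_of
  rw [hx]
  change T (EE hk w) s (EE hk v) = _
  rw [T_apply, T_apply, om_EE_EE, map_add, map_smul]

end ph

section two

variable {i : Fin n} (hi : (i : ℕ) + 1 = n) (hlo : lo ≤ (i : ℕ)) {σ : MulAut G}

include hi hlo

/-- Conjugation by the swap, of the elements fixing the last handle and the curve `a_i`. -/
lemma al_S (hy : Hyp h K) (S : Sw h i σ) {c : MulAut G}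
    (hc : c ∈ Subgroup.closure (Twists a b (fun j => lo ≤ j ∧ j ≤ i) (fun j => lo ≤ j ∧ j < i)
      (fun j => lo + 1 ≤ j ∧ j ≤ i))) : σ⁻¹ * c * σ ∈ SS hy lo := by
  have hcomm : ∀ x ∈ H60G.MR h lo (n - 1), σ⁻¹ * x * σ ∈ SS hy lo := by
    intro x hx
    have h3 : H60G.MR h lo (n - 1) ≤ H60G.MR h 0 (n - 1) := MR_mono h (Nat.zero_le _) le_rfl
    have h4 : H60G.MR h lo (n - 1) ≤ H60G.MR h lo n := MR_mono h le_rfl (by omega)
    have h2 : σ * x = x * σ :=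
      MulEquiv.ext fun z => H95G.MR_comm h (by omega) S.mem (h3 hx) z
    rw [mul_assoc, ← h2, inv_mul_cancel_left]
    exact SS_M hy (MR_le_Mcl h (h4 hx))
  have hle : Subgroup.closure (Twists a b (fun j => lo ≤ j ∧ j ≤ i) (fun j => lo ≤ j ∧ j < i)
      (fun j => lo + 1 ≤ j ∧ j ≤ i)) ≤ (SS hy lo).comap (MulAut.conj σ⁻¹).toMonoidHom := by
    rw [Twists_eq h, Subgroup.closure_le]
    rintro T (⟨k, h1, rfl⟩ | ⟨k, h1, rfl⟩ | ⟨k, j, hkj, h1, rfl⟩)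
    · change σ⁻¹ * TA h k * σ⁻¹⁻¹ ∈ SS hy lo
      rw [inv_inv]
      by_cases hk : (k : ℕ) = i
      · have h2 : k = i.castSucc := Fin.ext hk
        have h3 : σ⁻¹ * TA h i.castSucc * σ = TA h (Fin.last n) := by
          rw [mul_assoc, ← Sw_TAl h hi S, inv_mul_cancel_left]
        rw [h2, h3]
        exact SS_M hy (MTl hi hlo)
      · exact hcomm _ (TA_mem h _ h1.1 (by have := h1.2; omega))
    · change σ⁻¹ * TB h k * σ⁻¹⁻¹ ∈ SS hy lo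
      rw [inv_inv]
      exact hcomm _ (TB_mem h _ h1.1 (by have := h1.2; omega))
    · change σ⁻¹ * TC h k j hkj * σ⁻¹⁻¹ ∈ SS hy lo
      rw [inv_inv]
      by_cases hj : (j : ℕ) = i
      · have h2 : j = i.castSucc := Fin.ext hj
        have hkn : (k : ℕ) < n := by have := i.2; omega
        obtain ⟨k', rfl⟩ : ∃ k' : Fin n, k = k'.castSucc := ⟨⟨k, hkn⟩, rfl⟩
        subst h2
        have hk2 : (k' : ℕ) + 2 = n := by
          rw [Fin.val_castSucc, Fin.val_castSucc] at hkj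
          omega
        have hlk : lo ≤ (k' : ℕ) := by
          have := h1.1
          rw [Fin.val_castSucc] at hkj
          omega
        have h3 : σ⁻¹ * TC h k'.castSucc i.castSucc hkj * σ = Xb h k' * TB h k'.castSucc := by
          rw [mul_assoc, id_four h hi hk2 S, inv_mul_cancel_left]
        rw [h3]
        have h4 := Mcl_b2 (lo := lo) h hi hk2 hlk
        rw [XX_b] at h4
        exact SS_M hy (mul_mem h4 (Mcl_B h hlk))
      · have h5 := h1.1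
        have h6 := h1.2
        exact hcomm _ (TC_mem h _ _ hkj (by omega) (by omega))
  have := hle hc
  change σ⁻¹ * c * σ⁻¹⁻¹ ∈ SS hy lo at this
  rwa [inv_inv] at this

/-- The twist about the band sum of the curves `a` of the last two handles. -/
lemma al_Td (hy : Hyp h K) (S : Sw h i σ) :
    σ⁻¹ * ((Xb h i)⁻¹ * (TA h i.castSucc)⁻¹ * Xb h i) * σ ∈ SS hy lo := by
  have hσ := up2 hi hlo S.mem
  obtain ⟨r, hr, c, hc, hw⟩ := slide_S hi hlo hy S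
  obtain ⟨w, hw'⟩ : ∃ w, w = σ⁻¹ * (Xb h i)⁻¹⁻¹ * σ * (Xb h i)⁻¹ * σ := ⟨_, rfl⟩
  rw [← hw'] at hw
  have hTl := Mcl_le_MR h (MTl (h := h) hi hlo)
  have hA : σ * TA h (Fin.last n) * σ⁻¹ = TA h i.castSucc := by
    rw [Sw_TAl h hi S, mul_inv_cancel_right]
  have hcT : c * (TA h (Fin.last n))⁻¹ * c⁻¹ = (TA h (Fin.last n))⁻¹ := by
    have h1 := (TT_central h (Mcl_le_Mcs h hc)).inv_right.eq
    rw [TT_eq] at h1
    rw [h1, mul_inv_cancel_right]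
  have h1 : w * (TA h (Fin.last n))⁻¹ * w⁻¹ = (r * ((TA h (Fin.last n))⁻¹ * r⁻¹ *
      (TA h (Fin.last n))⁻¹⁻¹)) * (TA h (Fin.last n))⁻¹ := by
    have h2 : w * (TA h (Fin.last n))⁻¹ * w⁻¹ = r * (c * (TA h (Fin.last n))⁻¹ * c⁻¹) * r⁻¹ := by
      rw [hw]; group
    rw [h2, hcT]
    group
  have hq : r * ((TA h (Fin.last n))⁻¹ * r⁻¹ * (TA h (Fin.last n))⁻¹⁻¹) ∈ RM h K lo :=
    mul_mem hr (RM_conj hy (inv_mem hTl) (inv_mem hr))
  obtain ⟨q, hq'⟩ : ∃ q, q = r * ((TA h (Fin.last n))⁻¹ * r⁻¹ * (TA h (Fin.last n))⁻¹⁻¹) :=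
    ⟨_, rfl⟩
  rw [← hq'] at h1 hq
  have h2 : σ⁻¹ * ((Xb h i)⁻¹ * (TA h i.castSucc)⁻¹ * Xb h i) * σ =
      ((σ * σ)⁻¹ * ((Xb h i)⁻¹ * σ) * q * ((Xb h i)⁻¹ * σ)⁻¹ * (σ * σ)) *
      ((σ * σ)⁻¹ * ((Xb h i)⁻¹ * (TA h i.castSucc)⁻¹ * Xb h i) * (σ * σ)) := by
    have h3 : σ⁻¹ * ((Xb h i)⁻¹ * (TA h i.castSucc)⁻¹ * Xb h i) * σ =
        (σ * σ)⁻¹ * (((Xb h i)⁻¹ * σ) * (w * (TA h (Fin.last n))⁻¹ * w⁻¹) *
          ((Xb h i)⁻¹ * σ)⁻¹) * (σ * σ) := by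
      rw [hw', ← hA]
      group
    rw [h3, h1, ← hA]
    group
  have h3 : (σ * σ)⁻¹ * ((Xb h i)⁻¹ * (TA h i.castSucc)⁻¹ * Xb h i) * (σ * σ) ∈ SS hy lo := by
    have h4 := SS_R hy (al2_RM hi hlo hy S)
    have h5 := SS_M hy (MX (h := h) hi hlo)
    exact mul_mem (mul_mem (inv_mem h4) (mul_mem (mul_mem (inv_mem h5)
      (inv_mem (SS_M hy (MTi hi hlo)))) h5)) h4
  have h4 : (σ * σ)⁻¹ * ((Xb h i)⁻¹ * σ) * q * ((Xb h i)⁻¹ * σ)⁻¹ * (σ * σ) ∈ RM h K lo := by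
    have h5 : (σ * σ)⁻¹ * ((Xb h i)⁻¹ * σ) * q * ((Xb h i)⁻¹ * σ)⁻¹ * (σ * σ) =
        ((σ * σ)⁻¹ * ((Xb h i)⁻¹ * σ)) * q * ((σ * σ)⁻¹ * ((Xb h i)⁻¹ * σ))⁻¹ := by
      simp only [mul_inv_rev, inv_inv, mul_assoc]
    rw [h5]
    exact RM_conj hy (mul_mem (inv_mem (mul_mem hσ hσ))
      (mul_mem (inv_mem (Mcl_le_MR h (MX hi hlo))) hσ)) hq
  rw [h2]
  exact mul_mem (SS_R hy h4) h3

end two

end Pool.Agent.H.MP_59b15d_al.PK
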