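import Pool.Agent.H.MP_59b15d_al.pk.BkY
import Pool.Agent.H.MP_59b15d_al.pk.ThmG

/-!
# Normal generation of the Torelli group by the pushes and the twist of genus one
-/

set_option autoImplicit false

namespace Pool.Agent.H.MP_59b15d_al.PK

open SP PC
open Pool.MP_59b15d_al
open Pool.MP_59b15d_al.H24T Pool.MP_59b15d_al.H60G Pool.MP_59b15d_al.H73E
open Pool.MP_59b15d_al.H76R hiding MR
open H93C
open FreeGroup (of)

variable {n : ℕ} {G : Type*} [Group G] {a b : Fin (n + 1) → G}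
variable {h : IsSurf a b} {K : Subgroup (MulAut G)} {lo : ℕ}

/-- The step of the induction. -/
theorem step (hy : Hyp h K) (hlo : lo + 1 ≤ n)
    (ind : ∀ f ∈ H60G.MR h (lo + 1) (n + 1), H1 h f = 1 → f ∈ K) {φ : MulAut G}
    (hφ : φ ∈ H60G.MR h lo (n + 1)) (h1 : H1 h φ = 1) : φ ∈ K := by
  obtain ⟨k, hk⟩ : ∃ k, lo + k = n + 1 := ⟨n + 1 - lo, by omega⟩
  have hk2 : 2 ≤ k := by omega
  let i : Fin n := ⟨n - 1, by omega⟩
  have hi : (i : ℕ) + 1 = n := by simp only [i]; omega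
  have hli : lo ≤ (i : ℕ) := by omega
  obtain ⟨σ, S⟩ := exists_Sw h hi
  obtain ⟨z, hz⟩ : ∃ z : Fin k, (z : ℕ) + 1 = k := ⟨⟨k - 1, by omega⟩, by simp only; omega⟩
  obtain ⟨y, hyk⟩ : ∃ y : Fin k, (y : ℕ) + 2 = k := ⟨⟨k - 2, by omega⟩, by simp only; omega⟩
  have uz : up hk z = Fin.last n := Fin.ext (by rw [up_val, Fin.val_last]; omega)
  have uy : up hk y = i.castSucc := Fin.ext (by rw [up_val, Fin.val_castSucc]; omega)
  have hyz : y ≠ z := fun h0 => by rw [h0] at hyk; omega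
  have hne := lne i
  have Ez : EE hk (e z) = e (Fin.last n) := by rw [EE_e, uz]
  have Ezf : EE hk (f z) = f (Fin.last n) := by rw [EE_f, uz]
  have Ey : EE hk (e y) = e i.castSucc := by rw [EE_e, uy]
  have Eyf : EE hk (f y) = f i.castSucc := by rw [EE_f, uy]
  have hσ := up2 (h := h) hi hli S.mem
  have hr := up2 (h := h) hi hli (rtl_mem2 h)
  have hX := MX (h := h) hi hli
  have hTl := MTl (h := h) hi hli
  have hTB : TB h (Fin.last n) ∈ H60G.MR h lo (n + 1) :=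
    TB_mem h _ (by rw [Fin.val_last]; omega) (by rw [Fin.val_last]; omega)
  -- the subgroups
  have tr : ∀ x : H60G.MR h lo (n + 1), x.1 ∈ SS hy lo →
      x ∈ (RM h K lo).subgroupOf (H60G.MR h lo (n + 1)) ⊔
        (Mcl h lo).subgroupOf (H60G.MR h lo (n + 1)) := by
    rintro ⟨x, hx⟩ ⟨r, hr, c, hc, rfl⟩
    have h2 : (⟨r * c, hx⟩ : H60G.MR h lo (n + 1)) = ⟨r, hr.2⟩ * ⟨c, Mcl_le_MR h hc⟩ := rfl
    rw [h2]
    exact Subgroup.mul_mem_sup hr hc
  -- values of the swap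
  have s1 : H1 h σ (e (Fin.last n)) = e i.castSucc := by rw [H1_e, S.c, cls_a]
  have s2 : H1 h σ (f (Fin.last n)) = f i.castSucc := by rw [H1_f, S.d, cls_b]
  have s3 : H1 h σ (e i.castSucc) = e (Fin.last n) := by
    rw [H1_e, S.p]
    simp only [cls_mul, cls_inv, cls_a, cls_b]
    abel
  have s4 : H1 h σ (f i.castSucc) = f (Fin.last n) := by
    rw [H1_f, S.q]
    simp only [cls_mul, cls_inv, cls_a, cls_b]
    abel
  have hcsec : ∀ A : Sp k, A (e z) = e z → ∃ c ∈ (Mcl h lo).subgroupOf (H60G.MR h lo (n + 1)),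
      ph hk h c = A := by
    intro A hA
    obtain ⟨c, c1, c2⟩ := exists_lift_stab h (r := lo) (z := Fin.last n) (A := exS hk A)
      (by rw [Fin.val_last]; omega) (by rw [← Ez, exS_EE, hA]) (fun j hj => by
        rcases hj with hj | hj
        · exact ⟨exS_e hk A hj, exS_f hk A hj⟩
        · exfalso
          have := j.2
          rw [Fin.val_last] at hj
          omega)
    have c3 : c ∈ Mcl h lo := tw_le_Mcl h (fun j hj => hj.1) (fun j hj => by
      rw [Fin.val_last] at hj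
      exact hj) (fun j hj => hj.1) c1
    exact ⟨⟨c, Mcl_le_MR h c3⟩, c3, ph_eq hk h c2⟩
  have hctor : ∀ m ∈ (Mcl h lo).subgroupOf (H60G.MR h lo (n + 1)), ph hk h m = 1 →
      m.1 ∈ RM h K lo := by
    intro m hm h2
    exact RM_of_Mcl hy (by omega) ind hm (ph_one hk h h2)
  -- the subgroup of good elements
  let H : Subgroup (Sp k) :=
    { carrier := {A | ∃ c : H60G.MR h lo (n + 1), c.1 ∈ Mcl h lo ∧ ph hk h c = A ∧
        σ⁻¹ * c.1 * σ ∈ SS hy lo}
      one_mem' := ⟨1, one_mem _, map_one _, by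
        change σ⁻¹ * 1 * σ ∈ SS hy lo
        rw [mul_one, inv_mul_cancel]
        exact one_mem _⟩
      mul_mem' := by
        rintro A B ⟨c, c1, c2, c3⟩ ⟨d, d1, d2, d3⟩
        refine ⟨c * d, mul_mem c1 d1, by rw [map_mul, c2, d2], ?_⟩
        have h2 : σ⁻¹ * (c * d).1 * σ = (σ⁻¹ * c.1 * σ) * (σ⁻¹ * d.1 * σ) := by
          change σ⁻¹ * (c.1 * d.1) * σ = _
          group
        rw [h2]
        exact mul_mem c3 d3
      inv_mem' := by
        rintro A ⟨c, c1, c2, c3⟩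
        refine ⟨c⁻¹, inv_mem c1, by rw [map_inv, c2], ?_⟩
        have h2 : σ⁻¹ * (c⁻¹).1 * σ = (σ⁻¹ * c.1 * σ)⁻¹ := by
          change σ⁻¹ * (c.1)⁻¹ * σ = _
          group
        rw [h2]
        exact inv_mem c3 }
  have Ha : ∀ A : Sp k, A (e y) = e y → A (e z) = e z → A (f z) = f z →
      ∃ c : H60G.MR h lo (n + 1), c.1 ∈ Mcl h lo ∧ ph hk h c = A ∧
        σ⁻¹ * c.1 * σ ∈ SS hy lo := by
    intro A a1 a2 a3
    obtain ⟨c, c1, c2⟩ := exists_lift_stab h (r := lo) (z := i.castSucc) (A := exS hk A)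
      (by rw [Fin.val_castSucc]; exact hli) (by rw [← Ey, exS_EE, a1]) (fun j hj => by
        rcases hj with hj | hj
        · exact ⟨exS_e hk A hj, exS_f hk A hj⟩
        · have h2 : j = Fin.last n := by
            apply Fin.ext
            rw [Fin.val_castSucc] at hj
            rw [Fin.val_last]
            have := j.2
            omega
          rw [h2, ← Ez, ← Ezf, exS_EE, exS_EE, a2, a3]
          exact ⟨rfl, rfl⟩)
    have c3 : c ∈ Mcl h lo := tw_le_Mcl h (fun j hj => hj.1) (fun j hj => by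
      rw [Fin.val_castSucc] at hj
      exact ⟨hj.1, by omega⟩) (fun j hj => hj.1) c1
    exact ⟨⟨c, Mcl_le_MR h c3⟩, c3, ph_eq hk h c2, al_S hi hli hy S c1⟩
  have hsig : ∀ u v : V k, H1 h σ (EE hk u) = EE hk v →
      ph hk h ⟨σ, hσ⟩ u = v := fun u v h2 => ph_of hk h2
  have t1 : ph hk h ⟨σ, hσ⟩ (e z) = e y := hsig _ _ (by rw [Ez, Ey, s1])
  have t2 : ph hk h ⟨σ, hσ⟩ (f z) = f y := hsig _ _ (by rw [Ezf, Eyf, s2])
  have t3 : ph hk h ⟨σ, hσ⟩ (e y) = e z := hsig _ _ (by rw [Ez, Ey, s3])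
  have t4 : ph hk h ⟨σ, hσ⟩ (f y) = f z := hsig _ _ (by rw [Ezf, Eyf, s4])
  have tinv : ∀ (A : Sp k) (u v : V k), A u = v → (A⁻¹) v = u := by
    rintro A u v rfl
    exact sp_inv_apply A u
  have Hb : ∀ A : Sp k, A (e y) = e y → A (f y) = f y → A (e z) = e z →
      ∃ c : H60G.MR h lo (n + 1), c.1 ∈ Mcl h lo ∧ ph hk h c = A ∧
        σ⁻¹ * c.1 * σ ∈ SS hy lo := by
    intro A a1 a2 a3
    obtain ⟨c, c1, c2, c3⟩ := Ha ((ph hk h ⟨σ, hσ⟩)⁻¹ * A * ph hk h ⟨σ, hσ⟩)
      (by rw [sp_mul, sp_mul, t3, a3]; exact tinv _ _ _ t3)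
      (by rw [sp_mul, sp_mul, t1, a1]; exact tinv _ _ _ t1)
      (by rw [sp_mul, sp_mul, t2, a2]; exact tinv _ _ _ t2)
    have h4 := SS_R hy (al2_RM hi hli hy S)
    have h5 : σ * c.1 * σ⁻¹ = (σ * σ) * (σ⁻¹ * c.1 * σ) * (σ * σ)⁻¹ := by group
    have h6 : σ * c.1 * σ⁻¹ ∈ SS hy lo := by
      rw [h5]
      exact mul_mem (mul_mem h4 c3) (inv_mem h4)
    obtain ⟨r, hrr, c', hc', h7⟩ := h6
    refine ⟨⟨c', Mcl_le_MR h hc'⟩, hc', ?_, ?_⟩
    · have h8 : (⟨c', Mcl_le_MR h hc'⟩ : H60G.MR h lo (n + 1)) =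
          (⟨r, hrr.2⟩)⁻¹ * (⟨σ, hσ⟩ * c * (⟨σ, hσ⟩)⁻¹) := by
        apply Subtype.ext
        change c' = r⁻¹ * (σ * c.1 * σ⁻¹)
        rw [h7, inv_mul_cancel_left]
      rw [h8, map_mul, map_inv, map_mul, map_mul, map_inv, c2,
        ph_of_one hk h (x := ⟨r, hrr.2⟩) hrr.1.2]
      group
    · have h8 : σ⁻¹ * c' * σ = (σ⁻¹ * r⁻¹ * σ) * c.1 := by
        have h9 : c' = r⁻¹ * (σ * c.1 * σ⁻¹) := by rw [h7, inv_mul_cancel_left]
        rw [h9]
        group
      change σ⁻¹ * c' * σ ∈ SS hy lo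
      rw [h8]
      exact mul_mem (SS_R hy (RM_conj' hy hσ (inv_mem hrr))) (SS_M hy c1)
  have hXM := Mcl_le_MR h hX
  have xe : H1 h (Xb h i)⁻¹ (e i.castSucc) = e i.castSucc + e (Fin.last n) := by
    have h2 := (XF_Xb h i).inv.em (e i)
    rw [emb_e, om_neg_right, om_e_f, ← map_inv] at h2
    rw [h2]
    module
  have Hc : ∃ c : H60G.MR h lo (n + 1), c.1 ∈ Mcl h lo ∧ ph hk h c = T (e y + e z) 1 ∧
        σ⁻¹ * c.1 * σ ∈ SS hy lo := by
    have hTi := MTi (h := h) hi hli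
    have hTiM := Mcl_le_MR h hTi
    have h2 : (Xb h i)⁻¹ * (TA h i.castSucc)⁻¹ * Xb h i ∈ Mcl h lo :=
      mul_mem (mul_mem (inv_mem hX) (inv_mem hTi)) hX
    refine ⟨⟨_, Mcl_le_MR h h2⟩, h2, ?_, al_Td hi hli hy S⟩
    have h3 : (⟨(Xb h i)⁻¹ * (TA h i.castSucc)⁻¹ * Xb h i, Mcl_le_MR h h2⟩ :
        H60G.MR h lo (n + 1)) = ⟨(Xb h i)⁻¹, inv_mem hXM⟩ * ⟨(TA h i.castSucc)⁻¹, inv_mem hTiM⟩ *
        (⟨(Xb h i)⁻¹, inv_mem hXM⟩)⁻¹ := by
      apply Subtype.ext
      change _ = (Xb h i)⁻¹ * (TA h i.castSucc)⁻¹ * (Xb h i)⁻¹⁻¹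
      rw [inv_inv]
    have h4 : ph hk h ⟨(TA h i.castSucc)⁻¹, inv_mem hTiM⟩ = T (e y) 1 := by
      apply ph_T
      rw [Ey, map_inv, H1_A h ((isA_iff h i.castSucc _).2 rfl)]
      have h5 := congrArg Subtype.val (T_inv (e i.castSucc : V (n + 1)) (-1))
      rw [neg_neg] at h5
      exact h5
    have h5 : ph hk h ⟨(Xb h i)⁻¹, inv_mem hXM⟩ (e y) = e y + e z := by
      apply ph_of
      rw [map_add, Ey, Ez]
      exact xe
    rw [h3, map_mul, map_mul, map_inv, h4, T_conj, h5]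
  have huniq : ∀ c ∈ (Mcl h lo).subgroupOf (H60G.MR h lo (n + 1)), ph hk h c (e y) = e y →
      σ⁻¹ * c.1 * σ ∈ SS hy lo := by
    intro c hc h2
    have h3 : ph hk h c (e z) = e z := by
      apply ph_of
      rw [Ez]
      exact Mcs_fix h (Mcl_le_Mcs h hc)
    obtain ⟨d, d1, d2, d3⟩ := stab_two hyz H Ha Hb Hc h2 h3
    have h4 := hctor (c * d⁻¹) (mul_mem hc (inv_mem d1)) (by
      rw [map_mul, map_inv, d2, mul_inv_cancel])
    have h5 : σ⁻¹ * c.1 * σ = (σ⁻¹ * (c * d⁻¹).1 * σ) * (σ⁻¹ * d.1 * σ) := by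
      change _ = (σ⁻¹ * (c.1 * (d.1)⁻¹) * σ) * (σ⁻¹ * d.1 * σ)
      group
    rw [h5]
    exact mul_mem (SS_R hy (RM_conj' hy hσ h4)) d3
  have D : Dat3 (ph hk h) ((Mcl h lo).subgroupOf (H60G.MR h lo (n + 1)))
      ((RM h K lo).subgroupOf (H60G.MR h lo (n + 1))) ⟨σ, hσ⟩ ⟨rt h (Fin.last n), hr⟩
      ⟨(Xb h i)⁻¹, inv_mem hXM⟩ ⟨TA h (Fin.last n), Mcl_le_MR h hTl⟩ ⟨TB h (Fin.last n), hTB⟩
      y z := by
    refine
      { yz := hyz
        normal := ⟨fun x hx ψ => RM_conj hy ψ.2 hx⟩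
        triv := fun r hr => ph_of_one hk h hr.1.2
        cfix := fun c hc => ?_
        csec := hcsec
        ctor := fun m hm h2 => hctor m hm h2
        alez := t1
        aley := t3
        alfz := t2
        beez := ?_
        befz := ?_
        beey := ?_
        al2 := al2_RM hi hli hy S
        io2 := io2_RM hi hli hy
        ioS := fun c hc => tr _ (io_S hi hli hy S hc)
        ioS' := fun c hc => tr _ ?_
        alio := ?_
        alio' := ?_
        uniqA := fun c hc h2 => tr _ (huniq c hc h2)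
        uniqB := fun c hc h2 => tr _ ?_
        slM := inv_mem hX
        sley := ?_
        slide := tr _ (slide_S hi hli hy S)
        taM := hTl
        tafz := ?_
        br1 := ?_
        br2 := ?_
        third := ?_ }
    · apply ph_of
      rw [Ez]
      exact Mcs_fix h (Mcl_le_Mcs h hc)
    · apply ph_of
      rw [Ez, Ezf]
      exact H1_rt_e h _
    · apply ph_of
      rw [Ezf, map_neg, Ez]
      exact H1_rt_f h _
    · apply ph_of
      rw [Ey]
      exact H1_rt_e_ne h _ hne.symm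
    · change (rt h (Fin.last n) * rt h (Fin.last n))⁻¹ * c.1 *
        (rt h (Fin.last n) * rt h (Fin.last n)) ∈ SS hy lo
      have h2 := io_S hi hli hy S hc
      have h3 := SS_R hy (io2_RM (K := K) (h := h) hi hli hy)
      have h4 : (rt h (Fin.last n) * rt h (Fin.last n))⁻¹ * c.1 *
          (rt h (Fin.last n) * rt h (Fin.last n)) =
          ((rt h (Fin.last n) * rt h (Fin.last n)) * (rt h (Fin.last n) * rt h (Fin.last n)))⁻¹ *
          ((rt h (Fin.last n) * rt h (Fin.last n)) * c.1 *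
          (rt h (Fin.last n) * rt h (Fin.last n))⁻¹) *
          ((rt h (Fin.last n) * rt h (Fin.last n)) *
          (rt h (Fin.last n) * rt h (Fin.last n))) := by
        simp only [mul_inv_rev, mul_assoc, inv_mul_cancel_left]
      rw [h4]
      exact mul_mem (mul_mem (inv_mem h3) h2) h3
    · change σ * rt h (Fin.last n) * σ⁻¹ ∈ Mcl h lo
      rw [al_rt hi S]
      exact Mrti hi hli
    · change σ⁻¹ * rt h (Fin.last n) * σ ∈ Mcl h lo
      rw [al_rt' hi S]
      exact Mrti hi hli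
    · change (rt h (Fin.last n))⁻¹ * c.1 * rt h (Fin.last n) ∈ SS hy lo
      have h3 : ph hk h c (e z) = e z := by
        apply ph_of
        rw [Ez]
        exact Mcs_fix h (Mcl_le_Mcs h hc)
      obtain ⟨d, d1, d2⟩ := exists_lift_MR (lo := lo) (hi := n) (A := exS hk (ph hk h c)) h
        (fun j hj => by
          rcases Nat.lt_or_ge (j : ℕ) lo with h4 | h4
          · exact ⟨exS_e hk _ h4, exS_f hk _ h4⟩
          · have h5 : j = Fin.last n := by
              apply Fin.ext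
              rw [Fin.val_last]
              have := j.2
              omega
            rw [h5, ← Ez, ← Ezf, exS_EE, exS_EE, h2, h3]
            exact ⟨rfl, rfl⟩)
      have d3 : d ∈ Mcl h lo := MR_le_Mcl h d1
      have h4 := hctor (c * (⟨d, Mcl_le_MR h d3⟩)⁻¹) (mul_mem hc (inv_mem d3)) (by
        rw [map_mul, map_inv, ph_eq hk h (x := ⟨d, Mcl_le_MR h d3⟩) d2, mul_inv_cancel])
      have h5 : (rt h (Fin.last n))⁻¹ * d * rt h (Fin.last n) = d := by
        have hr0 : rt h (Fin.last n) ∈ H60G.MR h n (n + 1) :=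
          rt_mem h _ (by rw [Fin.val_last]) (by rw [Fin.val_last]; omega)
        have h6 : rt h (Fin.last n) * d = d * rt h (Fin.last n) :=
          MulEquiv.ext fun z => H95G.MR_comm h (by omega) hr0
            (MR_mono h (Nat.zero_le _) le_rfl d1) z
        rw [mul_assoc, ← h6, inv_mul_cancel_left]
      have h6 : (rt h (Fin.last n))⁻¹ * c.1 * rt h (Fin.last n) =
          ((rt h (Fin.last n))⁻¹ * (c.1 * d⁻¹) * rt h (Fin.last n)) *
          ((rt h (Fin.last n))⁻¹ * d * rt h (Fin.last n)) := by group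
      rw [h6, h5]
      exact mul_mem (SS_R hy (RM_conj' hy hr h4)) (SS_M hy d3)
    · apply ph_of
      rw [map_add, Ey, Ez]
      exact xe
    · apply ph_of
      rw [map_add, Ezf, Ez]
      have h2 := (H1_TT h 1).2.2
      rw [zpow_one, one_smul] at h2
      exact h2
    · exact Subtype.ext rfl
    · exact Subtype.ext (rt_eq h (Fin.last n))
    · rcases Nat.lt_or_ge 2 k with h2 | h2
      · right
        let j : Fin n := ⟨n - 2, by omega⟩
        have hj : (j : ℕ) + 2 = n := by simp only [j]; omega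
        obtain ⟨τ, S'⟩ := exists_Sv h hi hj
        have h3 : τ ∈ Mcl h lo := MR_le_Mcl h (MR_mono h (by omega) le_rfl S'.mem)
        obtain ⟨x, hx⟩ : ∃ x : Fin k, (x : ℕ) + 3 = k := ⟨⟨k - 3, by omega⟩, by simp only; omega⟩
        have ux : up hk x = j.castSucc := Fin.ext (by rw [up_val, Fin.val_castSucc]; omega)
        refine ⟨x, ⟨τ, Mcl_le_MR h h3⟩, ?_, ?_, h3, ?_, ?_⟩
        · intro h0
          rw [h0] at hx
          omega
        · intro h0
          rw [h0] at hx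
          omega
        · apply ph_of
          rw [Ey, EE_e, ux]
          change H1 h τ _ = _
          rw [H1_e, S'.c, cls_a]
        · exact Subtype.ext (id_eight h hi hj S S')
      · left
        omega
  have hgen : Subgroup.closure (((Mcl h lo).subgroupOf (H60G.MR h lo (n + 1)) :
      Set (H60G.MR h lo (n + 1))) ∪ {⟨TB h (Fin.last n), hTB⟩}) = ⊤ := by
    have hle : H60G.MR h lo (n + 1) ≤ (Subgroup.closure (((Mcl h lo).subgroupOf
        (H60G.MR h lo (n + 1)) : Set (H60G.MR h lo (n + 1))) ∪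
        {⟨TB h (Fin.last n), hTB⟩})).map (H60G.MR h lo (n + 1)).subtype := by
      have key : ∀ x ∈ Mcl h lo, x ∈ (Subgroup.closure (((Mcl h lo).subgroupOf
        (H60G.MR h lo (n + 1)) : Set (H60G.MR h lo (n + 1))) ∪
        {⟨TB h (Fin.last n), hTB⟩})).map (H60G.MR h lo (n + 1)).subtype := fun x hx =>
        ⟨⟨x, Mcl_le_MR h hx⟩, Subgroup.subset_closure (Or.inl hx), rfl⟩
      apply MR_le h
      · intro j h2 _
        exact key _ (Mcl_A h h2)
      · intro j h2 _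
        rcases Fin.eq_castSucc_or_eq_last j with ⟨j, rfl⟩ | rfl
        · exact key _ (Mcl_B h h2)
        · exact ⟨⟨_, hTB⟩, Subgroup.subset_closure (Or.inr rfl), rfl⟩
      · intro j j' hj h2 _
        exact key _ (Mcl_C h hj h2)
    rw [eq_top_iff]
    rintro ⟨x, hx⟩ -
    obtain ⟨y, hy, hyx⟩ := hle hx
    have h1 : y = ⟨x, hx⟩ := Subtype.ext hyx
    rwa [h1] at hy
  have h2 := D.ker_le hk2 hgen ⟨φ, hφ⟩ (ph_of_one hk h h1)
  exact h2.1.1

end Pool.Agent.H.MP_59b15d_al.PK
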