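import Pool.Agent.H.MP_59b15d_al.pk.S3

/-!
# The cone argument: coverings of the complex of isotropic edges

`g ≥ 5`. A graph `E` over the primitive vectors of `Z^{2g}` in which the edges of type A have unique
lifts and the isotropic triangles lift is injective over the vertices on every connected component.
-/

set_option autoImplicit false

namespace Pool.Agent.H.MP_59b15d_al.PC

open SP Relation

variable {g : ℕ}

/-- Coverings of the complex with edges of type A and isotropic triangles. -/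
structure CovA {X : Type*} (π : X → V g) (E : X → X → Prop) : Prop where
  /-- `E` is symmetric -/
  symm : ∀ x y, E x y → E y x
  /-- `E` lies over the edges -/
  adj : ∀ x y, E x y → AdjA (π x) (π y)
  /-- edges can be lifted -/
  lift : ∀ x w, AdjA (π x) w → ∃ y, π y = w ∧ E x y
  /-- the lift is unique -/
  uniq : ∀ x y y', E x y → E x y' → π y = π y' → y = y'
  /-- triangles can be lifted -/
  cell : ∀ x y z, Iso3 (π x) (π y) (π z) → E x y → E x z → E y z

/-- A vector `u` of a hyperbolic pair orthogonal to `v` is adjacent to `v`. -/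
theorem adjA_of_pair {v u u' : V g} (hv : Prim v) (h : om u u' = 1) (h1 : om v u = 0)
    (h2 : om v u' = 0) : AdjA v u := by
  obtain ⟨w, hw⟩ := hv
  have hu : om u v = 0 := by rw [om_swap, h1, neg_zero]
  refine ⟨h1, ⟨w - om u w • u', ?_, ?_⟩, u', h2, h⟩
  · rw [om_sub_right, om_smul_right, hw, h2]
    ring
  · rw [om_sub_right, om_smul_right, h]
    ring

/-- An edge of type A orthogonal to a hyperbolic pair gives an isotropic triangle. -/
theorem iso3_of_pair {v w u u' : V g} (hvw : AdjA v w) (h : om u u' = 1) (h1 : om v u = 0)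
    (h2 : om v u' = 0) (h3 : om w u = 0) (h4 : om w u' = 0) : Iso3 v w u := by
  obtain ⟨h0, ⟨a, a1, a2⟩, b, b1, b2⟩ := hvw
  refine ⟨h0, h1, h3, ⟨a - om u a • u', ?_, ?_, ?_⟩, ⟨b - om u b • u', ?_, ?_, ?_⟩, u', h2, h4, h⟩
  · rw [om_sub_right, om_smul_right, a1, h2]
    ring
  · rw [om_sub_right, om_smul_right, a2, h4]
    ring
  · rw [om_sub_right, om_smul_right, h]
    ring
  · rw [om_sub_right, om_smul_right, b1, h2]
    ring
  · rw [om_sub_right, om_smul_right, b2, h4]
    ring
  · rw [om_sub_right, om_smul_right, h]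
    ring

variable {X : Type*} {π : X → V g} {E : X → X → Prop}

/-- The third vertex of a lifted triangle. -/
theorem CovA.third (C : CovA π E) {x y : X} {w : V g} (h : Iso3 (π x) (π y) w) (hE : E x y) :
    ∃ z, π z = w ∧ E x z ∧ E y z := by
  obtain ⟨z, hz, hxz⟩ := C.lift x w h.swap.adjA
  refine ⟨z, hz, hxz, ?_⟩
  rw [← hz] at h
  exact C.cell x y z h hE hxz

/-- `z` is the transport of `x`: there are a vector `u` of a hyperbolic pair orthogonal to `π x, π z`
and a path `x, y, z` with `y` over `u`. -/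
def Tr (π : X → V g) (E : X → X → Prop) (x z : X) : Prop :=
  ∃ (y : X) (u' : V g), om (π y) u' = 1 ∧ om (π x) (π y) = 0 ∧ om (π x) u' = 0 ∧
    om (π z) (π y) = 0 ∧ om (π z) u' = 0 ∧ E x y ∧ E y z

/-- The transport does not depend on the choices. -/
theorem Tr.unique (hg : 5 ≤ g) (C : CovA π E) {x z z' : X} (h : Tr π E x z) (h' : Tr π E x z')
    (hz : π z = π z') : z = z' := by
  obtain ⟨y, u', h1, h2, h3, h4, h5, h6, h7⟩ := h
  obtain ⟨y1, u1', k1, k2, k3, k4, k5, k6, k7⟩ := h'
  obtain ⟨s, s', hs, hL⟩ := exists_pair_orth [π x, π z, π y, π y1] (by simp; omega)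
  have l1 := hL (π x) (by simp)
  have l2 := hL (π z) (by simp)
  have l3 := hL (π y) (by simp)
  have l4 := hL (π y1) (by simp)
  have hz1 : Prim (π z) := (C.adj y z h7).2.right
  -- the two triangles at `x`
  have i1 : Iso3 (π x) (π y) s := iso3_of_pair (C.adj x y h6) hs l1.1 l1.2 l3.1 l3.2
  have i2 : Iso3 (π x) (π y1) s := iso3_of_pair (C.adj x y1 k6) hs l1.1 l1.2 l4.1 l4.2
  obtain ⟨t, ht, hxt, hyt⟩ := C.third i1 h6
  have hy1t : E y1 t := by
    obtain ⟨t', ht', hxt', hyt'⟩ := C.third i2 k6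
    have : t' = t := C.uniq x t' t hxt' hxt (by rw [ht, ht'])
    rw [← this]
    exact hyt'
  -- the two triangles over `π z`
  have i3 : Iso3 (π y) (π z) s := iso3_of_pair (C.adj y z h7) hs l3.1 l3.2 l2.1 l2.2
  have i4 : Iso3 (π y1) (π z') s := by
    rw [← hz]
    have := C.adj y1 z' k7
    rw [← hz] at this
    exact iso3_of_pair this hs l4.1 l4.2 l2.1 l2.2
  have e1 : E t z := by
    rw [← ht] at i3
    exact C.symm _ _ (C.cell y z t i3 h7 hyt)
  have e2 : E t z' := by
    rw [← ht] at i4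
    exact C.symm _ _ (C.cell y1 z' t i4 k7 hy1t)
  exact C.uniq t z z' e1 e2 hz

/-- Transport exists for all end points. -/
theorem Tr.exists (hg : 5 ≤ g) (C : CovA π E) (x : X) (hx : Prim (π x)) {w : V g} (hw : Prim w) :
    ∃ z, π z = w ∧ Tr π E x z := by
  obtain ⟨s, s', hs, hL⟩ := exists_pair_orth [π x, w] (by simp; omega)
  have l1 := hL (π x) (by simp)
  have l2 := hL w (by simp)
  obtain ⟨y, hy, hxy⟩ := C.lift x s (adjA_of_pair hx hs l1.1 l1.2)
  have h1 : AdjA (π y) w := by
    rw [hy]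
    exact (adjA_of_pair hw hs l2.1 l2.2).symm
  obtain ⟨z, hz, hyz⟩ := C.lift y w h1
  refine ⟨z, hz, y, s', by rw [hy, hs], by rw [hy, l1.1], l1.2, by rw [hz, hy, l2.1],
    by rw [hz, l2.2], hxy, hyz⟩

/-- Transport is compatible with edges. -/
theorem Tr.edge (hg : 5 ≤ g) (C : CovA π E) {x z t : X} (hx : Prim (π x)) (h : Tr π E x z)
    (hE : E z t) : Tr π E x t := by
  obtain ⟨s, s', hs, hL⟩ := exists_pair_orth [π x, π z, π t] (by simp; omega)
  have l1 := hL (π x) (by simp)
  have l2 := hL (π z) (by simp)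
  have l3 := hL (π t) (by simp)
  have hz : Prim (π z) := (C.adj z t hE).2.left
  obtain ⟨y, hy, hxy⟩ := C.lift x s (adjA_of_pair hx hs l1.1 l1.2)
  have h1 : AdjA (π y) (π z) := by
    rw [hy]
    exact (adjA_of_pair hz hs l2.1 l2.2).symm
  obtain ⟨z1, hz1, hyz1⟩ := C.lift y (π z) h1
  have h2 : Tr π E x z1 := ⟨y, s', by rw [hy, hs], by rw [hy, l1.1], l1.2, by rw [hz1, hy, l2.1],
    by rw [hz1, l2.2], hxy, hyz1⟩
  have h3 : z1 = z := Tr.unique hg C h2 h hz1
  rw [h3] at hyz1
  -- the triangle `z, t, y`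
  have h4 : Iso3 (π z) (π t) s := iso3_of_pair (C.adj z t hE) hs l2.1 l2.2 l3.1 l3.2
  rw [← hy] at h4
  have h5 : E t y := C.cell z t y h4 hE (C.symm _ _ hyz1)
  exact ⟨y, s', by rw [hy, hs], by rw [hy, l1.1], l1.2, by rw [hy, l3.1], l3.2, hxy,
    C.symm _ _ h5⟩

/-- The projection is injective on the connected components. -/
theorem CovA.inj (hg : 5 ≤ g) (C : CovA π E) {x y : X} (h : ReflTransGen E x y)
    (hxy : π x = π y) : x = y := by
  rcases h.cases_head with h0 | ⟨x1, hx1, -⟩
  · exact h0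
  · have hx : Prim (π x) := (C.adj x x1 hx1).2.left
    have h1 : Tr π E x x := by
      obtain ⟨s, s', hs, hL⟩ := exists_pair_orth [π x] (by simp; omega)
      have l1 := hL (π x) (by simp)
      obtain ⟨y, hy, hxy⟩ := C.lift x s (adjA_of_pair hx hs l1.1 l1.2)
      exact ⟨y, s', by rw [hy, hs], by rw [hy, l1.1], l1.2, by rw [hy, l1.1], l1.2, hxy,
        C.symm _ _ hxy⟩
    have h2 : ∀ z, ReflTransGen E x z → Tr π E x z := by
      intro z hz
      induction hz with
      | refl => exact h1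
      | tail _ hbc ih => exact ih.edge hg C hx hbc
    exact Tr.unique hg C h1 (h2 y h) hxy

end Pool.Agent.H.MP_59b15d_al.PC
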