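import Pool.Agent.H.MP_59b15d_al.pc.Main

/-!
# Coset coverings of the complex of primitive vectors, edges of both types

`M` is a group acting on `V g` through `φ : M → Sp g`. The subgroup `Mc` fixes the vector `v1`, the
normal subgroup `R` acts trivially. The edges of `M ⧸ (R Mc)` are the translates of the pairs
`(1, al)`, `(1, be)`, `(1, be⁻¹)`. Under the hypotheses of the structure `Dat2` this is a covering
of the complex of primitive vectors with the edges of both types, hence `R` is the kernel of `φ`.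
-/

set_option autoImplicit false

namespace Pool.Agent.H.MP_59b15d_al.PK

open SP PC

variable {g : ℕ} {M : Type*} [Group M]

lemma AdjA_map' (A : Sp g) {v w : V g} (h : AdjA v w) : AdjA (A v) (A w) := by
  obtain ⟨h0, ⟨a, a1, a2⟩, b, b1, b2⟩ := h
  exact ⟨by rw [sp_om, h0], ⟨A a, by rw [sp_om, a1], by rw [sp_om, a2]⟩, A b, by rw [sp_om, b1],
    by rw [sp_om, b2]⟩

lemma AdjB_map (A : Sp g) {v w : V g} (h : AdjB v w) : AdjB (A v) (A w) := by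
  unfold AdjB at h ⊢
  rwa [sp_om]

lemma Adj_map (A : Sp g) {v w : V g} (h : Adj v w) : Adj (A v) (A w) :=
  h.imp (AdjA_map' A) (AdjB_map A)

lemma Prim_map (A : Sp g) {v : V g} (h : Prim v) : Prim (A v) := by
  obtain ⟨w, hw⟩ := h
  exact ⟨A w, by rw [sp_om, hw]⟩

lemma Orth_map (A : Sp g) {x y z : V g} (h : Orth x y z) : Orth (A x) (A y) (A z) := by
  obtain ⟨h1, h2, h3, h4⟩ := h
  exact ⟨Prim_map A h1, by rw [sp_om, h2], by rw [sp_om, h3], AdjB_map A h4⟩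

lemma Iso3_map (A : Sp g) {x y z : V g} (h : Iso3 x y z) : Iso3 (A x) (A y) (A z) := by
  obtain ⟨h1, h2, h3, ⟨a, a1, a2, a3⟩, ⟨b, b1, b2, b3⟩, ⟨c, c1, c2, c3⟩⟩ := h
  exact ⟨by rw [sp_om, h1], by rw [sp_om, h2], by rw [sp_om, h3],
    ⟨A a, by rw [sp_om, a1], by rw [sp_om, a2], by rw [sp_om, a3]⟩,
    ⟨A b, by rw [sp_om, b1], by rw [sp_om, b2], by rw [sp_om, b3]⟩,
    A c, by rw [sp_om, c1], by rw [sp_om, c2], by rw [sp_om, c3]⟩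

lemma Sgn_map (A : Sp g) {x y z : V g} (h : Sgn x y z) : Sgn (A x) (A y) (A z) := by
  obtain ⟨s, t, hs, ht, e⟩ := h
  exact ⟨s, t, hs, ht, by rw [e, sp_add, sp_smul, sp_smul]⟩

lemma Cell_map (A : Sp g) {x y z : V g} (h : Cell x y z) : Cell (A x) (A y) (A z) := by
  rcases h with ⟨h1, h2⟩ | h | h | h | h
  · exact Or.inl ⟨Adj_map A h1, Sgn_map A h2⟩
  · exact Or.inr (Or.inl (Orth_map A h))
  · exact Or.inr (Or.inr (Or.inl (Orth_map A h)))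
  · exact Or.inr (Or.inr (Or.inr (Or.inl (Orth_map A h))))
  · exact Or.inr (Or.inr (Or.inr (Or.inr (Iso3_map A h))))

/-- The edges: translates of the three standard edges. -/
def Ed2 (S : Subgroup M) (al be : M) (x y : M ⧸ S) : Prop :=
  ∃ m : M, x = (m : M ⧸ S) ∧ (y = ((m * al : M) : M ⧸ S) ∨ y = ((m * be : M) : M ⧸ S) ∨
    y = ((m * be⁻¹ : M) : M ⧸ S))

lemma Ed2.smul {S : Subgroup M} {al be : M} {x y : M ⧸ S} (k : M) (h : Ed2 S al be x y) :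
    Ed2 S al be (k • x) (k • y) := by
  obtain ⟨m, rfl, h⟩ := h
  refine ⟨k * m, rfl, ?_⟩
  rcases h with rfl | rfl | rfl
  · left; rw [mul_assoc]; rfl
  · right; left; rw [mul_assoc]; rfl
  · right; right; rw [mul_assoc]; rfl

/-- The standard edge to the coset of `z`. -/
lemma Ed2.mk {S : Subgroup M} {al be : M} {z : M}
    (h : z = al ∨ z = be ∨ z = be⁻¹) (m : M) :
    Ed2 S al be (m : M ⧸ S) ((m * z : M) : M ⧸ S) := by
  refine ⟨m, rfl, ?_⟩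
  rcases h with rfl | rfl | rfl
  · exact Or.inl rfl
  · exact Or.inr (Or.inl rfl)
  · exact Or.inr (Or.inr rfl)

/-- The action of `M` on the vectors on the cosets. -/
def pi2 (φ : M →* Sp g) (v1 : V g) (S : Subgroup M) (hS : ∀ s ∈ S, φ s v1 = v1) : M ⧸ S → V g :=
  Quotient.lift (fun m : M => φ m v1) (by
    intro m m' h
    have h1 : m⁻¹ * m' ∈ S := QuotientGroup.leftRel_apply.mp h
    have h2 := hS _ h1
    rw [map_mul, map_inv, sp_mul] at h2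
    have h3 : φ m ((φ m)⁻¹ (φ m' v1)) = φ m v1 := congrArg (φ m) h2
    rw [sp_apply_inv] at h3
    exact h3.symm)

/-- The hypotheses on the groups. -/
structure Dat2 (φ : M →* Sp g) (Mc R : Subgroup M) (al be : M) (v1 v2 w1 w1' : V g) : Prop where
  normal : R.Normal
  triv : ∀ r ∈ R, φ r = 1
  cfix : ∀ c ∈ Mc, φ c v1 = v1
  csec : ∀ A : Sp g, A v1 = v1 → ∃ c ∈ Mc, φ c = A
  ctor : ∀ m ∈ Mc, φ m = 1 → m ∈ R
  al1 : φ al v1 = v2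
  be1 : φ be v1 = w1
  be1' : φ be⁻¹ v1 = w1'
  adjA : AdjA v1 v2
  adjB : AdjB v1 w1
  opp : om v1 w1' = -om v1 w1
  symA : Ed2 (R ⊔ Mc) al be ((al : M) : M ⧸ (R ⊔ Mc)) ((1 : M) : M ⧸ (R ⊔ Mc))
  uniqA : ∀ s ∈ R ⊔ Mc, φ s v2 = v2 → al⁻¹ * s * al ∈ R ⊔ Mc
  uniqB : ∀ s ∈ R ⊔ Mc, φ s w1 = w1 → be⁻¹ * s * be ∈ R ⊔ Mc
  uniqB' : ∀ s ∈ R ⊔ Mc, φ s w1' = w1' → be * s * be⁻¹ ∈ R ⊔ Mc
  transA : ∀ w, AdjA v1 w → ∃ A : Sp g, A v1 = v1 ∧ A v2 = w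
  transB : ∀ w, om v1 w = om v1 w1 → ∃ A : Sp g, A v1 = v1 ∧ A w1 = w
  transB' : ∀ w, om v1 w = om v1 w1' → ∃ A : Sp g, A v1 = v1 ∧ A w1' = w
  cellA : ∀ w, Cell v1 v2 w → ∃ z : M, φ z v1 = w ∧
    Ed2 (R ⊔ Mc) al be ((1 : M) : M ⧸ (R ⊔ Mc)) (z : M ⧸ (R ⊔ Mc)) ∧
    Ed2 (R ⊔ Mc) al be ((al : M) : M ⧸ (R ⊔ Mc)) (z : M ⧸ (R ⊔ Mc))
  cellB : ∀ w, Cell v1 w1 w → ∃ z : M, φ z v1 = w ∧
    Ed2 (R ⊔ Mc) al be ((1 : M) : M ⧸ (R ⊔ Mc)) (z : M ⧸ (R ⊔ Mc)) ∧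
    Ed2 (R ⊔ Mc) al be ((be : M) : M ⧸ (R ⊔ Mc)) (z : M ⧸ (R ⊔ Mc))
  cellB' : ∀ w, Cell v1 w1' w → ∃ z : M, φ z v1 = w ∧
    Ed2 (R ⊔ Mc) al be ((1 : M) : M ⧸ (R ⊔ Mc)) (z : M ⧸ (R ⊔ Mc)) ∧
    Ed2 (R ⊔ Mc) al be ((be⁻¹ : M) : M ⧸ (R ⊔ Mc)) (z : M ⧸ (R ⊔ Mc))

section

variable {φ : M →* Sp g} {Mc R : Subgroup M} {al be : M} {v1 v2 w1 w1' : V g}

namespace Dat2

variable (D : Dat2 φ Mc R al be v1 v2 w1 w1')

include D

lemma mem_S {s : M} : s ∈ R ⊔ Mc ↔ ∃ r ∈ R, ∃ c ∈ Mc, s = r * c := by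
  have := D.normal
  constructor
  · intro h
    have h1 : s ∈ (↑(R ⊔ Mc) : Set M) := h
    rw [Subgroup.normal_mul] at h1
    obtain ⟨r, hr, c, hc, rfl⟩ := Set.mem_mul.mp h1
    exact ⟨r, hr, c, hc, rfl⟩
  · rintro ⟨r, hr, c, hc, rfl⟩
    exact Subgroup.mul_mem_sup hr hc

lemma S_fix {s : M} (hs : s ∈ R ⊔ Mc) : φ s v1 = v1 := by
  obtain ⟨r, hr, c, hc, rfl⟩ := D.mem_S.mp hs
  rw [map_mul, D.triv r hr, one_mul, D.cfix c hc]

/-- The projection. -/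
def pi : M ⧸ (R ⊔ Mc) → V g := pi2 φ v1 (R ⊔ Mc) fun _ hs => D.S_fix hs

omit D in
lemma pi_mk (D : Dat2 φ Mc R al be v1 v2 w1 w1') (m : M) :
    D.pi (m : M ⧸ (R ⊔ Mc)) = φ m v1 := rfl

lemma pi_smul (k : M) (x : M ⧸ (R ⊔ Mc)) : D.pi (k • x) = φ k (D.pi x) := by
  refine QuotientGroup.induction_on x fun m => ?_
  change D.pi ((k * m : M) : M ⧸ (R ⊔ Mc)) = _
  rw [pi_mk, pi_mk, map_mul, sp_mul]

/-- Change of the representative. -/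
lemma repr (m : M) (A : Sp g) (h : A v1 = v1) :
    ∃ m'' : M, (m'' : M ⧸ (R ⊔ Mc)) = (m : M ⧸ (R ⊔ Mc)) ∧ φ m'' = φ m * A := by
  obtain ⟨c, hc, h1⟩ := D.csec A h
  refine ⟨m * c, ?_, by rw [map_mul, h1]⟩
  rw [eq_comm, QuotientGroup.eq, inv_mul_cancel_left]
  exact Subgroup.mem_sup_right hc

lemma symm {x y : M ⧸ (R ⊔ Mc)} (h : Ed2 (R ⊔ Mc) al be x y) : Ed2 (R ⊔ Mc) al be y x := by
  obtain ⟨m, rfl, h⟩ := h
  rcases h with rfl | rfl | rfl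
  · have h1 := D.symA.smul m
    have h2 : m • ((1 : M) : M ⧸ (R ⊔ Mc)) = (m : M ⧸ (R ⊔ Mc)) := by
      change ((m * 1 : M) : M ⧸ (R ⊔ Mc)) = _
      rw [mul_one]
    rw [h2] at h1
    exact h1
  · exact ⟨m * be, rfl, Or.inr (Or.inr (by rw [mul_inv_cancel_right]))⟩
  · exact ⟨m * be⁻¹, rfl, Or.inr (Or.inl (by rw [inv_mul_cancel_right]))⟩

lemma adjB' : AdjB v1 w1' := by
  have h := D.adjB
  unfold AdjB at h ⊢
  rw [D.opp]
  omega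

lemma om_ne : om v1 w1 ≠ 0 := by
  have h := D.adjB
  unfold AdjB at h
  omega

lemma adj {x y : M ⧸ (R ⊔ Mc)} (h : Ed2 (R ⊔ Mc) al be x y) : Adj (D.pi x) (D.pi y) := by
  obtain ⟨m, rfl, h⟩ := h
  rcases h with rfl | rfl | rfl
  · rw [pi_mk, pi_mk, map_mul, sp_mul, D.al1]
    exact Or.inl (AdjA_map' _ D.adjA)
  · rw [pi_mk, pi_mk, map_mul, sp_mul, D.be1]
    exact Or.inr (AdjB_map _ D.adjB)
  · rw [pi_mk, pi_mk, map_mul, sp_mul, D.be1']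
    exact Or.inr (AdjB_map _ D.adjB')

/-- The value of the form on an edge, and the neighbour. -/
lemma om_edge {m : M} {y : M ⧸ (R ⊔ Mc)} (h : y = ((m * al : M) : M ⧸ (R ⊔ Mc)) ∨
    y = ((m * be : M) : M ⧸ (R ⊔ Mc)) ∨ y = ((m * be⁻¹ : M) : M ⧸ (R ⊔ Mc))) :
    (om (D.pi (m : M ⧸ (R ⊔ Mc))) (D.pi y) = 0 ∧ y = ((m * al : M) : M ⧸ (R ⊔ Mc))) ∨
    (om (D.pi (m : M ⧸ (R ⊔ Mc))) (D.pi y) = om v1 w1 ∧ y = ((m * be : M) : M ⧸ (R ⊔ Mc))) ∨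
    (om (D.pi (m : M ⧸ (R ⊔ Mc))) (D.pi y) = -om v1 w1 ∧
      y = ((m * be⁻¹ : M) : M ⧸ (R ⊔ Mc))) := by
  rcases h with rfl | rfl | rfl
  · left
    refine ⟨?_, rfl⟩
    rw [pi_mk, pi_mk, map_mul, sp_mul, D.al1, sp_om, D.adjA.1]
  · right; left
    refine ⟨?_, rfl⟩
    rw [pi_mk, pi_mk, map_mul, sp_mul, D.be1, sp_om]
  · right; right
    refine ⟨?_, rfl⟩
    rw [pi_mk, pi_mk, map_mul, sp_mul, D.be1', sp_om, D.opp]

lemma uniq {x y y' : M ⧸ (R ⊔ Mc)} (h : Ed2 (R ⊔ Mc) al be x y) (h' : Ed2 (R ⊔ Mc) al be x y')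
    (e : D.pi y = D.pi y') : y = y' := by
  obtain ⟨m, h1, h2⟩ := h
  obtain ⟨m', h1', h2'⟩ := h'
  have ho := D.om_edge h2
  have ho' := D.om_edge h2'
  rw [← h1'] at ho'
  rw [← h1] at ho
  rw [← e] at ho'
  have hne := D.om_ne
  have hs : m⁻¹ * m' ∈ R ⊔ Mc := by
    rw [h1] at h1'
    exact QuotientGroup.eq.mp h1'
  rcases ho with ⟨a1, a2⟩ | ⟨a1, a2⟩ | ⟨a1, a2⟩ <;> rcases ho' with ⟨b1, b2⟩ | ⟨b1, b2⟩ | ⟨b1, b2⟩
  · rw [a2, b2, pi_mk, pi_mk, map_mul, map_mul, sp_mul, sp_mul, D.al1] at e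
    rw [a2, b2, QuotientGroup.eq]
    have h3 : (m * al)⁻¹ * (m' * al) = al⁻¹ * (m⁻¹ * m') * al := by group
    rw [h3]
    apply D.uniqA _ hs
    rw [map_mul, map_inv, sp_mul, ← e, sp_inv_apply]
  · omega
  · omega
  · omega
  · rw [a2, b2, pi_mk, pi_mk, map_mul, map_mul, sp_mul, sp_mul, D.be1] at e
    rw [a2, b2, QuotientGroup.eq]
    have h3 : (m * be)⁻¹ * (m' * be) = be⁻¹ * (m⁻¹ * m') * be := by group
    rw [h3]
    apply D.uniqB _ hs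
    rw [map_mul, map_inv, sp_mul, ← e, sp_inv_apply]
  · omega
  · omega
  · omega
  · rw [a2, b2, pi_mk, pi_mk, map_mul, map_mul, sp_mul, sp_mul, D.be1'] at e
    rw [a2, b2, QuotientGroup.eq]
    have h3 : (m * be⁻¹)⁻¹ * (m' * be⁻¹) = be * (m⁻¹ * m') * be⁻¹ := by group
    rw [h3]
    apply D.uniqB' _ hs
    rw [map_mul, map_inv, sp_mul, ← e, sp_inv_apply]

/-- Edges can be lifted. -/
lemma lift (x : M ⧸ (R ⊔ Mc)) (w : V g) (h : Adj (D.pi x) w) :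
    ∃ y, D.pi y = w ∧ Ed2 (R ⊔ Mc) al be x y := by
  revert h
  refine QuotientGroup.induction_on x fun m => ?_
  intro h
  rw [pi_mk] at h
  have h' := Adj_map (φ m)⁻¹ h
  rw [sp_inv_apply] at h'
  have key : ∀ z : M, (z = al ∨ z = be ∨ z = be⁻¹) → ∀ A : Sp g, A v1 = v1 →
      A (φ z v1) = (φ m)⁻¹ w → ∃ y, D.pi y = w ∧ Ed2 (R ⊔ Mc) al be (m : M ⧸ (R ⊔ Mc)) y := by
    intro z hz A h1 h2
    obtain ⟨m', h3, h4⟩ := D.repr m A h1
    refine ⟨((m' * z : M) : M ⧸ (R ⊔ Mc)), ?_, ?_⟩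
    · rw [pi_mk, map_mul, h4, sp_mul, sp_mul, h2, sp_apply_inv]
    · rw [← h3]
      exact Ed2.mk hz m'
  rcases h' with h' | h'
  · obtain ⟨A, h1, h2⟩ := D.transA _ h'
    exact key al (Or.inl rfl) A h1 (by rw [D.al1, h2])
  · have h3 : om v1 ((φ m)⁻¹ w) = om v1 w1 ∨ om v1 ((φ m)⁻¹ w) = om v1 w1' := by
      have h4 := D.adjB
      unfold AdjB at h' h4
      rw [D.opp]
      omega
    rcases h3 with h3 | h3
    · obtain ⟨A, h1, h2⟩ := D.transB _ h3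
      exact key be (Or.inr (Or.inl rfl)) A h1 (by rw [D.be1, h2])
    · obtain ⟨A, h1, h2⟩ := D.transB' _ h3
      exact key be⁻¹ (Or.inr (Or.inr rfl)) A h1 (by rw [D.be1', h2])

/-- The coset space is a covering of the complex of primitive vectors. -/
theorem cov : Cov D.pi (Ed2 (R ⊔ Mc) al be) where
  symm _ _ h := D.symm h
  adj _ _ h := D.adj h
  lift x w h := D.lift x w h
  uniq _ _ _ h h' e := D.uniq h h' e
  cell := by
    intro x y z hc hy hz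
    obtain ⟨m, rfl, h⟩ := hy
    have hone : m⁻¹ • (m : M ⧸ (R ⊔ Mc)) = ((1 : M) : M ⧸ (R ⊔ Mc)) := by
      change ((m⁻¹ * m : M) : M ⧸ (R ⊔ Mc)) = _
      rw [inv_mul_cancel]
    have hz' := hz.smul m⁻¹
    rw [hone] at hz'
    have hc' := Cell_map (φ m)⁻¹ hc
    rw [pi_mk, sp_inv_apply, ← map_inv, ← D.pi_smul, ← D.pi_smul] at hc'
    have back : ∀ u : M ⧸ (R ⊔ Mc), m • (m⁻¹ • u) = u := fun u => smul_inv_smul m u
    have key : ∀ (t w : M), y = ((m * t : M) : M ⧸ (R ⊔ Mc)) →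
        φ w v1 = D.pi (m⁻¹ • z) →
        Ed2 (R ⊔ Mc) al be ((1 : M) : M ⧸ (R ⊔ Mc)) (w : M ⧸ (R ⊔ Mc)) →
        Ed2 (R ⊔ Mc) al be (t : M ⧸ (R ⊔ Mc)) (w : M ⧸ (R ⊔ Mc)) →
        Ed2 (R ⊔ Mc) al be y z := by
      intro t w h1 h2 h3 h4
      have h5 : (w : M ⧸ (R ⊔ Mc)) = m⁻¹ • z := D.uniq h3 hz' (by rw [pi_mk, h2])
      rw [h5] at h4
      have h6 := h4.smul m
      rw [back] at h6
      rw [h1]
      exact h6
    have hy' : ∀ t : M, y = ((m * t : M) : M ⧸ (R ⊔ Mc)) → D.pi (m⁻¹ • y) = φ t v1 := by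
      intro t h1
      rw [h1]
      change D.pi ((m⁻¹ * (m * t) : M) : M ⧸ (R ⊔ Mc)) = _
      rw [pi_mk, inv_mul_cancel_left]
    rcases h with h | h | h
    · rw [hy' _ h, D.al1] at hc'
      obtain ⟨w, h1, h2, h3⟩ := D.cellA _ hc'
      exact key al w h h1 h2 h3
    · rw [hy' _ h, D.be1] at hc'
      obtain ⟨w, h1, h2, h3⟩ := D.cellB _ hc'
      exact key be w h h1 h2 h3
    · rw [hy' _ h, D.be1'] at hc'
      obtain ⟨w, h1, h2, h3⟩ := D.cellB' _ hc'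
      exact key be⁻¹ w h h1 h2 h3

/-- All points are connected with the base point. -/
theorem conn (T : Set M) (hT : Subgroup.closure ((Mc : Set M) ∪ T) = ⊤)
    (hE : ∀ t ∈ T, Ed2 (R ⊔ Mc) al be ((1 : M) : M ⧸ (R ⊔ Mc)) (t : M ⧸ (R ⊔ Mc))) (m : M) :
    Relation.ReflTransGen (Ed2 (R ⊔ Mc) al be) ((1 : M) : M ⧸ (R ⊔ Mc)) (m : M ⧸ (R ⊔ Mc)) := by
  have hsm : ∀ (k : M) {x y : M ⧸ (R ⊔ Mc)}, Relation.ReflTransGen (Ed2 (R ⊔ Mc) al be) x y →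
      Relation.ReflTransGen (Ed2 (R ⊔ Mc) al be) (k • x) (k • y) := by
    intro k x y h
    induction h with
    | refl => exact Relation.ReflTransGen.refl
    | tail _ h1 ih => exact ih.tail (h1.smul k)
  have hsymm : ∀ {x y : M ⧸ (R ⊔ Mc)}, Relation.ReflTransGen (Ed2 (R ⊔ Mc) al be) x y →
      Relation.ReflTransGen (Ed2 (R ⊔ Mc) al be) y x := by
    intro x y h
    induction h with
    | refl => exact Relation.ReflTransGen.refl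
    | tail _ h1 ih => exact Relation.ReflTransGen.head (D.symm h1) ih
  let K : Subgroup M :=
    { carrier := {m | Relation.ReflTransGen (Ed2 (R ⊔ Mc) al be) ((1 : M) : M ⧸ (R ⊔ Mc))
        (m : M ⧸ (R ⊔ Mc))}
      one_mem' := Relation.ReflTransGen.refl
      mul_mem' := by
        intro x y hx hy
        have h1 := hsm x hy
        have h2 : x • ((1 : M) : M ⧸ (R ⊔ Mc)) = (x : M ⧸ (R ⊔ Mc)) := by
          change ((x * 1 : M) : M ⧸ (R ⊔ Mc)) = _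
          rw [mul_one]
        rw [h2] at h1
        exact Relation.ReflTransGen.trans hx h1
      inv_mem' := by
        intro x hx
        have h1 := hsm x⁻¹ (hsymm hx)
        have h2 : x⁻¹ • ((1 : M) : M ⧸ (R ⊔ Mc)) = ((x⁻¹ : M) : M ⧸ (R ⊔ Mc)) := by
          change ((x⁻¹ * 1 : M) : M ⧸ (R ⊔ Mc)) = _
          rw [mul_one]
        have h3 : x⁻¹ • (x : M ⧸ (R ⊔ Mc)) = ((1 : M) : M ⧸ (R ⊔ Mc)) := by
          change ((x⁻¹ * x : M) : M ⧸ (R ⊔ Mc)) = _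
          rw [inv_mul_cancel]
        rwa [h2, h3] at h1 }
  have hK : K = ⊤ := by
    rw [eq_top_iff, ← hT, Subgroup.closure_le]
    rintro c (hc | hc)
    · change Relation.ReflTransGen _ _ _
      have h1 : ((1 : M) : M ⧸ (R ⊔ Mc)) = (c : M ⧸ (R ⊔ Mc)) := by
        rw [QuotientGroup.eq, inv_one, one_mul]
        exact Subgroup.mem_sup_right hc
      rw [← h1]
    · exact Relation.ReflTransGen.single (hE c hc)
  have h1 : m ∈ K := by rw [hK]; trivial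
  exact h1

/-- The kernel of `φ` is contained in `R`. -/
theorem ker_le (hg : 2 ≤ g) (T : Set M) (hT : Subgroup.closure ((Mc : Set M) ∪ T) = ⊤)
    (hE : ∀ t ∈ T, Ed2 (R ⊔ Mc) al be ((1 : M) : M ⧸ (R ⊔ Mc)) (t : M ⧸ (R ⊔ Mc)))
    (m : M) (hm : φ m = 1) : m ∈ R := by
  have h1 := Cov.inj hg D.cov (D.conn T hT hE m) (by rw [pi_mk, pi_mk, hm, map_one])
  rw [QuotientGroup.eq, inv_one, one_mul] at h1
  obtain ⟨r, hr, c, hc, rfl⟩ := D.mem_S.mp h1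
  rw [map_mul, D.triv r hr, one_mul] at hm
  exact R.mul_mem hr (D.ctor c hc hm)

end Dat2

end

end Pool.Agent.H.MP_59b15d_al.PK
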